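import Mathlib.Algebra.DualNumber
import Mathlib.FieldTheory.IsAlgClosed.AlgebraicClosure
import Mathlib.RingTheory.Valuation.Basic
import Mathlib.Algebra.MvPolynomial.PDeriv
import Mathlib.Data.Complex.Basic
import Mathlib.RingTheory.SimpleRing.Principal
import Mathlib.RingTheory.MvPolynomial.IrreducibleQuadratic
import Mathlib.Tactic.Polynomial.Basic

-- ======== part 0: formerly Pool.Agent.MP_0f1eb7_ag.cyl.Der
section MrgPart0

/-! Extension of derivations to fraction fields (dual number trick). -/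

set_option autoImplicit false

namespace Pool.Agent.MP_0f1eb7_ag.Cyl

open TrivSqZeroExt

/-- A derivation of `Q` with values in a fraction field extends to the fraction field. -/
theorem exists_der_frac {Q Ω : Type} [CommRing Q] [Algebra ℂ Q] [Field Ω] [Algebra ℂ Ω]
    [Algebra Q Ω] [IsScalarTower ℂ Q Ω] [IsFractionRing Q Ω] (d : Derivation ℂ Q Ω) :
    ∃ D : Derivation ℂ Ω Ω, ∀ q : Q, D (algebraMap Q Ω q) = d q := by
  let Φ : Q →+* DualNumber Ω :=
    { toFun := fun q => (inl (algebraMap Q Ω q) + inr (d q) : DualNumber Ω)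
      map_one' := by ext <;> simp
      map_zero' := by ext <;> simp
      map_add' := fun a b => by ext <;> simp
      map_mul' := fun a b => by
        ext
        · simp
        · simp only [map_mul, Derivation.leibniz, snd_add, snd_inl, snd_inr, zero_add, snd_mul,
            fst_add, fst_inl, fst_inr, add_zero, smul_eq_mul, MulOpposite.smul_eq_mul_unop,
            MulOpposite.unop_op]
          simp only [Algebra.smul_def]
          ring }
  have hu : ∀ y : nonZeroDivisors Q, IsUnit (Φ y) := by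
    intro y
    rw [isUnit_iff_isUnit_fst]
    have : (Φ y).fst = algebraMap Q Ω y := by simp [Φ]
    rw [this]
    exact IsLocalization.map_units Ω y
  let Ψ : Ω →+* DualNumber Ω := IsLocalization.lift hu
  have hΨ : ∀ q, Ψ (algebraMap Q Ω q) = Φ q := fun q => IsLocalization.lift_eq hu q
  have hfst : ∀ f, (Ψ f).fst = f := by
    have : ((fstHom Ω Ω Ω).toRingHom.comp Ψ) = RingHom.id Ω := by
      apply IsLocalization.ringHom_ext (nonZeroDivisors Q)
      ext q
      simp [hΨ, Φ]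
    intro f
    exact congrArg (fun g : Ω →+* Ω => g f) this
  have hc : ∀ c : ℂ, (Ψ (algebraMap ℂ Ω c)).snd = 0 := by
    intro c
    rw [IsScalarTower.algebraMap_apply ℂ Q Ω, hΨ]
    simp [Φ]
  have hm : ∀ a b, (Ψ (a * b)).snd = a * (Ψ b).snd + b * (Ψ a).snd := by
    intro a b
    rw [map_mul, snd_mul, hfst, hfst]
    simp [mul_comm]
  refine ⟨Derivation.mk'
    { toFun := fun f => (Ψ f).snd
      map_add' := fun a b => by simp
      map_smul' := fun c a => by
        simp only [Algebra.smul_def, hm, hc, RingHom.id_apply, mul_zero, add_zero] }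
    (fun a b => by simpa using hm a b), fun q => ?_⟩
  simp [hΨ, Φ]

end Pool.Agent.MP_0f1eb7_ag.Cyl

end MrgPart0

-- ======== part 1: formerly Pool.Agent.MP_0f1eb7_ag.cyl.Defs
section MrgPart1

/-! Definitions for the twisted form of affine 9-space. -/

set_option autoImplicit false

noncomputable section

namespace Pool.Agent.MP_0f1eb7_ag.Cyl

open MvPolynomial Matrix

abbrev I9 := Fin 3 × Fin 3
abbrev Kv := Fin 2 × Fin 2
abbrev M2 (R : Type) := Matrix (Fin 2) (Fin 2) R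
abbrev M3 (R : Type) := Matrix (Fin 3) (Fin 3) R
/-- polynomials in the four roots -/
abbrev Rt := MvPolynomial (Fin 4) ℂ
/-- polynomials in nine variables over `Rt` -/
abbrev Ap := MvPolynomial I9 Rt
abbrev Py := MvPolynomial I9 ℂ
abbrev kk := FractionRing Py
abbrev Kb := AlgebraicClosure kk

/-- the distinguished index -/
def oo : I9 := (0, 0)
/-- the large exponent -/
def NN : ℕ := 60

section Ring
variable {R : Type} [CommRing R]

def sg : Fin 3 → R := ![1, -1, 1]
def eta : M3 R := diagonal sg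
def z2 (y : M3 R) : R := ∑ i, ∑ j, sg i * sg j * y i j ^ 2
def z4 (y : M3 R) : R := z2 y.adjugate
def zt (y : M3 R) : R := y.det ^ 2
def xx (y : M3 R) : R := z4 y ^ (3 * NN)
def yy (c : ℤ) (y : M3 R) : R := (zt y - (c : R) * z2 y ^ 3) ^ (2 * NN)
def IsSO (M : M3 R) : Prop := Mᵀ * eta * M = eta ∧ M.det = 1
def up (s : R) : M2 R := !![1, s; 0, 1]
def um (s : R) : M2 R := !![1, 0; s, 1]
def uu (s : Fin 4 → R) : M2 R := um (s 0) * up (s 1) * um (s 2) * up (s 3)
/-- the matrix of variables -/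
def Ym : M3 (MvPolynomial I9 R) := of fun i j => X (i, j)
def Km : M2 (MvPolynomial Kv R) := of fun i j => X (i, j)
/-- a matrix read as a point -/
def pt (y : M3 R) : I9 → R := fun ij => y ij.1 ij.2
def pk (k : M2 R) : Kv → R := fun ij => k ij.1 ij.2
/-- torus weights of the entries of a 2 by 2 matrix -/
def wt : Kv → ℤ := fun ij => if ij.2 = 0 then 1 else -1
/-- elementary symmetric functions of the squares -/
def ee (s : Fin 3 → R) : Fin 3 → R :=
  ![s 0 ^ 2 + s 1 ^ 2 + s 2 ^ 2, s 0 ^ 2 * s 1 ^ 2 + s 0 ^ 2 * s 2 ^ 2 + s 1 ^ 2 * s 2 ^ 2,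
    s 0 ^ 2 * s 1 ^ 2 * s 2 ^ 2]
/-- the invariants as a vector -/
def zz (y : M3 R) : Fin 3 → R := ![z2 y, z4 y, zt y]
/-- weights of the three invariants -/
def w3 : Fin 3 → ℕ := ![1, 2, 3]

variable [Algebra ℂ R]

def hf : R := algebraMap ℂ R (1 / 2)

/-- matrix of `v ↦ k v adj(k)` on traceless matrices in the basis `sx, ep, sz` -/
def Ad (k : M2 R) : M3 R :=
  !![hf * (k 0 0 ^ 2 - k 0 1 ^ 2 - k 1 0 ^ 2 + k 1 1 ^ 2),
      hf * (k 0 0 ^ 2 + k 0 1 ^ 2 - k 1 0 ^ 2 - k 1 1 ^ 2), k 1 0 * k 1 1 - k 0 0 * k 0 1;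
    hf * (k 0 0 ^ 2 - k 0 1 ^ 2 + k 1 0 ^ 2 - k 1 1 ^ 2),
      hf * (k 0 0 ^ 2 + k 0 1 ^ 2 + k 1 0 ^ 2 + k 1 1 ^ 2), -(k 0 0 * k 0 1) - k 1 0 * k 1 1;
    k 0 1 * k 1 1 - k 0 0 * k 1 0, -(k 0 0 * k 1 0) - k 0 1 * k 1 1,
      k 0 0 * k 1 1 + k 0 1 * k 1 0]

/-- `(1 - Y^2) • g` -/
def gt (X Y : R) : M2 R :=
  !![1, Y * ((1 - Y ^ 2) * (hf * (X - 1)) - 1); 0, (1 - Y ^ 2) ^ 2]

/-- the polynomial cocycle, of determinant `-1` -/
def cm (X Y : R) : M2 R :=
  !![-(Y * (1 + hf * (X + 1) * (1 - Y ^ 2))), 1 + Y ^ 2 * (hf * (X - 1)) * (hf * (X + 1));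
    (1 - Y ^ 2) ^ 2, Y * (1 - hf * (X - 1) * (1 - Y ^ 2))]

/-- evaluation of `Ap` at roots `r` and a point `y` -/
def evA (r : Fin 4 → R) (y : M3 R) : Ap →ₐ[ℂ] R := aevalTower (aeval r) (pt y)

end Ring

section Field
variable {E : Type} [Field E] [Algebra ℂ E]

def tor (l : E) : M2 E := !![l, 0; 0, l⁻¹]
def gm (X Y : E) : M2 E := (1 - Y ^ 2)⁻¹ • gt X Y
/-- the twisted point -/
def tw (c : ℤ) (a b a' b' : E) (y : M3 E) : M3 E :=
  Ad (gm (a * xx y) (b * yy c y)) * y * (Ad (gm (a' * xx y) (b' * yy (-c) y)))ᵀ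
/-- the denominator of the twisted point -/
def nn (c : ℤ) (b b' : E) (y : M3 E) : E :=
  (1 - (b * yy c y) ^ 2) * (1 - (b' * yy (-c) y) ^ 2)
def twr (r : Fin 4 → E) (y : M3 E) : M3 E := tw 1 (r 0) (r 1) (r 2) (r 3) y

/-- `f = c m + smaller` -/
def Lead {Γ k : Type} [LinearOrderedCommGroupWithZero Γ] [Field k] (v : Valuation E Γ)
    (ι : k →+* E) (f m : E) (c : k) : Prop := v (f - ι c * m) < v m

def grad (D : I9 → Derivation ℂ E E) (f : E) : I9 → E := fun j => D j f
def cof (D : I9 → Derivation ℂ E E) (h : I9 → E) (j : I9) : E :=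
  ((of fun l => grad D (h l)).updateRow oo (Pi.single j 1)).det
/-- the Jacobian derivation of the family `h l`, `l ≠ oo` -/
def jacD (D : I9 → Derivation ℂ E E) (h : I9 → E) : Derivation ℂ E E :=
  ∑ j, cof D h j • D j
def Nil (D : Derivation ℂ E E) (f : E) : Prop := ∃ n : ℕ, (fun g => D g)^[n] f = 0

end Field

/-! ### the family -/

def flip (a j : Fin 4) : ℤ := if a = j then -1 else 1
def sA : Fin 3 → ℤ := ![1, -1, -1]
def sB : Fin 3 → ℤ := ![-1, -1, 1]
/-- the sign by which the involution `a` acts on the entry `ij` -/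
def chi (a : Fin 4) (ij : I9) : ℤ := ![sA ij.1, sB ij.1, sA ij.2, sB ij.2] a

def rt (j : Fin 4) : Ap := C (X j)
def thY : Fin 4 → M3 Ap :=
  ![-Ad (cm (rt 0 * xx Ym) (rt 1 * yy 1 Ym)) * Ym, diagonal (fun i => (sB i : Ap)) * Ym,
    Ym * (-Ad (cm (rt 2 * xx Ym) (rt 3 * yy (-1) Ym)))ᵀ, Ym * diagonal (fun i => (sB i : Ap))]
def th (a : Fin 4) : Ap →ₐ[ℂ] Ap := evA (fun j => (flip a j : Ap) * rt j) (thY a)

def Bs : Subalgebra ℂ Ap := ⨅ a, AlgHom.equalizer (th a) (AlgHom.id ℂ Ap)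

theorem mem_Bs {f : Ap} : f ∈ Bs ↔ ∀ a, th a f = f := by
  simp [Bs, Algebra.mem_iInf, AlgHom.mem_equalizer]

def sqr : Rt →ₐ[ℂ] Ap := aeval fun j => rt j ^ 2

theorem th_rt (a j : Fin 4) : th a (rt j) = (flip a j : Ap) * rt j := by
  simp [th, evA, rt]

theorem sqr_mem (p : Rt) : sqr p ∈ Bs := by
  rw [mem_Bs]
  intro a
  have : (th a).comp sqr = sqr := by
    ext j : 1
    simp only [sqr, AlgHom.comp_apply, aeval_X, map_pow, th_rt, flip]
    split_ifs <;> push_cast <;> ring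
  exact congrArg (fun g : Rt →ₐ[ℂ] Ap => g p) this

/-- the ring of invariants as a type -/
def Bt : Type := Bs
instance : CommRing Bt := inferInstanceAs (CommRing Bs)
instance : Algebra ℂ Bt := inferInstanceAs (Algebra ℂ Bs)
def valB : Bt →ₐ[ℂ] Ap := Bs.val
theorem valB_inj : Function.Injective valB := Subtype.val_injective
theorem valB_mem (b : Bt) : valB b ∈ Bs := b.2
theorem exists_valB {f : Ap} (h : f ∈ Bs) : ∃ b, valB b = f := ⟨⟨f, h⟩, rfl⟩
def phi : Rt →ₐ[ℂ] Bt := sqr.codRestrict Bs sqr_mem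
theorem valB_phi (p : Rt) : valB (phi p) = sqr p := rfl

/-! ### the field of rational functions on the 3 by 3 matrices -/

def ym : M3 kk := (Ym : M3 Py).map (algebraMap Py kk)

def dd (j : I9) : Derivation ℂ kk kk :=
  (exists_der_frac (Ω := kk) ((Algebra.linearMap Py kk).compDer (pderiv j))).choose

theorem dd_alg (j : I9) (p : Py) : dd j (algebraMap Py kk p) = algebraMap Py kk (pderiv j p) :=
  (exists_der_frac (Ω := kk) ((Algebra.linearMap Py kk).compDer (pderiv j))).choose_spec p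

def sgP (a : Fin 4) : Py →ₐ[ℂ] Py := aeval fun ij => (chi a ij : Py) * X ij

theorem chi_sq (a : Fin 4) (ij : I9) : chi a ij * chi a ij = 1 := by
  revert a ij; decide

theorem sgP_sgP (a : Fin 4) (p : Py) : sgP a (sgP a p) = p := by
  have : (sgP a).comp (sgP a) = AlgHom.id ℂ Py := by
    ext ij : 1
    simp only [sgP, AlgHom.comp_apply, aeval_X, map_mul, map_intCast, AlgHom.id_apply]
    rw [← mul_assoc, ← Int.cast_mul, chi_sq]
    simp
  exact congrArg (fun g : Py →ₐ[ℂ] Py => g p) this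

def sgK (a : Fin 4) : kk →ₐ[ℂ] kk :=
  IsFractionRing.liftAlgHom (g := (IsScalarTower.toAlgHom ℂ Py kk).comp (sgP a))
    ((IsFractionRing.injective Py kk).comp (Function.LeftInverse.injective (sgP_sgP a)))

theorem sgK_alg (a : Fin 4) (p : Py) :
    sgK a (algebraMap Py kk p) = algebraMap Py kk (sgP a p) := by
  simp [sgK]

/-! ### weight components, norms, leading root coefficients -/

/-- `f (Ad K * y)` as a polynomial in the entries of `K` -/
def orb (f : Py) : MvPolynomial Kv Py := aeval (pt (Ad Km * (Ym : M3 Py).map C)) f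
/-- the weight `M` part of `orb f` at `K = k` -/
def comp (M : ℤ) (f : Py) (k : M2 ℂ) : Py :=
  eval (fun t => C (pk k t)) (weightedHomogeneousComponent wt M (orb f))
def Bound (f : Py) (M₀ : ℕ) : Prop := ∀ M : ℤ, (M₀ : ℤ) < M → ∀ k : M2 ℂ, k.det = 1 → comp M f k = 0
/-- transposition -/
def trP {R : Type} [CommRing R] (f : MvPolynomial I9 R) : MvPolynomial I9 R :=
  rename Prod.swap f
/-- restriction to the slice `Ad k₁ * diag * (Ad k₂)ᵀ` -/
def slc (k₁ k₂ : M2 ℂ) : M3 (MvPolynomial (Fin 3) ℂ) :=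
  (Ad k₁).map C * diagonal X * ((Ad k₂).map C)ᵀ
/-- product over the 48 signed permutations -/
def Nm {S : Type} [CommRing S] (p : MvPolynomial (Fin 3) S) :
    MvPolynomial (Fin 3) S :=
  ∏ w : Equiv.Perm (Fin 3) × (Fin 3 → ℤˣ),
    aeval (fun i => ((w.2 i : ℤ) : MvPolynomial (Fin 3) S) * X (w.1 i)) p

def mo : MonomialOrder (Fin 4) := MonomialOrder.lex
/-- all root monomials of `φ` are at most `κ`, and `ψ` is the coefficient of `κ` -/
def ALead {τ : Type} (φ : MvPolynomial τ Rt) (κ : Fin 4 →₀ ℕ) (ψ : MvPolynomial τ ℂ) : Prop :=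
  ∀ η, (∀ κ' ∈ (coeff η φ).support, mo.toSyn κ' ≤ mo.toSyn κ) ∧ coeff η ψ = coeff κ (coeff η φ)

end Pool.Agent.MP_0f1eb7_ag.Cyl

end
end MrgPart1

-- ======== part 2: formerly Pool.Agent.MP_0f1eb7_ag.cyl.Adj
section MrgPart2

/-! Basic facts on `Ad`, `IsSO` and the invariants. -/

set_option autoImplicit false

noncomputable section

namespace Pool.Agent.MP_0f1eb7_ag.Cyl

open MvPolynomial Matrix

section
variable {R S : Type} [CommRing R] [CommRing S]

theorem sg_mul_self (i : Fin 3) : (sg i : R) * sg i = 1 := by fin_cases i <;> simp [sg]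

theorem eta_mul_eta : (eta : M3 R) * eta = 1 := by
  simp [eta, diagonal_mul_diagonal, sg_mul_self]

theorem eta_transpose : (eta : M3 R)ᵀ = eta := diagonal_transpose _

theorem z2_eq_trace (y : M3 R) : z2 y = (yᵀ * eta * y * eta).trace := by
  simp [z2, trace, eta, mul_apply, Fin.sum_univ_three, sg, diagonal]
  ring

theorem IsSO.one : IsSO (1 : M3 R) := ⟨by simp, det_one⟩

theorem IsSO.mul {M M' : M3 R} (h : IsSO M) (h' : IsSO M') : IsSO (M * M') := by
  refine ⟨?_, by rw [det_mul, h.2, h'.2, one_mul]⟩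
  calc (M * M')ᵀ * eta * (M * M') = M'ᵀ * (Mᵀ * eta * M) * M' := by
        rw [transpose_mul]; simp only [Matrix.mul_assoc]
    _ = eta := by rw [h.1, h'.1]

theorem IsSO.left_inv {M : M3 R} (h : IsSO M) : (eta * Mᵀ * eta) * M = 1 := by
  calc (eta * Mᵀ * eta) * M = eta * (Mᵀ * eta * M) := by simp only [Matrix.mul_assoc]
    _ = 1 := by rw [h.1, eta_mul_eta]

theorem IsSO.right_inv {M : M3 R} (h : IsSO M) : M * (eta * Mᵀ * eta) = 1 :=
  mul_eq_one_comm.1 h.left_inv

theorem IsSO.transpose {M : M3 R} (h : IsSO M) : IsSO Mᵀ := by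
  refine ⟨?_, by rw [det_transpose, h.2]⟩
  rw [transpose_transpose]
  calc M * eta * Mᵀ = M * (eta * Mᵀ * eta) * eta := by
        simp only [Matrix.mul_assoc, eta_mul_eta, Matrix.mul_one]
    _ = eta := by rw [h.right_inv, Matrix.one_mul]

theorem IsSO.adjugate_eq {M : M3 R} (h : IsSO M) : M.adjugate = eta * Mᵀ * eta := by
  have h1 : M.adjugate * M = 1 := by rw [adjugate_mul, h.2, one_smul]
  calc M.adjugate = M.adjugate * (M * (eta * Mᵀ * eta)) := by rw [h.right_inv, Matrix.mul_one]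
    _ = eta * Mᵀ * eta := by rw [← Matrix.mul_assoc, h1, Matrix.one_mul]

theorem IsSO.adjugate {M : M3 R} (h : IsSO M) : IsSO M.adjugate := by
  refine ⟨?_, by rw [det_adjugate, h.2, one_pow]⟩
  rw [h.adjugate_eq, transpose_mul, transpose_mul, eta_transpose, transpose_transpose]
  calc eta * (M * eta) * eta * (eta * Mᵀ * eta)
      = eta * (M * (eta * eta) * eta * Mᵀ) * eta := by simp only [Matrix.mul_assoc]
    _ = eta := by
      have := h.transpose.1
      rw [transpose_transpose] at this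
      rw [eta_mul_eta, Matrix.mul_one, this, eta_mul_eta, Matrix.one_mul]

theorem z2_act {M M' : M3 R} (h : IsSO M) (h' : IsSO M') (y : M3 R) :
    z2 (M * y * M'ᵀ) = z2 y := by
  rw [z2_eq_trace, z2_eq_trace, transpose_mul, transpose_mul, transpose_transpose]
  calc (M' * (yᵀ * Mᵀ) * eta * (M * y * M'ᵀ) * eta).trace
      = (M' * (yᵀ * (Mᵀ * eta * M) * y * M'ᵀ * eta)).trace := by simp only [Matrix.mul_assoc]
    _ = (yᵀ * eta * y * (M'ᵀ * eta * M')).trace := by
        rw [h.1, trace_mul_comm]; simp only [Matrix.mul_assoc]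
    _ = _ := by rw [h'.1]

theorem det_act {M M' : M3 R} (h : IsSO M) (h' : IsSO M') (y : M3 R) :
    (M * y * M'ᵀ).det = y.det := by
  rw [det_mul, det_mul, det_transpose, h.2, h'.2, one_mul, mul_one]

theorem z4_act {M M' : M3 R} (h : IsSO M) (h' : IsSO M') (y : M3 R) :
    z4 (M * y * M'ᵀ) = z4 y := by
  unfold z4
  rw [adjugate_mul_distrib, adjugate_mul_distrib, ← Matrix.mul_assoc]
  have := z2_act h'.transpose.adjugate h.adjugate.transpose y.adjugate
  rwa [transpose_transpose] at this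

theorem zt_act {M M' : M3 R} (h : IsSO M) (h' : IsSO M') (y : M3 R) :
    zt (M * y * M'ᵀ) = zt y := by rw [zt, det_act h h', zt]

theorem xx_act {M M' : M3 R} (h : IsSO M) (h' : IsSO M') (y : M3 R) :
    xx (M * y * M'ᵀ) = xx y := by rw [xx, z4_act h h', xx]

theorem yy_act {M M' : M3 R} (h : IsSO M) (h' : IsSO M') (c : ℤ) (y : M3 R) :
    yy c (M * y * M'ᵀ) = yy c y := by rw [yy, zt_act h h', z2_act h h', yy]

theorem zz_act {M M' : M3 R} (h : IsSO M) (h' : IsSO M') (y : M3 R) :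
    zz (M * y * M'ᵀ) = zz y := by rw [zz, zt_act h h', z2_act h h', z4_act h h', zz]

theorem z2_transpose (y : M3 R) : z2 yᵀ = z2 y := by
  simp only [z2, transpose_apply, Fin.sum_univ_three]; ring

theorem z4_transpose (y : M3 R) : z4 yᵀ = z4 y := by
  rw [z4, ← adjugate_transpose, z2_transpose, z4]

theorem zt_transpose (y : M3 R) : zt yᵀ = zt y := by rw [zt, det_transpose, zt]
theorem xx_transpose (y : M3 R) : xx yᵀ = xx y := by rw [xx, z4_transpose, xx]
theorem yy_transpose (c : ℤ) (y : M3 R) : yy c yᵀ = yy c y := by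
  rw [yy, zt_transpose, z2_transpose, yy]

variable {F : Type} [FunLike F R S] [RingHomClass F R S]

theorem map_sg (φ : F) (i : Fin 3) : φ (sg i) = sg i := by fin_cases i <;> simp [sg]

theorem z2_map (φ : F) (y : M3 R) : z2 (y.map φ) = φ (z2 y) := by
  simp [z2, map_sum, map_sg]

theorem det_map (φ : F) (y : M3 R) : (y.map φ).det = φ y.det :=
  ((φ : R →+* S).map_det y).symm

theorem z4_map (φ : F) (y : M3 R) : z4 (y.map φ) = φ (z4 y) := by
  have : (y.map φ).adjugate = y.adjugate.map φ := ((φ : R →+* S).map_adjugate y).symm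
  rw [z4, this, z2_map, z4]

theorem zt_map (φ : F) (y : M3 R) : zt (y.map φ) = φ (zt y) := by rw [zt, det_map, zt, map_pow]
theorem xx_map (φ : F) (y : M3 R) : xx (y.map φ) = φ (xx y) := by rw [xx, z4_map, xx, map_pow]
theorem yy_map (φ : F) (c : ℤ) (y : M3 R) : yy c (y.map φ) = φ (yy c y) := by
  simp [yy, zt_map, z2_map]

theorem z2_smul (t : R) (y : M3 R) : z2 (t • y) = t ^ 2 * z2 y := by
  simp only [z2, Matrix.smul_apply, smul_eq_mul, Fin.sum_univ_three]; ring

theorem z4_smul (t : R) (y : M3 R) : z4 (t • y) = t ^ 4 * z4 y := by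
  rw [z4, adjugate_smul, z2_smul, z4]; simp; ring

theorem zt_smul (t : R) (y : M3 R) : zt (t • y) = t ^ 6 * zt y := by
  rw [zt, det_smul, zt]; simp; ring

theorem xx_smul (t : R) (y : M3 R) : xx (t • y) = t ^ (12 * NN) * xx y := by
  rw [xx, z4_smul, xx, mul_pow, ← pow_mul, show 4 * (3 * NN) = 12 * NN by ring]

theorem yy_smul (c : ℤ) (t : R) (y : M3 R) : yy c (t • y) = t ^ (12 * NN) * yy c y := by
  rw [yy, zt_smul, z2_smul, yy]
  have : t ^ 6 * zt y - c * (t ^ 2 * z2 y) ^ 3 = t ^ 6 * (zt y - c * z2 y ^ 3) := by ring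
  rw [this, mul_pow, ← pow_mul, show 6 * (2 * NN) = 12 * NN by ring]

theorem zz_diagonal (s : Fin 3 → R) : zz (diagonal s) = ee s := by
  have h2 : ∀ u : Fin 3 → R, z2 (diagonal u) = u 0 ^ 2 + u 1 ^ 2 + u 2 ^ 2 := by
    intro u; simp [z2, Fin.sum_univ_three, sg, diagonal]
  funext i
  fin_cases i
  · simp [zz, ee, h2]
  · simp only [zz, ee, z4, adjugate_diagonal, h2]
    have e0 : (Finset.univ.erase (0 : Fin 3)) = {1, 2} := by decide
    have e1 : (Finset.univ.erase (1 : Fin 3)) = {0, 2} := by decide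
    have e2 : (Finset.univ.erase (2 : Fin 3)) = {0, 1} := by decide
    simp [e0, e1, e2]; ring
  · simp [zz, ee, zt, Fin.prod_univ_three]; ring

theorem det_up (s : R) : (up s).det = 1 := by simp [up, det_fin_two]
theorem det_um (s : R) : (um s).det = 1 := by simp [um, det_fin_two]
theorem det_uu (s : Fin 4 → R) : (uu s).det = 1 := by simp [uu, det_up, det_um]

theorem isSO_diag_sA : IsSO (diagonal fun i => (sA i : R)) := by
  refine ⟨?_, by simp [sA, Fin.prod_univ_three]⟩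
  ext i j; fin_cases i <;> fin_cases j <;> simp [eta, sA, sg, diagonal_mul_diagonal]

theorem isSO_diag_sB : IsSO (diagonal fun i => (sB i : R)) := by
  refine ⟨?_, by simp [sB, Fin.prod_univ_three]⟩
  ext i j; fin_cases i <;> fin_cases j <;> simp [eta, sB, sg, diagonal_mul_diagonal]

end

end Pool.Agent.MP_0f1eb7_ag.Cyl

end
end MrgPart2

-- ======== part 3: formerly Pool.Agent.MP_0f1eb7_ag.cyl.Adj2
section MrgPart3

/-! Facts on `Ad`, the explicit matrices, evaluation and clearing of denominators. -/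

set_option autoImplicit false

noncomputable section

namespace Pool.Agent.MP_0f1eb7_ag.Cyl

open MvPolynomial Matrix

section
variable {R S : Type} [CommRing R] [CommRing S] [Algebra ℂ R] [Algebra ℂ S]

theorem two_hf : 2 * (hf : R) = 1 := by
  rw [hf, ← map_ofNat (algebraMap ℂ R) 2, ← map_mul]; norm_num

theorem map_hf (φ : R →ₐ[ℂ] S) : φ hf = hf := φ.commutes _

theorem hf_field {E : Type} [Field E] [Algebra ℂ E] : (hf : E) = 2⁻¹ :=
  eq_inv_of_mul_eq_one_right two_hf

/-- the traceless matrix with coordinates `v` -/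
def hat (v : Fin 3 → R) : M2 R := !![v 2, v 0 + v 1; v 0 - v 1, -v 2]

theorem hat_Ad (k : M2 R) (v : Fin 3 → R) : hat (Ad k *ᵥ v) = k * hat v * k.adjugate := by
  have h := two_hf (R := R)
  ext i j
  fin_cases i <;> fin_cases j <;>
    simp [hat, Ad, mulVec, dotProduct, Fin.sum_univ_three, mul_apply, Fin.sum_univ_two,
      adjugate_fin_two]
  · ring
  · linear_combination ((k 0 0 ^ 2 - k 0 1 ^ 2) * v 0 + (k 0 0 ^ 2 + k 0 1 ^ 2) * v 1) * h
  · linear_combination ((k 1 1 ^ 2 - k 1 0 ^ 2) * v 0 - (k 1 0 ^ 2 + k 1 1 ^ 2) * v 1) * h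
  · ring

theorem hat_inj {v v' : Fin 3 → R} (e : hat v = hat v') : v = v' := by
  have h := two_hf (R := R)
  have e0 : v 2 = v' 2 := by simpa [hat] using congrFun (congrFun e 0) 0
  have e1 : v 0 + v 1 = v' 0 + v' 1 := by simpa [hat] using congrFun (congrFun e 0) 1
  have e2 : v 0 - v 1 = v' 0 - v' 1 := by simpa [hat] using congrFun (congrFun e 1) 0
  funext i
  fin_cases i
  · show v 0 = v' 0
    linear_combination hf * e1 + hf * e2 - (v 0 - v' 0) * h
  · show v 1 = v' 1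
    linear_combination hf * e1 - hf * e2 - (v 1 - v' 1) * h
  · exact e0

theorem Ad_mul (k k' : M2 R) : Ad (k * k') = Ad k * Ad k' := by
  apply Matrix.ext_of_mulVec_single
  intro j
  apply hat_inj
  rw [← mulVec_mulVec, hat_Ad, hat_Ad, hat_Ad, adjugate_mul_distrib]
  simp only [Matrix.mul_assoc]

theorem Ad_one : Ad (1 : M2 R) = 1 := by
  apply Matrix.ext_of_mulVec_single
  intro j
  apply hat_inj
  rw [hat_Ad, one_mulVec]; simp

theorem Ad_map (φ : R →ₐ[ℂ] S) (k : M2 R) : Ad (k.map φ) = (Ad k).map φ := by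
  ext i j; fin_cases i <;> fin_cases j <;> simp [Ad, map_hf]

theorem Ad_smul (c : R) (k : M2 R) : Ad (c • k) = c ^ 2 • Ad k := by
  ext i j; fin_cases i <;> fin_cases j <;> simp [Ad] <;> ring

theorem Ad_neg (k : M2 R) : Ad (-k) = Ad k := by
  have := Ad_smul (-1) k
  simpa using this

theorem Ad_det (k : M2 R) : (Ad k).det = k.det ^ 3 := by
  have h := two_hf (R := R)
  simp [det_fin_three, det_fin_two, Ad]
  grind

theorem Ad_orth (k : M2 R) : (Ad k)ᵀ * eta * Ad k = k.det ^ 2 • eta := by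
  have h := two_hf (R := R)
  ext i j
  fin_cases i <;> fin_cases j <;>
    simp [eta, sg, Ad, mul_apply, Fin.sum_univ_three, det_fin_two, diagonal] <;> grind

theorem isSO_Ad {k : M2 R} (h : k.det = 1) : IsSO (Ad k) :=
  ⟨by rw [Ad_orth, h]; simp, by rw [Ad_det, h]; simp⟩

theorem isSO_neg_Ad {k : M2 R} (h : k.det = -1) : IsSO (-Ad k) :=
  ⟨by simp [Ad_orth, h], by rw [det_neg, Ad_det, h]; norm_num⟩

def sx : M2 R := !![0, 1; 1, 0]
def sz : M2 R := !![1, 0; 0, -1]

theorem Ad_sx : -Ad (sx : M2 R) = diagonal fun i => (sA i : R) := by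
  have h := two_hf (R := R)
  ext i j; fin_cases i <;> fin_cases j <;> simp [Ad, sx, sA] <;> grind

theorem Ad_sz : -Ad (sz : M2 R) = diagonal fun i => (sB i : R) := by
  have h := two_hf (R := R)
  ext i j; fin_cases i <;> fin_cases j <;> simp [Ad, sz, sB] <;> grind

theorem det_gt (X Y : R) : (gt X Y).det = (1 - Y ^ 2) ^ 2 := by simp [gt, det_fin_two]

theorem det_cm (X Y : R) : (cm X Y).det = -1 := by
  have h := two_hf (R := R)
  simp [cm, det_fin_two]; grind

theorem gt_sx (X Y : R) : gt (-X) Y * sx = cm X Y * gt X Y := by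
  have h := two_hf (R := R)
  ext i j; fin_cases i <;> fin_cases j <;> simp [gt, cm, sx, mul_apply] <;> grind

theorem gt_sz (X Y : R) : gt X (-Y) * sz = sz * gt X Y := by
  ext i j; fin_cases i <;> fin_cases j <;> simp [gt, sz, mul_apply]

theorem cm_cm (X Y : R) : cm (-X) Y * cm X Y = 1 := by
  have h := two_hf (R := R)
  ext i j; fin_cases i <;> fin_cases j <;> simp [cm, mul_apply] <;> grind

theorem cm_sz (X Y : R) : cm X (-Y) * sz = -(sz * cm X Y) := by
  ext i j; fin_cases i <;> fin_cases j <;> simp [cm, sz, mul_apply]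

theorem gt_map (φ : R →ₐ[ℂ] S) (X Y : R) : (gt X Y).map φ = gt (φ X) (φ Y) := by
  ext i j; fin_cases i <;> fin_cases j <;> simp [gt, map_hf]

theorem cm_map (φ : R →ₐ[ℂ] S) (X Y : R) : (cm X Y).map φ = cm (φ X) (φ Y) := by
  ext i j; fin_cases i <;> fin_cases j <;> simp [cm, map_hf]

theorem evA_C (r : Fin 4 → R) (y : M3 R) (p : Rt) : evA r y (C p) = aeval r p := by simp [evA]
theorem evA_X (r : Fin 4 → R) (y : M3 R) (ij : I9) : evA r y (X ij) = y ij.1 ij.2 := by
  simp [evA, pt]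
theorem evA_rt (r : Fin 4 → R) (y : M3 R) (j : Fin 4) : evA r y (rt j) = r j := by
  simp [rt, evA_C]
theorem evA_Ym (r : Fin 4 → R) (y : M3 R) : (Ym : M3 Ap).map (evA r y) = y := by
  ext i j; simp [Ym, evA_X]

theorem algHom_ext_Ap {f g : Ap →ₐ[ℂ] R} (h1 : ∀ j, f (rt j) = g (rt j))
    (h2 : ∀ ij, f (X ij) = g (X ij)) : f = g := by
  apply MvPolynomial.algHom_ext'
  · ext j; exact h1 j
  · exact h2

theorem comp_evA (φ : R →ₐ[ℂ] S) (r : Fin 4 → R) (y : M3 R) (f : Ap) :
    φ (evA r y f) = evA (fun j => φ (r j)) (y.map φ) f := by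
  have : φ.comp (evA r y) = evA (fun j => φ (r j)) (y.map φ) :=
    algHom_ext_Ap (fun j => by simp [evA_rt]) (fun ij => by simp [evA_X])
  exact congrArg (fun g : Ap →ₐ[ℂ] S => g f) this

end

section
variable {E : Type} [Field E] [Algebra ℂ E]

theorem det_gm {X Y : E} (h : 1 - Y ^ 2 ≠ 0) : (gm X Y).det = 1 := by
  rw [gm, det_smul, det_gt]; simp; field_simp

omit [Algebra ℂ E] in
theorem det_tor {l : E} (h : l ≠ 0) : (tor l).det = 1 := by simp [tor, det_fin_two, h]

theorem tw_transpose (c : ℤ) (a b a' b' : E) (y : M3 E) :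
    (tw c a b a' b' y)ᵀ = tw (-c) a' b' a b yᵀ := by
  simp [tw, xx_transpose, yy_transpose, transpose_mul, Matrix.mul_assoc]

end

/-- Clearing denominators, uniformly in all field valued points. -/
theorem clear_den {S₀ S τ : Type} [CommRing S₀] [CommRing S] (j : S₀ →+* S) (W : τ → S) (ν : S)
    (ξ : MvPolynomial τ S₀) : ∃ r₀ : ℕ, ∀ r ≥ r₀, ∃ p : S, ∀ (E : Type) [Field E] (ψ : S →+* E),
      ψ ν ≠ 0 → ψ p = ψ ν ^ r * eval₂ (ψ.comp j) (fun t => ψ (W t) / ψ ν) ξ := by
  induction ξ using MvPolynomial.induction_on with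
  | C a => exact ⟨0, fun r _ => ⟨ν ^ r * j a, fun E _ ψ _ => by simp⟩⟩
  | add p q hp hq =>
    obtain ⟨r₁, h₁⟩ := hp
    obtain ⟨r₂, h₂⟩ := hq
    refine ⟨max r₁ r₂, fun r hr => ?_⟩
    obtain ⟨p₁, e₁⟩ := h₁ r (le_trans (le_max_left _ _) hr)
    obtain ⟨p₂, e₂⟩ := h₂ r (le_trans (le_max_right _ _) hr)
    exact ⟨p₁ + p₂, fun E _ ψ h => by rw [map_add, e₁ E ψ h, e₂ E ψ h, eval₂_add, mul_add]⟩
  | mul_X p t hp =>
    obtain ⟨r₁, h₁⟩ := hp
    refine ⟨r₁ + 1, fun r hr => ?_⟩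
    obtain ⟨r, rfl⟩ : ∃ s, r = s + 1 := ⟨r - 1, by omega⟩
    obtain ⟨p₁, e₁⟩ := h₁ r (by omega)
    refine ⟨p₁ * W t, fun E _ ψ h => ?_⟩
    rw [map_mul, e₁ E ψ h, eval₂_mul, eval₂_X]
    field_simp
    ring

end Pool.Agent.MP_0f1eb7_ag.Cyl

end
end MrgPart3

-- marker of a merged file
example : 731051 + 601735 = 731051 + 601735 := rfl
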