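import Mathlib.RingTheory.RingHom.Flat
import Mathlib.RingTheory.Valuation.ValuationSubring
import Mathlib.RingTheory.Henselian
import Mathlib.RingTheory.RegularLocalRing.Defs
import Pool.Agent.MP_0f1eb7_ag.cyl.Adj2

-- ======== part 0: formerly Pool.Agent.MP_0f1eb7_ag.cyl.Lead
section MrgPart0

/-! Leading terms in a valued field; Jacobian derivations; nilpotent elements. -/

set_option autoImplicit false

noncomputable section

namespace Pool.Agent.MP_0f1eb7_ag.Cyl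

open MvPolynomial Matrix

section
variable {E Γ k : Type} [Field E] [LinearOrderedCommGroupWithZero Γ] [Field k]
  {v : Valuation E Γ} {ι : k →+* E} {f f' m m' : E} {c c' : k}

theorem val_iota (hι : ∀ c, v (ι c) ≤ 1) (hc : c ≠ 0) : v (ι c) = 1 := by
  apply le_antisymm (hι c)
  have h1 : v (ι c) * v (ι c⁻¹) = 1 := by rw [← map_mul, ← map_mul, mul_inv_cancel₀ hc]; simp
  calc (1 : Γ) = v (ι c) * v (ι c⁻¹) := h1.symm
    _ ≤ v (ι c) * 1 := mul_le_mul' le_rfl (hι _)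
    _ = _ := mul_one _

theorem Lead.val_pos (h : Lead v ι f m c) : 0 < v m := lt_of_le_of_lt zero_le h

theorem Lead.ne (h : Lead v ι f m c) : m ≠ 0 := by
  rintro rfl
  simpa using h.val_pos

theorem Lead.refl (hm : m ≠ 0) (c : k) : Lead v ι (ι c * m) m c := by
  simpa [Lead] using (v.pos_iff).2 hm

theorem Lead.of_lt (h : v f < v m) : Lead v ι f m 0 := by simpa [Lead] using h

theorem Lead.add_small (h : Lead v ι f m c) (h' : v f' < v m) : Lead v ι (f + f') m c := by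
  unfold Lead at *
  rw [show f + f' - ι c * m = (f - ι c * m) + f' by ring]
  exact v.map_add_lt h h'

theorem Lead.add (h : Lead v ι f m c) (h' : Lead v ι f' m c') : Lead v ι (f + f') m (c + c') := by
  unfold Lead at *
  rw [show f + f' - ι (c + c') * m = (f - ι c * m) + (f' - ι c' * m) by rw [map_add]; ring]
  exact v.map_add_lt h h'

theorem Lead.neg (h : Lead v ι f m c) : Lead v ι (-f) m (-c) := by
  unfold Lead at *
  rwa [show -f - ι (-c) * m = -(f - ι c * m) by rw [map_neg]; ring, v.map_neg]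

theorem Lead.neg_gauge (h : Lead v ι f m c) : Lead v ι f (-m) (-c) := by
  unfold Lead at *
  rwa [show f - ι (-c) * (-m) = f - ι c * m by rw [map_neg]; ring, v.map_neg]

theorem Lead.sum {α : Type} (s : Finset α) {g : α → E} {d : α → k} (hm : m ≠ 0)
    (h : ∀ a ∈ s, Lead v ι (g a) m (d a)) : Lead v ι (∑ a ∈ s, g a) m (∑ a ∈ s, d a) := by
  classical
  induction s using Finset.induction_on with
  | empty => simpa [Lead] using (v.pos_iff).2 hm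
  | insert a s ha ih =>
    rw [Finset.sum_insert ha, Finset.sum_insert ha]
    exact (h a (by simp)).add (ih fun b hb => h b (by simp [hb]))

theorem Lead.val_le (hι : ∀ c, v (ι c) ≤ 1) (h : Lead v ι f m c) : v f ≤ v m := by
  rw [show f = (f - ι c * m) + ι c * m by ring]
  refine v.map_add_le (le_of_lt h) ?_
  rw [map_mul]
  exact mul_le_of_le_one_left' (hι c)

theorem Lead.val_eq (hι : ∀ c, v (ι c) ≤ 1) (h : Lead v ι f m c) (hc : c ≠ 0) : v f = v m := by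
  have h1 : v (ι c * m) = v m := by rw [map_mul, val_iota hι hc, one_mul]
  rw [show f = (f - ι c * m) + ι c * m by ring, v.map_add_eq_of_lt_right (by rw [h1]; exact h), h1]

theorem Lead.eq_zero (hι : ∀ c, v (ι c) ≤ 1) (h : Lead v ι 0 m c) : c = 0 := by
  by_contra hc
  have := h.val_eq hι hc
  rw [map_zero] at this
  exact h.val_pos.ne this

theorem Lead.unique (hι : ∀ c, v (ι c) ≤ 1) (h : Lead v ι f m c) (h' : Lead v ι f m c') :
    c = c' := by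
  have := h.add h'.neg
  rw [add_neg_cancel] at this
  exact add_neg_eq_zero.1 (this.eq_zero hι)

theorem Lead.mul (hι : ∀ c, v (ι c) ≤ 1) (h : Lead v ι f m c) (h' : Lead v ι f' m' c') :
    Lead v ι (f * f') (m * m') (c * c') := by
  have e : f * f' - ι (c * c') * (m * m') = f * (f' - ι c' * m') + (f - ι c * m) * (ι c' * m') := by
    rw [map_mul]; ring
  unfold Lead
  rw [e]
  apply v.map_add_lt
  · rw [map_mul, map_mul]
    exact mul_lt_mul_of_le_of_lt_of_nonneg_of_pos (h.val_le hι) h' zero_le h.val_pos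
  · rw [map_mul, map_mul v m]
    refine mul_lt_mul_of_lt_of_le_of_nonneg_of_pos h ?_ zero_le h'.val_pos
    rw [map_mul]
    exact mul_le_of_le_one_left' (hι c')

theorem Lead.one : Lead v ι 1 1 1 := by simp [Lead]

theorem Lead.pow (hι : ∀ c, v (ι c) ≤ 1) (h : Lead v ι f m c) (n : ℕ) :
    Lead v ι (f ^ n) (m ^ n) (c ^ n) := by
  induction n with
  | zero => simpa using Lead.one
  | succ n ih => simpa [pow_succ] using ih.mul hι h

theorem Lead.prod (hι : ∀ c, v (ι c) ≤ 1) {α : Type} (s : Finset α) {g n : α → E} {d : α → k}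
    (h : ∀ a ∈ s, Lead v ι (g a) (n a) (d a)) :
    Lead v ι (∏ a ∈ s, g a) (∏ a ∈ s, n a) (∏ a ∈ s, d a) := by
  classical
  induction s using Finset.induction_on with
  | empty => simpa using Lead.one
  | insert a s ha ih =>
    rw [Finset.prod_insert ha, Finset.prod_insert ha, Finset.prod_insert ha]
    exact (h a (by simp)).mul hι (ih fun b hb => h b (by simp [hb]))

theorem Lead.inv (hι : ∀ c, v (ι c) ≤ 1) (h : Lead v ι f m c) (hc : c ≠ 0) :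
    Lead v ι f⁻¹ m⁻¹ c⁻¹ := by
  have hv := h.val_eq hι hc
  have hf : f ≠ 0 := by
    rintro rfl
    exact hc (h.eq_zero hι)
  have hm := h.ne
  have hc' : ι c ≠ 0 := by simpa using hc
  have e : f⁻¹ - ι c⁻¹ * m⁻¹ = -(f - ι c * m) * (f⁻¹ * (ι c⁻¹ * m⁻¹)) := by
    rw [map_inv₀]; field_simp; ring
  unfold Lead
  rw [e, map_mul, v.map_neg, map_mul, map_mul, val_iota hι (inv_ne_zero hc), one_mul, map_inv₀,
    hv, map_inv₀, ← mul_assoc]
  have hp := h.val_pos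
  calc v (f - ι c * m) * (v m)⁻¹ * (v m)⁻¹ < v m * (v m)⁻¹ * (v m)⁻¹ := by
        have hi : 0 < (v m)⁻¹ := inv_pos.2 hp
        exact mul_lt_mul_of_pos_right (mul_lt_mul_of_pos_right h hi) hi
    _ = _ := by rw [mul_inv_cancel₀ hp.ne', one_mul]

/-- the determinant of a matrix whose rows have leading terms -/
theorem Lead.det (hι : ∀ c, v (ι c) ≤ 1) {n : Type} [Fintype n] [DecidableEq n]
    {A : Matrix n n E} {B : Matrix n n k} {g : n → E} (h : ∀ i j, Lead v ι (A i j) (g i) (B i j))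
    (hg : ∀ i, g i ≠ 0) : Lead v ι A.det (∏ i, g i) B.det := by
  rw [← det_transpose A, ← det_transpose B, det_apply', det_apply']
  refine Lead.sum _ (Finset.prod_ne_zero_iff.2 fun i _ => hg i) fun σ _ => ?_
  have h1 := Lead.prod hι Finset.univ fun i _ => h i (σ i)
  have h2 : Lead v ι (ι ((Equiv.Perm.sign σ : ℤ) : k) * 1) 1 ((Equiv.Perm.sign σ : ℤ) : k) :=
    Lead.refl one_ne_zero _
  simpa using h2.mul hι h1

theorem val_det_le {n : Type} [Fintype n] [DecidableEq n] {A : Matrix n n E} {b : Γ}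
    (h : ∀ i j, v (A i j) ≤ b) : v A.det ≤ b ^ Fintype.card n := by
  rw [det_apply']
  refine v.map_sum_le fun σ _ => ?_
  rw [map_mul, map_prod]
  have h1 : v ((Equiv.Perm.sign σ : ℤ) : E) = 1 := by
    rcases Int.units_eq_one_or (Equiv.Perm.sign σ) with e | e <;> simp [e]
  rw [h1, one_mul, ← Finset.card_univ, ← Finset.prod_const]
  exact Finset.prod_le_prod' fun i _ => h _ _

end

section
variable {E : Type} [Field E] [Algebra ℂ E]

theorem der_sum_apply {α : Type} (s : Finset α) (D : α → Derivation ℂ E E) (f : E) :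
    (∑ a ∈ s, D a) f = ∑ a ∈ s, D a f := by
  classical
  induction s using Finset.induction_on with
  | empty => simp
  | insert a s ha ih => rw [Finset.sum_insert ha, Finset.sum_insert ha, Derivation.add_apply, ih]

theorem jacD_apply (D : I9 → Derivation ℂ E E) (h : I9 → E) (f : E) :
    jacD D h f = ((of fun l => grad D (h l)).updateRow oo (grad D f)).det := by
  have e : grad D f = ∑ j, D j f • (Pi.single j 1 : I9 → E) := by
    funext i; simp [grad, Finset.sum_apply, Pi.single_apply]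
  let L : (I9 → E) →ₗ[E] E :=
    { toFun := fun u => ((of fun l => grad D (h l)).updateRow oo u).det
      map_add' := fun a b => det_updateRow_add _ _ _ _
      map_smul' := fun a b => det_updateRow_smul _ _ _ _ }
  have : L (grad D f) = ∑ j, D j f * cof D h j := by
    rw [e, map_sum]; simp only [map_smul]; rfl
  change _ = L (grad D f)
  rw [this, jacD, der_sum_apply]
  simp [mul_comm]

end

end Pool.Agent.MP_0f1eb7_ag.Cyl

end
end MrgPart0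

-- ======== part 1: formerly Pool.Agent.MP_0f1eb7_ag.cyl.Spec1
section MrgPart1

/-! Statements, part 1: the family, monomial valuations, degeneration. -/

set_option autoImplicit false

noncomputable section

namespace Pool.Agent.MP_0f1eb7_ag.Cyl

open MvPolynomial Matrix

/-! ### the family -/

def ThStmt : Prop :=
  (∀ a f, th a (th a f) = f) ∧ ∀ a b f, th a (th b f) = th b (th a f)

def EqvStmt : Prop := ∀ (E : Type) [Field E] [Algebra ℂ E] (τ : E →ₐ[ℂ] E) (a : Fin 4)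
  (r : Fin 4 → E) (y : M3 E), (∀ j, τ (r j) = (flip a j : E) * r j) →
  (∀ ij, τ (pt y ij) = (chi a ij : E) * pt y ij) → nn 1 (r 1) (r 3) y ≠ 0 →
  ∀ f, τ (evA r (twr r y) f) = evA r (twr r y) (th a f)

def GenStmt : Prop := ∀ (E : Type) [Field E] [Algebra ℂ E] (r : Fin 4 → E) (y : M3 E),
  nn 1 (r 1) (r 3) y ≠ 0 →
  (∀ ij, ∃ f, evA r (twr r y) f = nn 1 (r 1) (r 3) y ^ 2 * pt y ij) ∧
  (∃ f, evA r (twr r y) f = nn 1 (r 1) (r 3) y) ∧ (∃ f, evA r (twr r y) f = y.det) ∧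
  ∀ c : ℤ, ∃ f, evA r (twr r y) f = yy c y

def SemiStmt : Prop := ∀ f : Ap, ∃ g : Finset (Fin 4) → Ap,
  f = ∑ S, g S ∧ ∀ S, (∏ a ∈ S, rt a) * g S ∈ Bs ∧ g S ^ 2 ∈ Bs

def ReyStmt : Prop := ∃ ℛ : Ap →ₗ[ℂ] Ap, (∀ f, ℛ f ∈ Bs) ∧ (∀ b ∈ Bs, ∀ f, ℛ (b * f) = b * ℛ f) ∧
  ℛ 1 = 1 ∧ ∀ S : Finset (Fin 4), S.Nonempty → ℛ (∏ a ∈ S, rt a) = 0

def FlatStmt : Prop := RingHom.Flat (phi : Rt →+* Bt)
def FtStmt : Prop := Algebra.FiniteType ℂ Bt
def FibAlgStmt : Prop := ∀ m : Ideal Rt, m.IsMaximal → (∏ j, X j : Rt) ∉ m →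
  Nonempty ((Bt ⧸ m.map (phi : Rt →+* Bt)) ≃+* MvPolynomial (Fin 9) ℂ)

def MatHyp (x : I9 → Ap) : Prop := (∀ i, x i ∈ Bs) ∧
  ∀ ij, ∃ (ρ : Rt) (Q : Ap), ρ ≠ 0 ∧ C ρ * X ij = aeval x Q

def RedStmt : Prop := ∀ x : Fin 9 → Bt, (∀ b : Bt, ∃ (ρ : Rt) (Q : MvPolynomial (Fin 9) Rt),
  ρ ≠ 0 ∧ (phi : Rt →+* Bt) ρ * b = eval₂ (phi : Rt →+* Bt) x Q) → ∃ x' : I9 → Ap, MatHyp x'

def MatStmt : Prop := ∀ x : I9 → Ap, ¬MatHyp x

/-! ### monomial valuations -/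

section MV
variable {σ k Ω Γ : Type} [Field k] [Field Ω] [LinearOrderedCommGroupWithZero Γ]

def IsMV (m : MonomialOrder.{0, 0} σ) (φ : MvPolynomial σ k →+* Ω) (v : Valuation Ω Γ) : Prop :=
  Function.Injective φ ∧ (∀ f, ∃ p q, q ≠ 0 ∧ f = φ p / φ q) ∧ ∀ p q, q ≠ 0 →
    (v (φ p) ≤ v (φ q) ↔ p = 0 ∨ m.toSyn (m.degree p) ≤ m.toSyn (m.degree q))

def IsMon (φ : MvPolynomial σ k →+* Ω) (x : Ω) : Prop :=
  ∃ a b : σ →₀ ℕ, x = φ (monomial a 1) / φ (monomial b 1)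

structure MvFacts [Algebra ℂ Ω] (m : MonomialOrder.{0, 0} σ) (φ : MvPolynomial σ k →+* Ω)
    (v : Valuation Ω Γ) : Prop where
  iota_le : ∀ c, v (φ (C c)) ≤ 1
  lead_poly : ∀ p, p ≠ 0 →
    Lead v (φ.comp C) (φ p) (φ (monomial (m.degree p) 1)) (m.leadingCoeff p)
  mon_inj : ∀ x x', IsMon φ x → IsMon φ x' → v x = v x' → x = x'
  exists_lead : ∀ f, f ≠ 0 → ∃ x c, IsMon φ x ∧ c ≠ 0 ∧ Lead v (φ.comp C) f x c
  der : ∀ D : Derivation ℂ Ω Ω, (∀ c, ∃ c', D (φ (C c)) = φ (C c')) →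
    (∀ i, ∃ c', D (φ (X i)) = φ (C c')) → ∀ f, v (D f) ≤ v f
  aut : ∀ τ : Ω →+* Ω, (∀ c, ∃ c', τ (φ (C c)) = φ (C c')) →
    (∀ i, τ (φ (X i)) = φ (X i) ∨ τ (φ (X i)) = -φ (X i)) →
    (∀ f, v (τ f) = v f) ∧ ∀ x, IsMon φ x → τ x = x ∨ τ x = -x

end MV

def MvStmt : Prop := ∀ (σ k Ω : Type) [Field k] [Field Ω] [Algebra ℂ Ω] (m : MonomialOrder.{0, 0} σ)
  (φ : MvPolynomial σ k →+* Ω), Function.Injective φ → (∀ f, ∃ p q, q ≠ 0 ∧ f = φ p / φ q) →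
  ∃ O : ValuationSubring Ω, IsMV m φ O.valuation ∧ MvFacts m φ O.valuation

/-! ### the degeneration field -/

structure Deg (Ω Γ : Type) [Field Ω] [Algebra ℂ Ω] [LinearOrderedCommGroupWithZero Γ] where
  v : Valuation Ω Γ
  ι : kk →ₐ[ℂ] Ω
  T : Ω
  r : Fin 4 → Ω
  Mon : Submonoid Ω
  D : I9 → Derivation ℂ Ω Ω
  τ : Fin 4 → Ω →ₐ[ℂ] Ω
  iota_le : ∀ c, v ((ι : kk →+* Ω) c) ≤ 1
  mon_ne : ∀ m ∈ Mon, m ≠ 0
  mon_inv : ∀ m ∈ Mon, m⁻¹ ∈ Mon
  mon_inj : ∀ m ∈ Mon, ∀ m' ∈ Mon, v m = v m' → m = m'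
  T_mem : T ∈ Mon
  r_mem : ∀ i, r i ∈ Mon
  exists_lead : ∀ f, f ≠ 0 → ∃ m ∈ Mon, ∃ c, c ≠ 0 ∧ Lead v (ι : kk →+* Ω) f m c
  D_iota : ∀ j c, D j (ι c) = ι (dd j c)
  D_mon : ∀ j, ∀ m ∈ Mon, D j m = 0
  D_le : ∀ j f, v (D j f) ≤ v f
  τ_iota : ∀ a c, τ a (ι c) = ι (sgK a c)
  τ_T : ∀ a, τ a T = T
  τ_r : ∀ a j, τ a (r j) = (flip a j : Ω) * r j
  τ_val : ∀ a f, v (τ a f) = v f
  τ_mon : ∀ a, ∀ m ∈ Mon, τ a m = m ∨ τ a m = -m
  one_le_r : ∀ i, 1 ≤ v (r i)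
  r_lt_T : ∀ ρ : Rt, v (aeval r ρ) < v T
  r_inj : ∀ ρ : Rt, ρ ≠ 0 → aeval r ρ ≠ 0
  link : ∀ p : Ap, p ≠ 0 → ∃ κ ψ, ψ ≠ 0 ∧ ALead (homogeneousComponent p.totalDegree p) κ ψ ∧
    Lead v (ι : kk →+* Ω) (evA r (T • ym.map ι) p) (T ^ p.totalDegree * ∏ i, r i ^ κ i)
      (algebraMap Py kk ψ)

namespace Deg
variable {Ω Γ : Type} [Field Ω] [Algebra ℂ Ω] [LinearOrderedCommGroupWithZero Γ] (G : Deg Ω Γ)

def y0 : M3 Ω := G.T • ym.map G.ι
def ev : Ap →ₐ[ℂ] Ω := evA G.r (twr G.r G.y0)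
def n0 : Ω := nn 1 (G.r 1) (G.r 3) G.y0
def Ld (f m : Ω) (c : kk) : Prop := Lead G.v (G.ι : kk →+* Ω) f m c
def Cs (x : I9 → Ap) : Subalgebra ℂ Ω :=
  Algebra.adjoin ℂ ((Set.range fun i => G.r i ^ 2) ∪ {f | ∃ l, l ≠ oo ∧ f = G.ev (x l)})
def LC (x : I9 → Ap) : Set kk := {c | ∃ h ∈ G.Cs x, ∃ m ∈ G.Mon, G.Ld h m c}

end Deg

/-- a property of all degeneration data -/
def AllDeg (P : ∀ (Ω Γ : Type) [Field Ω] [Algebra ℂ Ω] [LinearOrderedCommGroupWithZero Γ],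
    Deg Ω Γ → Prop) : Prop :=
  ∀ (Ω Γ : Type) [Field Ω] [Algebra ℂ Ω] [LinearOrderedCommGroupWithZero Γ] (G : Deg Ω Γ), P Ω Γ G

def OmStmt : Prop := ∃ (Ω Γ : Type) (_ : Field Ω) (_ : Algebra ℂ Ω)
  (_ : LinearOrderedCommGroupWithZero Γ), Nonempty (Deg Ω Γ)

structure InvStmt : Prop where
  det_ne : (Ym : M3 Py).det ≠ 0
  adj_ne : ∀ i j, (Ym : M3 Py).adjugate i j ≠ 0
  xx_ne : xx (Ym : M3 Py) ≠ 0
  yy_ne : ∀ c : ℤ, yy c (Ym : M3 Py) ≠ 0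
  rel : IsRelPrime (xx (Ym : M3 Py)) (yy 1 Ym * yy (-1) Ym)
  yy_hom : ∀ c : ℤ, (yy c (Ym : M3 Py)).IsHomogeneous (12 * NN)

def NnStmt : Prop := AllDeg fun _ _ _ _ _ G => G.n0 ≠ 0 ∧
  G.Ld G.n0 (G.r 1 ^ 2 * G.r 3 ^ 2 * G.T ^ (48 * NN)) ((yy 1 ym * yy (-1) ym) ^ 2)

def Dep (LC : Set kk) : Prop := ∀ a b : I9, ∃ π : MvPolynomial (Fin 2) kk, π ≠ 0 ∧
  (∀ η, coeff η π ∈ LC) ∧ aeval ![pt ym a, pt ym b] π = 0

def A1aStmt : Prop := AllDeg fun _ _ _ _ _ G => ∀ x, MatHyp x → Dep (G.LC x)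

def A1bStmt : Prop := ∀ LC : Set kk, Dep LC →
  ∃ c : I9 → kk, (∀ l, l ≠ oo → c l ∈ LC ∧ c l ≠ 0) ∧ jacD dd c ≠ 0

def JacStmt : Prop := AllDeg fun _ _ _ _ _ G =>
  (of fun a => grad G.D (pt (twr G.r G.y0) a)).det = G.T ^ 9

def A2Stmt : Prop := AllDeg fun Ω _ _ _ _ G => ∀ x, MatHyp x → ∀ h : I9 → Ω,
  (∀ l, l ≠ oo → h l ∈ G.Cs x) → ∀ f, Nil (jacD G.D h) (G.ev f)

def TrStmt : Prop := AllDeg fun Ω _ _ _ _ G => ∀ (h m : I9 → Ω) (c : I9 → kk),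
  (∀ l, l ≠ oo → m l ∈ G.Mon ∧ G.Ld (h l) (m l) (c l)) → ∀ f m' c', m' ∈ G.Mon → G.Ld f m' c' →
  Nil (jacD G.D h) f → Nil (jacD dd c) c'

def SemiLCStmt : Prop := AllDeg fun _ _ _ _ _ G => ∀ x, MatHyp x → ∀ c ∈ G.LC x, ∀ a,
  sgK a c = c ∨ sgK a c = -c

/-- `h` is the leading coefficient of an element of the twisted ring -/
def IsLc (c : ℤ) (i₁ i₂ i₃ i₄ : Fin 4) (h : Py) : Prop :=
  ∃ (f p : Ap) (r W : ℕ) (κ : Fin 4 →₀ ℕ),
    (∀ (E : Type) [Field E] [Algebra ℂ E] (ρ : Fin 4 → E) (y : M3 E),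
      nn c (ρ i₂) (ρ i₄) y ≠ 0 → evA ρ y p = nn c (ρ i₂) (ρ i₄) y ^ r *
        evA ρ (tw c (ρ i₁) (ρ i₂) (ρ i₃) (ρ i₄) y) f) ∧ p.totalDegree ≤ W ∧
    ALead (homogeneousComponent W p) κ ((yy c Ym * yy (-c) Ym) ^ (2 * r) * h)

def B1Stmt : Prop := AllDeg fun _ _ _ _ _ G => ∀ f, ∀ m ∈ G.Mon, ∀ c, c ≠ 0 → G.Ld (G.ev f) m c →
  ∃ (r : ℕ) (p : Py), algebraMap Py kk p = xx ym ^ r * c

def BStmt : Prop := AllDeg fun _ _ _ _ _ G => ∀ f, ∀ m ∈ G.Mon, ∀ c, c ≠ 0 → G.Ld (G.ev f) m c →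
  ∃ h : Py, algebraMap Py kk h = c ∧ IsLc 1 0 1 2 3 h ∧ ∃ e, h.IsHomogeneous e

def om : kk := (yy 1 ym * yy (-1) ym) ^ 4
def del (h : I9 → Py) : Derivation ℂ kk kk := jacD dd fun l => algebraMap Py kk (h l)

structure Lnd (h : I9 → Py) : Prop where
  ne : del h ≠ 0
  semi : ∀ l, l ≠ oo → ∀ a, sgK a (algebraMap Py kk (h l)) = algebraMap Py kk (h l) ∨
    sgK a (algebraMap Py kk (h l)) = -algebraMap Py kk (h l)
  hom : ∀ l, l ≠ oo → ∃ e, (h l).IsHomogeneous e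
  lc : ∀ l, l ≠ oo → IsLc 1 0 1 2 3 (h l)
  nil_det : Nil (del h) ym.det
  nil_om : Nil (del h) om
  nil_y : ∀ ij, Nil (del h) (om * pt ym ij)

def LndStmt : Prop := ∀ x, MatHyp x → ∃ h, Lnd h

end Pool.Agent.MP_0f1eb7_ag.Cyl

end
end MrgPart1

-- marker of a merged file
example : 731051 + 787864 = 731051 + 787864 := rfl
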