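import Mathlib.Analysis.CStarAlgebra.Classes
import Pool.Agent.MP_0f1eb7_ag.cyl.Spec1

-- ======== part 0: formerly Pool.Agent.MP_0f1eb7_ag.cyl.Spec2
section MrgPart0

/-! Statements, part 2: slice, anisotropy, weights, charge, contradiction. -/

set_option autoImplicit false

noncomputable section

namespace Pool.Agent.MP_0f1eb7_ag.Cyl

open MvPolynomial Matrix

/-! ### slice and valuations on `kk` -/

def GslStmt : Prop := ∀ (δ : Derivation ℂ kk kk) (t : kk), δ t = 1 → ∃ F : Subfield kk,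
  (∀ f, f ∈ F ↔ δ f = 0) ∧
  Function.Injective (eval₂Hom F.subtype (fun _ : Unit => t) : MvPolynomial Unit F →+* kk) ∧
  ∀ f, Nil δ f → ∃ p : MvPolynomial Unit F, eval₂Hom F.subtype (fun _ : Unit => t) p = f

def Sl1Stmt : Prop := ∀ h, Lnd h → ∃ t : kk, del h t = 1 ∧ (∀ a, sgK a t = t ∨ sgK a t = -t) ∧
  ∀ a f, del h f = 0 → del h (sgK a f) = 0

def CStmt : Prop := ∀ (Γ : Type) [LinearOrderedCommGroupWithZero Γ] (v : Valuation kk Γ)
  (h : I9 → kk) (t : kk) (B : Γ), jacD dd h t = 1 →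
  (∀ D : Derivation ℂ kk kk, (∀ f, jacD dd h f = 0 → jacD dd h (D f) = 0) →
    jacD dd h (D t) = 0 → ∀ f, v (D f) ≤ v f) →
  (∀ ij, v (pt ym ij) ≤ B) → 1 ≤ B → ∀ j f, v (dd j f) ≤ B ^ 9 * v f

section
variable {Γ : Type} [LinearOrderedCommGroupWithZero Γ]

structure Res (v : Valuation kk Γ) (F : Subfield kk) : Prop where
  F_le : ∀ c ∈ F, v c ≤ 1
  C_mem : ∀ c : ℂ, algebraMap ℂ kk c ∈ F
  res : ∀ f, v f = 1 → ∃ c ∈ F, v (f - c) < 1
  sg_F : ∀ a, ∀ c ∈ F, sgK a c ∈ F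
  sg_v : ∀ a f, v (sgK a f) = v f

structure Top (v : Valuation kk Γ) (top : I9) : Prop where
  C_le : ∀ c : ℂ, v (algebraMap ℂ kk c) ≤ 1
  top_max : ∀ ij, v (pt ym ij) ≤ v (pt ym top)
  one_lt : 1 < v (pt ym top)
  det_ge : 1 ≤ v ym.det
  der : ∀ j f, v (dd j f) ≤ v (pt ym top) ^ 9 * v f

structure Ow (v : Valuation kk Γ) (O : ValuationSubring Kb) : Prop where
  C_mem : ∀ c : ℂ, algebraMap ℂ Kb c ∈ O
  refine : ∀ c c', v c < v c' →
    O.valuation (algebraMap kk Kb c) < O.valuation (algebraMap kk Kb c')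
  aniso : ∀ a c, c ≠ 0 → sgK a c = -c → O.valuation (algebraMap kk Kb c) ≠ 1

end

def SlcStmt : Prop := ∀ h, Lnd h → ∃ (Γ : Type) (_ : LinearOrderedCommGroupWithZero Γ)
  (v : Valuation kk Γ) (F : Subfield kk) (top : I9), Res v F ∧ Top v top ∧
  ∀ l, l ≠ oo → v (algebraMap Py kk (h l)) ≤ 1

def OwStmt : Prop := ∀ (Γ : Type) [LinearOrderedCommGroupWithZero Γ] (v : Valuation kk Γ)
  (F : Subfield kk), Res v F → ∃ O, Ow v O

/-! ### anisotropy and diagonalisation -/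

def yK : M3 Kb := ym.map (algebraMap kk Kb)

structure Newton {K : Type} [Field K] (O : ValuationSubring K) (y : M3 K) : Prop where
  y_le : ∀ i j, O.valuation (y i j) ^ 2 ≤ O.valuation (z2 y)
  adj_le : ∀ i j, O.valuation (y.adjugate i j) ^ 2 ≤ O.valuation (z4 y)
  lt1 : O.valuation (z4 y) < O.valuation (z2 y) ^ 2
  lt2 : O.valuation (zt y) * O.valuation (z2 y) < O.valuation (z4 y) ^ 2
  det_ne : y.det ≠ 0

def ParStmt : Prop := ∀ O : ValuationSubring Kb, (∀ c : ℂ, algebraMap ℂ Kb c ∈ O) →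
  (∀ a c, c ≠ 0 → sgK a c = -c → O.valuation (algebraMap kk Kb c) ≠ 1) →
  Newton O yK ∧ ∀ (q : MvPolynomial (Fin 3) ℂ) (n : ℕ), IsWeightedHomogeneous w3 q n →
    ∀ η ∈ q.support, O.valuation (∏ i, zz yK i ^ η i) ≤ O.valuation (aeval (zz yK) q)

def IntV {K : Type} [Field K] (O : ValuationSubring K) (u : Fin 3 → K) : Prop := ∀ i, u i ∈ O
/-- integral of determinant one -/
def IntM {K : Type} [Field K] (O : ValuationSubring K) (k : M2 K) : Prop :=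
  (∀ i j, k i j ∈ O) ∧ k.det = 1
def ip {R : Type} [CommRing R] (u w : Fin 3 → R) : R := u ⬝ᵥ (eta *ᵥ w)
/-- a signed permutation of a triple -/
def sp {R : Type} [CommRing R] (w : Equiv.Perm (Fin 3) × (Fin 3 → ℤˣ)) (s : Fin 3 → R) :
    Fin 3 → R := fun i => ((w.2 i : ℤ) : R) * s (w.1 i)

/-- a property of all algebraically closed valued fields over `ℂ` -/
def AllK (P : ∀ (K : Type) [Field K] [Algebra ℂ K], ValuationSubring K → Prop) : Prop :=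
  ∀ (K : Type) [Field K] [Algebra ℂ K] [IsAlgClosed K] (O : ValuationSubring K),
    (∀ c : ℂ, algebraMap ℂ K c ∈ O) → P K O

def Diag1Stmt : Prop := AllK fun K _ _ O => ∀ y : M3 K, Newton O y →
  ∃ (s : Fin 3 → K) (u w : Fin 3 → Fin 3 → K), ee s = zz y ∧ (∀ i, IntV O (u i) ∧ IntV O (w i)) ∧
    (∀ i j, ip (u i) (u j) = if i = j then 1 else 0) ∧
    (∀ i j, ip (w i) (w j) = if i = j then 1 else 0) ∧
    (∀ i, (y * eta) *ᵥ w i = s i • u i) ∧ ∀ i, (yᵀ * eta) *ᵥ u i = s i • w i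

def PauliStmt : Prop := AllK fun K _ _ O => ∀ a b : Fin 3 → K, IntV O a → IntV O b →
  ip a a = 1 → ip b b = 1 → ip a b = 0 →
  ∃ k, IntM O k ∧ Ad k *ᵥ Pi.single 0 1 = a ∧ Ad k *ᵥ Pi.single 2 1 = b

def UnipStmt : Prop := ∀ (K : Type) [Field K] (O : ValuationSubring K) (k : M2 K), IntM O k →
  ∃ s : Fin 4 → K, (∀ i, s i ∈ O) ∧ k = uu s

def IsDiag {K : Type} [Field K] [Algebra ℂ K] (O : ValuationSubring K) (y : M3 K)
    (s : Fin 3 → K) : Prop := ee s = zz y ∧ ∀ w, ∃ k₁ k₂, IntM O k₁ ∧ IntM O k₂ ∧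
  (Ad k₁ * y * (Ad k₂)ᵀ = diagonal (sp w s) ∨ Ad k₁ * y * (Ad k₂)ᵀ = -diagonal (sp w s))

def DiagStmt : Prop := AllK fun K _ _ O => ∀ y : M3 K, Newton O y → ∃ s, IsDiag O y s

/-! ### weights -/

def tsub {S : Type} [CommRing S] [Algebra ℂ S] (l : ℂ) :
    MvPolynomial Kv S →ₐ[S] MvPolynomial Kv S :=
  aeval fun t => algebraMap ℂ (MvPolynomial Kv S) (l ^ wt t) * X t

structure WStmt : Prop where
  interp : ∀ (R₀ : ℕ) (M : ℤ), ∃ (n : ℕ) (c l : Fin n → ℂ), (∀ i, l i ≠ 0) ∧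
    ∀ (S : Type) [CommRing S] [Algebra ℂ S] (F : MvPolynomial Kv S), F.totalDegree ≤ R₀ →
      weightedHomogeneousComponent wt M F = ∑ i, c i • tsub (l i) F
  eval_tsub : ∀ (S E : Type) [CommRing S] [Algebra ℂ S] [CommRing E] [Algebra ℂ E]
    (ψ : S →ₐ[ℂ] E) (k : M2 E) (l : ℂ) (F : MvPolynomial Kv S),
    eval₂ (ψ : S →+* E) (pk k) (tsub l F) =
      eval₂ (ψ : S →+* E) (pk (k * (tor l).map (algebraMap ℂ E))) F
  eval_hom : ∀ (S E : Type) [CommRing S] [Field E] (ψ : S →+* E) (k : M2 E) (l : E), l ≠ 0 →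
    ∀ (F : MvPolynomial Kv S) (M : ℤ), IsWeightedHomogeneous wt F M →
      eval₂ ψ (pk (k * tor l)) F = l ^ M * eval₂ ψ (pk k) F
  eigen : ∀ (S : Type) [CommRing S] [Algebra ℂ S] (F : MvPolynomial Kv S) (M : ℤ),
    IsWeightedHomogeneous wt F M ↔ tsub 2 F = (2 : ℂ) ^ M • F
  comp_sum : ∀ (f : Py) (M : ℤ), ∃ (n : ℕ) (c l : Fin n → ℂ), (∀ i, l i ≠ 0) ∧ ∀ k : M2 ℂ,
    comp M f k = ∑ i, c i • aeval (pt ((Ad (k * tor (l i))).map C * (Ym : M3 Py))) f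

def un {R : Type} [CommRing R] (b : Bool) (s : R) : M2 R := if b then up s else um s
/-- `f (Ad (un b s) * y)` as a polynomial in `s` -/
def psi (b : Bool) (f : Py) : Polynomial Py :=
  aeval (pt (Ad (un b Polynomial.X) * (Ym : M3 Py).map Polynomial.C)) f

/-- the infinitesimal generator of `Ad (un b s)` -/
def Nn {R : Type} [CommRing R] (b : Bool) : M3 R :=
  if b then !![0, 0, -1; 0, 0, -1; 1, -1, 0] else !![0, 0, 1; 0, 0, -1; -1, -1, 0]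
def vf (b : Bool) (f : Py) : Py := ∑ j, pt (Nn b * (Ym : M3 Py)) j * pderiv j f

def XStmt : Prop := ∀ b f,
  Polynomial.derivative (psi b f) = psi b (vf b f) ∧ (psi b f).coeff 0 = f

structure D1Stmt : Prop where
  ex : ∀ f, ∃ M, Bound f M
  deg : ∀ f M b, Bound f M → (psi b f).natDegree ≤ M
  left : ∀ f M b j, Bound f M → Bound ((psi b f).coeff j) M
  right : ∀ f M b j, Bound (trP f) M → Bound (trP ((psi b f).coeff j)) M

def TayStmt : Prop := ∀ (Γ : Type) [LinearOrderedCommGroupWithZero Γ] (v : Valuation kk Γ)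
  (top : I9), Top v top → ∀ b f j,
  v (algebraMap Py kk ((psi b f).coeff j)) ≤ v (pt ym top) ^ (10 * j) * v (algebraMap Py kk f) ∧
  v (algebraMap Py kk (trP ((psi b (trP f)).coeff j))) ≤
    v (pt ym top) ^ (10 * j) * v (algebraMap Py kk f)

def D2Stmt : Prop := ∀ (Γ : Type) [LinearOrderedCommGroupWithZero Γ] (v : Valuation kk Γ)
  (top : I9) (O : ValuationSubring Kb), Top v top → Ow v O → ∀ (f : Py) (M : ℕ), Bound f M →
  Bound (trP f) M → v (algebraMap Py kk f) ≤ 1 → ∀ k₁ k₂, IntM O k₁ → IntM O k₂ →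
  O.valuation (aeval (pt (Ad k₁ * yK * (Ad k₂)ᵀ)) f) < O.valuation (pt yK top) ^ (80 * M + 1)

def D3Stmt : Prop := ∀ h, del h ≠ 0 → ∃ l, l ≠ oo ∧ ¬Bound (h l) 0

def CellStmt : Prop := ∀ (f : Py) (M : ℕ), Bound f (M + 1) → ¬Bound f M →
  ∃ s₁ s₂ : ℂ, comp ((M : ℤ) + 1) f (um s₁ * up s₂) ≠ 0

def DensStmt : Prop := ∀ (O : ValuationSubring Kb) (s : Fin 3 → Kb), IsDiag O yK s →
  ∀ f : Py, f ≠ 0 → ∃ k₁ k₂ : M2 ℂ, k₁.det = 1 ∧ k₂.det = 1 ∧ aeval (pt (slc k₁ k₂)) f ≠ 0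

/-! ### charge -/

def E1Stmt : Prop := ∀ (S : Type) [CommRing S] [IsDomain S] [Algebra ℂ S] (a b : S), a ≠ 0 →
  b ≠ 0 → ∀ (Ξ : MvPolynomial Kv (MvPolynomial (Fin 2) S)) (M : ℤ),
  IsWeightedHomogeneous wt Ξ M → ∀ (Ψ : MvPolynomial (Fin 2) (MvPolynomial (Fin 2) S)) (R : ℕ),
  Ψ ≠ 0 → (∀ (E : Type) [Field E] [Algebra ℂ E] (j : S →ₐ[ℂ] E) (x y s₁ s₂ : E),
    1 - (j b * y) ^ 2 ≠ 0 → eval₂ (eval₂Hom (j : S →+* E) ![s₁, s₂]) ![x, y] Ψ =
      (1 - (j b * y) ^ 2) ^ R * eval₂ (eval₂Hom (j : S →+* E) ![x, y])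
        (pk (gm (j a * x) (j b * y) * (um s₁ * up s₂))) Ξ) →
  M + 4 * R ≤ 2 * (Ψ.totalDegree : ℤ)

/-- the shifted symmetric functions -/
def ees {R : Type} [CommRing R] (c : ℤ) (s : Fin 3 → R) : Fin 3 → R :=
  ![ee s 0, ee s 1, ee s 2 - (c : R) * ee s 0 ^ 3]

def SymStmt : Prop := ∀ (S : Type) [CommRing S] [Algebra ℂ S] (c : ℤ),
  (∀ p : MvPolynomial (Fin 3) S, ∃ q : MvPolynomial (Fin 3) S,
    aeval (ees c (X : Fin 3 → MvPolynomial (Fin 3) S)) q = Nm p) ∧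
  Function.Injective (aeval (ees c (X : Fin 3 → MvPolynomial (Fin 3) S)) :
    MvPolynomial (Fin 3) S →ₐ[S] MvPolynomial (Fin 3) S) ∧
  ∀ (q : MvPolynomial (Fin 3) S) (n : ℕ),
    homogeneousComponent (2 * n) (aeval (ees c (X : Fin 3 → MvPolynomial (Fin 3) S)) q) =
      aeval (ees c (X : Fin 3 → MvPolynomial (Fin 3) S)) (weightedHomogeneousComponent w3 n q)

def ResStmt : Prop := ∀ (S : Type) [CommRing S] [IsDomain S] [Algebra ℂ S] (a b : S), a ≠ 0 →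
  b ≠ 0 → ∀ (Ξ : MvPolynomial (Fin 3) (MvPolynomial Kv S)) (M : ℤ),
  (∀ η, IsWeightedHomogeneous wt (coeff η Ξ) M) → ∃ R₀ : ℕ, ∀ R ≥ R₀,
  ∃ Ψ : MvPolynomial (Fin 3) (MvPolynomial (Fin 2) S),
    (∀ (E : Type) [Field E] [Algebra ℂ E] (j : S →ₐ[ℂ] E) (e : Fin 3 → E) (s₁ s₂ : E),
      1 - (j b * e 2 ^ (2 * NN)) ^ 2 ≠ 0 → eval₂ (eval₂Hom (j : S →+* E) ![s₁, s₂]) e Ψ =
        (1 - (j b * e 2 ^ (2 * NN)) ^ 2) ^ R * eval₂ (eval₂Hom (j : S →+* E)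
          (pk (gm (j a * e 1 ^ (3 * NN)) (j b * e 2 ^ (2 * NN)) * (um s₁ * up s₂)))) e Ξ) ∧
    ∀ W : ℕ, (∀ η ∈ Ψ.support, Finsupp.weight w3 η ≤ W) → ∀ η ∈ Ψ.support,
      Finsupp.weight w3 η = W → M + 4 * R ≤ 2 * ((η 1 / (3 * NN) + η 2 / (2 * NN) : ℕ) : ℤ)

/-- the coefficient of a root monomial -/
def cx {τ : Type} (κ : Fin 4 →₀ ℕ) (φ : MvPolynomial τ Rt) : MvPolynomial τ ℂ :=
  ∑ η ∈ φ.support, monomial η (coeff κ (coeff η φ))

structure ALeadStmt : Prop where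
  coeff_cx : ∀ {τ : Type} κ (φ : MvPolynomial τ Rt) η, coeff η (cx κ φ) = coeff κ (coeff η φ)
  cx_aeval : ∀ {τ τ' : Type} κ (φ : MvPolynomial τ Rt) (g : τ → MvPolynomial τ' ℂ),
    cx κ (aeval (fun t => map (C : ℂ →+* Rt) (g t)) φ) = aeval g (cx κ φ)
  mul : ∀ {τ : Type} {φ φ' : MvPolynomial τ Rt} {κ κ' ψ ψ'}, ALead φ κ ψ → ALead φ' κ' ψ' →
    ALead (φ * φ') (κ + κ') (ψ * ψ')
  add : ∀ {τ : Type} {φ φ' : MvPolynomial τ Rt} {κ ψ ψ'}, ALead φ κ ψ → ALead φ' κ ψ' →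
    ALead (φ + φ') κ (ψ + ψ')
  smul : ∀ {τ : Type} {φ : MvPolynomial τ Rt} {κ ψ} (c : ℂ), ALead φ κ ψ → ALead (c • φ) κ (c • ψ)
  nat : ∀ {τ τ' : Type} {φ : MvPolynomial τ Rt} {κ ψ} (g : τ → MvPolynomial τ' ℂ), ALead φ κ ψ →
    ALead (aeval (fun t => map (C : ℂ →+* Rt) (g t)) φ) κ (aeval g ψ)
  const : ∀ {τ : Type} (ψ : MvPolynomial τ ℂ), ALead (map (C : ℂ →+* Rt) ψ) 0 ψ
  root : ∀ {τ : Type} (i : Fin 4), ALead (C (X i) : MvPolynomial τ Rt) (Finsupp.single i 1) 1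

/-- the weight `M` part of `h`, restricted to a slice -/
def lam (M : ℤ) (h : Py) (s₁ s₂ : ℂ) (k₁ k₂ : M2 ℂ) : MvPolynomial (Fin 3) ℂ :=
  aeval (pt (slc k₁ k₂)) (comp M h (um s₁ * up s₂))

def PrepStmt : Prop := ∀ (c : ℤ) (i₁ i₂ i₃ i₄ : Fin 4) (h : Py), IsLc c i₁ i₂ i₃ i₄ h →
  ∀ (M : ℤ) (s₁ s₂ : ℂ) (k₁ k₂ : M2 ℂ), k₁.det = 1 → k₂.det = 1 →
  ∃ (r a W : ℕ) (ε : ℂ) (κ : Fin 4 →₀ ℕ) (F : MvPolynomial (Fin 3) (MvPolynomial Kv Rt))
    (P : MvPolynomial (Fin 3) (MvPolynomial (Fin 2) Rt)), ε ≠ 0 ∧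
    (∀ η, IsWeightedHomogeneous wt (coeff η F) M) ∧
    (∀ (E : Type) [Field E] [Algebra ℂ E] (ρ : Fin 4 → E) (σ : Fin 3 → E) (t₁ t₂ : E),
      nn c (ρ i₂) (ρ i₄) (diagonal σ) ≠ 0 →
      eval₂ (eval₂Hom (aeval ρ : Rt →ₐ[ℂ] E) ![t₁, t₂]) σ P =
        (1 - (ρ i₂ * yy c (diagonal σ)) ^ 2) ^ r * eval₂ (eval₂Hom (aeval ρ : Rt →ₐ[ℂ] E)
          (pk (gm (ρ i₁ * xx (diagonal σ)) (ρ i₂ * yy c (diagonal σ)) * (um t₁ * up t₂)))) σ F) ∧
    P.totalDegree ≤ W ∧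
    ALead (map (eval ![C s₁, C s₂]) (homogeneousComponent W P)) κ
      (C ε * yy c (diagonal X) ^ (2 * r) * yy (-c) (diagonal X) ^ a * lam M h s₁ s₂ k₁ k₂)

def E2Stmt : Prop := ∀ (c : ℤ) (i₁ i₂ i₃ i₄ : Fin 4) (h : Py), IsLc c i₁ i₂ i₃ i₄ h →
  ∀ (M : ℕ) (s₁ s₂ : ℂ) (k₁ k₂ : M2 ℂ), k₁.det = 1 → k₂.det = 1 → ∀ q : MvPolynomial (Fin 3) ℂ,
  aeval (ees c (X : Fin 3 → MvPolynomial (Fin 3) ℂ)) q = Nm (lam M h s₁ s₂ k₁ k₂) →
  ∃ a : ℕ, ∀ η ∈ ((X 2 + 2 * (c : MvPolynomial (Fin 3) ℂ) * X 0 ^ 3) ^ a * q).support,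
    24 * M ≤ η 1 / (3 * NN) + η 2 / (2 * NN)

def E3Stmt : Prop := ∀ (c : ℤ), c = 1 ∨ c = -1 → ∀ (q : MvPolynomial (Fin 3) ℂ) (n M a : ℕ),
  q ≠ 0 → IsWeightedHomogeneous w3 q n →
  (∀ η ∈ ((X 2 + 2 * (c : MvPolynomial (Fin 3) ℂ) * X 0 ^ 3) ^ a *
      aeval ![X 0, X 1, X 2 + (c : MvPolynomial (Fin 3) ℂ) * X 0 ^ 3] q).support,
    24 * M ≤ η 1 / (3 * NN) + η 2 / (2 * NN)) → ∃ η ∈ q.support, 72 * NN * M ≤ 2 * η 0 + η 1

def ChargeStmt : Prop := ∀ (c : ℤ), c = 1 ∨ c = -1 → ∀ (i₁ i₂ i₃ i₄ : Fin 4) (h : Py) (e : ℕ),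
  IsLc c i₁ i₂ i₃ i₄ h → h.IsHomogeneous e → ∀ (M : ℕ) (s₁ s₂ : ℂ) (k₁ k₂ : M2 ℂ), k₁.det = 1 →
  k₂.det = 1 → lam M h s₁ s₂ k₁ k₂ ≠ 0 → ∃ (q : MvPolynomial (Fin 3) ℂ) (n : ℕ),
    aeval (ee (X : Fin 3 → MvPolynomial (Fin 3) ℂ)) q = Nm (lam M h s₁ s₂ k₁ k₂) ∧
    IsWeightedHomogeneous w3 q n ∧ ∃ η ∈ q.support, 72 * NN * M ≤ 2 * η 0 + η 1

/-! ### the contradiction -/

def TrLcStmt : Prop := ∀ h, IsLc 1 0 1 2 3 h → IsLc (-1) 2 3 0 1 (trP h)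

/-- all integral translates of `f` at the signed permutations of `s` are small -/
def TB (O : ValuationSubring Kb) (top : I9) (s : Fin 3 → Kb) (f : Py) (M : ℕ) : Prop :=
  ∀ w k₁ k₂, IntM O k₁ → IntM O k₂ →
    O.valuation (aeval (pt (Ad k₁ * diagonal (sp w s) * (Ad k₂)ᵀ)) f) <
      O.valuation (pt yK top) ^ (80 * M + 1)

def CoreStmt : Prop := ∀ (Γ : Type) [LinearOrderedCommGroupWithZero Γ] (v : Valuation kk Γ)
  (top : I9) (O : ValuationSubring Kb), Top v top → Ow v O → ∀ s, IsDiag O yK s →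
  ∀ (c : ℤ), c = 1 ∨ c = -1 → ∀ (i₁ i₂ i₃ i₄ : Fin 4) (f : Py) (e : ℕ), IsLc c i₁ i₂ i₃ i₄ f →
  f.IsHomogeneous e → ∀ M : ℕ, Bound f (M + 1) → ¬Bound f M → ¬TB O top s f (M + 1)

def FinStmt : Prop := ∀ h, ¬Lnd h

end Pool.Agent.MP_0f1eb7_ag.Cyl

end
end MrgPart0

-- ======== part 1: formerly Pool.Agent.MP_0f1eb7_ag.cyl.Th
section MrgPart1

/-! The four involutions commute, the twisted evaluation is equivariant, and the twisted ring
contains the basic elements. -/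

set_option autoImplicit false

noncomputable section

namespace Pool.Agent.MP_0f1eb7_ag.Cyl

open MvPolynomial Matrix

namespace ThP

section Ring
variable {R S : Type} [CommRing R] [CommRing S] [Algebra ℂ R] [Algebra ℂ S]

def Gm (u v : R) : M3 R := -Ad (cm u v)
def Hm (R : Type) [CommRing R] : M3 R := diagonal fun i => (sB i : R)
def Km' (R : Type) [CommRing R] : M3 R := diagonal fun i => (sA i : R)
def Lm (a : Fin 4) (r : Fin 4 → R) (u v : R) : M3 R := ![Gm (r 0 * u) (r 1 * v), Hm R, 1, 1] a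
def Rm (a : Fin 4) (r : Fin 4 → R) (u v : R) : M3 R := ![1, 1, Gm (r 2 * u) (r 3 * v), Hm R] a
def flp (a : Fin 4) (r : Fin 4 → R) : Fin 4 → R := fun j => (flip a j : R) * r j
def act (a : Fin 4) (r : Fin 4 → R) (y : M3 R) : M3 R :=
  Lm a r (xx y) (yy 1 y) * y * (Rm a r (xx y) (yy (-1) y))ᵀ

theorem isSO_Gm (u v : R) : IsSO (Gm u v) := isSO_neg_Ad (det_cm u v)

omit [Algebra ℂ R] in
theorem isSO_Hm : IsSO (Hm R) := isSO_diag_sB

omit [Algebra ℂ R] in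
theorem isSO_Km : IsSO (Km' R) := isSO_diag_sA

theorem isSO_Lm (a : Fin 4) (r : Fin 4 → R) (u v : R) : IsSO (Lm a r u v) := by
  fin_cases a
  · exact isSO_Gm _ _
  · exact isSO_Hm
  · exact IsSO.one
  · exact IsSO.one

theorem isSO_Rm (a : Fin 4) (r : Fin 4 → R) (u v : R) : IsSO (Rm a r u v) := by
  fin_cases a
  · exact IsSO.one
  · exact IsSO.one
  · exact isSO_Gm _ _
  · exact isSO_Hm

theorem Hm_eq : Hm R = -Ad sz := Ad_sz.symm
theorem Km_eq : Km' R = -Ad sx := Ad_sx.symm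

theorem GG (u v : R) : Gm (-u) v * Gm u v = 1 := by
  rw [Gm, Gm, neg_mul_neg, ← Ad_mul, cm_cm, Ad_one]

omit [Algebra ℂ R] in
theorem HH : Hm R * Hm R = 1 := by
  ext i j; fin_cases i <;> fin_cases j <;> simp [Hm, sB, diagonal_mul_diagonal]

theorem GH (u v : R) : Gm u (-v) * Hm R = Hm R * Gm u v := by
  rw [Hm_eq, Gm, Gm, neg_mul_neg, neg_mul_neg, ← Ad_mul, ← Ad_mul, cm_sz, Ad_neg]

omit [Algebra ℂ R] in
theorem Hm_tr : (Hm R)ᵀ = Hm R := diagonal_transpose _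

omit [Algebra ℂ R] in
theorem Km_tr : (Km' R)ᵀ = Km' R := diagonal_transpose _

theorem Gm_map (φ : R →ₐ[ℂ] S) (u v : R) : (Gm u v).map φ = Gm (φ u) (φ v) := by
  rw [Gm, Gm, ← cm_map, Ad_map]
  ext i j; simp

theorem Hm_map (φ : R →ₐ[ℂ] S) : (Hm R).map φ = Hm S := by
  ext i j; fin_cases i <;> fin_cases j <;> simp [Hm, sB]

theorem one_map (φ : R →ₐ[ℂ] S) : (1 : M3 R).map φ = 1 :=
  Matrix.map_one _ (map_zero φ) (map_one φ)

theorem mul_map (φ : R →ₐ[ℂ] S) (A B : M3 R) : (A * B).map φ = A.map φ * B.map φ :=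
  Matrix.map_mul (f := φ)

theorem Lm_map (φ : R →ₐ[ℂ] S) (a : Fin 4) (r : Fin 4 → R) (u v : R) :
    (Lm a r u v).map φ = Lm a (fun j => φ (r j)) (φ u) (φ v) := by
  fin_cases a
  · simp [Lm, Gm_map]
  · simp [Lm, Hm_map]
  · simp [Lm, one_map]
  · simp [Lm, one_map]

theorem Rm_map (φ : R →ₐ[ℂ] S) (a : Fin 4) (r : Fin 4 → R) (u v : R) :
    (Rm a r u v).map φ = Rm a (fun j => φ (r j)) (φ u) (φ v) := by
  fin_cases a
  · simp [Rm, one_map]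
  · simp [Rm, one_map]
  · simp [Rm, Gm_map]
  · simp [Rm, Hm_map]

theorem act_map (φ : R →ₐ[ℂ] S) (a : Fin 4) (r : Fin 4 → R) (y : M3 R) :
    (act a r y).map φ = act a (fun j => φ (r j)) (y.map φ) := by
  rw [act, act, mul_map, mul_map, transpose_map, Lm_map, Rm_map, xx_map, yy_map, yy_map]

theorem xx_act' (a : Fin 4) (r : Fin 4 → R) (y : M3 R) : xx (act a r y) = xx y :=
  xx_act (isSO_Lm _ _ _ _) (isSO_Rm _ _ _ _) y

theorem yy_act' (c : ℤ) (a : Fin 4) (r : Fin 4 → R) (y : M3 R) : yy c (act a r y) = yy c y :=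
  yy_act (isSO_Lm _ _ _ _) (isSO_Rm _ _ _ _) c y

theorem act_act (a b : Fin 4) (r r' : Fin 4 → R) (y : M3 R) : act b r' (act a r y) =
    (Lm b r' (xx y) (yy 1 y) * Lm a r (xx y) (yy 1 y)) * y *
      (Rm b r' (xx y) (yy (-1) y) * Rm a r (xx y) (yy (-1) y))ᵀ := by
  conv_lhs => rw [act, xx_act', yy_act', yy_act', act]
  rw [transpose_mul]
  simp only [Matrix.mul_assoc]

theorem Lm_self (a : Fin 4) (r : Fin 4 → R) (u v : R) : Lm a (flp a r) u v * Lm a r u v = 1 := by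
  fin_cases a <;> simp [Lm, flp, flip, GG, HH]

theorem Rm_self (a : Fin 4) (r : Fin 4 → R) (u v : R) : Rm a (flp a r) u v * Rm a r u v = 1 := by
  fin_cases a <;> simp [Rm, flp, flip, GG, HH]

theorem Lm_comm (a b : Fin 4) (r : Fin 4 → R) (u v : R) :
    Lm b (flp a r) u v * Lm a r u v = Lm a (flp b r) u v * Lm b r u v := by
  fin_cases a <;> fin_cases b <;> simp [Lm, flp, flip, GH]

theorem Rm_comm (a b : Fin 4) (r : Fin 4 → R) (u v : R) :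
    Rm b (flp a r) u v * Rm a r u v = Rm a (flp b r) u v * Rm b r u v := by
  fin_cases a <;> fin_cases b <;> simp [Rm, flp, flip, GH]

omit [Algebra ℂ R] in
theorem flp_self (a : Fin 4) (r : Fin 4 → R) : flp a (flp a r) = r := by
  funext j
  simp only [flp, flip]
  split_ifs <;> simp

omit [Algebra ℂ R] in
theorem flp_comm (a b : Fin 4) (r : Fin 4 → R) : flp b (flp a r) = flp a (flp b r) := by
  funext j
  simp only [flp]
  ring

theorem thY_eq (a : Fin 4) : thY a = act a rt Ym := by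
  fin_cases a <;> simp [thY, act, Lm, Rm, Gm, Hm]

theorem th_eq (a : Fin 4) : th a = evA (flp a rt) (act a rt Ym) := by
  rw [th, thY_eq]; rfl

theorem ev_th (r : Fin 4 → R) (y : M3 R) (a : Fin 4) (f : Ap) :
    evA r y (th a f) = evA (flp a r) (act a r y) f := by
  rw [th_eq, comp_evA, act_map, evA_Ym]
  have e1 : (fun j => evA r y (flp a rt j)) = flp a r := by
    funext j; simp [flp, evA_rt]
  have e2 : (fun j => evA r y (rt j)) = r := by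
    funext j; exact evA_rt r y j
  rw [e1, e2]

theorem evA_id (f : Ap) : evA rt Ym f = f := by
  have : (evA rt Ym : Ap →ₐ[ℂ] Ap) = AlgHom.id ℂ Ap :=
    algHom_ext_Ap (fun j => by simp [evA_rt]) (fun ij => by simp [evA_X, Ym])
  rw [this]; rfl

end Ring

section Field
variable {E : Type} [Field E] [Algebra ℂ E]

theorem gm_map (τ : E →ₐ[ℂ] E) (u v : E) : (gm u v).map τ = gm (τ u) (τ v) := by
  rw [gm, gm, ← gt_map]
  ext i j; simp

theorem gm_K (u v : E) : Ad (gm (-u) v) * Km' E = Gm u v * Ad (gm u v) := by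
  rw [Km_eq, Gm, Matrix.mul_neg, Matrix.neg_mul, ← Ad_mul, ← Ad_mul, gm, gm, Matrix.smul_mul,
    Matrix.mul_smul, gt_sx]

theorem gm_H (u v : E) : Ad (gm u (-v)) * Hm E = Hm E * Ad (gm u v) := by
  rw [Hm_eq, Matrix.mul_neg, Matrix.neg_mul, ← Ad_mul, ← Ad_mul, gm, gm, Matrix.smul_mul,
    Matrix.mul_smul, gt_sz, neg_sq]

/-- the left and right sign matrices -/
def sL (E : Type) [Field E] (a : Fin 4) : M3 E := ![Km' E, Hm E, 1, 1] a
def sR (E : Type) [Field E] (a : Fin 4) : M3 E := ![1, 1, Km' E, Hm E] a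

omit [Algebra ℂ E] in
theorem isSO_sL (a : Fin 4) : IsSO (sL E a) := by
  fin_cases a
  · exact isSO_Km
  · exact isSO_Hm
  · exact IsSO.one
  · exact IsSO.one

omit [Algebra ℂ E] in
theorem isSO_sR (a : Fin 4) : IsSO (sR E a) := by
  fin_cases a
  · exact IsSO.one
  · exact IsSO.one
  · exact isSO_Km
  · exact isSO_Hm

theorem map_eq (τ : E →ₐ[ℂ] E) (a : Fin 4) (y : M3 E)
    (h : ∀ ij, τ (pt y ij) = (chi a ij : E) * pt y ij) : y.map τ = sL E a * y * (sR E a)ᵀ := by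
  ext i j
  have := h (i, j)
  simp only [pt] at this
  rw [map_apply, this]
  fin_cases a <;> simp [chi, sL, sR, Km', Hm, mul_comm]

theorem L_tw (a : Fin 4) (r : Fin 4 → E) (u v : E) :
    Ad (gm (flp a r 0 * u) (flp a r 1 * v)) * sL E a =
      Lm a r u v * Ad (gm (r 0 * u) (r 1 * v)) := by
  fin_cases a <;> simp [flp, flip, sL, Lm, gm_K, gm_H]

theorem R_tw (a : Fin 4) (r : Fin 4 → E) (u v : E) :
    Ad (gm (flp a r 2 * u) (flp a r 3 * v)) * sR E a =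
      Rm a r u v * Ad (gm (r 2 * u) (r 3 * v)) := by
  fin_cases a <;> simp [flp, flip, sR, Rm, gm_K, gm_H]

theorem twr_eq (r : Fin 4 → E) (y : M3 E) : twr r y =
    Ad (gm (r 0 * xx y) (r 1 * yy 1 y)) * y * (Ad (gm (r 2 * xx y) (r 3 * yy (-1) y)))ᵀ := rfl

omit [Algebra ℂ E] in
theorem nn_left {r : Fin 4 → E} {y : M3 E} (h : nn 1 (r 1) (r 3) y ≠ 0) :
    1 - (r 1 * yy 1 y) ^ 2 ≠ 0 := left_ne_zero_of_mul h

omit [Algebra ℂ E] in
theorem nn_right {r : Fin 4 → E} {y : M3 E} (h : nn 1 (r 1) (r 3) y ≠ 0) :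
    1 - (r 3 * yy (-1) y) ^ 2 ≠ 0 := right_ne_zero_of_mul h

theorem xx_twr {r : Fin 4 → E} {y : M3 E} (h : nn 1 (r 1) (r 3) y ≠ 0) : xx (twr r y) = xx y :=
  xx_act (isSO_Ad (det_gm (nn_left h))) (isSO_Ad (det_gm (nn_right h))) y

theorem yy_twr {r : Fin 4 → E} {y : M3 E} (h : nn 1 (r 1) (r 3) y ≠ 0) (c : ℤ) :
    yy c (twr r y) = yy c y :=
  yy_act (isSO_Ad (det_gm (nn_left h))) (isSO_Ad (det_gm (nn_right h))) c y

theorem det_twr {r : Fin 4 → E} {y : M3 E} (h : nn 1 (r 1) (r 3) y ≠ 0) :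
    (twr r y).det = y.det :=
  det_act (isSO_Ad (det_gm (nn_left h))) (isSO_Ad (det_gm (nn_right h))) y

theorem twr_map (τ : E →ₐ[ℂ] E) (r : Fin 4 → E) (y : M3 E) :
    (twr r y).map τ = twr (fun j => τ (r j)) (y.map τ) := by
  rw [twr_eq, twr_eq, mul_map, mul_map, transpose_map, ← Ad_map, ← Ad_map, gm_map, gm_map,
    xx_map, yy_map, yy_map]
  simp only [map_mul]

theorem adj_gm {u v : E} (h : 1 - v ^ 2 ≠ 0) :
    Ad (gt u v).adjugate * Ad (gm u v) = (1 - v ^ 2) ^ 2 • (1 : M3 E) := by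
  have : (gt u v).adjugate * gm u v = (1 - v ^ 2) • (1 : M2 E) := by
    rw [gm, Matrix.mul_smul, adjugate_mul, det_gt, smul_smul]
    congr 1
    field_simp
  rw [← Ad_mul, this, Ad_smul, Ad_one]

end Field

end ThP

open ThP

theorem thS : ThStmt := by
  refine ⟨fun a f => ?_, fun a b f => ?_⟩
  · have := ev_th (flp a rt) (act a rt Ym) a f
    rw [← th_eq a, act_act, Lm_self, Rm_self, flp_self] at this
    rw [this]
    simp [evA_id]
  · have h1 := ev_th (flp a rt) (act a rt Ym) b f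
    have h2 := ev_th (flp b rt) (act b rt Ym) a f
    rw [← th_eq a, act_act] at h1
    rw [← th_eq b, act_act] at h2
    rw [h1, h2, Lm_comm, Rm_comm, flp_comm]

theorem eqv : EqvStmt := by
  intro E _ _ τ a r y hr hy hn f
  have e1 : (fun j => τ (r j)) = flp a r := funext hr
  have e2 := map_eq τ a y hy
  rw [comp_evA, ev_th, twr_map, e1]
  congr 2
  rw [act, xx_twr hn, yy_twr hn, yy_twr hn, twr_eq, twr_eq, e2, xx_act (isSO_sL a) (isSO_sR a),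
    yy_act (isSO_sL a) (isSO_sR a), yy_act (isSO_sL a) (isSO_sR a)]
  have hL := L_tw a r (xx y) (yy 1 y)
  have hR := congrArg transpose (R_tw a r (xx y) (yy (-1) y))
  rw [transpose_mul, transpose_mul] at hR
  calc _ = (Ad (gm (flp a r 0 * xx y) (flp a r 1 * yy 1 y)) * sL E a) * y *
        ((sR E a)ᵀ * (Ad (gm (flp a r 2 * xx y) (flp a r 3 * yy (-1) y)))ᵀ) := by
        simp only [Matrix.mul_assoc]
    _ = _ := by rw [hL, hR]; simp only [Matrix.mul_assoc]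

theorem gen : GenStmt := by
  intro E _ _ r y hn
  have hx : evA r (twr r y) (xx Ym) = xx y := by rw [← xx_map, evA_Ym, xx_twr hn]
  have hy : ∀ c, evA r (twr r y) (yy c Ym) = yy c y := fun c => by
    rw [← yy_map, evA_Ym, yy_twr hn]
  refine ⟨fun ij => ?_, ⟨(1 - (rt 1 * yy 1 Ym) ^ 2) * (1 - (rt 3 * yy (-1) Ym) ^ 2), ?_⟩,
    ⟨(Ym : M3 Ap).det, ?_⟩, fun c => ⟨yy c Ym, hy c⟩⟩
  · refine ⟨pt (Ad (gt (rt 0 * xx Ym) (rt 1 * yy 1 Ym)).adjugate * Ym *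
      (Ad (gt (rt 2 * xx Ym) (rt 3 * yy (-1) Ym)).adjugate)ᵀ) ij, ?_⟩
    have ha : ∀ k : M2 Ap, k.adjugate.map (evA r (twr r y)) = (k.map (evA r (twr r y))).adjugate :=
      fun k => (evA r (twr r y) : Ap →+* E).map_adjugate k
    have key : (Ad (gt (rt 0 * xx Ym) (rt 1 * yy 1 Ym)).adjugate * Ym *
        (Ad (gt (rt 2 * xx Ym) (rt 3 * yy (-1) Ym)).adjugate)ᵀ).map (evA r (twr r y)) =
        nn 1 (r 1) (r 3) y ^ 2 • y := by
      rw [mul_map, mul_map, transpose_map, ← Ad_map, ← Ad_map, ha, ha, gt_map, gt_map, evA_Ym]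
      simp only [map_mul, evA_rt, hx, hy]
      have hL := adj_gm (u := r 0 * xx y) (nn_left hn)
      have hR := congrArg transpose (adj_gm (u := r 2 * xx y) (nn_right hn))
      rw [transpose_mul] at hR
      calc _ = (Ad (gt (r 0 * xx y) (r 1 * yy 1 y)).adjugate *
              Ad (gm (r 0 * xx y) (r 1 * yy 1 y))) * y *
            ((Ad (gm (r 2 * xx y) (r 3 * yy (-1) y)))ᵀ *
              (Ad (gt (r 2 * xx y) (r 3 * yy (-1) y)).adjugate)ᵀ) := by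
            rw [twr_eq]; simp only [Matrix.mul_assoc]
        _ = _ := by
            rw [hL, hR, nn, mul_pow (1 - _)]
            simp [smul_smul, mul_comm]
    have := congrFun (congrFun key ij.1) ij.2
    simpa [pt] using this
  · simp [nn, evA_rt, hy]
  · rw [← det_map, evA_Ym, det_twr hn]

end Pool.Agent.MP_0f1eb7_ag.Cyl

end
end MrgPart1

-- marker of a merged file
example : 731051 + 643479 = 731051 + 643479 := rfl
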