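import Mathlib.Algebra.AffineMonoid.UniqueSums
import Mathlib.Topology.Sheaves.Presheaf
import Mathlib.Data.Int.Star
import Mathlib.Algebra.Order.Ring.Star
import Mathlib.RingTheory.Derivation.Lie
import Mathlib.RingTheory.PicardGroup
import Mathlib.Algebra.MvPolynomial.Expand
import Mathlib.Algebra.MvPolynomial.Funext
import Mathlib.RingTheory.LocalProperties.Reduced
import Mathlib.Analysis.Complex.Polynomial.Basic
import Mathlib.Combinatorics.SimpleGraph.Basic
import Mathlib.RingTheory.PiTensorProduct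
import Mathlib.RingTheory.TotallySplit
import Mathlib.RingTheory.Etale.Weakly
import Mathlib.RingTheory.MvPolynomial.Symmetric.FundamentalTheorem
import Pool.Agent.MP_0f1eb7_ag.cyl.Spec1
import Pool.Agent.MP_0f1eb7_ag.cyl.Th

-- ======== part 0: formerly Pool.Agent.MP_0f1eb7_ag.cyl.Flat
section MrgPart0

/-! Row FLAT: flatness of the family and the reduction to matrix coordinates. -/

set_option autoImplicit false

noncomputable section

namespace Pool.Agent.MP_0f1eb7_ag.Cyl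

open MvPolynomial

namespace FlatP

/-- a retract of a flat algebra is flat -/
lemma flat_of_retract {R A B : Type} [CommRing R] [CommRing A] [CommRing B] (f : R →+* B)
    (i : B →+* A) (ρ : A →+ B) (h : ∀ b a, ρ (i b * a) = b * ρ a) (h1 : ρ 1 = 1)
    (hf : (i.comp f).Flat) : f.Flat := by
  let _ := f.toAlgebra
  let _ := (i.comp f).toAlgebra
  have : Module.Flat R A := hf
  let i' : B →ₗ[R] A :=
    { toFun := i
      map_add' := map_add i
      map_smul' := fun r b => map_mul i (f r) b }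
  let ρ' : A →ₗ[R] B :=
    { toFun := ρ
      map_add' := map_add ρ
      map_smul' := fun r a => h (f r) a }
  refine Module.Flat.of_retract i' ρ' (LinearMap.ext fun b => ?_)
  have := h b 1
  rwa [mul_one, h1, mul_one] at this

/-- an algebra with finitely many linear coordinates is flat -/
lemma flat_of_coord {R A ι : Type} [CommRing R] [CommRing A] [Fintype ι] (f : R →+* A)
    (c : ι → A →+ R) (e : ι → A) (h1 : ∀ s p a, c s (f p * a) = p * c s a)
    (h2 : ∀ a, ∑ s, f (c s a) * e s = a) : f.Flat := by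
  let _ := f.toAlgebra
  let i' : A →ₗ[R] (ι → R) :=
    { toFun := fun a s => c s a
      map_add' := fun a b => funext fun s => map_add (c s) a b
      map_smul' := fun r a => funext fun s => h1 s r a }
  let ρ' : (ι → R) →ₗ[R] A := Fintype.linearCombination R e
  exact Module.Flat.of_retract i' ρ' (LinearMap.ext fun a => h2 a)

section parity

variable {σ k : Type} [CommRing k] [Fintype σ]

def par (m : σ →₀ ℕ) : σ → Fin 2 := fun a => ⟨m a % 2, Nat.mod_lt _ two_pos⟩

def half (m : σ →₀ ℕ) : σ →₀ ℕ := m.mapRange (· / 2) (by simp)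

def odd (s : σ → Fin 2) : σ →₀ ℕ := Finsupp.equivFunOnFinite.symm fun a => (s a : ℕ)

lemma half_add_odd (m : σ →₀ ℕ) : 2 • half m + odd (par m) = m := by
  ext a
  simp only [half, odd, par, Finsupp.add_apply, Finsupp.smul_apply, Finsupp.mapRange_apply,
    Finsupp.coe_equivFunOnFinite_symm, smul_eq_mul]
  omega

omit [Fintype σ] in
lemma par_add (a m : σ →₀ ℕ) : par (2 • a + m) = par m := by
  funext i
  simp only [par, Finsupp.add_apply, Finsupp.smul_apply, smul_eq_mul, Fin.mk.injEq]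
  omega

omit [Fintype σ] in
lemma half_add (a m : σ →₀ ℕ) : half (2 • a + m) = a + half m := by
  ext i
  simp only [half, Finsupp.add_apply, Finsupp.smul_apply, Finsupp.mapRange_apply, smul_eq_mul]
  omega

open Classical in
/-- the coordinate that belongs to a parity vector -/
def crd (k : Type) [CommRing k] (s : σ → Fin 2) : MvPolynomial σ k →ₗ[k] MvPolynomial σ k :=
  (basisMonomials σ k).constr k fun m => if par m = s then monomial (half m) 1 else 0

open Classical in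
lemma crd_monomial (s : σ → Fin 2) (m : σ →₀ ℕ) (r : k) :
    crd k s (monomial m r) = if par m = s then monomial (half m) r else 0 := by
  have e : (monomial m r : MvPolynomial σ k) = r • basisMonomials σ k m := by
    simp [smul_monomial]
  rw [e, map_smul, crd, Module.Basis.constr_basis]
  split_ifs <;> simp [smul_monomial]

lemma flat_expand :
    RingHom.Flat (expand 2 (σ := σ) (R := k) : MvPolynomial σ k →+* MvPolynomial σ k) := by
  classical
  refine flat_of_coord _ (fun s => (crd k s).toAddMonoidHom) (fun s => monomial (odd s) 1) ?_ ?_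
  · intro s p a
    simp only [RingHom.coe_coe, LinearMap.toAddMonoidHom_coe]
    induction p using MvPolynomial.induction_on' with
    | add p q hp hq => rw [map_add, add_mul, map_add, hp, hq, add_mul]
    | monomial u r =>
      induction a using MvPolynomial.induction_on' with
      | add p q hp hq => rw [mul_add, map_add, hp, hq, map_add, mul_add]
      | monomial m r' =>
        rw [expand_monomial, monomial_mul, crd_monomial, crd_monomial, par_add, half_add]
        split_ifs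
        · rw [monomial_mul]
        · rw [mul_zero]
  · intro a
    simp only [RingHom.coe_coe, LinearMap.toAddMonoidHom_coe]
    induction a using MvPolynomial.induction_on' with
    | add p q hp hq => simp only [map_add, add_mul, Finset.sum_add_distrib, hp, hq]
    | monomial m r =>
      rw [Finset.sum_eq_single (par m)]
      · rw [crd_monomial, if_pos rfl, expand_monomial, monomial_mul, half_add_odd, mul_one]
      · intro s _ hs
        rw [crd_monomial, if_neg (Ne.symm hs), map_zero, zero_mul]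
      · simp

end parity

lemma sqr_eq (p : Rt) : sqr p = C (expand 2 p) := by
  have : sqr = (IsScalarTower.toAlgHom ℂ Rt Ap).comp (expand 2) := by
    ext j : 1
    simp [sqr, rt]
  rw [this]
  rfl

lemma flat_sqr : RingHom.Flat (sqr : Rt →+* Ap) := by
  have e : (sqr : Rt →+* Ap) = (algebraMap Rt Ap).comp (expand 2 (σ := Fin 4) (R := ℂ)) :=
    RingHom.ext fun p => sqr_eq p
  rw [e]
  exact flat_expand.comp (RingHom.flat_algebraMap_iff.2 inferInstance)

end FlatP

open FlatP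

theorem flat (h : ReyStmt) : FlatStmt := by
  obtain ⟨ℛ, hm, hl, h1, -⟩ := h
  let ρ : Ap →+ Bt :=
    { toFun := fun f => ⟨ℛ f, hm f⟩
      map_zero' := Subtype.ext (map_zero ℛ)
      map_add' := fun a b => Subtype.ext (map_add ℛ a b) }
  refine flat_of_retract _ (valB : Bt →+* Ap) ρ
    (fun b a => Subtype.ext (hl _ (valB_mem b) a)) (Subtype.ext h1) ?_
  exact flat_sqr

theorem red (h : SemiStmt) : RedStmt := by
  intro x hx
  let e : I9 ≃ Fin 9 := finProdFinEquiv
  refine ⟨fun ij => valB (x (e ij)), fun _ => valB_mem _, fun ij => ?_⟩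
  obtain ⟨g, hg, hS⟩ := h (X ij)
  rw [hg]
  refine Finset.sum_induction g
    (fun f => ∃ (ρ : Rt) (Q : Ap), ρ ≠ 0 ∧ C ρ * f = aeval (fun ij => valB (x (e ij))) Q) ?_
    ⟨1, 0, one_ne_zero, by simp⟩ fun S _ => ?_
  · rintro a b ⟨ρ, Q, h0, h1⟩ ⟨ρ', Q', h0', h1'⟩
    refine ⟨ρ * ρ', C ρ' * Q + C ρ * Q', mul_ne_zero h0 h0', ?_⟩
    rw [map_add, map_mul (aeval _), map_mul (aeval _), ← h1, ← h1', aeval_C, aeval_C,
      algebraMap_eq, map_mul]
    ring
  · obtain ⟨b, hb⟩ := exists_valB (hS S).1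
    obtain ⟨ρ, Q, h0, h1⟩ := hx b
    refine ⟨expand 2 ρ * ∏ a ∈ S, X a,
      rename e.symm (map (expand 2 (σ := Fin 4) (R := ℂ) : Rt →+* Rt) Q),
      mul_ne_zero ((expand_ne_zero two_pos).2 h0)
        (Finset.prod_ne_zero_iff.2 fun a _ => X_ne_zero a), ?_⟩
    have h2 := congrArg (valB : Bt →+* Ap) h1
    rw [map_mul, eval₂_comp_left] at h2
    have h3 : (valB : Bt →+* Ap).comp (phi : Rt →+* Bt) =
        (algebraMap Rt Ap).comp (expand 2 (σ := Fin 4) (R := ℂ) : Rt →+* Rt) :=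
      RingHom.ext fun p => sqr_eq p
    rw [h3, ← eval₂_map] at h2
    rw [aeval_rename, aeval_def]
    have h4 : ((fun ij => valB (x (e ij))) ∘ e.symm) = (valB : Bt →+* Ap) ∘ x := by
      funext i
      simp
    rw [h4, ← h2, map_mul, map_prod, mul_assoc, ← sqr_eq]
    exact congrArg (sqr ρ * ·) hb.symm

end Pool.Agent.MP_0f1eb7_ag.Cyl

end
end MrgPart0

-- ======== part 1: formerly Pool.Agent.MP_0f1eb7_ag.cyl.Inv
section MrgPart1

/-! Row INV: nonvanishing, coprimality and homogeneity of the invariants. -/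

set_option autoImplicit false

noncomputable section

namespace Pool.Agent.MP_0f1eb7_ag.Cyl

open MvPolynomial Matrix

namespace InvP

theorem Ym_map {S : Type} [CommRing S] [Algebra ℂ S] (y : M3 S) :
    (Ym : M3 Py).map (aeval (pt y) : Py →ₐ[ℂ] S) = y := by
  ext i j
  simp [Ym, pt]

theorem z2_diag {R : Type} [CommRing R] (s : Fin 3 → R) :
    z2 (diagonal s) = s 0 ^ 2 + s 1 ^ 2 + s 2 ^ 2 := congrFun (zz_diagonal s) 0

theorem z4_diag {R : Type} [CommRing R] (s : Fin 3 → R) :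
    z4 (diagonal s) = s 0 ^ 2 * s 1 ^ 2 + s 0 ^ 2 * s 2 ^ 2 + s 1 ^ 2 * s 2 ^ 2 :=
  congrFun (zz_diagonal s) 1

theorem zt_diag {R : Type} [CommRing R] (s : Fin 3 → R) :
    zt (diagonal s) = s 0 ^ 2 * s 1 ^ 2 * s 2 ^ 2 := congrFun (zz_diagonal s) 2

theorem det_ne : (Ym : M3 Py).det ≠ 0 := fun h => by
  have h1 := det_map (aeval (pt (1 : M3 ℂ)) : Py →ₐ[ℂ] ℂ) (Ym : M3 Py)
  rw [Ym_map, h] at h1
  simp at h1

theorem adj_ne (i j : Fin 3) : (Ym : M3 Py).adjugate i j ≠ 0 := fun h => by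
  have h1 := (aeval (pt (!![2, 1, 1; 1, 2, 1; 1, 1, 2] : M3 ℂ)) : Py →ₐ[ℂ] ℂ).map_adjugate
    (Ym : M3 Py)
  have h2 := congrFun (congrFun h1 i) j
  rw [AlgHom.mapMatrix_apply, AlgHom.mapMatrix_apply, Ym_map, map_apply, h, map_zero,
    adjugate_fin_three_of] at h2
  fin_cases i <;> fin_cases j <;> norm_num at h2

theorem z4_ne : z4 (Ym : M3 Py) ≠ 0 := fun h => by
  have h1 := z4_map (aeval (pt (diagonal ![1, 1, 0] : M3 ℂ)) : Py →ₐ[ℂ] ℂ) (Ym : M3 Py)
  rw [Ym_map, h, z4_diag] at h1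
  simp at h1

theorem base_map {S : Type} [CommRing S] [Algebra ℂ S] (c : ℤ) (y : M3 S) :
    (aeval (pt y) : Py →ₐ[ℂ] S) (zt Ym - (c : Py) * z2 Ym ^ 3) = zt y - (c : S) * z2 y ^ 3 := by
  rw [map_sub, map_mul, map_pow, map_intCast, ← zt_map, ← z2_map, Ym_map]

theorem base_ne (c : ℤ) : zt (Ym : M3 Py) - (c : Py) * z2 Ym ^ 3 ≠ 0 := fun h => by
  have h1 := base_map c (diagonal ![1, 0, 0] : M3 ℂ)
  have h2 := base_map c (diagonal ![1, 1, 1] : M3 ℂ)
  rw [h, map_zero, zt_diag, z2_diag] at h1 h2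
  have h3 : (c : ℂ) = 0 := by simpa using h1
  simp [h3] at h2

theorem hom_int (c : ℤ) : IsHomogeneous (c : Py) 0 := by
  rw [← map_intCast (C : ℂ →+* Py)]
  exact isHomogeneous_C _ _

theorem hom_sg (i : Fin 3) : IsHomogeneous (sg i : Py) 0 := by
  rw [← map_sg (C : ℂ →+* Py)]
  exact isHomogeneous_C _ _

theorem hom_z2 {y : M3 Py} {n : ℕ} (h : ∀ i j, IsHomogeneous (y i j) n) :
    IsHomogeneous (z2 y) (n * 2) :=
  IsHomogeneous.sum _ _ _ fun i _ => IsHomogeneous.sum _ _ _ fun j _ => by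
    simpa using ((hom_sg i).mul (hom_sg j)).mul ((h i j).pow 2)

theorem hom_Y (i j : Fin 3) : IsHomogeneous ((Ym : M3 Py) i j) 1 := isHomogeneous_X _ _

theorem hom_2 (a b c d : Fin 3) : IsHomogeneous ((Ym : M3 Py) a b * Ym c d) 2 :=
  (hom_Y a b).mul (hom_Y c d)

theorem hom_3 (a b c d e f : Fin 3) : IsHomogeneous ((Ym : M3 Py) a b * Ym c d * Ym e f) 3 :=
  (hom_2 a b c d).mul (hom_Y e f)

theorem hom_adj {y : M3 Py} (h : ∀ a b c d, IsHomogeneous (y a b * y c d) 2) (i j : Fin 3) :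
    IsHomogeneous (y.adjugate i j) 2 := by
  have h1 := fun a b c d a' b' c' d' => (h a b c d).sub (h a' b' c' d')
  have h2 := fun a b c d a' b' c' d' => (h a b c d).neg.add (h a' b' c' d')
  rw [adjugate_fin_three]
  fin_cases i <;> fin_cases j
  exacts [h1 .., h2 .., h1 .., h2 .., h1 .., h2 .., h1 .., h2 .., h1 ..]

theorem hom_det : IsHomogeneous (Ym : M3 Py).det 3 := by
  rw [det_fin_three]
  exact (((((hom_3 ..).sub (hom_3 ..)).sub (hom_3 ..)).add (hom_3 ..)).add (hom_3 ..)).sub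
    (hom_3 ..)

theorem hom_base (c : ℤ) : IsHomogeneous (zt (Ym : M3 Py) - (c : Py) * z2 Ym ^ 3) 6 :=
  (hom_det.pow 2).sub ((hom_int c).mul ((hom_z2 hom_Y).pow 3))

theorem hom_z4 : IsHomogeneous (z4 (Ym : M3 Py)) 4 := hom_z2 (hom_adj hom_2)

/-- the line through the diagonal matrices -/
def ln : M3 (Polynomial ℂ) := diagonal ![Polynomial.X, Polynomial.X + Polynomial.C 1, 0]

theorem ln_deg (p : Py) : ((aeval (pt ln) : Py →ₐ[ℂ] Polynomial ℂ) p).natDegree ≤ p.totalDegree := by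
  refine (aeval_natDegree_le (n := 1) p le_rfl _ fun ⟨i, j⟩ => ?_).trans (mul_one _).le
  have h : ∀ i, ((![Polynomial.X, Polynomial.X + Polynomial.C 1, 0] :
      Fin 3 → Polynomial ℂ) i).natDegree ≤ 1 := fun i => by
    fin_cases i
    exacts [Polynomial.natDegree_X_le, (Polynomial.natDegree_X_add_C _).le, Nat.zero_le 1]
  simp only [pt, ln, diagonal_apply]
  split_ifs
  exacts [h i, Nat.zero_le 1]

theorem ln_z4 : (aeval (pt ln) : Py →ₐ[ℂ] Polynomial ℂ) (z4 Ym) =
    Polynomial.X ^ 2 * (Polynomial.X + Polynomial.C 1) ^ 2 := by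
  rw [← z4_map, Ym_map, ln, z4_diag]
  simp

theorem rel {c : ℤ} (hc : c ≠ 0) :
    IsRelPrime (z4 (Ym : M3 Py)) (zt (Ym : M3 Py) - (c : Py) * z2 Ym ^ 3) := by
  rintro d ⟨e, he⟩ h2
  have hd : d ≠ 0 := left_ne_zero_of_mul (he ▸ z4_ne)
  have he0 : e ≠ 0 := right_ne_zero_of_mul (he ▸ z4_ne)
  have h3 : d.totalDegree + e.totalDegree ≤ 4 := by
    rw [← totalDegree_mul_of_isDomain hd he0, ← he]
    exact hom_z4.totalDegree_le
  have h4 := ln_z4
  rw [he, map_mul] at h4
  have h5 : (Polynomial.X ^ 2 * (Polynomial.X + Polynomial.C 1) ^ 2 : Polynomial ℂ).natDegree = 4 := by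
    rw [(Polynomial.monic_X_pow 2).natDegree_mul ((Polynomial.monic_X_add_C 1).pow 2),
      Polynomial.natDegree_pow, Polynomial.natDegree_pow, Polynomial.natDegree_X,
      Polynomial.natDegree_X_add_C]
  have h6 := Polynomial.natDegree_mul_le (p := (aeval (pt ln) : Py →ₐ[ℂ] Polynomial ℂ) d)
    (q := (aeval (pt ln) : Py →ₐ[ℂ] Polynomial ℂ) e)
  rw [h4, h5] at h6
  have h7 := ln_deg e
  have h8 : d.totalDegree = 0 := by
    by_contra h9
    obtain ⟨s, hs⟩ := Complex.exists_root (f := (aeval (pt ln) : Py →ₐ[ℂ] Polynomial ℂ) d)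
      (Polynomial.natDegree_pos_iff_degree_pos.1 (by omega))
    have a1 := hs.dvd (Dvd.intro _ h4)
    have a2 := hs.dvd (map_dvd (aeval (pt ln) : Py →ₐ[ℂ] Polynomial ℂ) h2)
    rw [base_map, ln, zt_diag, z2_diag] at a2
    have hc' : (c : ℂ) ≠ 0 := Int.cast_ne_zero.2 hc
    have b1 : s = 0 ∨ s + 1 = 0 := by simpa using a1
    have b2 : s ^ 2 + (s + 1) ^ 2 = 0 := by simpa [hc] using a2
    rcases b1 with b | b
    · simp [b] at b2
    · have : s = -1 := by linear_combination b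
      simp [this] at b2
  rw [totalDegree_eq_zero_iff_eq_C] at h8
  rw [h8] at hd ⊢
  exact (IsUnit.mk0 _ fun h => hd (by rw [h, map_zero])).map C

section
variable {Ω Γ : Type} [Field Ω] [Algebra ℂ Ω] [LinearOrderedCommGroupWithZero Γ] (G : Deg Ω Γ)

theorem factor (c : ℤ) (i : Fin 4) : G.Ld (1 - (G.r i * yy c G.y0) ^ 2)
    (G.r i ^ 2 * G.T ^ (24 * NN)) (-yy c ym ^ 2) := by
  have hT : 1 < G.v G.T := by simpa using G.r_lt_T 1
  have h1 : 1 < G.v (G.r i ^ 2 * G.T ^ (24 * NN)) := by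
    rw [map_mul, map_pow, map_pow]
    exact (one_lt_pow₀ hT (by rw [show NN = 60 from rfl]; norm_num)).trans_le
      (le_mul_of_one_le_left' (one_le_pow_of_one_le' (G.one_le_r i) _))
  have h2 : G.r i ^ 2 * G.T ^ (24 * NN) ≠ 0 := fun h => by
    rw [h, map_zero] at h1
    exact absurd h1 (not_lt.2 zero_le_one)
  have h3 := (Lead.refl (v := G.v) (ι := (G.ι : kk →+* Ω)) h2 (-yy c ym ^ 2)).add_small
    (f' := 1) (by rwa [map_one])
  have h4 : 1 - (G.r i * yy c G.y0) ^ 2 =
      (G.ι : kk →+* Ω) (-yy c ym ^ 2) * (G.r i ^ 2 * G.T ^ (24 * NN)) + 1 := by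
    rw [Deg.y0, yy_smul, yy_map, map_neg, map_pow, show 24 * NN = 12 * NN * 2 by ring, pow_mul]
    simp only [RingHom.coe_coe]
    ring
  rw [h4]
  exact h3

end

end InvP

open InvP in
theorem inv : InvStmt where
  det_ne := det_ne
  adj_ne := adj_ne
  xx_ne := pow_ne_zero _ z4_ne
  yy_ne c := pow_ne_zero _ (base_ne c)
  rel := ((rel one_ne_zero).pow).mul_right ((rel (by norm_num)).pow)
  yy_hom c := by
    rw [show 12 * NN = 6 * (2 * NN) by ring]
    exact (hom_base c).pow _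

open InvP in
theorem nnS (h : InvStmt) : NnStmt := by
  intro Ω Γ _ _ _ G
  have h1 := Lead.mul G.iota_le (factor G 1 1) (factor G (-1) 3)
  rw [show G.r 1 ^ 2 * G.T ^ (24 * NN) * (G.r 3 ^ 2 * G.T ^ (24 * NN)) =
      G.r 1 ^ 2 * G.r 3 ^ 2 * G.T ^ (48 * NN) by
        rw [show 48 * NN = 24 * NN + 24 * NN by ring, pow_add]; ring,
    show -yy 1 ym ^ 2 * -yy (-1) ym ^ 2 = (yy 1 ym * yy (-1) ym) ^ 2 by ring] at h1
  have h2 : ∀ c : ℤ, yy c ym ≠ 0 := fun c => by
    rw [ym, yy_map]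
    exact (map_ne_zero_iff _ (IsFractionRing.injective Py kk)).2 (h.yy_ne c)
  refine ⟨fun h0 => ?_, h1⟩
  have h3 : G.Ld G.n0 _ _ := h1
  rw [h0] at h3
  exact pow_ne_zero 2 (mul_ne_zero (h2 1) (h2 (-1))) (Lead.eq_zero G.iota_le h3)

end Pool.Agent.MP_0f1eb7_ag.Cyl

end
end MrgPart1

-- ======== part 2: formerly Pool.Agent.MP_0f1eb7_ag.cyl.A1a
section MrgPart2

/-! Any two matrix entries are dependent over the leading coefficients. -/

set_option autoImplicit false

noncomputable section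

namespace Pool.Agent.MP_0f1eb7_ag.Cyl

open MvPolynomial Matrix

namespace A1aP

/-- two elements algebraic over a simple extension are dependent -/
theorem dep_two {R Ω : Type} [CommRing R] [Nontrivial R] [Field Ω] [Algebra R Ω]
    [FaithfulSMul R Ω] (u a b : Ω) (ha : IsAlgebraic (Algebra.adjoin R {u}) a)
    (hb : IsAlgebraic (Algebra.adjoin R {u}) b) :
    ∃ π : MvPolynomial (Fin 2) R, π ≠ 0 ∧ aeval ![a, b] π = 0 := by
  by_contra hcon
  have hind : AlgebraicIndependent R ![a, b] := by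
    rw [algebraicIndependent_iff]
    intro p hp
    by_contra h0
    exact hcon ⟨p, h0, hp⟩
  have hne : a ≠ b := by
    intro e
    have := hind.injective (a₁ := 0) (a₂ := 1) (by simpa using e)
    exact absurd this (by decide)
  have hI : (AlgebraicIndependent.matroid R Ω).Indep {a, b} := by
    rw [AlgebraicIndependent.matroid_indep_iff]
    have h1 := hind.to_subtype_range
    have e : Set.range ![a, b] = {a, b} := by
      ext z; simp [eq_comm, or_comm]
    rw [e] at h1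
    exact h1
  have hsub : ({a, b} : Set Ω) ⊆ (AlgebraicIndependent.matroid R Ω).closure {u} := by
    rw [AlgebraicIndependent.matroid_closure_eq]
    rintro z (rfl | rfl)
    · exact ha
    · exact hb
  have h2 := hI.encard_le_eRk_of_subset hsub
  rw [Matroid.eRk_closure_eq, Set.encard_pair hne] at h2
  have h3 := h2.trans (Matroid.eRk_le_encard _ _)
  rw [Set.encard_singleton] at h3
  exact absurd h3 (by decide)

variable {Ω Γ : Type} [Field Ω] [Algebra ℂ Ω] [LinearOrderedCommGroupWithZero Γ] (G : Deg Ω Γ)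

theorem zero_mem_LC (x : I9 → Ap) : (0 : kk) ∈ G.LC x :=
  ⟨0, zero_mem _, 1, one_mem _, Lead.of_lt (by simp)⟩

/-- the top terms of a relation -/
theorem top_rel (x : I9 → Ap) (a b : kk) (π : MvPolynomial (Fin 2) (G.Cs x)) (h0 : π ≠ 0)
    (hπ : aeval ![G.T * G.ι a, G.T * G.ι b] π = 0) :
    ∃ π' : MvPolynomial (Fin 2) kk, π' ≠ 0 ∧ (∀ η, coeff η π' ∈ G.LC x) ∧
      aeval ![a, b] π' = 0 := by
  classical
  have hex : ∀ η, η ∈ π.support → ∃ m ∈ G.Mon, ∃ c, c ≠ 0 ∧
      Lead G.v (G.ι : kk →+* Ω) (coeff η π : G.Cs x) m c := by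
    intro η hη
    apply G.exists_lead
    intro e
    exact (mem_support_iff.1 hη) (Subtype.ext e)
  choose! m hm c hc hl using hex
  let g : (Fin 2 →₀ ℕ) → Ω := fun η => m η * G.T ^ (η 0 + η 1)
  have hg : ∀ η ∈ π.support, g η ∈ G.Mon := fun η hη =>
    mul_mem (hm η hη) (pow_mem G.T_mem _)
  obtain ⟨κ, hκ, hmax⟩ := π.support.exists_max_image (fun η => G.v (g η))
    (support_nonempty.2 h0)
  let d : (Fin 2 →₀ ℕ) → kk := fun η => if g η = g κ then c η else 0
  have hco : ∀ η, coeff η (∑ η' ∈ π.support, monomial η' (d η')) =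
      if η ∈ π.support then d η else 0 := by
    intro η
    rw [coeff_sum]
    simp only [coeff_monomial]
    rw [Finset.sum_ite_eq']
  refine ⟨∑ η ∈ π.support, monomial η (d η), ?_, ?_, ?_⟩
  · intro e
    have := hco κ
    rw [e, coeff_zero, if_pos hκ] at this
    exact hc κ hκ (by simpa [d] using this.symm)
  · intro η
    rw [hco]
    split_ifs with hη
    · simp only [d]
      split_ifs
      · exact ⟨_, (coeff η π).2, m η, hm η hη, hl η hη⟩
      · exact zero_mem_LC G x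
    · exact zero_mem_LC G x
  · have hT : G.T ≠ 0 := G.mon_ne _ G.T_mem
    have key : ∀ η ∈ π.support, Lead G.v (G.ι : kk →+* Ω)
        (((coeff η π : G.Cs x) : Ω) * ((G.T * G.ι a) ^ η 0 * (G.T * G.ι b) ^ η 1)) (g κ)
        (d η * (a ^ η 0 * b ^ η 1)) := by
      intro η hη
      have h1 : Lead G.v (G.ι : kk →+* Ω) ((G.T * G.ι a) ^ η 0 * (G.T * G.ι b) ^ η 1)
          (G.T ^ (η 0 + η 1)) (a ^ η 0 * b ^ η 1) := by
        have := Lead.refl (v := G.v) (ι := (G.ι : kk →+* Ω)) (pow_ne_zero (η 0 + η 1) hT)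
          (a ^ η 0 * b ^ η 1)
        convert this using 1
        simp only [map_mul, map_pow, RingHom.coe_coe]
        ring
      have h2 := (hl η hη).mul G.iota_le h1
      by_cases e : g η = g κ
      · simp only [d, if_pos e]
        rw [← e]
        exact h2
      · simp only [d, if_neg e, zero_mul]
        apply Lead.of_lt
        refine lt_of_le_of_lt (h2.val_le G.iota_le) (lt_of_le_of_ne (hmax η hη) ?_)
        exact fun e' => e (G.mon_inj _ (hg η hη) _ (hg κ hκ) e')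
    have hs := Lead.sum π.support (G.mon_ne _ (hg κ hκ)) key
    have e1 : ∑ η ∈ π.support, ((coeff η π : G.Cs x) : Ω) *
        ((G.T * G.ι a) ^ η 0 * (G.T * G.ι b) ^ η 1) = 0 := by
      rw [← hπ, aeval_def, eval₂_eq']
      refine Finset.sum_congr rfl fun η _ => ?_
      rw [Fin.prod_univ_two]
      rfl
    rw [e1] at hs
    rw [← hs.eq_zero G.iota_le, map_sum]
    refine Finset.sum_congr rfl fun η _ => ?_
    rw [aeval_monomial, Finsupp.prod_fintype _ _ (by simp), Fin.prod_univ_two]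
    rfl

/-- algebraic over the ring generated by `Cs` and the remaining coordinate -/
def Alg (x : I9 → Ap) (f : Ω) : Prop :=
  IsAlgebraic (Algebra.adjoin (G.Cs x) {G.ev (x oo)}) f

variable {G} {x : I9 → Ap}

theorem alg_of_mem {f : Ω} (h : f ∈ G.Cs x) : Alg G x f :=
  isAlgebraic_algebraMap (⟨f, Subalgebra.algebraMap_mem _ (⟨f, h⟩ : G.Cs x)⟩ :
    Algebra.adjoin (G.Cs x) {G.ev (x oo)})

theorem alg_r (i : Fin 4) : Alg G x (G.r i) :=
  IsAlgebraic.of_pow (n := 2) (by norm_num)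
    (alg_of_mem (Algebra.subset_adjoin (Or.inl ⟨i, rfl⟩)))

theorem alg_rt (ρ : Rt) : Alg G x (aeval G.r ρ) := by
  induction ρ using MvPolynomial.induction_on with
  | C a => rw [aeval_C]; exact alg_of_mem (Subalgebra.algebraMap_mem _ a)
  | add p q hp hq => rw [map_add]; exact IsAlgebraic.add hp hq
  | mul_X p i hp => rw [map_mul, aeval_X]; exact IsAlgebraic.mul hp (alg_r i)

theorem alg_x (l : I9) : Alg G x (G.ev (x l)) := by
  by_cases h : l = oo
  · rw [h]
    exact isAlgebraic_algebraMap (⟨G.ev (x oo), Algebra.subset_adjoin rfl⟩ :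
      Algebra.adjoin (G.Cs x) {G.ev (x oo)})
  · exact alg_of_mem (Algebra.subset_adjoin (Or.inr ⟨l, h, rfl⟩))

theorem ev_C (ρ : Rt) : G.ev (C ρ) = aeval G.r ρ := evA_C _ _ _

theorem alg_aeval (Q : Ap) : Alg G x (G.ev (aeval x Q)) := by
  induction Q using MvPolynomial.induction_on with
  | C a => rw [aeval_C, algebraMap_eq, ev_C]; exact alg_rt a
  | add p q hp hq => rw [map_add, map_add]; exact IsAlgebraic.add hp hq
  | mul_X p i hp => rw [map_mul, aeval_X, map_mul]; exact IsAlgebraic.mul hp (alg_x i)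

theorem alg_cancel {y z : Ω} (hy : y ≠ 0) (h1 : Alg G x y) (h2 : Alg G x (y * z)) : Alg G x z :=
  IsAlgebraic.of_mul (mem_nonZeroDivisors_of_ne_zero hy) h1 h2

theorem alg_ev (hx : MatHyp x) (f : Ap) : Alg G x (G.ev f) := by
  induction f using MvPolynomial.induction_on with
  | C a => rw [ev_C]; exact alg_rt a
  | add p q hp hq => rw [map_add]; exact IsAlgebraic.add hp hq
  | mul_X p i hp =>
    rw [map_mul]
    refine IsAlgebraic.mul hp ?_
    obtain ⟨ρ, Q, hρ, e⟩ := hx.2 i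
    refine alg_cancel (G.r_inj ρ hρ) (alg_rt ρ) ?_
    rw [← ev_C, ← map_mul, e]
    exact alg_aeval Q

end A1aP

open A1aP in
theorem a1a (h1 : NnStmt) (h2 : GenStmt) : A1aStmt := by
  intro Ω Γ _ _ _ G x hx a b
  have hn : G.n0 ≠ 0 := (h1 Ω Γ G).1
  obtain ⟨g1, ⟨f2, g2⟩, -⟩ := h2 Ω G.r G.y0 hn
  have hn' : Alg G x G.n0 := by
    have := alg_ev (G := G) hx f2
    rwa [show G.ev f2 = G.n0 from g2] at this
  have hy : ∀ ij, Alg G x (G.T * G.ι (pt ym ij)) := by
    intro ij
    obtain ⟨f, e⟩ := g1 ij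
    have h3 := alg_ev (G := G) hx f
    rw [show G.ev f = G.n0 ^ 2 * (G.T * G.ι (pt ym ij)) from e] at h3
    refine alg_cancel (pow_ne_zero 2 hn) ?_ h3
    rw [pow_two]
    exact IsAlgebraic.mul hn' hn'
  obtain ⟨π, h0, hπ⟩ := dep_two (R := G.Cs x) _ _ _ (hy a) (hy b)
  exact top_rel G x _ _ π h0 hπ

end Pool.Agent.MP_0f1eb7_ag.Cyl

end
end MrgPart2

-- ======== part 3: formerly Pool.Agent.MP_0f1eb7_ag.cyl.A2
section MrgPart3

/-! Row A2: the Jacobian derivation is locally nilpotent on the twisted ring. -/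

set_option autoImplicit false

noncomputable section

namespace Pool.Agent.MP_0f1eb7_ag.Cyl

open MvPolynomial Matrix

namespace A2P

section Nil
variable {E : Type} [Field E] [Algebra ℂ E] {δ : Derivation ℂ E E}

theorem it_add (n : ℕ) (a b : E) :
    (fun g => δ g)^[n] (a + b) = (fun g => δ g)^[n] a + (fun g => δ g)^[n] b := by
  induction n generalizing a b with
  | zero => rfl
  | succ n ih => simp only [Function.iterate_succ_apply, map_add, ih]

theorem it_zero (n : ℕ) : (fun g => δ g)^[n] 0 = 0 := Function.iterate_fixed (map_zero δ) n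

theorem it_ker_mul {c : E} (hc : δ c = 0) (n : ℕ) (a : E) :
    (fun g => δ g)^[n] (c * a) = c * (fun g => δ g)^[n] a := by
  induction n generalizing a with
  | zero => rfl
  | succ n ih =>
    simp only [Function.iterate_succ_apply, Derivation.leibniz, hc, mul_zero, add_zero,
      smul_eq_mul, ih]

theorem it_mono {n m : ℕ} {a : E} (h : (fun g => δ g)^[n] a = 0) (hm : n ≤ m) :
    (fun g => δ g)^[m] a = 0 := by
  obtain ⟨k, rfl⟩ := Nat.exists_eq_add_of_le' hm
  rw [Function.iterate_add_apply, h, it_zero]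

theorem it_mul (s : ℕ) : ∀ (n m : ℕ) (a b : E), n + m = s → (fun g => δ g)^[n] a = 0 →
    (fun g => δ g)^[m] b = 0 → (fun g => δ g)^[s] (a * b) = 0 := by
  induction s with
  | zero =>
    intro n m a b e ha _
    obtain rfl : n = 0 := by omega
    rw [show a = 0 from ha, zero_mul]
    rfl
  | succ s ih =>
    intro n m a b e ha hb
    rcases n with _ | n
    · rw [show a = 0 from ha, zero_mul, it_zero]
    rcases m with _ | m
    · rw [show b = 0 from hb, mul_zero, it_zero]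
    rw [Function.iterate_succ_apply, Derivation.leibniz, it_add, smul_eq_mul, smul_eq_mul,
      ih (n + 1) m a _ (by omega) ha hb, ih (m + 1) n b _ (by omega) hb ha, add_zero]

theorem nil_of_ker {a : E} (h : δ a = 0) : Nil δ a := ⟨1, h⟩

theorem nil_add {a b : E} (ha : Nil δ a) (hb : Nil δ b) : Nil δ (a + b) := by
  obtain ⟨n, hn⟩ := ha
  obtain ⟨m, hm⟩ := hb
  exact ⟨n + m, by rw [it_add, it_mono hn (by omega), it_mono hm (by omega), add_zero]⟩

theorem nil_mul {a b : E} (ha : Nil δ a) (hb : Nil δ b) : Nil δ (a * b) := by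
  obtain ⟨n, hn⟩ := ha
  obtain ⟨m, hm⟩ := hb
  exact ⟨n + m, it_mul _ n m a b rfl hn hm⟩

theorem nil_div {c a : E} (hc : δ c = 0) (hc0 : c ≠ 0) (h : Nil δ (c * a)) : Nil δ a := by
  obtain ⟨n, hn⟩ := h
  rw [it_ker_mul hc] at hn
  exact ⟨n, (mul_eq_zero.1 hn).resolve_left hc0⟩

theorem der_root {r : Fin 4 → E} (hr : ∀ i, δ (r i) = 0) (ρ : Rt) : δ (aeval r ρ) = 0 := by
  induction ρ using MvPolynomial.induction_on with
  | C c => simp
  | add p q hp hq => rw [map_add, map_add, hp, hq, add_zero]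
  | mul_X p i hp => rw [map_mul, Derivation.leibniz, hp, aeval_X, hr, smul_zero, smul_zero, add_zero]

/-- chain rule for evaluation -/
theorem chain {r : Fin 4 → E} (hr : ∀ i, δ (r i) = 0) (y : M3 E) (f : Ap) :
    δ (evA r y f) = ∑ a, evA r y (pderiv a f) * δ (pt y a) := by
  induction f using MvPolynomial.induction_on with
  | C c => simp [evA_C, der_root hr]
  | add p q hp hq => simp only [map_add, hp, hq, add_mul, Finset.sum_add_distrib]
  | mul_X p i hp =>
    simp only [map_mul, Derivation.leibniz, hp, smul_eq_mul, map_add, add_mul,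
      Finset.sum_add_distrib, pderiv_X, evA_X]
    congr 1
    · rw [Finset.sum_eq_single i]
      · simp [pt]
      · intro b _ hb
        simp [Pi.single_eq_of_ne hb.symm]
      · simp
    · rw [Finset.mul_sum]
      exact Finset.sum_congr rfl fun a _ => by ring

theorem nil_aeval {r : Fin 4 → E} (hr : ∀ i, δ (r i) = 0) (y : M3 E) {x : I9 → Ap}
    (hx : ∀ i, Nil δ (evA r y (x i))) (Q : Ap) : Nil δ (evA r y (aeval x Q)) := by
  induction Q using MvPolynomial.induction_on with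
  | C c =>
    rw [aeval_C, algebraMap_eq, evA_C]
    exact nil_of_ker (der_root hr c)
  | add p q hp hq =>
    rw [map_add, map_add]
    exact nil_add hp hq
  | mul_X p i hp =>
    rw [map_mul, map_mul, aeval_X]
    exact nil_mul hp (hx i)

end Nil

/-- chain rule in the polynomial ring -/
theorem chainP (x : I9 → Ap) (a : I9) (Q : Ap) :
    pderiv a (aeval x Q) = ∑ i, aeval x (pderiv i Q) * pderiv a (x i) := by
  induction Q using MvPolynomial.induction_on with
  | C c => simp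
  | add p q hp hq => simp only [map_add, hp, hq, add_mul, Finset.sum_add_distrib]
  | mul_X p i hp =>
    simp only [map_mul, Derivation.leibniz, hp, smul_eq_mul, map_add, add_mul,
      Finset.sum_add_distrib, pderiv_X, aeval_X]
    congr 1
    · rw [Finset.sum_eq_single i]
      · simp
      · intro b _ hb
        simp [Pi.single_eq_of_ne hb.symm]
      · simp
    · rw [Finset.mul_sum]
      exact Finset.sum_congr rfl fun a _ => by ring

/-- the Jacobian determinant of a coordinate system is a constant -/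
theorem det_const {x : I9 → Ap} (hx : MatHyp x) :
    ∃ c : Rt, (of fun i a => pderiv a (x i)).det = C c := by
  choose ρ Q hρ hQ using hx.2
  have e : (of fun ij i => aeval x (pderiv i (Q ij))) * (of fun i a => pderiv a (x i)) =
      diagonal fun ij => (C (ρ ij) : Ap) := by
    ext1 ij a
    rw [Matrix.mul_apply]
    simp only [of_apply]
    rw [← chainP, ← hQ, pderiv_C_mul, pderiv_X, diagonal_apply, Pi.single_apply]
    split_ifs <;> simp
  have e' := congrArg det e
  rw [det_mul, det_diagonal, ← map_prod] at e'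
  have h0 : (C (∏ ij, ρ ij) : Ap) ≠ 0 := C_ne_zero.2 (Finset.prod_ne_zero_iff.2 fun ij _ => hρ ij)
  rw [← e'] at h0
  have h1 := totalDegree_mul_of_isDomain (left_ne_zero_of_mul h0) (right_ne_zero_of_mul h0)
  rw [e', totalDegree_C] at h1
  exact ⟨_, totalDegree_eq_zero_iff_eq_C.1 (by omega)⟩

section Deg
variable {Ω Γ : Type} [Field Ω] [Algebra ℂ Ω] [LinearOrderedCommGroupWithZero Γ] (G : Deg Ω Γ)

theorem jac_mon (h : I9 → Ω) {m : Ω} (hm : m ∈ G.Mon) : jacD G.D h m = 0 := by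
  rw [jacD, der_sum_apply]
  exact Finset.sum_eq_zero fun j _ => by simp [G.D_mon j m hm]

/-- the gradient of an element of `Cs` -/
theorem grad_Cs (x : I9 → Ap) {f : Ω} (hf : f ∈ G.Cs x) : ∃ H : I9 → Ω, (∀ i, H i ∈ G.Cs x) ∧
    H oo = 0 ∧ ∀ δ : Derivation ℂ Ω Ω, (∀ i, δ (G.r i) = 0) →
      δ f = ∑ i, H i * δ (G.ev (x i)) := by
  induction hf using Algebra.adjoin_induction with
  | mem f hf =>
    rcases hf with ⟨i, rfl⟩ | ⟨l, hl, rfl⟩
    · exact ⟨0, fun _ => zero_mem _, rfl, fun δ hδ => by simp [hδ]⟩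
    · refine ⟨Pi.single l 1, fun i => ?_, Pi.single_eq_of_ne hl.symm _, fun δ _ => ?_⟩
      · rw [Pi.single_apply]
        split_ifs
        · exact one_mem _
        · exact zero_mem _
      · simp [Pi.single_apply]
  | algebraMap c => exact ⟨0, fun _ => zero_mem _, rfl, fun δ _ => by simp⟩
  | add f g _ _ hf hg =>
    obtain ⟨H, h1, h2, h3⟩ := hf
    obtain ⟨H', h1', h2', h3'⟩ := hg
    refine ⟨H + H', fun i => add_mem (h1 i) (h1' i), by simp [h2, h2'], fun δ hδ => ?_⟩
    simp only [map_add, h3 δ hδ, h3' δ hδ, Pi.add_apply, add_mul, Finset.sum_add_distrib]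
  | mul f g hf' hg' hf hg =>
    obtain ⟨H, h1, h2, h3⟩ := hf
    obtain ⟨H', h1', h2', h3'⟩ := hg
    refine ⟨fun i => f * H' i + g * H i,
      fun i => add_mem (mul_mem hf' (h1' i)) (mul_mem hg' (h1 i)), by simp [h2, h2'],
      fun δ hδ => ?_⟩
    simp only [Derivation.leibniz, h3 δ hδ, h3' δ hδ, smul_eq_mul, add_mul, Finset.sum_add_distrib,
      Finset.mul_sum, mul_assoc]

theorem det_mem {S : Subalgebra ℂ Ω} {A : Matrix I9 I9 Ω} (h : ∀ i j, A i j ∈ S) : A.det ∈ S := by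
  rw [det_apply']
  exact sum_mem fun σ _ => mul_mem (intCast_mem S _) (prod_mem fun i _ => h _ _)

end Deg

end A2P

open A2P

theorem a2 (hJ : JacStmt) : A2Stmt := by
  intro Ω Γ _ _ _ G x hx h hh f
  have hJ' := hJ Ω Γ G
  have hD : ∀ j i, G.D j (G.r i) = 0 := fun j i => G.D_mon j _ (G.r_mem i)
  have hr : ∀ i, jacD G.D h (G.r i) = 0 := fun i => jac_mon G h (G.r_mem i)
  obtain ⟨c, hc⟩ := det_const hx
  have hM : (of fun i => grad G.D (G.ev (x i))).det = aeval G.r c * G.T ^ 9 := by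
    have e : (of fun i => grad G.D (G.ev (x i))) =
        (G.ev : Ap →+* Ω).mapMatrix (of fun i a => pderiv a (x i)) *
          of fun a => grad G.D (pt (twr G.r G.y0) a) := by
      ext i j
      rw [Matrix.mul_apply]
      exact chain (hD j) _ _
    rw [e, det_mul, hJ', ← RingHom.map_det, hc]
    exact congrArg (· * G.T ^ 9) (evA_C _ _ c)
  have hH : ∀ l, ∃ H : I9 → Ω, (∀ i, H i ∈ G.Cs x) ∧ H oo = 0 ∧ (l ≠ oo →
      ∀ j, G.D j (h l) = ∑ i, H i * G.D j (G.ev (x i))) := by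
    intro l
    by_cases hl : l = oo
    · exact ⟨0, fun _ => zero_mem _, rfl, fun h' => absurd hl h'⟩
    · obtain ⟨H, h1, h2, h3⟩ := grad_Cs G x (hh l hl)
      exact ⟨H, h1, h2, fun _ j => h3 _ (hD j)⟩
  choose H h1 h2 h3 using hH
  have key : ∀ i, jacD G.D h (G.ev (x i)) =
      ((of H).updateRow oo (Pi.single i 1)).det * (aeval G.r c * G.T ^ 9) := by
    intro i
    rw [jacD_apply, ← hM, ← det_mul]
    congr 1
    ext l j
    rw [Matrix.mul_apply]
    by_cases hl : l = oo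
    · subst hl
      simp [Pi.single_apply]
    · simp only [updateRow_ne hl, of_apply]
      exact h3 l hl j
  have k1 : ∀ i, i ≠ oo → jacD G.D h (G.ev (x i)) = 0 := by
    intro i hi
    rw [key, det_eq_zero_of_column_eq_zero oo, zero_mul]
    intro l
    by_cases hl : l = oo
    · subst hl
      simp [Pi.single_eq_of_ne hi.symm]
    · simp [updateRow_ne hl, h2]
  have k2 : ∀ g ∈ G.Cs x, jacD G.D h g = 0 := by
    intro g hg
    obtain ⟨H', -, e1, e2⟩ := grad_Cs G x hg
    rw [e2 _ hr]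
    refine Finset.sum_eq_zero fun i _ => ?_
    by_cases hi : i = oo
    · rw [hi, e1, zero_mul]
    · rw [k1 i hi, mul_zero]
  have k3 : ∀ i, Nil (jacD G.D h) (G.ev (x i)) := by
    intro i
    refine ⟨2, ?_⟩
    show jacD G.D h (jacD G.D h (G.ev (x i))) = 0
    have m1 : ((of H).updateRow oo (Pi.single i 1)).det ∈ G.Cs x := by
      refine det_mem fun l j => ?_
      by_cases hl : l = oo
      · subst hl
        rw [updateRow_self, Pi.single_apply]
        split_ifs
        · exact one_mem _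
        · exact zero_mem _
      · rw [updateRow_ne hl]
        exact h1 l j
    rw [key, Derivation.leibniz, Derivation.leibniz, k2 _ m1, der_root hr,
      jac_mon G h (pow_mem G.T_mem 9)]
    simp
  have k4 : ∀ ij, Nil (jacD G.D h) (G.ev (X ij)) := by
    intro ij
    obtain ⟨ρ, Q, hρ, e⟩ := hx.2 ij
    refine nil_div (der_root hr ρ) (G.r_inj ρ hρ) ?_
    have := nil_aeval hr _ k3 Q
    rwa [← e, map_mul, evA_C] at this
  have := nil_aeval hr _ k4 f
  rwa [aeval_X_left_apply] at this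

end Pool.Agent.MP_0f1eb7_ag.Cyl

end
end MrgPart3

-- ======== part 4: formerly Pool.Agent.MP_0f1eb7_ag.cyl.Tr
section MrgPart4

/-! Transfer of nilpotency to leading coefficients, and the locally nilpotent derivation. -/

set_option autoImplicit false

noncomputable section

namespace Pool.Agent.MP_0f1eb7_ag.Cyl

open MvPolynomial Matrix

namespace TrP

variable {Ω Γ : Type} [Field Ω] [Algebra ℂ Ω] [LinearOrderedCommGroupWithZero Γ] (G : Deg Ω Γ)

theorem ld_D {f m : Ω} {c : kk} (hm : m ∈ G.Mon) (h : G.Ld f m c) (j : I9) :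
    G.Ld (G.D j f) m (dd j c) := by
  have e : G.D j (f - G.ι c * m) = G.D j f - G.ι (dd j c) * m := by
    rw [map_sub, Derivation.leibniz, G.D_mon j m hm, G.D_iota, smul_zero, zero_add, smul_eq_mul,
      mul_comm]
  have h' : G.v (f - G.ι c * m) < G.v m := h
  show G.v (G.D j f - G.ι (dd j c) * m) < G.v m
  rw [← e]
  exact (G.D_le j _).trans_lt h'

theorem ld_jac {h m : I9 → Ω} {c : I9 → kk}
    (H : ∀ l, l ≠ oo → m l ∈ G.Mon ∧ G.Ld (h l) (m l) (c l)) {f m' : Ω} {c' : kk}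
    (hm : m' ∈ G.Mon) (hf : G.Ld f m' c') :
    ∃ m'' ∈ G.Mon, G.Ld (jacD G.D h f) m'' (jacD dd c c') := by
  have hg : ∀ l, Function.update m oo m' l ∈ G.Mon := fun l => by
    by_cases e : l = oo
    · rwa [e, Function.update_self]
    · rw [Function.update_of_ne e]
      exact (H l e).1
  refine ⟨∏ l, Function.update m oo m' l, Submonoid.prod_mem _ fun l _ => hg l, ?_⟩
  rw [jacD_apply, jacD_apply]
  refine Lead.det G.iota_le (fun l j => ?_) fun l => G.mon_ne _ (hg l)
  by_cases e : l = oo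
  · rw [e, Function.update_self, updateRow_self, updateRow_self]
    exact ld_D G hm hf j
  · rw [Function.update_of_ne e, updateRow_ne e, updateRow_ne e]
    exact ld_D G (H l e).1 (H l e).2 j

theorem jacD_congr {E : Type} [Field E] [Algebra ℂ E] (D : I9 → Derivation ℂ E E) {h h' : I9 → E}
    (e : ∀ l, l ≠ oo → h l = h' l) : jacD D h = jacD D h' := by
  ext f
  rw [jacD_apply, jacD_apply]
  congr 1
  ext l j
  by_cases hl : l = oo
  · rw [hl, updateRow_self, updateRow_self]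
  · rw [updateRow_ne hl, updateRow_ne hl, of_apply, of_apply, e l hl]

theorem pt_y0 (ij : I9) : pt G.y0 ij = G.ι (pt ym ij) * G.T := by
  simp [pt, Deg.y0, mul_comm]

theorem sgK_pt (a : Fin 4) (ij : I9) : sgK a (pt ym ij) = (chi a ij : kk) * pt ym ij := by
  have e : pt ym ij = algebraMap Py kk (X ij) := rfl
  rw [e, sgK_alg, sgP, aeval_X, map_mul, map_intCast]

theorem mem_range {x : I9 → Ap} {h : Ω} (hh : h ∈ G.Cs x) : ∃ f, G.ev f = h := by
  have : G.Cs x ≤ G.ev.range := by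
    refine Algebra.adjoin_le ?_
    rintro _ (⟨i, rfl⟩ | ⟨l, -, rfl⟩)
    · exact ⟨rt i ^ 2, by
        show G.ev (rt i ^ 2) = G.r i ^ 2
        rw [map_pow, Deg.ev, evA_rt]⟩
    · exact ⟨x l, rfl⟩
  exact this hh

theorem iter {α β : Type} {R : α → β → Prop} {F : α → α} {F' : β → β}
    (H : ∀ a b, R a b → R (F a) (F' b)) (n : ℕ) {a : α} {b : β} (h : R a b) :
    R (F^[n] a) (F'^[n] b) := by
  induction n with
  | zero => exact h
  | succ n ih =>
    rw [Function.iterate_succ_apply', Function.iterate_succ_apply']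
    exact H _ _ ih

end TrP

open TrP

theorem tr : TrStmt := by
  intro Ω Γ _ _ _ G h m c H f m' c' hm hf ⟨n, hn⟩
  obtain ⟨m'', -, h2⟩ := iter (R := fun f c => ∃ m ∈ G.Mon, G.Ld f m c)
    (F := fun g => jacD G.D h g) (F' := fun g => jacD dd c g)
    (fun _ _ ⟨_, h1, h2⟩ => ld_jac G H h1 h2) n ⟨m', hm, hf⟩
  rw [hn] at h2
  exact ⟨n, Lead.eq_zero G.iota_le h2⟩

theorem semiLC (h1 : NnStmt) (h2 : EqvStmt) : SemiLCStmt := by
  intro Ω Γ _ _ _ G x hx c ⟨h, hh, m, hm, hl⟩ a
  have fix : G.τ a h = h := by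
    have : G.Cs x ≤ AlgHom.equalizer (G.τ a) (AlgHom.id ℂ Ω) := by
      refine Algebra.adjoin_le ?_
      rintro _ (⟨i, rfl⟩ | ⟨l, -, rfl⟩)
      · show G.τ a (G.r i ^ 2) = G.r i ^ 2
        rw [map_pow, G.τ_r, flip]
        split_ifs <;> push_cast <;> ring
      · show G.τ a (G.ev (x l)) = G.ev (x l)
        have := h2 Ω (G.τ a) a G.r G.y0 (G.τ_r a) (fun ij => by
          rw [pt_y0, map_mul, G.τ_T, G.τ_iota, sgK_pt, map_mul, map_intCast, mul_assoc])
          (h1 Ω Γ G).1 (x l)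
        rw [mem_Bs.1 (hx.1 l) a] at this
        exact this
    exact this hh
  have hl' : G.Ld h (G.τ a m) (sgK a c) := by
    have h' : G.v (h - G.ι c * m) < G.v m := hl
    rw [← G.τ_val a, ← G.τ_val a m, map_sub, map_mul, fix, G.τ_iota] at h'
    exact h'
  rcases G.τ_mon a m hm with e | e
  · rw [e] at hl'
    exact Or.inl (Lead.unique G.iota_le hl' hl)
  · rw [e] at hl'
    exact Or.inr (Lead.unique G.iota_le hl' (Lead.neg_gauge hl))

theorem lnd (hOm : OmStmt) (h1 : A1aStmt) (h2 : A1bStmt) (h3 : A2Stmt) (h4 : TrStmt)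
    (h5 : SemiLCStmt) (h6 : BStmt) (h7 : NnStmt) (h8 : GenStmt) : LndStmt := by
  intro x hx
  obtain ⟨Ω, Γ, _, _, _, ⟨G⟩⟩ := hOm
  obtain ⟨c, hc, hne⟩ := h2 _ (h1 Ω Γ G x hx)
  have ex : ∀ l, ∃ (h m : Ω) (p : Py), l ≠ oo → h ∈ G.Cs x ∧ (m ∈ G.Mon ∧ G.Ld h m (c l)) ∧
      algebraMap Py kk p = c l ∧ IsLc 1 0 1 2 3 p ∧ ∃ e, p.IsHomogeneous e := by
    intro l
    by_cases e : l = oo
    · exact ⟨0, 0, 0, fun h => absurd e h⟩
    · obtain ⟨⟨h, hh, m, hm, hl⟩, h0⟩ := hc l e
      obtain ⟨f, rfl⟩ := mem_range G hh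
      obtain ⟨p, hp⟩ := h6 Ω Γ G f m hm _ h0 hl
      exact ⟨_, m, p, fun _ => ⟨hh, ⟨hm, hl⟩, hp⟩⟩
  choose h m p H using ex
  have hdel : del p = jacD dd c := jacD_congr _ fun l hl => (H l hl).2.2.1
  have nil : ∀ f m' c', m' ∈ G.Mon → G.Ld (G.ev f) m' c' → Nil (del p) c' := fun f m' c' hm hf => by
    rw [hdel]
    exact h4 Ω Γ G h m c (fun l hl => (H l hl).2.1) _ m' c' hm hf
      (h3 Ω Γ G x hx h (fun l hl => (H l hl).1) f)
  obtain ⟨n1, n2⟩ := h7 Ω Γ G
  obtain ⟨g1, ⟨f2, g2⟩, ⟨f3, g3⟩, -⟩ := h8 Ω G.r G.y0 n1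
  have hT := G.mon_ne _ G.T_mem
  have hm0 : (G.r 1 ^ 2 * G.r 3 ^ 2 * G.T ^ (48 * NN)) ^ 2 ∈ G.Mon :=
    pow_mem (mul_mem (mul_mem (pow_mem (G.r_mem 1) _) (pow_mem (G.r_mem 3) _))
      (pow_mem G.T_mem _)) _
  have n3 : G.Ld (G.n0 ^ 2) ((G.r 1 ^ 2 * G.r 3 ^ 2 * G.T ^ (48 * NN)) ^ 2) om := by
    have := Lead.pow G.iota_le n2 2
    rwa [← pow_mul (yy 1 ym * yy (-1) ym)] at this
  refine ⟨p, by rwa [hdel], fun l hl a => ?_, fun l hl => (H l hl).2.2.2.2,
    fun l hl => (H l hl).2.2.2.1, nil f3 (G.T ^ 3) _ (pow_mem G.T_mem _) ?_,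
    nil (f2 ^ 2) _ _ hm0 ?_, fun ij => ?_⟩
  · rw [(H l hl).2.2.1]
    exact h5 Ω Γ G x hx _ (hc l hl).1 a
  · have e : G.ev f3 = G.ι ym.det * G.T ^ 3 := by
      rw [Deg.ev, g3, Deg.y0, det_smul, det_map, mul_comm]
      simp
    rw [e]
    exact Lead.refl (ι := (G.ι : kk →+* Ω)) (pow_ne_zero _ hT) _
  · rw [map_pow, Deg.ev, g2]
    exact n3
  · obtain ⟨f, hf⟩ := g1 ij
    refine nil f _ _ (mul_mem hm0 G.T_mem) ?_
    rw [Deg.ev, hf, pt_y0]
    exact Lead.mul G.iota_le n3 (Lead.refl (ι := (G.ι : kk →+* Ω)) hT _)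

end Pool.Agent.MP_0f1eb7_ag.Cyl

end
end MrgPart4

-- ======== part 5: formerly Pool.Agent.MP_0f1eb7_ag.cyl.B
section MrgPart5

/-! Row B: leading coefficients of the twisted ring are homogeneous polynomials. -/

set_option autoImplicit false

noncomputable section

namespace Pool.Agent.MP_0f1eb7_ag.Cyl

open MvPolynomial Matrix

namespace BP

theorem hom_of_mul {σ R : Type} [CommRing R] [IsDomain R] {A h : MvPolynomial σ R} {D W : ℕ}
    (hA : A.IsHomogeneous D) (h0 : A ≠ 0) (hW : (A * h).IsHomogeneous W) :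
    h.IsHomogeneous (W - D) := by
  have key : ∀ e, D + e ≠ W → homogeneousComponent e h = 0 := by
    intro e he
    have e1 : homogeneousComponent (D + e) (A * h) = 0 := by
      rw [homogeneousComponent_of_mem hW, if_neg he]
    by_cases hl : e ∈ Finset.range (h.totalDegree + 1)
    · conv_lhs at e1 => rw [← sum_homogeneousComponent h, Finset.mul_sum, map_sum]
      rw [Finset.sum_eq_single_of_mem e hl, homogeneousComponent_of_mem
        (hA.mul (homogeneousComponent_isHomogeneous e h)), if_pos rfl] at e1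
      · exact (mul_eq_zero.1 e1).resolve_left h0
      · intro b _ hb
        rw [homogeneousComponent_of_mem (hA.mul (homogeneousComponent_isHomogeneous b h)),
          if_neg (by omega)]
    · exact homogeneousComponent_eq_zero e h (by simpa using hl)
  rw [← sum_homogeneousComponent h]
  refine IsHomogeneous.sum _ _ _ fun e _ => ?_
  by_cases he : D + e = W
  · rw [show W - D = e by omega]
    exact homogeneousComponent_isHomogeneous e h
  · rw [key e he]
    exact isHomogeneous_zero _ _ _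

theorem hom_of_aLead {p : Ap} {W : ℕ} {κ : Fin 4 →₀ ℕ} {ψ : Py}
    (h : ALead (homogeneousComponent W p) κ ψ) : ψ.IsHomogeneous W := by
  intro η hη
  by_contra hc
  refine hη ?_
  rw [(h η).2, coeff_homogeneousComponent, if_neg, coeff_zero]
  rwa [Finsupp.degree_eq_weight_one]

/-- clearing the denominators of the twisted point -/
theorem exists_poly (f : Ap) : ∃ (r : ℕ) (p : Ap), ∀ (E : Type) [Field E] [Algebra ℂ E]
    (ρ : Fin 4 → E) (y : M3 E), nn 1 (ρ 1) (ρ 3) y ≠ 0 →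
    evA ρ y p = nn 1 (ρ 1) (ρ 3) y ^ r * evA ρ (tw 1 (ρ 0) (ρ 1) (ρ 2) (ρ 3) y) f := by
  obtain ⟨r, hr⟩ := clear_den (C : Rt →+* Ap)
    (pt (Ad (gt (rt 0 * xx Ym) (rt 1 * yy 1 Ym)) * Ym *
      (Ad (gt (rt 2 * xx Ym) (rt 3 * yy (-1) Ym)))ᵀ))
    (((1 - (rt 1 * yy 1 Ym) ^ 2) * (1 - (rt 3 * yy (-1) Ym) ^ 2)) ^ 2) f
  obtain ⟨p, hp⟩ := hr r le_rfl
  refine ⟨2 * r, p, fun E _ _ ρ y hn => ?_⟩
  have hx : evA ρ y (xx Ym) = xx y := by rw [← xx_map, evA_Ym]
  have hy : ∀ c, evA ρ y (yy c Ym) = yy c y := fun c => by rw [← yy_map, evA_Ym]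
  have e1 : (evA ρ y : Ap →+* E)
      (((1 - (rt 1 * yy 1 Ym) ^ 2) * (1 - (rt 3 * yy (-1) Ym) ^ 2)) ^ 2) =
      nn 1 (ρ 1) (ρ 3) y ^ 2 := by
    simp only [RingHom.coe_coe, map_pow, map_mul, map_sub, map_one, evA_rt, hy, nn]
  have := hp E (evA ρ y : Ap →+* E) (by rw [e1]; exact pow_ne_zero _ hn)
  rw [e1, ← pow_mul] at this
  refine this.trans (congrArg (fun t => nn 1 (ρ 1) (ρ 3) y ^ (2 * r) * t) ?_)
  have e2 : (Ad (gt (rt 0 * xx Ym) (rt 1 * yy 1 Ym)) * Ym *
      (Ad (gt (rt 2 * xx Ym) (rt 3 * yy (-1) Ym)))ᵀ).map (evA ρ y) =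
      nn 1 (ρ 1) (ρ 3) y ^ 2 • tw 1 (ρ 0) (ρ 1) (ρ 2) (ρ 3) y := by
    have h1 := left_ne_zero_of_mul hn
    have h2 := right_ne_zero_of_mul hn
    rw [Matrix.map_mul, Matrix.map_mul, transpose_map, ← Ad_map, ← Ad_map, gt_map, gt_map, evA_Ym]
    simp only [map_mul, evA_rt, hx, hy, tw, gm, Ad_smul, transpose_smul, Matrix.smul_mul,
      Matrix.mul_smul, smul_smul, nn]
    rw [eq_comm]
    convert one_smul E _
    generalize 1 - (ρ 1 * yy 1 y) ^ 2 = u at h1
    generalize 1 - (ρ 3 * yy (-1) y) ^ 2 = w at h2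
    field_simp
  have e3 : (fun t => (evA ρ y : Ap →+* E) (pt (Ad (gt (rt 0 * xx Ym) (rt 1 * yy 1 Ym)) * Ym *
      (Ad (gt (rt 2 * xx Ym) (rt 3 * yy (-1) Ym)))ᵀ) t) / nn 1 (ρ 1) (ρ 3) y ^ 2) =
      pt (tw 1 (ρ 0) (ρ 1) (ρ 2) (ρ 3) y) := by
    funext t
    have := congrFun (congrFun e2 t.1) t.2
    rw [Matrix.map_apply, Matrix.smul_apply, smul_eq_mul] at this
    rw [div_eq_iff (pow_ne_zero _ hn), mul_comm (pt _ t), RingHom.coe_coe, pt, pt, this]
  have e4 : (evA ρ y : Ap →+* E).comp C = (aeval ρ : Rt →ₐ[ℂ] E) :=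
    RingHom.ext fun q => evA_C ρ y q
  rw [e3, e4]
  rfl

theorem evA_trP {E : Type} [CommRing E] [Algebra ℂ E] (ρ : Fin 4 → E) (y : M3 E) (p : Ap) :
    evA ρ y (trP p) = evA ρ yᵀ p := by
  have : (evA ρ y).comp ((rename Prod.swap : Ap →ₐ[Rt] Ap).restrictScalars ℂ) = evA ρ yᵀ :=
    algHom_ext_Ap (fun j => by simp [rt, evA_C]) (fun ij => by simp [evA_X])
  exact congrArg (fun g : Ap →ₐ[ℂ] E => g p) this

theorem coeff_trP {R : Type} [CommRing R] (p : MvPolynomial I9 R) (η : I9 →₀ ℕ) :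
    coeff η (trP p) = coeff (η.mapDomain Prod.swap) p := by
  have := coeff_rename_mapDomain Prod.swap Prod.swap_injective p (η.mapDomain Prod.swap)
  rw [← Finsupp.mapDomain_comp, Prod.swap_swap_eq, Finsupp.mapDomain_id] at this
  exact this

theorem trP_yy (c : ℤ) : rename Prod.swap (yy c (Ym : M3 Py)) = yy c (Ym : M3 Py) := by
  rw [← yy_map, ← yy_transpose c Ym]
  congr 1
  ext i j : 2
  simp [Ym]

end BP

open BP in
theorem trLc : TrLcStmt := by
  rintro h ⟨f, p, r, W, κ, h1, h2, h3⟩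
  refine ⟨trP f, trP p, r, W, κ, fun E _ _ ρ y hn => ?_, (totalDegree_rename_le _ _).trans h2,
    fun η => ?_⟩
  · have e : nn (-1) (ρ 3) (ρ 1) y = nn 1 (ρ 1) (ρ 3) yᵀ := by
      simp only [nn, yy_transpose, neg_neg]
      ring
    rw [e] at hn ⊢
    rw [evA_trP, evA_trP, h1 E ρ yᵀ hn, tw_transpose, neg_neg]
  · have e1 : homogeneousComponent W (trP p) = trP (homogeneousComponent W p) :=
      (rename_homogeneousComponent W p).symm
    have e2 : (yy (-1) Ym * yy (- -1) Ym) ^ (2 * r) * trP h =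
        trP ((yy 1 Ym * yy (-1) Ym) ^ (2 * r) * h) := by
      simp only [trP, map_mul, map_pow, trP_yy, neg_neg]
      rw [mul_comm (yy (-1) Ym)]
    rw [e1, e2, coeff_trP, coeff_trP]
    exact h3 _

open BP in
theorem bS (h0 : InvStmt) (h1 : NnStmt) (h2 : B1Stmt) : BStmt := by
  intro Ω Γ _ _ _ G f m hm c hc hL
  obtain ⟨hn, hN⟩ := h1 Ω Γ G
  obtain ⟨r', p', hp'⟩ := h2 Ω Γ G f m hm c hc hL
  obtain ⟨r, p, hp⟩ := exists_poly f
  have inj := IsFractionRing.injective Py kk
  have hy : ∀ e, yy e ym = algebraMap Py kk (yy e Ym) := fun e => yy_map _ e Ym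
  have hx : xx ym = algebraMap Py kk (xx Ym) := xx_map _ Ym
  have hA : (yy 1 Ym * yy (-1) Ym : Py) ^ (2 * r) ≠ 0 :=
    pow_ne_zero _ (mul_ne_zero (h0.yy_ne _) (h0.yy_ne _))
  have eA : ((yy 1 ym * yy (-1) ym) ^ 2) ^ r =
      algebraMap Py kk ((yy 1 Ym * yy (-1) Ym) ^ (2 * r)) := by
    rw [← pow_mul, hy, hy, map_pow, map_mul]
  have L1 := (Lead.pow G.iota_le hN r).mul G.iota_le hL
  have hev : G.n0 ^ r * G.ev f = evA G.r G.y0 p := (hp Ω G.r G.y0 hn).symm
  rw [hev, eA] at L1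
  have hc1 : algebraMap Py kk ((yy 1 Ym * yy (-1) Ym) ^ (2 * r)) * c ≠ 0 :=
    mul_ne_zero ((map_ne_zero_iff _ inj).2 hA) hc
  have hp0 : p ≠ 0 := by
    rintro rfl
    rw [map_zero] at L1
    exact hc1 (L1.eq_zero G.iota_le)
  obtain ⟨κ, ψ, hψ, hAL, L2⟩ := G.link p hp0
  have em : (G.r 1 ^ 2 * G.r 3 ^ 2 * G.T ^ (48 * NN)) ^ r * m =
      G.T ^ p.totalDegree * ∏ i, G.r i ^ κ i := by
    refine G.mon_inj _ ?_ _ ?_ ?_
    · exact mul_mem (pow_mem (mul_mem (mul_mem (pow_mem (G.r_mem _) _) (pow_mem (G.r_mem _) _))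
        (pow_mem G.T_mem _)) _) hm
    · exact mul_mem (pow_mem G.T_mem _) (prod_mem fun i _ => pow_mem (G.r_mem _) _)
    · exact (L1.val_eq G.iota_le hc1).symm.trans
        (L2.val_eq G.iota_le ((map_ne_zero_iff _ inj).2 hψ))
  rw [em] at L1
  have e1 := L1.unique G.iota_le L2
  have e2 : (yy 1 Ym * yy (-1) Ym) ^ (2 * r) * p' = xx Ym ^ r' * ψ := by
    apply inj
    rw [map_mul, hp', map_mul, ← e1, hx, map_pow _ (xx Ym)]
    ring
  obtain ⟨h, rfl⟩ : xx (Ym : M3 Py) ^ r' ∣ p' :=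
    (h0.rel.pow (m := r') (n := 2 * r)).dvd_of_dvd_mul_left ⟨ψ, e2⟩
  have hx0 : xx (Ym : M3 Py) ^ r' ≠ 0 := pow_ne_zero _ h0.xx_ne
  have e3 : ψ = (yy 1 Ym * yy (-1) Ym) ^ (2 * r) * h := by
    apply mul_left_cancel₀ hx0
    rw [← e2]
    ring
  subst e3
  refine ⟨h, ?_, ⟨f, p, r, p.totalDegree, κ, hp, le_rfl, hAL⟩, _,
    hom_of_mul (((h0.yy_hom 1).mul (h0.yy_hom (-1))).pow _) hA (hom_of_aLead hAL)⟩
  rw [map_mul] at e1
  exact (mul_left_cancel₀ ((map_ne_zero_iff _ inj).2 hA) e1).symm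

end Pool.Agent.MP_0f1eb7_ag.Cyl

end
end MrgPart5

-- ======== part 6: formerly Pool.Agent.MP_0f1eb7_ag.cyl.C
section MrgPart6

/-! Bounds for the coordinate derivations with respect to a valuation adapted to a slice. -/

set_option autoImplicit false

noncomputable section

namespace Pool.Agent.MP_0f1eb7_ag.Cyl

open MvPolynomial Matrix

namespace CP

theorem pt_ym (j : I9) : pt ym j = algebraMap Py kk (X j) := rfl

theorem dd_y (j j' : I9) : dd j (pt ym j') = if j = j' then 1 else 0 := by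
  rw [pt_ym, dd_alg, pderiv_X, Pi.single_apply]
  by_cases h : j = j'
  · simp [h]
  · simp [h, Ne.symm h]

theorem der_zero (E : Derivation ℂ kk kk) (h : ∀ j, E (pt ym j) = 0) (f : kk) : E f = 0 := by
  have h1 : ∀ p : Py, E (algebraMap Py kk p) = 0 := fun p => by
    induction p using MvPolynomial.induction_on with
    | C a =>
      rw [← MvPolynomial.algebraMap_eq, ← IsScalarTower.algebraMap_apply]
      exact E.map_algebraMap a
    | add p q hp hq => rw [map_add, map_add, hp, hq, add_zero]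
    | mul_X p j hp => rw [map_mul, E.leibniz, hp, ← pt_ym, h, smul_zero, smul_zero, add_zero]
  obtain ⟨a, b, -, rfl⟩ := IsFractionRing.div_surjective (A := Py) f
  rw [E.leibniz_div, h1, h1]
  simp

theorem der_expand (E : Derivation ℂ kk kk) (f : kk) : E f = ∑ j, E (pt ym j) * dd j f := by
  have := der_zero (E - ∑ j, E (pt ym j) • dd j) (fun j' => by
    rw [Derivation.sub_apply, der_sum_apply]
    simp [dd_y]) f
  rw [Derivation.sub_apply, der_sum_apply, sub_eq_zero] at this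
  simpa using this

end CP

open CP in
theorem cS : CStmt := by
  intro Γ _ v h t B ht hD hB h1 j f
  let g : I9 → kk := fun l => if l = oo then t else h l
  let J : Matrix I9 I9 kk := of fun l => grad dd (g l)
  have hJ : J.det = 1 := by
    rw [← ht, jacD_apply]
    congr 1
    ext l j
    by_cases hl : l = oo
    · simp [J, g, hl]
    · simp [J, g, hl]
  have hu : IsUnit J.det := hJ ▸ isUnit_one
  have uniq : ∀ E : Derivation ℂ kk kk, (∀ l, E (g l) = 0) → ∀ f, E f = 0 := fun E hE => by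
    refine der_zero E fun j => ?_
    have h2 : J *ᵥ (fun j => E (pt ym j)) = 0 := by
      funext l
      have := hE l
      rw [der_expand] at this
      simpa [J, grad, mulVec, dotProduct, mul_comm] using this
    exact congrFun (eq_zero_of_mulVec_eq_zero hu.ne_zero h2) j
  let D : I9 → Derivation ℂ kk kk := fun l => ∑ j, J⁻¹ j l • dd j
  have hDa : ∀ l f, D l f = ∑ j, J⁻¹ j l * dd j f := fun l f => by
    simp [D, der_sum_apply]
  have hDg : ∀ l l', D l (g l') = if l' = l then 1 else 0 := fun l l' => by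
    rw [hDa, ← one_apply, ← mul_nonsing_inv J hu, mul_apply]
    exact Finset.sum_congr rfl fun j _ => mul_comm _ _
  have hδ : ∀ l, jacD dd h (g l) = if l = oo then 1 else 0 := fun l => by
    by_cases hl : l = oo
    · simp [g, hl, ht]
    · simp only [g, hl, if_false]
      rw [jacD_apply]
      exact det_updateRow_eq_zero (M := of fun l => grad dd (h l)) hl
  have hc : ∀ (E : Derivation ℂ kk kk) (P : Prop) [Decidable P],
      E (if P then 1 else 0) = 0 := fun E P _ => by split_ifs <;> simp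
  have hv : ∀ l f, v (D l f) ≤ v f := fun l => by
    refine hD (D l) (fun f hf => ?_) ?_
    · have := uniq ⁅jacD dd h, D l⁆ (fun l' => by
        rw [Derivation.commutator_apply, hDg, hδ, hc, hc, sub_zero]) f
      rwa [Derivation.commutator_apply, hf, map_zero, sub_zero] at this
    · have := hDg l oo
      simp only [g, if_true] at this
      rw [this, hc]
  have hP : ∀ j l, v (J⁻¹ j l) ≤ B := fun j l => by
    have : D l (pt ym j) = J⁻¹ j l := by simp [hDa, dd_y]
    rw [← this]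
    exact (hv l _).trans (hB j)
  have hadj : J = (J⁻¹).adjugate := by
    have h2 := mul_adjugate J⁻¹
    rw [det_nonsing_inv, hJ, Ring.inverse_one, one_smul] at h2
    rw [← one_mul (J⁻¹).adjugate, ← mul_nonsing_inv J hu, mul_assoc, h2, mul_one]
  have hJv : ∀ l j, v (J l j) ≤ B ^ 9 := fun l j => by
    rw [hadj, adjugate_apply]
    refine val_det_le fun a b => ?_
    rw [updateRow_apply]
    split_ifs
    · rw [Pi.single_apply]
      split_ifs
      · simpa using h1
      · simp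
    · exact hP a b
  have hdd : dd j f = ∑ l, J l j * D l f := by
    simp only [hDa, Finset.mul_sum]
    rw [Finset.sum_comm]
    have : ∀ j', ∑ l, J l j * (J⁻¹ j' l * dd j' f) = (if j' = j then 1 else 0) * dd j' f :=
      fun j' => by
        rw [← one_apply, ← nonsing_inv_mul J hu, mul_apply, Finset.sum_mul]
        exact Finset.sum_congr rfl fun l _ => by ring
    simp [this]
  rw [hdd]
  refine v.map_sum_le fun l _ => ?_
  rw [map_mul]
  exact mul_le_mul' (hJv l j) (hv l f)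

end Pool.Agent.MP_0f1eb7_ag.Cyl

end
end MrgPart6

-- ======== part 7: formerly Pool.Agent.MP_0f1eb7_ag.cyl.Diag
section MrgPart7

/-! Integral diagonalisation for every signed permutation, and density of the slices. -/

set_option autoImplicit false

noncomputable section

namespace Pool.Agent.MP_0f1eb7_ag.Cyl

open MvPolynomial Matrix

namespace DiagP

section
variable {K : Type} [Field K] [Algebra ℂ K]

theorem intM_adj {O : ValuationSubring K} {k : M2 K} (h : IntM O k) : IntM O k.adjugate := by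
  refine ⟨fun i j => ?_, by rw [det_adjugate, h.2, one_pow]⟩
  rw [adjugate_fin_two]
  fin_cases i <;> fin_cases j
  · exact h.1 1 1
  · exact O.neg_mem _ (h.1 0 1)
  · exact O.neg_mem _ (h.1 1 0)
  · exact h.1 0 0

theorem Ad_adj_mul {k : M2 K} (h : k.det = 1) : Ad k.adjugate * Ad k = 1 := by
  rw [← Ad_mul, adjugate_mul, h, one_smul, Ad_one]

theorem Ad_mul_adj {k : M2 K} (h : k.det = 1) : Ad k * Ad k.adjugate = 1 := by
  rw [← Ad_mul, mul_adjugate, h, one_smul, Ad_one]

theorem Ad_adj_tr {k : M2 K} (h : k.det = 1) : (Ad k.adjugate)ᵀ = eta * Ad k * eta := by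
  have h1 : Ad k.adjugate = eta * (Ad k)ᵀ * eta := by
    calc Ad k.adjugate = Ad k.adjugate * (Ad k * (eta * (Ad k)ᵀ * eta)) := by
          rw [(isSO_Ad h).right_inv, Matrix.mul_one]
      _ = _ := by rw [← Matrix.mul_assoc, Ad_adj_mul h, Matrix.one_mul]
  rw [h1, transpose_mul, transpose_mul, eta_transpose, transpose_transpose, Matrix.mul_assoc]

theorem eta_single {i : Fin 3} (hi : (sg i : K) = 1) :
    (eta : M3 K) *ᵥ Pi.single i 1 = Pi.single i 1 := by
  rw [eta, diagonal_mulVec_single, hi, one_mul]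

/-- one forced column -/
theorem col {A B : M2 K} (hA : A.det = 1) (hB : B.det = 1) (y : M3 K) {i : Fin 3}
    (hi : (sg i : K) = 1) {c : K} {a b : Fin 3 → K} (ha : Ad A *ᵥ Pi.single i 1 = a)
    (hb : Ad B *ᵥ Pi.single i 1 = b) (h : (y * eta) *ᵥ b = c • a) :
    (Ad A.adjugate * y * (Ad B.adjugate)ᵀ) *ᵥ Pi.single i 1 = c • Pi.single i 1 := by
  rw [Ad_adj_tr hB]
  calc (Ad A.adjugate * y * (eta * Ad B * eta)) *ᵥ Pi.single i 1
      = Ad A.adjugate *ᵥ ((y * eta) *ᵥ (Ad B *ᵥ (eta *ᵥ Pi.single i 1))) := by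
        simp only [mulVec_mulVec, Matrix.mul_assoc]
    _ = c • Pi.single i 1 := by
        rw [eta_single hi, hb, h, mulVec_smul, ← ha, mulVec_mulVec, Ad_adj_mul hA, one_mulVec]

theorem diag_of {D : M3 K} {c₀ c₂ : K} (h0 : D *ᵥ Pi.single 0 1 = c₀ • Pi.single 0 1)
    (h2 : D *ᵥ Pi.single 2 1 = c₂ • Pi.single 2 1) (h0' : Dᵀ *ᵥ Pi.single 0 1 = c₀ • Pi.single 0 1)
    (h2' : Dᵀ *ᵥ Pi.single 2 1 = c₂ • Pi.single 2 1) : D = diagonal ![c₀, D 1 1, c₂] := by
  have a00 := congrFun h0 0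
  have a10 := congrFun h0 1
  have a20 := congrFun h0 2
  have a02 := congrFun h2 0
  have a12 := congrFun h2 1
  have a22 := congrFun h2 2
  have a01 := congrFun h0' 1
  have a21 := congrFun h2' 1
  simp at a00 a10 a20 a02 a12 a22 a01 a21
  ext i j
  fin_cases i <;> fin_cases j <;> simp [a00, a10, a20, a02, a12, a22, a01, a21]

theorem ip_smul (c d : K) (a b : Fin 3 → K) : ip (c • a) (d • b) = c * d * ip a b := by
  rw [ip, ip, mulVec_smul, smul_dotProduct, dotProduct_smul, smul_eq_mul, smul_eq_mul, mul_assoc]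

theorem intV_sign {O : ValuationSubring K} {e : K} (he : e = 1 ∨ e = -1) {a : Fin 3 → K}
    (ha : IntV O a) : IntV O (e • a) := fun i => by
  rcases he with rfl | rfl
  · rw [one_smul]; exact ha i
  · rw [neg_one_smul]; exact O.neg_mem _ (ha i)

theorem core {O : ValuationSubring K}
    (hP : ∀ a b : Fin 3 → K, IntV O a → IntV O b → ip a a = 1 → ip b b = 1 → ip a b = 0 →
      ∃ k, IntM O k ∧ Ad k *ᵥ Pi.single 0 1 = a ∧ Ad k *ᵥ Pi.single 2 1 = b)
    {y : M3 K} {s : Fin 3 → K} {u w : Fin 3 → Fin 3 → K} (hI : ∀ i, IntV O (u i) ∧ IntV O (w i))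
    (hu : ∀ i j, ip (u i) (u j) = if i = j then 1 else 0)
    (hw : ∀ i j, ip (w i) (w j) = if i = j then 1 else 0)
    (h1 : ∀ i, (y * eta) *ᵥ w i = s i • u i) (h2 : ∀ i, (yᵀ * eta) *ᵥ u i = s i • w i)
    {i j : Fin 3} (hij : i ≠ j) {e e' : K} (he : e = 1 ∨ e = -1) (he' : e' = 1 ∨ e' = -1) :
    ∃ k₁ k₂ μ, IntM O k₁ ∧ IntM O k₂ ∧ Ad k₁ * y * (Ad k₂)ᵀ = diagonal ![e * s i, μ, e' * s j] ∧
      e * s i * μ * (e' * s j) = y.det := by
  have hee : e * e = 1 := by rcases he with rfl | rfl <;> ring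
  have hee' : e' * e' = 1 := by rcases he' with rfl | rfl <;> ring
  obtain ⟨A, hA, hA0, hA2⟩ := hP (e • u i) (e' • u j) (intV_sign he (hI i).1)
    (intV_sign he' (hI j).1) (by rw [ip_smul, hu, if_pos rfl, hee, one_mul])
    (by rw [ip_smul, hu, if_pos rfl, hee', one_mul]) (by rw [ip_smul, hu, if_neg hij, mul_zero])
  obtain ⟨B, hB, hB0, hB2⟩ := hP (w i) (w j) (hI i).2 (hI j).2 (by rw [hw, if_pos rfl])
    (by rw [hw, if_pos rfl]) (by rw [hw, if_neg hij])
  have s0 : (sg 0 : K) = 1 := rfl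
  have s2 : (sg 2 : K) = 1 := rfl
  have c0 := col hA.2 hB.2 y s0 (c := e * s i) hA0 hB0 (by
    rw [h1, smul_smul, mul_right_comm, hee, one_mul])
  have c2 := col hA.2 hB.2 y s2 (c := e' * s j) hA2 hB2 (by
    rw [h1, smul_smul, mul_right_comm, hee', one_mul])
  have r0 := col hB.2 hA.2 yᵀ s0 (c := e * s i) hB0 hA0 (by rw [mulVec_smul, h2, smul_smul])
  have r2 := col hB.2 hA.2 yᵀ s2 (c := e' * s j) hB2 hA2 (by rw [mulVec_smul, h2, smul_smul])
  have ht : Ad B.adjugate * yᵀ * (Ad A.adjugate)ᵀ = (Ad A.adjugate * y * (Ad B.adjugate)ᵀ)ᵀ := by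
    rw [transpose_mul, transpose_mul, transpose_transpose, Matrix.mul_assoc]
  rw [ht] at r0 r2
  have hD := diag_of c0 c2 r0 r2
  refine ⟨A.adjugate, B.adjugate, _, intM_adj hA, intM_adj hB, hD, ?_⟩
  have hdet := det_act (isSO_Ad (intM_adj hA).2) (isSO_Ad (intM_adj hB).2) y
  rw [← hdet]
  conv_rhs => rw [hD]
  simp [Fin.prod_univ_three]

theorem sign_cast (ε : ℤˣ) : ((ε : ℤ) : K) = 1 ∨ ((ε : ℤ) : K) = -1 := by
  rcases Int.units_eq_one_or ε with rfl | rfl <;> simp

end

section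
variable {R S : Type} [CommRing R] [CommRing S] [Algebra ℂ R] [Algebra ℂ S]

theorem aeval_pt_map (φ : R →ₐ[ℂ] S) (M : M3 R) (f : Py) :
    φ (aeval (pt M) f) = aeval (pt (M.map φ)) f := by
  have : φ.comp (aeval (pt M)) = aeval (pt (M.map φ)) :=
    MvPolynomial.algHom_ext fun ij => by simp [pt]
  exact congrArg (fun g : Py →ₐ[ℂ] S => g f) this

theorem uu_map (φ : R →ₐ[ℂ] S) (s : Fin 4 → R) : (uu s).map φ = uu fun i => φ (s i) := by
  have h1 : ∀ t, (um t).map φ = um (φ t) := fun t => by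
    ext i j; fin_cases i <;> fin_cases j <;> simp [um]
  have h2 : ∀ t, (up t).map φ = up (φ t) := fun t => by
    ext i j; fin_cases i <;> fin_cases j <;> simp [up]
  simp only [uu, Matrix.map_mul, h1, h2]

/-- the big cell parametrisation -/
def par (t t' : Fin 4 → R) (σ : Fin 3 → R) : M3 R := Ad (uu t) * diagonal σ * (Ad (uu t'))ᵀ

theorem par_map (φ : R →ₐ[ℂ] S) (t t' : Fin 4 → R) (σ : Fin 3 → R) :
    (par t t' σ).map φ = par (fun i => φ (t i)) (fun i => φ (t' i)) fun i => φ (σ i) := by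
  rw [par, par, Matrix.map_mul, Matrix.map_mul, transpose_map, ← Ad_map, ← Ad_map, uu_map, uu_map,
    diagonal_map (map_zero φ)]

end

theorem slc_map (k₁ k₂ : M2 ℂ) (σ : Fin 3 → ℂ) :
    (slc k₁ k₂).map (aeval σ : MvPolynomial (Fin 3) ℂ →ₐ[ℂ] ℂ) =
      Ad k₁ * diagonal σ * (Ad k₂)ᵀ := by
  have h : ∀ M : M3 ℂ, (M.map C).map (aeval σ : MvPolynomial (Fin 3) ℂ →ₐ[ℂ] ℂ) = M := fun M => by
    ext i j; simp
  rw [slc, Matrix.map_mul, Matrix.map_mul, transpose_map, h, h, diagonal_map (map_zero _)]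
  simp

theorem aeval_yK (f : Py) : aeval (pt yK) f = algebraMap kk Kb (algebraMap Py kk f) := by
  have : (aeval (pt yK) : Py →ₐ[ℂ] Kb) =
      (IsScalarTower.toAlgHom ℂ kk Kb).comp (IsScalarTower.toAlgHom ℂ Py kk) :=
    MvPolynomial.algHom_ext fun ij => by simp [pt, yK, ym, Ym]
  rw [this]; rfl

end DiagP

open DiagP

theorem diag (h1 : Diag1Stmt) (h2 : PauliStmt) : DiagStmt := by
  intro K _ _ _ O hO y hy
  obtain ⟨s, u, w, hs, hI, hu, hw, e1, e2⟩ := h1 K O hO y hy
  refine ⟨s, hs, fun ⟨π, ε⟩ => ?_⟩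
  have hij : π 0 ≠ π 2 := π.injective.ne (by decide)
  have hdet : s (π 0) ^ 2 * s (π 1) ^ 2 * s (π 2) ^ 2 = y.det ^ 2 := by
    have h3 : s 0 ^ 2 * s 1 ^ 2 * s 2 ^ 2 = y.det ^ 2 := congrFun hs 2
    have h4 := Equiv.prod_comp π fun i => s i ^ 2
    rw [Fin.prod_univ_three, Fin.prod_univ_three] at h4
    rw [h4, h3]
  have q0 := sign_cast (K := K) (ε 0)
  have q1 := sign_cast (K := K) (ε 1)
  have q2 := sign_cast (K := K) (ε 2)
  obtain ⟨k₁, k₂, μ, i1, i2, hD, hμ⟩ := core (h2 K O hO) hI hu hw e1 e2 hij q0 q2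
  obtain ⟨k₁', k₂', μ', i1', i2', hD', hμ'⟩ := core (h2 K O hO) hI hu hw e1 e2 hij
    (e := -((ε 0 : ℤ) : K)) (e' := -((ε 2 : ℤ) : K))
    (by rcases q0 with h | h <;> simp [h]) (by rcases q2 with h | h <;> simp [h])
  have hne : ((ε 0 : ℤ) : K) * s (π 0) * (((ε 2 : ℤ) : K) * s (π 2)) ≠ 0 := fun h =>
    hy.det_ne (by rw [← hμ]; linear_combination μ * h)
  have hμμ : μ' = μ := mul_left_cancel₀ hne (by linear_combination hμ' - hμ)
  have p0 : ((ε 0 : ℤ) : K) ^ 2 = 1 := by rcases q0 with h | h <;> simp [h]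
  have p1 : ((ε 1 : ℤ) : K) ^ 2 = 1 := by rcases q1 with h | h <;> simp [h]
  have p2 : ((ε 2 : ℤ) : K) ^ 2 = 1 := by rcases q2 with h | h <;> simp [h]
  have hsq : μ ^ 2 = (((ε 1 : ℤ) : K) * s (π 1)) ^ 2 := by
    refine mul_left_cancel₀ (pow_ne_zero 2 hne) ?_
    calc _ = (((ε 0 : ℤ) : K) * s (π 0) * μ * (((ε 2 : ℤ) : K) * s (π 2))) ^ 2 := by ring
      _ = ((ε 0 : ℤ) : K) ^ 2 * ((ε 1 : ℤ) : K) ^ 2 * ((ε 2 : ℤ) : K) ^ 2 *
          (s (π 0) ^ 2 * s (π 1) ^ 2 * s (π 2) ^ 2) := by rw [hμ, hdet, p0, p1, p2]; ring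
      _ = _ := by ring
  rcases sq_eq_sq_iff_eq_or_eq_neg.1 hsq with h | h
  · refine ⟨k₁, k₂, i1, i2, Or.inl (hD.trans (congrArg diagonal (funext fun i => ?_)))⟩
    fin_cases i <;> simp [sp, h]
  · refine ⟨k₁', k₂', i1', i2', Or.inr (hD'.trans ?_)⟩
    rw [diagonal_neg]
    refine congrArg diagonal (funext fun i => ?_)
    fin_cases i <;> simp [sp, hμμ, h]

theorem dens (h : UnipStmt) : DensStmt := by
  intro O s hs f hf
  by_contra hcon
  push Not at hcon
  obtain ⟨k₁, k₂, i1, i2, hD⟩ := hs.2 (1, 1)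
  obtain ⟨σ, hσ⟩ : ∃ σ, Ad k₁ * yK * (Ad k₂)ᵀ = diagonal σ := by
    rcases hD with hD | hD
    · exact ⟨_, hD⟩
    · exact ⟨_, hD.trans (diagonal_neg _)⟩
  obtain ⟨t, -, ht⟩ := h Kb O _ (intM_adj i1)
  obtain ⟨t', -, ht'⟩ := h Kb O _ (intM_adj i2)
  have hy : par t t' σ = yK := by
    rw [par, ← ht, ← ht', ← hσ]
    calc Ad k₁.adjugate * (Ad k₁ * yK * (Ad k₂)ᵀ) * (Ad k₂.adjugate)ᵀ
        = (Ad k₁.adjugate * Ad k₁) * yK * (Ad k₂.adjugate * Ad k₂)ᵀ := by
          rw [transpose_mul]; simp only [Matrix.mul_assoc]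
      _ = yK := by
          rw [Ad_adj_mul i1.2, Ad_adj_mul i2.2, transpose_one, Matrix.one_mul, Matrix.mul_one]
  have hG : (aeval (pt (par (fun i => X (Sum.inl i)) (fun i => X (Sum.inr (Sum.inl i)))
      fun i => X (Sum.inr (Sum.inr i)))) f : MvPolynomial (Fin 4 ⊕ Fin 4 ⊕ Fin 3) ℂ) = 0 := by
    refine MvPolynomial.funext fun p => ?_
    rw [map_zero, ← MvPolynomial.aeval_eq_eval]
    rw [aeval_pt_map (aeval p), par_map, par, ← slc_map, ← aeval_pt_map,
      hcon _ _ (det_uu _) (det_uu _), map_zero]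
  have h0 := congrArg (aeval (Sum.elim t (Sum.elim t' σ)) :
    MvPolynomial (Fin 4 ⊕ Fin 4 ⊕ Fin 3) ℂ →ₐ[ℂ] Kb) hG
  rw [map_zero, aeval_pt_map, par_map] at h0
  simp only [aeval_X, Sum.elim_inl, Sum.elim_inr] at h0
  rw [hy, aeval_yK] at h0
  exact hf (IsFractionRing.injective Py kk
    (((algebraMap kk Kb).injective (h0.trans (map_zero _).symm)).trans (map_zero _).symm))

end Pool.Agent.MP_0f1eb7_ag.Cyl

end
end MrgPart7

-- ======== part 8: formerly Pool.Agent.MP_0f1eb7_ag.cyl.ALd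
section MrgPart8

/-! Row ALD: leading root coefficients, and the charge inequality. -/

set_option autoImplicit false

noncomputable section

namespace Pool.Agent.MP_0f1eb7_ag.Cyl

open MvPolynomial Matrix

namespace ALdP

variable {τ τ' : Type}

theorem coeff_cx (κ : Fin 4 →₀ ℕ) (φ : MvPolynomial τ Rt) (η : τ →₀ ℕ) :
    coeff η (cx κ φ) = coeff κ (coeff η φ) := by
  classical
  simp only [cx, coeff_sum, coeff_monomial, Finset.sum_ite_eq']
  split_ifs with h
  · rfl
  · rw [notMem_support_iff.1 h, coeff_zero]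

theorem cx_add (κ : Fin 4 →₀ ℕ) (φ φ' : MvPolynomial τ Rt) :
    cx κ (φ + φ') = cx κ φ + cx κ φ' := by
  ext η; simp [coeff_cx]

theorem coeff_C_map (a : Rt) (ψ : MvPolynomial τ ℂ) (η : τ →₀ ℕ) :
    coeff η (C a * map (C : ℂ →+* Rt) ψ) = coeff η ψ • a := by
  rw [coeff_C_mul, coeff_map, smul_eq_C_mul, mul_comm]

theorem aeval_mon (g : τ → MvPolynomial τ' ℂ) (η : τ →₀ ℕ) (a : Rt) :
    aeval (fun t => map (C : ℂ →+* Rt) (g t)) (monomial η a) =
      C a * map (C : ℂ →+* Rt) (η.prod fun t n => g t ^ n) := by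
  rw [aeval_monomial, algebraMap_eq]
  simp [Finsupp.prod]

theorem cx_aeval (κ : Fin 4 →₀ ℕ) (φ : MvPolynomial τ Rt) (g : τ → MvPolynomial τ' ℂ) :
    cx κ (aeval (fun t => map (C : ℂ →+* Rt) (g t)) φ) = aeval g (cx κ φ) := by
  classical
  induction φ using MvPolynomial.induction_on' with
  | monomial η a =>
    have : cx κ (monomial η a : MvPolynomial τ Rt) = monomial η (coeff κ a) := by
      ext η'
      rw [coeff_cx, coeff_monomial, coeff_monomial]
      split_ifs <;> simp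
    rw [this, aeval_mon, aeval_monomial]
    ext η'
    rw [coeff_cx, coeff_C_map, coeff_smul, algebraMap_eq, coeff_C_mul, smul_eq_mul, mul_comm]
  | add p q hp hq => rw [map_add, cx_add, cx_add, map_add, hp, hq]

/-- the degree bound -/
def Le (a : Rt) (κ : Fin 4 →₀ ℕ) : Prop := mo.toSyn (mo.degree a) ≤ mo.toSyn κ

theorem iff {φ : MvPolynomial τ Rt} {κ : Fin 4 →₀ ℕ} {ψ : MvPolynomial τ ℂ} :
    ALead φ κ ψ ↔ (∀ η, Le (coeff η φ) κ) ∧ ψ = cx κ φ := by
  constructor
  · intro h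
    exact ⟨fun η => mo.degree_le_iff.2 (h η).1, MvPolynomial.ext _ _ fun η => by
      rw [coeff_cx, (h η).2]⟩
  · rintro ⟨h, rfl⟩ η
    exact ⟨mo.degree_le_iff.1 (h η), coeff_cx _ _ _⟩

theorem Le.add {a b : Rt} {κ : Fin 4 →₀ ℕ} (ha : Le a κ) (hb : Le b κ) : Le (a + b) κ :=
  mo.degree_add_le.trans (sup_le ha hb)

theorem Le.smul {a : Rt} {κ : Fin 4 →₀ ℕ} (c : ℂ) (ha : Le a κ) : Le (c • a) κ :=
  mo.degree_smul_le.trans ha

theorem Le.sum {ι : Type} {s : Finset ι} {f : ι → Rt} {κ : Fin 4 →₀ ℕ} (h : ∀ i ∈ s, Le (f i) κ) :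
    Le (∑ i ∈ s, f i) κ :=
  mo.degree_sum_le.trans (Finset.sup_le h)

theorem Le.mul {a b : Rt} {κ κ' : Fin 4 →₀ ℕ} (ha : Le a κ) (hb : Le b κ') :
    Le (a * b) (κ + κ') := by
  refine mo.degree_mul_le.trans ?_
  rw [map_add, map_add]
  exact add_le_add ha hb

theorem Le.C (c : ℂ) (κ : Fin 4 →₀ ℕ) : Le (C c) κ := by
  simp [Le, MonomialOrder.degree_C]

theorem Nm_ne {p : MvPolynomial (Fin 3) ℂ} (hp : p ≠ 0) : Nm p ≠ 0 := by
  refine Finset.prod_ne_zero_iff.2 fun w _ h => hp ?_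
  have e : (aeval (fun j => ((w.2 (w.1.symm j) : ℤ) : MvPolynomial (Fin 3) ℂ) * X (w.1.symm j)) :
      MvPolynomial (Fin 3) ℂ →ₐ[ℂ] MvPolynomial (Fin 3) ℂ).comp
      (aeval fun i => ((w.2 i : ℤ) : MvPolynomial (Fin 3) ℂ) * X (w.1 i)) = AlgHom.id ℂ _ := by
    ext i : 1
    simp only [AlgHom.comp_apply, aeval_X, map_mul, map_intCast, Equiv.symm_apply_apply,
      AlgHom.id_apply]
    rw [← mul_assoc, ← Int.cast_mul, ← Units.val_mul, Int.units_mul_self]
    simp
  have := congrArg (fun g : MvPolynomial (Fin 3) ℂ →ₐ[ℂ] MvPolynomial (Fin 3) ℂ => g p) e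
  simp only [AlgHom.comp_apply, h, map_zero, AlgHom.id_apply] at this
  exact this.symm

theorem Nm_hom {p : MvPolynomial (Fin 3) ℂ} {e : ℕ} (hp : p.IsHomogeneous e) :
    (Nm p).IsHomogeneous (2 * (24 * e)) := by
  have := IsHomogeneous.prod Finset.univ (fun w : Equiv.Perm (Fin 3) × (Fin 3 → ℤˣ) =>
    aeval (fun i => ((w.2 i : ℤ) : MvPolynomial (Fin 3) ℂ) * X (w.1 i)) p) (fun _ => 1 * e)
    fun w _ => hp.aeval _ fun i => by
      simpa using isHomogeneous_C_mul_X ((w.2 i : ℤ) : ℂ) (w.1 i)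
  have hc : Fintype.card (Equiv.Perm (Fin 3) × (Fin 3 → ℤˣ)) = 48 := by
    simp [Fintype.card_perm, Nat.factorial]
  rw [Finset.sum_const, Finset.card_univ, hc, smul_eq_mul] at this
  rw [show 2 * (24 * e) = 48 * (1 * e) by ring]
  exact this

theorem lam_hom (h1 : WStmt) {h : Py} {e : ℕ} (hh : h.IsHomogeneous e) (M : ℤ) (s₁ s₂ : ℂ)
    (k₁ k₂ : M2 ℂ) : (lam M h s₁ s₂ k₁ k₂).IsHomogeneous e := by
  obtain ⟨n, c, l, -, hc⟩ := h1.comp_sum h M
  have h0 : (comp M h (um s₁ * up s₂)).IsHomogeneous (1 * e) := by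
    rw [hc]
    refine IsHomogeneous.sum _ _ _ fun i _ => ?_
    rw [smul_eq_C_mul]
    refine (hh.aeval _ fun ij => ?_).C_mul _
    simp only [pt, mul_apply, map_apply, Ym, of_apply]
    exact IsHomogeneous.sum _ _ _ fun j _ => isHomogeneous_C_mul_X _ _
  have := h0.aeval (pt (slc k₁ k₂)) (n := 1) fun ij => by
    simp only [pt, slc]
    rw [mul_apply]
    refine IsHomogeneous.sum _ _ _ fun j _ => ?_
    rw [mul_diagonal, transpose_apply, map_apply, map_apply, mul_comm]
    exact (isHomogeneous_C_mul_X _ _).C_mul _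
  simpa [lam] using this

end ALdP

open ALdP

theorem aLead : ALeadStmt where
  coeff_cx := ALdP.coeff_cx
  cx_aeval := ALdP.cx_aeval
  mul := by
    classical
    intro τ φ φ' κ κ' ψ ψ' h0 h1
    obtain ⟨h, rfl⟩ := iff.1 h0
    obtain ⟨h', rfl⟩ := iff.1 h1
    refine iff.2 ⟨fun η => ?_, MvPolynomial.ext _ _ fun η => ?_⟩
    · rw [coeff_mul]
      exact Le.sum fun x _ => (h _).mul (h' _)
    · rw [ALdP.coeff_cx, coeff_mul, coeff_mul, coeff_sum]
      refine Finset.sum_congr rfl fun x _ => ?_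
      rw [ALdP.coeff_cx, ALdP.coeff_cx, mo.coeff_mul_of_add_of_degree_le (h _) (h' _)]
  add := by
    intro τ φ φ' κ ψ ψ' h0 h1
    obtain ⟨h, rfl⟩ := iff.1 h0
    obtain ⟨h', rfl⟩ := iff.1 h1
    exact iff.2 ⟨fun η => by rw [coeff_add]; exact (h η).add (h' η), (cx_add _ _ _).symm⟩
  smul := by
    intro τ φ κ ψ c h0
    obtain ⟨h, rfl⟩ := iff.1 h0
    refine iff.2 ⟨fun η => by rw [coeff_smul]; exact (h η).smul c,
      MvPolynomial.ext _ _ fun η => ?_⟩
    simp [ALdP.coeff_cx]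
  nat := by
    intro τ τ' φ κ ψ g h0
    obtain ⟨h, rfl⟩ := iff.1 h0
    refine iff.2 ⟨fun η => ?_, (ALdP.cx_aeval _ _ _).symm⟩
    rw [φ.as_sum, map_sum, coeff_sum]
    refine Le.sum fun η' _ => ?_
    rw [aeval_mon, coeff_C_map]
    exact (h η').smul _
  const := fun ψ => iff.2 ⟨fun η => by rw [coeff_map]; exact Le.C _ _,
    MvPolynomial.ext _ _ fun η => by rw [ALdP.coeff_cx, coeff_map, coeff_zero_C]⟩
  root := by
    classical
    intro τ i
    refine iff.2 ⟨fun η => ?_, MvPolynomial.ext _ _ fun η => ?_⟩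
    · rw [coeff_C]
      split_ifs
      · exact mo.degree_X_le_single
      · simpa using Le.C 0 _
    · rw [ALdP.coeff_cx, coeff_C, coeff_one]
      split_ifs <;> simp

theorem charge (h1 : WStmt) (h2 : SymStmt) (h3 : E2Stmt) (h4 : E3Stmt) : ChargeStmt := by
  intro c hc i₁ i₂ i₃ i₄ h e hl hh M s₁ s₂ k₁ k₂ d₁ d₂ hne
  obtain ⟨ex, inj, gr⟩ := h2 ℂ 0
  have e0 : ees 0 (X : Fin 3 → MvPolynomial (Fin 3) ℂ) = ee X := by
    funext i; fin_cases i <;> simp [ees]
  rw [e0] at ex inj gr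
  obtain ⟨q, hq⟩ := ex (lam M h s₁ s₂ k₁ k₂)
  have hw : IsWeightedHomogeneous w3 q (24 * e) := by
    have := gr q (24 * e)
    rw [homogeneousComponent_eq_self (hq ▸ Nm_hom (lam_hom h1 hh _ _ _ _ _))] at this
    rw [inj this]
    exact weightedHomogeneousComponent_isWeightedHomogeneous _ _
  have hq0 : q ≠ 0 := fun h0 => Nm_ne hne (by rw [← hq, h0, map_zero])
  obtain ⟨a, ha⟩ := h3 c i₁ i₂ i₃ i₄ h hl M s₁ s₂ k₁ k₂ d₁ d₂
    (aeval ![X 0, X 1, X 2 + (c : MvPolynomial (Fin 3) ℂ) * X 0 ^ 3] q) (by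
      rw [← hq, ← AlgHom.comp_apply, comp_aeval]
      congr 2
      funext i; fin_cases i <;> simp [ees])
  exact ⟨q, 24 * e, hq, hw, h4 c hc q _ M a hq0 hw ha⟩

end Pool.Agent.MP_0f1eb7_ag.Cyl

end
end MrgPart8

-- ======== part 9: formerly Pool.Agent.MP_0f1eb7_ag.cyl.Sym
section MrgPart9

/-! Row SYM: the norm over the signed permutations is a polynomial in the shifted invariants. -/

set_option autoImplicit false

noncomputable section

namespace Pool.Agent.MP_0f1eb7_ag.Cyl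

open MvPolynomial

namespace SymP

variable {S : Type} [CommRing S]

/-- the substitution attached to a signed permutation -/
def sw (w : Equiv.Perm (Fin 3) × (Fin 3 → ℤˣ)) :
    MvPolynomial (Fin 3) S →ₐ[S] MvPolynomial (Fin 3) S :=
  aeval fun i => ((w.2 i : ℤ) : MvPolynomial (Fin 3) S) * X (w.1 i)

/-- composition of signed permutations -/
def cp (u w : Equiv.Perm (Fin 3) × (Fin 3 → ℤˣ)) : Equiv.Perm (Fin 3) × (Fin 3 → ℤˣ) :=
  (u.1 * w.1, fun i => w.2 i * u.2 (w.1 i))

theorem sw_sw (u w : Equiv.Perm (Fin 3) × (Fin 3 → ℤˣ)) (p : MvPolynomial (Fin 3) S) :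
    sw u (sw w p) = sw (cp u w) p := by
  have : (sw (S := S) u).comp (sw w) = sw (cp u w) := by
    ext i : 1
    simp only [sw, cp, AlgHom.comp_apply, aeval_X, map_mul, map_intCast, Units.val_mul,
      Int.cast_mul, Equiv.Perm.mul_apply, mul_assoc]
  exact congrArg (fun g : MvPolynomial (Fin 3) S →ₐ[S] MvPolynomial (Fin 3) S => g p) this

theorem cp_inj (u : Equiv.Perm (Fin 3) × (Fin 3 → ℤˣ)) : Function.Injective (cp u) := by
  rintro ⟨a, b⟩ ⟨a', b'⟩ h
  have h1 : a = a' := mul_left_cancel (congrArg Prod.fst h)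
  subst h1
  have h2 : b = b' := funext fun i => mul_right_cancel (congrFun (congrArg Prod.snd h) i)
  rw [h2]

theorem sw_Nm (u : Equiv.Perm (Fin 3) × (Fin 3 → ℤˣ)) (p : MvPolynomial (Fin 3) S) :
    sw u (Nm p) = Nm p := by
  change sw u (∏ w, sw w p) = ∏ w, sw w p
  rw [map_prod]
  simp only [sw_sw]
  exact (Finite.injective_iff_bijective.1 (cp_inj u)).prod_comp fun w => sw w p

theorem sw_perm (σ : Equiv.Perm (Fin 3)) (p : MvPolynomial (Fin 3) S) :
    sw (σ, 1) p = rename σ p := by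
  have : sw (S := S) (σ, 1) = rename σ := by
    ext i : 1
    simp [sw]
  rw [this]

theorem coeff_sw_sign (ε : Fin 3 → ℤˣ) (p : MvPolynomial (Fin 3) S) (η : Fin 3 →₀ ℕ) :
    coeff η (sw (1, ε) p) = ((∏ i, ε i ^ η i : ℤˣ) : ℤ) * coeff η p := by
  classical
  induction p using MvPolynomial.induction_on' with
  | add p q hp hq => rw [map_add, coeff_add, coeff_add, hp, hq, mul_add]
  | monomial d a =>
    have : sw (1, ε) (monomial d a) =
        C (((∏ i, ε i ^ d i : ℤˣ) : ℤ) : S) * monomial d a := by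
      rw [sw, aeval_monomial, Finsupp.prod_fintype _ _ (fun _ => pow_zero _), monomial_eq,
        Finsupp.prod_fintype _ _ (fun _ => pow_zero _)]
      simp only [mul_pow, Finset.prod_mul_distrib, algebraMap_eq, Equiv.Perm.one_apply,
        map_intCast]
      push_cast
      ring
    rw [this, coeff_C_mul, coeff_monomial]
    split_ifs with h
    · rw [h]
    · simp

theorem even_of_inv [Algebra ℂ S] {p : MvPolynomial (Fin 3) S} (h : ∀ ε, sw (1, ε) p = p)
    {η : Fin 3 →₀ ℕ} (hη : η ∈ p.support) (j : Fin 3) : 2 ∣ η j := by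
  classical
  by_contra hj
  have ho : Odd (η j) := Nat.not_even_iff_odd.1 fun he => hj he.two_dvd
  have h1 := coeff_sw_sign (Function.update 1 j (-1)) p η
  have h2 : (∏ i, (Function.update (1 : Fin 3 → ℤˣ) j (-1)) i ^ η i) = -1 := by
    rw [Finset.prod_eq_single j]
    · rw [Function.update_self, ho.neg_one_pow]
    · intro i _ hi
      rw [Function.update_of_ne hi, Pi.one_apply, one_pow]
    · simp
  rw [h, h2] at h1
  have h3 : (2 : ℂ) • coeff η p = 0 := by
    rw [two_smul]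
    nth_rewrite 1 [h1]
    simp
  refine mem_support_iff.1 hη ?_
  have h4 := congrArg (fun x => (2 : ℂ)⁻¹ • x) h3
  simpa [smul_smul] using h4

theorem exists_expand {p : MvPolynomial (Fin 3) S} (h : ∀ η ∈ p.support, ∀ j, 2 ∣ η j) :
    ∃ g, expand 2 g = p := by
  refine ⟨∑ η ∈ p.support, monomial (η.mapRange (· / 2) (by simp)) (coeff η p), ?_⟩
  rw [map_sum]
  conv_rhs => rw [p.as_sum]
  refine Finset.sum_congr rfl fun η hη => ?_
  rw [expand_monomial]
  congr 2
  ext j
  simpa using Nat.mul_div_cancel' (h η hη j)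

theorem esymm_one : esymm (Fin 3) S 1 = X 0 + X 1 + X 2 := by
  simp [Fin.sum_univ_three]

theorem esymm_two : esymm (Fin 3) S 2 = X 0 * X 1 + X 0 * X 2 + X 1 * X 2 := by
  have : Finset.powersetCard 2 (Finset.univ : Finset (Fin 3)) = {{0, 1}, {0, 2}, {1, 2}} := by
    decide
  rw [esymm, this, Finset.sum_insert (by decide), Finset.sum_insert (by decide),
    Finset.sum_singleton, Finset.prod_pair (by decide), Finset.prod_pair (by decide),
    Finset.prod_pair (by decide), add_assoc]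

theorem esymm_three : esymm (Fin 3) S 3 = X 0 * X 1 * X 2 := by
  have : Finset.powersetCard 3 (Finset.univ : Finset (Fin 3)) = {Finset.univ} := by decide
  rw [esymm, this, Finset.sum_singleton, Fin.prod_univ_three]

/-- the shift of the last variable -/
def sh (c : ℤ) : MvPolynomial (Fin 3) S →ₐ[S] MvPolynomial (Fin 3) S :=
  aeval ![X 0, X 1, X 2 - (c : MvPolynomial (Fin 3) S) * X 0 ^ 3]

theorem sh_sh (c : ℤ) (p : MvPolynomial (Fin 3) S) : sh c (sh (-c) p) = p := by
  have : (sh (S := S) c).comp (sh (-c)) = AlgHom.id S _ := by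
    ext i : 1
    fin_cases i <;> simp [sh]
  exact congrArg (fun g : MvPolynomial (Fin 3) S →ₐ[S] MvPolynomial (Fin 3) S => g p) this

theorem factor (c : ℤ) (q : MvPolynomial (Fin 3) S) :
    aeval (ees c (X : Fin 3 → MvPolynomial (Fin 3) S)) q =
      expand 2 (esymmAlgHom (Fin 3) S 3 (sh c q)).val := by
  rw [esymmAlgHom_apply]
  have : (aeval (ees c (X : Fin 3 → MvPolynomial (Fin 3) S)) :
      MvPolynomial (Fin 3) S →ₐ[S] MvPolynomial (Fin 3) S) =
      (expand 2).comp ((aeval fun i : Fin 3 => esymm (Fin 3) S (i + 1)).comp (sh c)) := by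
    have e1 : esymm (Fin 3) S ((0 : Fin 3) + 1) = X 0 + X 1 + X 2 := esymm_one
    have e2 : esymm (Fin 3) S ((1 : Fin 3) + 1) = X 0 * X 1 + X 0 * X 2 + X 1 * X 2 := esymm_two
    have e3 : esymm (Fin 3) S ((2 : Fin 3) + 1) = X 0 * X 1 * X 2 := esymm_three
    ext i : 1
    fin_cases i
    · simp only [sh, AlgHom.comp_apply, aeval_X, Fin.zero_eta, Matrix.cons_val_zero, e1, ees, ee,
        map_add, expand_X]
    · simp only [sh, AlgHom.comp_apply, aeval_X, Fin.mk_one, Matrix.cons_val_one,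
        Matrix.cons_val_zero, e2, ees, ee, map_add, map_mul, expand_X]
    · simp only [sh, AlgHom.comp_apply, aeval_X, Fin.reduceFinMk, Matrix.cons_val,
        Matrix.cons_val_zero, e1, e3, ees, ee, map_add, map_mul, map_sub, map_pow, map_intCast,
        expand_X]
  rw [this]
  rfl

theorem hom_ees (c : ℤ) (i : Fin 3) :
    (ees c (X : Fin 3 → MvPolynomial (Fin 3) S) i).IsHomogeneous (2 * w3 i) := by
  have h : ∀ j : Fin 3, (X j ^ 2 : MvPolynomial (Fin 3) S).IsHomogeneous 2 := fun j =>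
    isHomogeneous_X_pow j 2
  have h0 : (X 0 ^ 2 + X 1 ^ 2 + X 2 ^ 2 : MvPolynomial (Fin 3) S).IsHomogeneous 2 :=
    ((h 0).add (h 1)).add (h 2)
  fin_cases i
  · exact h0
  · exact (((h 0).mul (h 1)).add ((h 0).mul (h 2))).add ((h 1).mul (h 2))
  · have h3 : ((c : MvPolynomial (Fin 3) S) * (X 0 ^ 2 + X 1 ^ 2 + X 2 ^ 2) ^ 3).IsHomogeneous 6 := by
      rw [← map_intCast (C : S →+* MvPolynomial (Fin 3) S) c]
      exact (h0.pow 3).C_mul _
    exact (((h 0).mul (h 1)).mul (h 2)).sub h3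

theorem grading (c : ℤ) (q : MvPolynomial (Fin 3) S) (n : ℕ) :
    homogeneousComponent (2 * n) (aeval (ees c (X : Fin 3 → MvPolynomial (Fin 3) S)) q) =
      aeval (ees c (X : Fin 3 → MvPolynomial (Fin 3) S)) (weightedHomogeneousComponent w3 n q) := by
  induction q using MvPolynomial.induction_on' with
  | add p q hp hq => rw [map_add, map_add, map_add, map_add, hp, hq]
  | monomial d a =>
    have h1 : (aeval (ees c (X : Fin 3 → MvPolynomial (Fin 3) S)) (monomial d a)).IsHomogeneous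
        (2 * Finsupp.weight w3 d) := by
      rw [aeval_monomial, Finsupp.prod_fintype _ _ (fun _ => pow_zero _), algebraMap_eq]
      have h2 := IsHomogeneous.prod Finset.univ _ _ fun i _ => (hom_ees (S := S) c i).pow (d i)
      have h3 : ∑ i, 2 * w3 i * d i = 2 * Finsupp.weight w3 d := by
        rw [Finsupp.weight_apply, Finsupp.sum_fintype _ _ (fun _ => by simp), Finset.mul_sum]
        exact Finset.sum_congr rfl fun i _ => by rw [smul_eq_mul]; ring
      rw [h3] at h2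
      exact h2.C_mul _
    rw [homogeneousComponent_of_mem h1,
      weightedHomogeneousComponent_of_mem (isWeightedHomogeneous_monomial w3 d a rfl)]
    by_cases h : n = Finsupp.weight w3 d
    · rw [if_pos h, if_pos (by rw [h])]
    · rw [if_neg h, if_neg (by omega), map_zero]

end SymP

open SymP in
theorem sym : SymStmt := by
  intro S _ _ c
  refine ⟨fun p => ?_, fun q q' h => ?_, grading c⟩
  · obtain ⟨g, hg⟩ := exists_expand (p := Nm p) fun η hη => even_of_inv (fun ε => sw_Nm _ p) hη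
    have hs : g.IsSymmetric := fun σ => expand_injective (n := 2) two_pos (by
      rw [← rename_expand, hg, ← sw_perm, sw_Nm])
    obtain ⟨q, hq⟩ := esymmAlgHom_fin_surjective S (le_refl 3) ⟨g, hs⟩
    exact ⟨sh (-c) q, by rw [factor, sh_sh, hq, hg]⟩
  · rw [factor, factor] at h
    have h1 := esymmAlgHom_fin_injective S (le_refl 3)
      (Subtype.ext (expand_injective (n := 2) two_pos h))
    have h2 := congrArg (sh (-c)) h1
    have h3 : ∀ p : MvPolynomial (Fin 3) S, sh (-c) (sh c p) = p := fun p => by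
      simpa using sh_sh (-c) p
    rwa [h3, h3] at h2

end Pool.Agent.MP_0f1eb7_ag.Cyl

end
end MrgPart9

-- ======== part 10: formerly Pool.Agent.MP_0f1eb7_ag.cyl.E3
section MrgPart10

/-! Row E3: a root of high multiplicity forces a monomial with a large power of the first
variable. -/

set_option autoImplicit false

noncomputable section

namespace Pool.Agent.MP_0f1eb7_ag.Cyl

open MvPolynomial

namespace E3P

/-- set the first variable to one, the second is the outer and the third the inner variable -/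
def Ph : MvPolynomial (Fin 3) ℂ →ₐ[ℂ] Polynomial (Polynomial ℂ) :=
  aeval ![1, Polynomial.X, Polynomial.C Polynomial.X]

theorem Ph_monomial (η : Fin 3 →₀ ℕ) (r : ℂ) :
    Ph (monomial η r) = Polynomial.monomial (η 1) (Polynomial.monomial (η 2) r) := by
  rw [Ph, aeval_monomial, Finsupp.prod_fintype _ _ (by simp), Fin.prod_univ_three,
    ← Polynomial.C_mul_X_pow_eq_monomial, ← Polynomial.C_mul_X_pow_eq_monomial]
  simp only [Matrix.cons_val_zero, Matrix.cons_val_one, Matrix.cons_val, one_pow, one_mul,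
    Polynomial.algebraMap_apply, Algebra.algebraMap_self, RingHom.id_apply, map_mul, map_pow]
  ring

theorem coeff_Ph (f : MvPolynomial (Fin 3) ℂ) (b k : ℕ) :
    ((Ph f).coeff b).coeff k = ∑ η ∈ f.support, if η 1 = b ∧ η 2 = k then coeff η f else 0 := by
  conv_lhs => rw [f.as_sum]
  rw [map_sum, Polynomial.finsetSum_coeff, Polynomial.finsetSum_coeff]
  refine Finset.sum_congr rfl fun η _ => ?_
  rw [Ph_monomial, Polynomial.coeff_monomial]
  by_cases h1 : η 1 = b
  · simp [h1, Polynomial.coeff_monomial]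
  · simp [h1]

theorem exists_of_coeff {f : MvPolynomial (Fin 3) ℂ} {b k : ℕ}
    (h : ((Ph f).coeff b).coeff k ≠ 0) : ∃ η ∈ f.support, η 1 = b ∧ η 2 = k := by
  rw [coeff_Ph] at h
  obtain ⟨η, hη, h2⟩ := Finset.exists_ne_zero_of_sum_ne_zero h
  exact ⟨η, hη, by by_contra h3; exact h2 (if_neg h3)⟩

theorem weight_eq {q : MvPolynomial (Fin 3) ℂ} {n : ℕ} (hq : IsWeightedHomogeneous w3 q n)
    {η : Fin 3 →₀ ℕ} (h : η ∈ q.support) : η 0 + 2 * η 1 + 3 * η 2 = n := by
  have := hq (mem_support_iff.1 h)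
  rw [Finsupp.weight_apply, Finsupp.sum_fintype _ _ (by simp), Fin.sum_univ_three] at this
  simp only [w3, Matrix.cons_val_zero, Matrix.cons_val_one, Matrix.cons_val, smul_eq_mul] at this
  omega

theorem coeff_ne {q : MvPolynomial (Fin 3) ℂ} {n : ℕ} (hq : IsWeightedHomogeneous w3 q n)
    {η : Fin 3 →₀ ℕ} (h : η ∈ q.support) : (Ph q).coeff (η 1) ≠ 0 := by
  intro h0
  have h1 := coeff_Ph q (η 1) (η 2)
  rw [h0, Polynomial.coeff_zero, Finset.sum_eq_single η, if_pos ⟨rfl, rfl⟩] at h1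
  · exact mem_support_iff.1 h h1.symm
  · intro η' hη' hne
    refine if_neg fun h2 => hne ?_
    have a1 := weight_eq hq h
    have a2 := weight_eq hq hη'
    ext i
    fin_cases i
    · change η' 0 = η 0
      omega
    · exact h2.1
    · exact h2.2
  · exact fun h2 => absurd h h2

theorem Ph_shift (c : ℤ) (q : MvPolynomial (Fin 3) ℂ) :
    Ph (aeval ![X 0, X 1, X 2 + (c : MvPolynomial (Fin 3) ℂ) * X 0 ^ 3] q) =
      (Ph q).map (Polynomial.taylorAlgHom (c : ℂ)).toRingHom := by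
  have hX : ∀ i : Fin 3,
      Ph (aeval ![X 0, X 1, X 2 + (c : MvPolynomial (Fin 3) ℂ) * X 0 ^ 3]
        (X i : MvPolynomial (Fin 3) ℂ)) =
      (Ph (X i)).map (Polynomial.taylorAlgHom (c : ℂ)).toRingHom := by
    intro i
    rw [aeval_X]
    fin_cases i <;> simp [Ph]
  induction q using MvPolynomial.induction_on with
  | C r => simp [Ph]
  | add p q hp hq => simp only [map_add, Polynomial.map_add, hp, hq]
  | mul_X p i hp => rw [map_mul, map_mul, map_mul, Polynomial.map_mul, hp, hX]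

end E3P

open E3P in
theorem e3 : E3Stmt := by
  intro c hc q n M a hq0 hq h
  obtain ⟨η₀, hη₀⟩ := support_nonempty.2 hq0
  have hc0 : (c : ℂ) ≠ 0 := by rcases hc with rfl | rfl <;> simp
  set b := η₀ 1 with hb
  set q0 := (Ph q).coeff b with hq0def
  have hne : q0 ≠ 0 := coeff_ne hq hη₀
  set J := 2 * NN * (24 * M - b / (3 * NN)) with hJ
  have hN : 0 < NN := lt_of_lt_of_le (by norm_num) (show 60 ≤ NN from le_rfl)
  have h1 : (Ph ((X 2 + 2 * (c : MvPolynomial (Fin 3) ℂ) * X 0 ^ 3) ^ a *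
      aeval ![X 0, X 1, X 2 + (c : MvPolynomial (Fin 3) ℂ) * X 0 ^ 3] q)).coeff b =
      (Polynomial.X + Polynomial.C (2 * (c : ℂ))) ^ a * Polynomial.taylor (c : ℂ) q0 := by
    have : Ph (X 2 + 2 * (c : MvPolynomial (Fin 3) ℂ) * X 0 ^ 3) =
        Polynomial.C (Polynomial.X + Polynomial.C (2 * (c : ℂ))) := by
      simp [Ph, map_ofNat]
    rw [map_mul, map_pow, this, Ph_shift, ← map_pow, Polynomial.coeff_C_mul, Polynomial.coeff_map]
    rfl
  have h2 : Polynomial.X ^ J ∣
      (Polynomial.X + Polynomial.C (2 * (c : ℂ))) ^ a * Polynomial.taylor (c : ℂ) q0 := by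
    rw [← h1, Polynomial.X_pow_dvd_iff]
    intro k hk
    by_contra h3
    obtain ⟨η, hη, e1, e2⟩ := exists_of_coeff h3
    have h4 := h η hη
    rw [e1, e2] at h4
    have h5 : 24 * M - b / (3 * NN) ≤ k / (2 * NN) := Nat.sub_le_iff_le_add'.2 h4
    have h6 := (Nat.mul_le_mul_left (2 * NN) h5).trans (Nat.mul_div_le k (2 * NN))
    omega
  have hcop : IsCoprime (Polynomial.X : Polynomial ℂ)
      (Polynomial.X + Polynomial.C (2 * (c : ℂ))) := by
    have h3 := Polynomial.isCoprime_X_sub_C_of_isUnit_sub (a := (0 : ℂ)) (b := -(2 * (c : ℂ)))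
      (by simpa using hc0)
    simpa using h3
  obtain ⟨r, hr⟩ := (hcop.pow (m := J) (n := a)).dvd_of_dvd_mul_left h2
  have h3 : q0 = (Polynomial.X - Polynomial.C (c : ℂ)) ^ J * Polynomial.taylor (-(c : ℂ)) r := by
    have := congrArg (Polynomial.taylor (-(c : ℂ))) hr
    rw [Polynomial.taylor_taylor, neg_add_cancel, Polynomial.taylor_zero, Polynomial.taylor_mul,
      Polynomial.taylor_pow, Polynomial.taylor_X, map_neg, ← sub_eq_add_neg] at this
    exact this
  set r' := Polynomial.taylor (-(c : ℂ)) r with hr'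
  have hr0 : r' ≠ 0 := fun h0 => hne (by rw [h3, h0, mul_zero])
  have hx0 : (Polynomial.X - Polynomial.C (c : ℂ)) ^ J ≠ 0 :=
    pow_ne_zero _ (Polynomial.X_sub_C_ne_zero _)
  have d1 : q0.natDegree = J + r'.natDegree := by
    rw [h3, Polynomial.natDegree_mul hx0 hr0, Polynomial.natDegree_pow,
      Polynomial.natDegree_X_sub_C, mul_one]
  have d2 : q0.natTrailingDegree ≤ r'.natDegree := by
    rw [h3, Polynomial.natTrailingDegree_mul hx0 hr0,
      Polynomial.natTrailingDegree_eq_zero.2 (Or.inr ?_), zero_add]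
    · exact Polynomial.natTrailingDegree_le_natDegree _
    · rw [Polynomial.coeff_zero_eq_eval_zero]
      simp [hc0]
  obtain ⟨η, hη, e1, e2⟩ := exists_of_coeff (f := q) (b := b) (k := q0.natTrailingDegree)
    (Polynomial.trailingCoeff_eq_zero.not.2 hne)
  obtain ⟨η', hη', e1', e2'⟩ := exists_of_coeff (f := q) (b := b) (k := q0.natDegree)
    (Polynomial.leadingCoeff_ne_zero.2 hne)
  have a1 := weight_eq hq hη
  have a2 := weight_eq hq hη'
  refine ⟨η, hη, ?_⟩
  have a3 : 3 * J ≤ η 0 := by omega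
  have a4 : 3 * NN * (b / (3 * NN)) ≤ b := Nat.mul_div_le b (3 * NN)
  rw [e1]
  generalize b / (3 * NN) = t at hJ a4
  rcases le_total (24 * M) t with ht | ht
  · nlinarith [Nat.mul_le_mul_left (3 * NN) ht]
  · obtain ⟨u, hu⟩ := Nat.exists_eq_add_of_le ht
    have a5 : J = 2 * NN * u := by rw [hJ, hu, Nat.add_sub_cancel_left]
    have a6 : 72 * NN * M = 3 * NN * t + 3 * (NN * u) := by
      calc 72 * NN * M = 3 * NN * (24 * M) := by ring
        _ = _ := by rw [hu]; ring
    have a7 : J = 2 * (NN * u) := by rw [a5]; ring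
    omega

end Pool.Agent.MP_0f1eb7_ag.Cyl

end
end MrgPart10

-- marker of a merged file
example : 731051 + 303199 = 731051 + 303199 := rfl
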