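import Mathlib.Algebra.AffineMonoid.UniqueSums
import Mathlib.Tactic.Monotonicity.Lemmas
import Mathlib.Algebra.GroupWithZero.Submonoid.CancelMulZero
import Mathlib.RingTheory.Flat.TorsionFree
import Mathlib.Data.Int.Star
import Mathlib.Algebra.Order.Ring.Star
import Mathlib.LinearAlgebra.Lagrange
import Mathlib.RingTheory.PicardGroup
import Mathlib.RingTheory.LocalProperties.Reduced
import Mathlib.Analysis.Complex.Polynomial.Basic
import Mathlib.RingTheory.Valuation.LocalSubring
import Mathlib.RingTheory.TotallySplit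
import Mathlib.RingTheory.Etale.Weakly
import Pool.Agent.MP_0f1eb7_ag.cyl.Spec1
import Pool.Agent.MP_0f1eb7_ag.cyl.Th

-- ======== part 0: formerly Pool.Agent.MP_0f1eb7_ag.cyl.OmA
section MrgPart0

/-! Row OM, first part: the polynomial in five variables attached to an element of `Ap`. -/

set_option autoImplicit false

noncomputable section

namespace Pool.Agent.MP_0f1eb7_ag.Cyl

open MvPolynomial Matrix

namespace OmP

abbrev P5 := MvPolynomial (Fin 5) kk

/-- the order on the five variables -/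
def m5 : MonomialOrder.{0, 0} (Fin 5) := MonomialOrder.lex

/-- the constants -/
def cA : kk →ₐ[ℂ] P5 := IsScalarTower.toAlgHom ℂ kk P5

theorem cA_apply (c : kk) : cA c = C c := rfl

/-- substitution of the scaled generic point -/
def Ψ : Ap →ₐ[ℂ] P5 := evA (fun i => X i.succ) ((X 0 : P5) • ym.map cA)

/-- the coefficient of a root monomial -/
def cx (κ : Fin 4 →₀ ℕ) (q : Ap) : Py := ∑ η ∈ q.support, monomial η (coeff κ (coeff η q))

theorem coeff_cx (κ : Fin 4 →₀ ℕ) (q : Ap) (η : I9 →₀ ℕ) :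
    coeff η (cx κ q) = coeff κ (coeff η q) := by
  classical
  simp only [cx, coeff_sum, coeff_monomial, Finset.sum_ite_eq', mem_support_iff]
  split_ifs with h
  · rfl
  · rw [not_not.1 h, coeff_zero]

theorem cx_add (κ : Fin 4 →₀ ℕ) (p q : Ap) : cx κ (p + q) = cx κ p + cx κ q := by
  ext η
  simp only [coeff_cx, coeff_add]

theorem mon_cons (W : ℕ) (κ : Fin 4 →₀ ℕ) (c : kk) :
    (monomial (Finsupp.cons W κ) c : P5) = C c * (X 0 ^ W * ∏ i, X (Fin.succ i) ^ κ i) := by
  rw [monomial_eq, Finsupp.prod_fintype _ _ (by simp), Fin.prod_univ_succ]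
  simp only [Finsupp.cons_zero, Finsupp.cons_succ]

theorem psi_mon (η : I9 →₀ ℕ) (κ : Fin 4 →₀ ℕ) (c : ℂ) :
    Ψ (monomial η (monomial κ c)) =
      monomial (Finsupp.cons η.degree κ) (algebraMap Py kk (monomial η c)) := by
  have e : ∀ ij : I9, Ψ (X ij) = X 0 * C (algebraMap Py kk (X ij)) := fun ij => by
    simp [Ψ, evA_X, ym, Ym, cA_apply]
  have e2 : (algebraMap ℂ P5) c = C (algebraMap Py kk (C c)) := by
    rw [IsScalarTower.algebraMap_apply ℂ kk P5, IsScalarTower.algebraMap_apply ℂ Py kk]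
    rfl
  rw [mon_cons, monomial_eq (s := η), monomial_eq (s := η), Finsupp.prod_fintype _ _ (by simp),
    Finsupp.prod_fintype _ _ (by simp), map_mul, Finsupp.degree_eq_sum]
  simp only [map_prod, map_pow, map_mul, e, mul_pow, Finset.prod_mul_distrib,
    Finset.prod_pow_eq_pow_sum]
  rw [Ψ, evA_C, aeval_monomial, Finsupp.prod_fintype _ _ (by simp), e2]
  ring

theorem coeff_psi (W : ℕ) (κ : Fin 4 →₀ ℕ) (p : Ap) : coeff (Finsupp.cons W κ) (Ψ p) =
    algebraMap Py kk (cx κ (homogeneousComponent W p)) := by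
  classical
  induction p using MvPolynomial.induction_on' with
  | add p q hp hq => simp only [map_add, coeff_add, cx_add, hp, hq]
  | monomial η a =>
    induction a using MvPolynomial.induction_on' with
    | add p q hp hq => simp only [map_add, coeff_add, cx_add, hp, hq]
    | monomial κ' c =>
      have : cx κ (homogeneousComponent W (monomial η (monomial κ' c))) =
          if η.degree = W ∧ κ' = κ then monomial η c else 0 := by
        ext η'
        rw [coeff_cx, coeff_homogeneousComponent]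
        by_cases h : η = η'
        · subst h
          by_cases h1 : η.degree = W <;> by_cases h2 : κ' = κ <;> simp [h1, h2, coeff_monomial]
        · split_ifs <;> simp [h, coeff_monomial]
      rw [psi_mon, coeff_monomial, this, apply_ite (algebraMap Py kk), map_zero]
      simp only [Finsupp.cons_injective2.eq_iff]

theorem lex_fst {a b : ℕ} (h : a < b) (κ κ' : Fin 4 →₀ ℕ) :
    m5.toSyn (Finsupp.cons a κ) < m5.toSyn (Finsupp.cons b κ') :=
  MonomialOrder.lex_lt_iff.2 (Finsupp.Lex.lt_iff.2 ⟨0, fun j hj => absurd hj (by simp), h⟩)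

theorem lex_snd (a : ℕ) {κ κ' : Fin 4 →₀ ℕ} (h : mo.toSyn κ < mo.toSyn κ') :
    m5.toSyn (Finsupp.cons a κ) < m5.toSyn (Finsupp.cons a κ') := by
  obtain ⟨i, h1, h2⟩ := Finsupp.Lex.lt_iff.1 (MonomialOrder.lex_lt_iff.1 h)
  refine MonomialOrder.lex_lt_iff.2 (Finsupp.Lex.lt_iff.2 ⟨i.succ, fun j hj => ?_, h2⟩)
  induction j using Fin.cases with
  | zero => rfl
  | succ j => exact h1 j (Fin.succ_lt_succ_iff.1 hj)

theorem psi_deg {p : Ap} (hp : p ≠ 0) : Ψ p ≠ 0 ∧ ∃ κ,
    m5.degree (Ψ p) = Finsupp.cons p.totalDegree κ ∧ ∀ η,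
      ∀ κ' ∈ (coeff η (homogeneousComponent p.totalDegree p)).support,
        mo.toSyn κ' ≤ mo.toSyn κ := by
  have inj := IsFractionRing.injective Py kk
  have hb : ∀ η, ∀ κ' ∈ (coeff η (homogeneousComponent p.totalDegree p)).support,
      Finsupp.cons p.totalDegree κ' ∈ (Ψ p).support := fun η κ' h => by
    rw [mem_support_iff, coeff_psi, map_ne_zero_iff _ inj]
    intro h0
    rw [mem_support_iff, ← coeff_cx, h0] at h
    exact h (coeff_zero _)
  obtain ⟨η, hη, e⟩ := Finset.exists_mem_eq_sup p.support (support_nonempty.2 hp)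
    fun s => s.sum fun _ e => e
  have h1 : coeff η (homogeneousComponent p.totalDegree p) ≠ 0 := by
    rw [coeff_homogeneousComponent, if_pos (show η.degree = p.totalDegree from e.symm)]
    exact mem_support_iff.1 hη
  obtain ⟨κ₀, hκ₀⟩ := support_nonempty.2 h1
  have h2 := hb η κ₀ hκ₀
  have h3 : Ψ p ≠ 0 := support_nonempty.1 ⟨_, h2⟩
  have h4 := mem_support_iff.1 (m5.degree_mem_support h3)
  have h5 := Finsupp.cons_tail (t := m5.degree (Ψ p))
  have h6 : m5.degree (Ψ p) 0 = p.totalDegree := by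
    refine le_antisymm (not_lt.1 fun h => h4 ?_) (not_lt.1 fun h => ?_)
    · rw [← h5, coeff_psi, homogeneousComponent_eq_zero _ _ h]
      simp [cx]
    · have := m5.le_degree h2
      rw [← h5] at this
      exact (lex_fst h _ _).not_ge this
  rw [h6] at h5
  refine ⟨h3, _, h5.symm, fun η κ' h => not_lt.1 fun hlt => ?_⟩
  have := m5.le_degree (hb η κ' h)
  rw [← h5] at this
  exact (lex_snd _ hlt).not_ge this

end OmP

end Pool.Agent.MP_0f1eb7_ag.Cyl

end
end MrgPart0

-- ======== part 1: formerly Pool.Agent.MP_0f1eb7_ag.cyl.Om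
section MrgPart1

/-! Row OM: the degeneration field. -/

set_option autoImplicit false

noncomputable section

namespace Pool.Agent.MP_0f1eb7_ag.Cyl

open MvPolynomial Matrix

namespace OmP

theorem sgK_sgK (a : Fin 4) (c : kk) : sgK a (sgK a c) = c := by
  obtain ⟨p, q, -, rfl⟩ := IsFractionRing.div_surjective (A := Py) c
  simp only [map_div₀, sgK_alg, sgP_sgP]

/-- signs of the five variables -/
def s5 (a : Fin 4) : Fin 5 → ℤ := Fin.cons 1 (flip a)

theorem s5_cases (a : Fin 4) (i : Fin 5) : s5 a i = 1 ∨ s5 a i = -1 := by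
  revert a i
  decide

/-- the involutions on polynomials -/
def g5 (a : Fin 4) : P5 →ₐ[ℂ] P5 :=
  aevalTower (cA.comp (sgK a)) fun i => (s5 a i : P5) * X i

theorem g5_C (a : Fin 4) (c : kk) : g5 a (C c) = C (sgK a c) := by simp [g5, cA_apply]

theorem g5_X (a : Fin 4) (i : Fin 5) : g5 a (X i) = (s5 a i : P5) * X i := by simp [g5]

theorem g5_g5 (a : Fin 4) (p : P5) : g5 a (g5 a p) = p := by
  induction p using MvPolynomial.induction_on with
  | C c => rw [g5_C, g5_C, sgK_sgK]
  | add p q hp hq => rw [map_add, map_add, hp, hq]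
  | mul_X p i hp =>
    rw [map_mul, map_mul, hp, g5_X, map_mul, g5_X, map_intCast]
    rcases s5_cases a i with h | h <;> rw [h] <;> push_cast <;> ring

section
variable {Ω : Type} [Field Ω] [Algebra ℂ Ω] [Algebra P5 Ω] [IsScalarTower ℂ P5 Ω]
  [IsFractionRing P5 Ω]

open TrivSqZeroExt in
theorem exists_der_mv (d : Derivation ℂ kk kk) : ∃ D : Derivation ℂ Ω Ω,
    (∀ c, D (algebraMap P5 Ω (C c)) = algebraMap P5 Ω (C (d c))) ∧
      ∀ i, D (algebraMap P5 Ω (X i)) = 0 := by
  let Φ : kk →+* DualNumber Ω :=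
    { toFun := fun c => (inl (algebraMap P5 Ω (C c)) + inr (algebraMap P5 Ω (C (d c))) :
        DualNumber Ω)
      map_one' := by ext <;> simp
      map_zero' := by ext <;> simp
      map_add' := fun a b => by
        ext <;> simp only [map_add, snd_add, snd_inl, snd_inr, fst_add, fst_inl, fst_inr,
          add_zero, zero_add]
      map_mul' := fun a b => by
        ext
        · simp
        · simp only [map_mul, map_add, Derivation.leibniz, snd_add, snd_inl, snd_inr, zero_add,
            snd_mul, fst_add, fst_inl, fst_inr, add_zero, smul_eq_mul,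
            MulOpposite.smul_eq_mul_unop, MulOpposite.unop_op]
          ring }
  let Θ : P5 →+* DualNumber Ω := eval₂Hom Φ fun i => inl (algebraMap P5 Ω (X i))
  have hC : ∀ c, Θ (C c) = Φ c := fun c => eval₂Hom_C _ _ c
  have hX : ∀ i, Θ (X i) = inl (algebraMap P5 Ω (X i)) := fun i => eval₂Hom_X' _ _ i
  have hfst : ∀ p, (Θ p).fst = algebraMap P5 Ω p := fun p => by
    induction p using MvPolynomial.induction_on with
    | C c => simp [hC, Φ]
    | add p q hp hq => rw [map_add, fst_add, hp, hq, map_add]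
    | mul_X p i hp => rw [map_mul, fst_mul, hp, hX, fst_inl, map_mul]
  have hc : ∀ c : ℂ, (Θ (algebraMap ℂ P5 c)).snd = 0 := fun c => by
    rw [IsScalarTower.algebraMap_apply ℂ kk P5, algebraMap_eq, hC]
    simp [Φ]
  have hm : ∀ a b, (Θ (a * b)).snd =
      algebraMap P5 Ω a * (Θ b).snd + algebraMap P5 Ω b * (Θ a).snd := fun a b => by
    rw [map_mul, snd_mul, hfst, hfst]
    simp [mul_comm]
  obtain ⟨D, hD⟩ := exists_der_frac (Q := P5) (Ω := Ω) (Derivation.mk'
    { toFun := fun f => (Θ f).snd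
      map_add' := fun a b => by simp
      map_smul' := fun c a => by
        simp only [Algebra.smul_def, hm, hc, RingHom.id_apply, mul_zero, add_zero,
          ← IsScalarTower.algebraMap_apply] }
    (fun a b => by simpa [Algebra.smul_def] using hm a b))
  refine ⟨D, fun c => ?_, fun i => ?_⟩
  · rw [hD]
    change (Θ (C c)).snd = _
    rw [hC]
    exact zero_add _
  · rw [hD]
    change (Θ (X i)).snd = _
    simp [hX]

theorem der_mon {D : Derivation ℂ Ω Ω} {φ : P5 →+* Ω} (h : ∀ i, D (φ (X i)) = 0) {x : Ω}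
    (hx : IsMon φ x) : D x = 0 := by
  have key : ∀ a : Fin 5 →₀ ℕ, D (φ (monomial a 1)) = 0 := fun a => by
    induction a using Finsupp.induction_linear with
    | zero => simp
    | add a b ha hb =>
      rw [← one_mul (1 : kk), ← monomial_mul, map_mul, Derivation.leibniz, ha, hb]
      simp
    | single i n => rw [← X_pow_eq_monomial, map_pow, Derivation.leibniz_pow, h]; simp
  obtain ⟨a, b, rfl⟩ := hx
  rw [Derivation.leibniz_div, key, key]
  simp

/-- the monomials -/
def monS (φ : P5 →+* Ω) : Submonoid Ω where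
  carrier := {x | IsMon φ x}
  one_mem' := ⟨0, 0, by simp⟩
  mul_mem' := by
    rintro _ _ ⟨a, b, rfl⟩ ⟨a', b', rfl⟩
    exact ⟨a + a', b + b', by rw [div_mul_div_comm, ← map_mul, ← map_mul, monomial_mul,
      monomial_mul, one_mul]⟩

theorem mon_X (φ : P5 →+* Ω) (i : Fin 5) : φ (X i) ∈ monS φ :=
  ⟨Finsupp.single i 1, 0, by simp [X]⟩

theorem exists_deg (h : MvStmt) : ∃ O : ValuationSubring Ω, Nonempty (Deg Ω O.ValueGroup) := by
  have inj := IsFractionRing.injective P5 Ω
  obtain ⟨O, hv, hf⟩ := h (Fin 5) kk Ω m5 (algebraMap P5 Ω) inj fun f => by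
    obtain ⟨p, q, hq, rfl⟩ := IsFractionRing.div_surjective (A := P5) f
    exact ⟨p, q, nonZeroDivisors.ne_zero hq, rfl⟩
  choose D hDC hDX using fun j => exists_der_mv (Ω := Ω) (dd j)
  let φ : P5 →ₐ[ℂ] Ω := IsScalarTower.toAlgHom ℂ P5 Ω
  let τ : Fin 4 → Ω →ₐ[ℂ] Ω := fun a => IsFractionRing.liftAlgHom (g := φ.comp (g5 a))
    (inj.comp (Function.LeftInverse.injective (g5_g5 a)))
  have hτ : ∀ a p, τ a (algebraMap P5 Ω p) = algebraMap P5 Ω (g5 a p) := fun a p => by
    simp [τ, φ]
  have hτX : ∀ a i, τ a (algebraMap P5 Ω (X i)) = (s5 a i : Ω) * algebraMap P5 Ω (X i) :=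
    fun a i => by rw [hτ, g5_X, map_mul, map_intCast]
  have aut := fun a => hf.aut (τ a : Ω →+* Ω) (fun c => ⟨_, (hτ a _).trans (by rw [g5_C])⟩)
    fun i => (s5_cases a i).imp (fun e => (hτX a i).trans (by simp [e]))
      fun e => (hτX a i).trans (by simp [e])
  have hev : ∀ p, evA (fun i : Fin 4 => algebraMap P5 Ω (X i.succ))
      (algebraMap P5 Ω (X 0) • ym.map (φ.comp cA)) p = algebraMap P5 Ω (Ψ p) := fun p => by
    refine Eq.symm ((comp_evA φ _ _ p).trans ?_)
    congr 2
    ext i j
    simp [φ]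
  have hr : ∀ ρ : Rt, aeval (fun i : Fin 4 => algebraMap P5 Ω (X i.succ)) ρ =
      algebraMap P5 Ω (Ψ (C ρ)) := fun ρ => by rw [← hev, evA_C]
  refine ⟨O, ⟨{
    v := O.valuation
    ι := φ.comp cA
    T := algebraMap P5 Ω (X 0)
    r := fun i => algebraMap P5 Ω (X i.succ)
    Mon := monS (algebraMap P5 Ω)
    D := D
    τ := τ
    iota_le := hf.iota_le
    mon_ne := ?_
    mon_inv := ?_
    mon_inj := fun m hm m' hm' => hf.mon_inj m m' hm hm'
    T_mem := mon_X _ _
    r_mem := fun i => mon_X _ _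
    exists_lead := fun f h0 => (hf.exists_lead f h0).imp fun m ⟨c, h1, h2⟩ => ⟨h1, c, h2⟩
    D_iota := hDC
    D_mon := fun j m hm => der_mon (hDX j) hm
    D_le := fun j => hf.der (D j) (fun c => ⟨_, hDC j c⟩) fun i => ⟨0, by simp [hDX]⟩
    τ_iota := fun a c => (hτ a (C c)).trans (by rw [g5_C]; rfl)
    τ_T := fun a => (hτX a 0).trans (by simp [s5])
    τ_r := fun a j => hτX a j.succ
    τ_val := fun a => (aut a).1
    τ_mon := fun a => (aut a).2
    one_le_r := fun i => ?_
    r_lt_T := fun ρ => ?_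
    r_inj := fun ρ h0 => ?_
    link := fun p hp => ?_ }⟩⟩
  · rintro _ ⟨a, b, rfl⟩
    refine div_ne_zero ?_ ?_ <;> simp [map_eq_zero_iff _ inj]
  · rintro _ ⟨a, b, rfl⟩
    exact ⟨b, a, inv_div _ _⟩
  · simpa using (hv.2.2 1 (X i.succ) (X_ne_zero _)).2 (Or.inr (by simp))
  · rw [hr]
    by_cases h0 : ρ = 0
    · simp [h0, Valuation.pos_iff, map_eq_zero_iff _ inj]
    obtain ⟨h1, κ, h2, -⟩ := psi_deg (p := C ρ) (by simpa using h0)
    refine not_le.1 fun hle => ?_
    rcases (hv.2.2 _ _ h1).1 hle with h3 | h3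
    · exact X_ne_zero _ h3
    · rw [h2, totalDegree_C, MonomialOrder.degree_X, ← Finsupp.cons_zero_eq_single_zero] at h3
      exact (lex_fst one_pos _ _).not_ge h3
  · rw [hr, map_ne_zero_iff _ inj]
    exact (psi_deg (by simpa using h0)).1
  · obtain ⟨h1, κ, h2, h3⟩ := psi_deg hp
    have h4 := hf.lead_poly _ h1
    have h5 : m5.leadingCoeff (Ψ p) =
        algebraMap Py kk (cx κ (homogeneousComponent p.totalDegree p)) := by
      rw [MonomialOrder.leadingCoeff, h2, coeff_psi]
    refine ⟨κ, cx κ (homogeneousComponent p.totalDegree p), fun h0 => ?_,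
      fun η => ⟨h3 η, coeff_cx _ _ _⟩, ?_⟩
    · exact m5.leadingCoeff_ne_zero_iff.2 h1 (by rw [h5, h0, map_zero])
    · rw [h5, h2, mon_cons, C_1, one_mul, map_mul, map_pow, map_prod, ← hev] at h4
      simp only [map_pow] at h4
      exact h4

end

end OmP

theorem omS (h : MvStmt) : OmStmt := by
  obtain ⟨O, hO⟩ := OmP.exists_deg (Ω := FractionRing OmP.P5) h
  exact ⟨_, _, _, _, _, hO⟩

end Pool.Agent.MP_0f1eb7_ag.Cyl

end
end MrgPart1

-- ======== part 2: formerly Pool.Agent.MP_0f1eb7_ag.cyl.A1b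
section MrgPart2

/-! Row A1B: eight independent gradients among the leading coefficients. -/

set_option autoImplicit false

noncomputable section

namespace Pool.Agent.MP_0f1eb7_ag.Cyl

open MvPolynomial Matrix Module

namespace A1bP

variable {K : Type} [Field K] [Algebra ℂ K]

/-- chain rule for a polynomial whose coefficients are constants of the derivation -/
theorem chain (d : Derivation ℂ K K) (u : Fin 2 → K) (π : MvPolynomial (Fin 2) K)
    (h : ∀ η, d (coeff η π) = 0) :
    d (aeval u π) = aeval u (pderiv 0 π) * d (u 0) + aeval u (pderiv 1 π) * d (u 1) := by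
  let S : Subsemiring (MvPolynomial (Fin 2) K) :=
    { carrier := {p | d (aeval u p) =
        aeval u (pderiv 0 p) * d (u 0) + aeval u (pderiv 1 p) * d (u 1)}
      mul_mem' := fun {a b} ha hb => by
        simp only [Set.mem_ofPred_eq] at ha hb ⊢
        simp only [map_mul, Derivation.leibniz, smul_eq_mul, map_add, ha, hb]
        ring
      one_mem' := by simp
      add_mem' := fun {a b} ha hb => by
        simp only [Set.mem_ofPred_eq] at ha hb ⊢
        simp only [map_add, ha, hb]
        ring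
      zero_mem' := by simp }
  have hX : ∀ i, X i ∈ S := by
    intro i
    show d (aeval u (X i)) = _
    fin_cases i <;> simp
  show π ∈ S
  rw [π.as_sum]
  refine Subsemiring.sum_mem _ fun η _ => ?_
  rw [monomial_eq]
  refine S.mul_mem ?_ (Subsemiring.prod_mem _ fun i _ => S.pow_mem (hX i) _)
  show d (aeval u (C _)) = _
  simp [h η]

omit [Algebra ℂ K] in
theorem deg_lt {π : MvPolynomial (Fin 2) K} {i : Fin 2} (h : pderiv i π ≠ 0) :
    (pderiv i π).totalDegree < π.totalDegree := by
  obtain ⟨η, hη, e⟩ := Finset.exists_mem_eq_sup _ (support_nonempty.2 h)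
    fun s : Fin 2 →₀ ℕ => s.sum fun _ e => e
  have h1 : η + Finsupp.single i 1 ∈ π.support := by
    rw [MvPolynomial.mem_support_iff] at hη ⊢
    rw [coeff_pderiv] at hη
    exact left_ne_zero_of_mul hη
  have h2 := le_totalDegree h1
  rw [Finsupp.sum_add_index' (fun _ => rfl) (fun _ _ _ => rfl), Finsupp.sum_single_index rfl] at h2
  rw [totalDegree, e]
  omega

theorem eq_C {π : MvPolynomial (Fin 2) K} (h : ∀ i, pderiv i π = 0) : π = C (coeff 0 π) := by
  have : CharZero K := charZero_of_injective_algebraMap (algebraMap ℂ K).injective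
  classical
  ext η
  rw [coeff_C]
  split_ifs with h0
  · rw [← h0]
  · obtain ⟨i, hi⟩ : ∃ i, η i ≠ 0 := by
      by_contra hc
      push Not at hc
      exact h0 (Finsupp.ext fun i => (hc i).symm)
    have e : η - Finsupp.single i 1 + Finsupp.single i 1 = η :=
      tsub_add_cancel_of_le (Finsupp.single_le_iff.2 (Nat.one_le_iff_ne_zero.2 hi))
    have h1 := coeff_pderiv (i := i) π (η - Finsupp.single i 1)
    rw [h i, coeff_zero, e] at h1
    exact (mul_eq_zero.1 h1.symm).resolve_right (Nat.cast_add_one_ne_zero _)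

/-- a relation over the common constants forces proportional derivatives -/
theorem minor (d₁ d₂ : Derivation ℂ K K) (u : Fin 2 → K) (n : ℕ) :
    ∀ π : MvPolynomial (Fin 2) K, π.totalDegree < n → π ≠ 0 → (∀ η, d₁ (coeff η π) = 0) →
      (∀ η, d₂ (coeff η π) = 0) → aeval u π = 0 →
      d₁ (u 0) * d₂ (u 1) = d₁ (u 1) * d₂ (u 0) := by
  induction n with
  | zero => intro π h; omega
  | succ n ih =>
    intro π hn h0 h1 h2 h3
    have cst : ∀ d : Derivation ℂ K K, (∀ η, d (coeff η π) = 0) → ∀ i η,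
        d (coeff η (pderiv i π)) = 0 := by
      intro d hd i η
      rw [coeff_pderiv, Derivation.leibniz, hd, map_add, Derivation.map_natCast, d.map_one_eq_zero]
      simp
    by_cases hc : ∃ i, pderiv i π ≠ 0 ∧ aeval u (pderiv i π) = 0
    · obtain ⟨i, hi, hi'⟩ := hc
      exact ih _ (by have := deg_lt hi; omega) hi (cst d₁ h1 i) (cst d₂ h2 i) hi'
    push Not at hc
    have e1 := chain d₁ u π h1
    have e2 := chain d₂ u π h2
    rw [h3, map_zero] at e1 e2
    by_cases hz : ∀ i, pderiv i π = 0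
    · rw [eq_C hz] at h0 h3
      rw [aeval_C] at h3
      exact absurd (by rw [show coeff 0 π = 0 by simpa using h3, map_zero]) h0
    push Not at hz
    obtain ⟨i, hi⟩ := hz
    have hi' := hc i hi
    fin_cases i
    · apply mul_left_cancel₀ hi'
      simp only [Fin.zero_eta]
      linear_combination (-d₂ (u 1)) * e1 + d₁ (u 1) * e2
    · apply mul_left_cancel₀ hi'
      simp only [Fin.mk_one]
      linear_combination d₂ (u 0) * e1 - d₁ (u 0) * e2

theorem dd_y (i j : I9) : dd i (pt ym j) = if i = j then 1 else 0 := by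
  have e : pt ym j = algebraMap Py kk (X j) := rfl
  rw [e, dd_alg, pderiv_X, Pi.single_apply]
  by_cases h : i = j
  · simp [h]
  · simp [h, Ne.symm h]

/-- the derivation with given components -/
def dx (ξ : I9 → kk) : Derivation ℂ kk kk := ∑ j, ξ j • dd j

theorem dx_apply (ξ : I9 → kk) (f : kk) : dx ξ f = grad dd f ⬝ᵥ ξ := by
  rw [dx, der_sum_apply]
  simp [grad, dotProduct, mul_comm]

theorem dx_y (ξ : I9 → kk) (j : I9) : dx ξ (pt ym j) = ξ j := by
  rw [dx, der_sum_apply]
  simp [dd_y]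

theorem rank_ge {LC : Set kk} (h : Dep LC) :
    8 ≤ finrank kk (Submodule.span kk (grad dd '' LC)) := by
  obtain ⟨f, hf, hs, -⟩ := Submodule.exists_fun_fin_finrank_span_eq kk (grad dd '' LC)
  generalize finrank kk (Submodule.span kk (grad dd '' LC)) = r at f hf hs
  let φ := (of f).mulVecLin
  have kill : ∀ ξ ∈ LinearMap.ker φ, ∀ c ∈ LC, dx ξ c = 0 := by
    intro ξ hξ c hc
    rw [dx_apply]
    have h1 : grad dd c ∈ Submodule.span kk (Set.range f) := by
      rw [hs]; exact Submodule.subset_span ⟨c, hc, rfl⟩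
    obtain ⟨a, ha⟩ := (Submodule.mem_span_range_iff_exists_fun kk).1 h1
    rw [← ha, sum_dotProduct]
    refine Finset.sum_eq_zero fun i _ => ?_
    have h2 : f i ⬝ᵥ ξ = 0 := congrFun (LinearMap.mem_ker.1 hξ) i
    rw [smul_dotProduct, h2, smul_zero]
  have mn : ∀ ξ ∈ LinearMap.ker φ, ∀ ξ' ∈ LinearMap.ker φ, ∀ a b, ξ a * ξ' b = ξ b * ξ' a := by
    intro ξ hξ ξ' hξ' a b
    obtain ⟨π, h0, h1, h2⟩ := h a b
    have := minor (dx ξ) (dx ξ') _ _ π (Nat.lt_succ_self _) h0 (fun η => kill ξ hξ _ (h1 η))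
      (fun η => kill ξ' hξ' _ (h1 η)) h2
    simpa [dx_y] using this
  have h1 : finrank kk (LinearMap.ker φ) ≤ 1 := by
    rw [finrank_le_one_iff]
    by_cases hz : ∃ v : LinearMap.ker φ, ∃ a, v.1 a ≠ 0
    · obtain ⟨v, a, ha⟩ := hz
      refine ⟨v, fun w => ⟨w.1 a / v.1 a, Subtype.ext (funext fun b => ?_)⟩⟩
      have := mn _ v.2 _ w.2 a b
      show w.1 a / v.1 a * v.1 b = w.1 b
      field_simp
      linear_combination -this
    · push Not at hz
      exact ⟨0, fun w => ⟨0, Subtype.ext (funext fun b => by simpa using (hz w b).symm)⟩⟩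
  have h2 := φ.finrank_range_add_finrank_ker
  have h3 : finrank kk (LinearMap.range φ) ≤ r := by
    simpa using Submodule.finrank_le (LinearMap.range φ)
  have h4 : finrank kk (I9 → kk) = 9 := by simp
  omega

end A1bP

open A1bP in
theorem a1b : A1bStmt := by
  classical
  intro LC h
  obtain ⟨f, hf, -, hi⟩ := Submodule.exists_fun_fin_finrank_span_eq kk (grad dd '' LC)
  have hr := rank_ge h
  have hc : Fintype.card {l : I9 // l ≠ oo} = 8 := by simp
  obtain ⟨e⟩ : Nonempty ({l : I9 // l ≠ oo} ↪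
      Fin (finrank kk (Submodule.span kk (grad dd '' LC)))) :=
    Function.Embedding.nonempty_of_card_le (by rw [hc, Fintype.card_fin]; exact hr)
  have hg := hi.comp e e.injective
  choose c₀ hc₀ hc₁ using fun l => hf (e l)
  let c : I9 → kk := fun l => if hl : l = oo then 0 else c₀ ⟨l, hl⟩
  have hcl : ∀ l : {l : I9 // l ≠ oo}, grad dd (c l.1) = (f ∘ e) l := fun l => by
    simp only [c, dif_neg l.2]
    exact hc₁ l
  obtain ⟨j, hj⟩ : ∃ j : I9, Pi.single j 1 ∉ Submodule.span kk (Set.range (f ∘ e)) := by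
    by_contra hcon
    push Not at hcon
    have h1 : Submodule.span kk (Set.range (f ∘ e)) = ⊤ := by
      rw [eq_top_iff, ← (Pi.basisFun kk I9).span_eq, Submodule.span_le]
      rintro _ ⟨j, rfl⟩
      simpa using hcon j
    have h2 := finrank_span_eq_card hg
    rw [h1, finrank_top, hc] at h2
    simp at h2
  refine ⟨c, fun l hl => ⟨?_, fun h0 => ?_⟩, fun h0 => ?_⟩
  · simp only [c, dif_neg hl]
    exact hc₀ _
  · refine hg.ne_zero ⟨l, hl⟩ ?_
    rw [← hcl, h0]
    funext i
    simp [grad]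
  · have h1 : LinearIndependent kk
        ((of fun l => grad dd (c l)).updateRow oo (Pi.single j 1)).row := by
      rw [← linearIndependent_equiv (Equiv.optionSubtypeNe oo), linearIndependent_option]
      have e1 : (((of fun l => grad dd (c l)).updateRow oo (Pi.single j 1)).row ∘
          Equiv.optionSubtypeNe oo) ∘ some = f ∘ e := by
        funext l
        rw [← hcl]
        simp only [Function.comp_apply, Equiv.optionSubtypeNe_some, Matrix.row, updateRow_ne l.2]
        rfl
      constructor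
      · rw [e1]; exact hg
      · rw [e1]
        simpa [Matrix.row] using hj
    have h2 := (isUnit_iff_isUnit_det _).1 (linearIndependent_rows_iff_isUnit.1 h1)
    have h3 := jacD_apply dd c (pt ym j)
    have e2 : grad dd (pt ym j) = Pi.single j 1 := by
      funext i
      simp [grad, dd_y, Pi.single_apply]
    rw [h0, e2] at h3
    exact h2.ne_zero h3.symm

end Pool.Agent.MP_0f1eb7_ag.Cyl

end
end MrgPart2

-- ======== part 3: formerly Pool.Agent.MP_0f1eb7_ag.cyl.Jac
section MrgPart3

/-! Row JAC: the Jacobian determinant of the twisted point. -/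

set_option autoImplicit false

noncomputable section

namespace Pool.Agent.MP_0f1eb7_ag.Cyl

open MvPolynomial Matrix TrivSqZeroExt
open scoped Kronecker

namespace JacP

variable {E : Type} [Field E] [Algebra ℂ E]

/-- the first order flow of a derivation -/
def psi (D : Derivation ℂ E E) : E →+* DualNumber E where
  toFun f := inl f + inr (D f)
  map_one' := by ext <;> simp
  map_zero' := by ext <;> simp
  map_add' a b := by ext <;> simp
  map_mul' a b := by
    ext
    · simp
    · simp [mul_comm]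

theorem isSO_map {R S : Type} [CommRing R] [CommRing S] (φ : R →+* S) {M : M3 R} (h : IsSO M) :
    IsSO (M.map φ) := by
  have he : (eta : M3 R).map φ = eta := by
    rw [eta, diagonal_map (map_zero φ)]
    simp only [map_sg]
    rfl
  refine ⟨?_, by rw [det_map, h.2, map_one]⟩
  rw [← he, ← transpose_map, ← Matrix.map_mul, ← Matrix.map_mul, h.1]

theorem map_psi (D : Derivation ℂ E E) (X : M3 E) :
    X.map (psi D) = X.map (inlHom E E) + (DualNumber.eps : DualNumber E) •
      (X.map D).map (inlHom E E) := by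
  ext i j <;> simp [psi]

theorem map_mul_der (D : Derivation ℂ E E) (X Y : M3 E) :
    (X * Y).map D = X.map D * Y + X * Y.map D := by
  ext i j
  simp only [map_apply, mul_apply, Matrix.add_apply, map_sum, Derivation.leibniz, smul_eq_mul,
    ← Finset.sum_add_distrib]
  exact Finset.sum_congr rfl fun k _ => by ring

/-- tangent vectors to the orbits kill the invariants -/
theorem inv_zero (D D' : Derivation ℂ E E) {A B y : M3 E} (hA : IsSO A) (hB : IsSO B)
    (h : y.map D' = A.adjugate * A.map D * y + y * (B.adjugate * B.map D)ᵀ) :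
    D' (z2 y) = 0 ∧ D' (z4 y) = 0 ∧ D' (zt y) = 0 := by
  have key : ∀ {M : M3 E}, IsSO M → IsSO (1 + (DualNumber.eps : DualNumber E) •
      (M.adjugate * M.map D).map (inlHom E E)) := by
    intro M hM
    have h1 := (isSO_map (inlHom E E) hM.adjugate).mul (isSO_map (psi D) hM)
    rwa [map_psi, Matrix.mul_add, Matrix.mul_smul, ← Matrix.map_mul, ← Matrix.map_mul,
      adjugate_mul, hM.2, one_smul, Matrix.map_one _ (map_zero _) (map_one _)] at h1
  have e : y.map (psi D') = (1 + (DualNumber.eps : DualNumber E) •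
      (A.adjugate * A.map D).map (inlHom E E)) * y.map (inlHom E E) *
      (1 + (DualNumber.eps : DualNumber E) • (B.adjugate * B.map D).map (inlHom E E))ᵀ := by
    rw [map_psi, h, Matrix.map_add _ (map_add _), Matrix.map_mul (L := _ * _),
      Matrix.map_mul (L := y), transpose_map]
    simp only [transpose_add, transpose_smul, transpose_one, Matrix.mul_add, Matrix.add_mul,
      Matrix.one_mul, Matrix.mul_one, Matrix.smul_mul, Matrix.mul_smul, smul_add, smul_smul,
      DualNumber.eps_mul_eps, zero_smul, add_zero, add_assoc]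
  have h2 := z2_act (key hA) (key hB) (y.map (inlHom E E))
  have h4 := z4_act (key hA) (key hB) (y.map (inlHom E E))
  have h6 := zt_act (key hA) (key hB) (y.map (inlHom E E))
  rw [← e, z2_map, z2_map] at h2
  rw [← e, z4_map, z4_map] at h4
  rw [← e, zt_map, zt_map] at h6
  exact ⟨by simpa [psi] using congrArg snd h2, by simpa [psi] using congrArg snd h4,
    by simpa [psi] using congrArg snd h6⟩

theorem der_Ad (D : Derivation ℂ E E) {X Y : E} (hX : D X = 0) (hY : D Y = 0) :
    (Ad (gm X Y)).map D = 0 := by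
  have hh : D (hf : E) = 0 := D.map_algebraMap _
  have hk : ∀ i j, D (gm X Y i j) = 0 := by
    intro i j
    fin_cases i <;> fin_cases j <;> simp [gm, gt, hX, hY, hh, Derivation.leibniz_inv]
  ext i j
  fin_cases i <;> fin_cases j <;> simp [Ad, hk, hh]

omit [Algebra ℂ E] in
theorem det_add_nil {n : Type} [Fintype n] [DecidableEq n] {N : Matrix n n E} (h : N * N = 0)
    (T : E) : (T • (1 : Matrix n n E) + N).det = T ^ Fintype.card n := by
  have h1 : IsNilpotent (-N) := ⟨2, by rw [sq, neg_mul_neg, h]⟩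
  have h2 := sub_eq_zero.1 (isNilpotent_charpoly_sub_pow_of_isNilpotent h1).eq_zero
  have h3 := eval_charpoly (-N) T
  rw [h2, sub_neg_eq_add, scalar_apply, ← smul_one_eq_diagonal] at h3
  rw [← h3]
  simp

omit [Algebra ℂ E] in
theorem kron_mul (A B : M3 E) (W : I9 → M3 E) (a j : I9) :
    ((A ⊗ₖ B) * (of fun b j => pt (W j) b : Matrix I9 I9 E)) a j = pt (A * W j * Bᵀ) a := by
  simp only [mul_apply, kroneckerMap_apply, of_apply, pt, Fintype.sum_prod_type, transpose_apply,
    Finset.sum_mul]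
  rw [Finset.sum_comm]
  exact Finset.sum_congr rfl fun _ _ => Finset.sum_congr rfl fun _ _ => by ring

/-- the derivation in the direction `w` -/
def Dv (D : I9 → Derivation ℂ E E) (w : I9 → E) : Derivation ℂ E E := ∑ j, w j • D j

theorem Dv_apply (D : I9 → Derivation ℂ E E) (w : I9 → E) (f : E) :
    Dv D w f = ∑ j, w j * D j f := by
  simp [Dv, der_sum_apply]

theorem main (D : I9 → Derivation ℂ E E) (T : E) {A B y : M3 E} (hA : IsSO A) (hB : IsSO B)
    (hy : ∀ j a, D j (pt y a) = if a = j then T else 0)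
    (hk : ∀ w : I9 → E, Dv D w (z2 y) = 0 → Dv D w (z4 y) = 0 → Dv D w (zt y) = 0 →
      A.map (Dv D w) = 0 ∧ B.map (Dv D w) = 0) :
    (of fun a => grad D (pt (A * y * Bᵀ) a)).det = T ^ 9 := by
  let W : Derivation ℂ E E → M3 E := fun d =>
    A.adjugate * A.map d * y + y * (B.adjugate * B.map d)ᵀ
  let N : Matrix I9 I9 E := of fun b j => pt (W (D j)) b
  have hA1 : A * A.adjugate = 1 := by rw [mul_adjugate, hA.2, one_smul]
  have hB1 : B * B.adjugate = 1 := by rw [mul_adjugate, hB.2, one_smul]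
  have hJ : (of fun a => grad D (pt (A * y * Bᵀ) a)) = (A ⊗ₖ B) * (T • 1 + N) := by
    have h1 : (T • 1 + N : Matrix I9 I9 E) = of fun b j => pt (y.map (D j) + W (D j)) b := by
      ext b j
      have := hy j b
      simp only [pt] at this
      simp [N, pt, this, one_apply]
    rw [h1]
    ext a j
    rw [kron_mul]
    have h2 : A * (y.map (D j) + W (D j)) * Bᵀ = (A * y * Bᵀ).map (D j) := by
      rw [map_mul_der, map_mul_der, transpose_map]
      simp only [W, Matrix.mul_add, Matrix.add_mul, ← Matrix.mul_assoc, hA1, Matrix.one_mul]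
      rw [Matrix.mul_assoc (A * y), ← transpose_mul, ← Matrix.mul_assoc B, hB1, Matrix.one_mul]
      abel
    rw [h2]
    rfl
  have hsum : ∀ (w : I9 → E) (X : M3 E), X.map (Dv D w) = ∑ j, w j • X.map (D j) := by
    intro w X
    ext a b
    simp [Dv_apply, Matrix.sum_apply]
  have hN : N * N = 0 := by
    ext a j
    have h1 : y.map (Dv D fun b => N b j) = W (T • D j) := by
      have h2 : ∀ X : M3 E, X.map (T • D j : Derivation ℂ E E) = T • X.map (D j) := fun X => by ext; simp
      simp only [W, h2, Matrix.mul_smul, Matrix.smul_mul, transpose_smul, ← smul_add]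
      ext p q
      have h3 : ∀ b, D b (y p q) = if (p, q) = b then T else 0 := fun b => hy b (p, q)
      simp [Dv_apply, h3, N, pt, W, mul_comm]
    obtain ⟨z1, z2, z3⟩ := inv_zero _ _ hA hB h1
    obtain ⟨k1, k2⟩ := hk _ z1 z2 z3
    have h4 : W (Dv D fun b => N b j) = 0 := by simp only [W, k1, k2]; simp
    have h5 : W (Dv D fun b => N b j) = ∑ b, N b j • W (D b) := by
      simp only [W, hsum, Matrix.mul_sum, Matrix.sum_mul, transpose_sum, Matrix.mul_smul,
        Matrix.smul_mul, transpose_smul, smul_add, Finset.sum_add_distrib]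
    have h6 := congrArg (fun X => pt X a) (h5.symm.trans h4)
    simp only [pt, Matrix.sum_apply, Matrix.smul_apply, smul_eq_mul] at h6
    rw [mul_apply, ← show _ = (0 : Matrix I9 I9 E) a j from h6]
    exact Finset.sum_congr rfl fun b _ => mul_comm _ _
  rw [hJ, det_mul, det_kronecker, hA.2, hB.2, det_add_nil hN]
  simp

end JacP

open JacP in
/-- row JAC -/
theorem jac (h : NnStmt) : JacStmt := by
  intro Ω Γ _ _ _ G
  have hn := (h Ω Γ G).1
  rw [Deg.n0, nn, mul_ne_zero_iff] at hn
  refine main G.D G.T (isSO_Ad (det_gm hn.1)) (isSO_Ad (det_gm hn.2)) ?_ ?_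
  · intro j a
    have h1 : pt G.y0 a = G.T * G.ι (algebraMap Py kk (X a)) := rfl
    rw [h1, Derivation.leibniz, G.D_mon j _ G.T_mem, G.D_iota, dd_alg, pderiv_X]
    by_cases e : a = j
    · simp [e]
    · simp [e]
  · intro w h2 h4 h6
    have hr : ∀ i, Dv G.D w (G.r i) = 0 := fun i => by
      simp [Dv_apply, G.D_mon _ _ (G.r_mem i)]
    generalize Dv G.D w = d at h2 h4 h6 hr ⊢
    have hx : d (xx G.y0) = 0 := by simp [xx, h4]
    have hy : ∀ c : ℤ, d (yy c G.y0) = 0 := fun c => by simp [yy, h2, h6]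
    exact ⟨der_Ad d (by simp [hr, hx]) (by simp [hr, hy]),
      der_Ad d (by simp [hr, hx]) (by simp [hr, hy])⟩

end Pool.Agent.MP_0f1eb7_ag.Cyl

end
end MrgPart3

-- ======== part 4: formerly Pool.Agent.MP_0f1eb7_ag.cyl.Sl1
section MrgPart4

/-! Row SL1: slices of a derivation. -/

set_option autoImplicit false

noncomputable section

namespace Pool.Agent.MP_0f1eb7_ag.Cyl

open MvPolynomial Matrix

namespace Sl1P

section
variable {E : Type} [Field E] [Algebra ℂ E] (δ : Derivation ℂ E E)

/-- the field of constants -/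
def kerF : Subfield E where
  carrier := {f | δ f = 0}
  mul_mem' := fun {a b} (ha : δ a = 0) (hb : δ b = 0) => show δ (a * b) = 0 by
    rw [δ.leibniz, ha, hb, smul_zero, smul_zero, add_zero]
  one_mem' := δ.map_one_eq_zero
  add_mem' := fun {a b} (ha : δ a = 0) (hb : δ b = 0) => show δ (a + b) = 0 by
    rw [map_add, ha, hb, add_zero]
  zero_mem' := map_zero δ
  neg_mem' := fun {a} (ha : δ a = 0) => show δ (-a) = 0 by rw [map_neg, ha, neg_zero]
  inv_mem' := fun a (ha : δ a = 0) => show δ a⁻¹ = 0 by rw [δ.leibniz_inv, ha, smul_zero]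

variable {δ} {t : E}

theorem der_eval (ht : δ t = 1) (q : Polynomial (kerF δ)) :
    δ (q.eval₂ (kerF δ).subtype t) = q.derivative.eval₂ (kerF δ).subtype t := by
  induction q using Polynomial.induction_on' with
  | add p q hp hq => simp only [Polynomial.eval₂_add, map_add, hp, hq]
  | monomial n c =>
    have hc : δ (c : E) = 0 := c.2
    rw [Polynomial.derivative_monomial, Polynomial.eval₂_monomial, Polynomial.eval₂_monomial,
      δ.leibniz, δ.leibniz_pow, ht]
    simp [hc, mul_assoc]

theorem eval_inj [CharZero E] (ht : δ t = 1) (q : Polynomial (kerF δ))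
    (h : q.eval₂ (kerF δ).subtype t = 0) : q = 0 := by
  induction hn : q.natDegree using Nat.strong_induction_on generalizing q with
  | _ n ih =>
    have h1 : q.derivative = 0 := by
      by_cases h0 : q.natDegree = 0
      · exact Polynomial.derivative_of_natDegree_zero h0
      · exact ih _ (hn ▸ Polynomial.natDegree_derivative_lt h0) _
          (by rw [← der_eval ht, h, map_zero]) rfl
    rw [Polynomial.eq_C_of_derivative_eq_zero h1] at h ⊢
    rw [Polynomial.eval₂_C] at h
    rw [show q.coeff 0 = 0 from Subtype.ext h, map_zero]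

theorem exists_prim {F : Type} [Field F] [CharZero F] (q : Polynomial F) :
    ∃ q' : Polynomial F, q'.derivative = q := by
  induction q using Polynomial.induction_on' with
  | add p q hp hq =>
    obtain ⟨p', rfl⟩ := hp
    obtain ⟨q', rfl⟩ := hq
    exact ⟨p' + q', map_add _ _ _⟩
  | monomial n c =>
    refine ⟨Polynomial.monomial (n + 1) (c / ((n + 1 : ℕ) : F)), ?_⟩
    rw [Polynomial.derivative_monomial, div_mul_cancel₀ _ (Nat.cast_ne_zero.2 n.succ_ne_zero)]
    rfl

theorem eval_surj [CharZero E] (ht : δ t = 1) (n : ℕ) : ∀ f, (fun g => δ g)^[n] f = 0 →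
    ∃ q : Polynomial (kerF δ), q.eval₂ (kerF δ).subtype t = f := by
  induction n with
  | zero => exact fun f h => ⟨0, (Polynomial.eval₂_zero _ _).trans h.symm⟩
  | succ n ih =>
    intro f h
    obtain ⟨q, hq⟩ := ih (δ f) h
    obtain ⟨q, rfl⟩ := exists_prim q
    have h1 : δ (f - q.eval₂ (kerF δ).subtype t) = 0 := by rw [map_sub, der_eval ht, hq, sub_self]
    exact ⟨q + Polynomial.C ⟨_, h1⟩, ((Polynomial.eval₂_add _ _).trans
      (congrArg _ (Polynomial.eval₂_C _ _))).trans (add_sub_cancel _ _)⟩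

/-- the last non-constant iterate -/
theorem exists_pre {P : E → Prop} (hP : ∀ f, P f → P (δ f)) (n : ℕ) :
    ∀ f, (fun g => δ g)^[n] f = 0 → P f → δ f ≠ 0 → ∃ g, P g ∧ δ g ≠ 0 ∧ δ (δ g) = 0 := by
  induction n with
  | zero => exact fun f h _ h1 => absurd (by rw [show f = 0 from h, map_zero]) h1
  | succ n ih =>
    intro f h h1 h2
    by_cases h3 : δ (δ f) = 0
    · exact ⟨f, h1, h2, h3⟩
    · exact ih (δ f) h (hP f h1) h3

end

theorem sgP_pderiv (a : Fin 4) (j : I9) (p : Py) :
    sgP a (pderiv j p) = (chi a j : Py) * pderiv j (sgP a p) := by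
  have hc : ∀ i : I9, pderiv j (chi a i : Py) = 0 := fun i => Derivation.map_intCast _ _
  have hX : ∀ i : I9, sgP a (X i) = (chi a i : Py) * X i := fun i => aeval_X _ _
  induction p using MvPolynomial.induction_on with
  | C c => rw [pderiv_C, map_zero, ← algebraMap_eq, AlgHom.commutes, algebraMap_eq, pderiv_C,
      mul_zero]
  | add p q hp hq => simp only [map_add, hp, hq, mul_add]
  | mul_X p i hp =>
    simp only [Derivation.leibniz, map_mul, map_add, smul_eq_mul, hp, hX, hc, mul_zero, add_zero]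
    by_cases h : i = j
    · subst h
      have := congrArg (Int.cast : ℤ → Py) (chi_sq a i)
      push_cast at this
      rw [pderiv_X_self, map_one]
      linear_combination (-sgP a p) * this
    · rw [pderiv_X_of_ne h, map_zero]
      ring

theorem sgK_dd (a : Fin 4) (j : I9) (f : kk) :
    sgK a (dd j f) = (chi a j : kk) * dd j (sgK a f) := by
  obtain ⟨p, q, -, rfl⟩ := IsFractionRing.div_surjective (A := Py) f
  rw [map_div₀ (sgK a), Derivation.leibniz_div, Derivation.leibniz_div]
  simp only [smul_eq_mul, map_mul, map_sub, map_pow, map_inv₀, dd_alg, sgK_alg, sgP_pderiv,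
    map_intCast]
  ring

theorem sgK_jac (a : Fin 4) {h : I9 → kk}
    (hs : ∀ l, l ≠ oo → sgK a (h l) = h l ∨ sgK a (h l) = -h l) :
    ∃ e : kk, (e = 1 ∨ e = -1) ∧ ∀ f, sgK a (jacD dd h f) = e * jacD dd h (sgK a f) := by
  have h1 : ∀ l, ∃ ε : kk, ε * ε = 1 ∧ (l = oo → ε = 1) ∧ (l ≠ oo → sgK a (h l) = ε * h l) := by
    intro l
    by_cases hl : l = oo
    · exact ⟨1, one_mul _, fun _ => rfl, fun h => absurd hl h⟩
    · rcases hs l hl with e | e
      · exact ⟨1, one_mul _, fun _ => rfl, fun _ => by rw [e, one_mul]⟩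
      · exact ⟨-1, by ring, fun h => absurd h hl, fun _ => by rw [e, neg_one_mul]⟩
  choose ε h2 h3 h4 using h1
  have h5 : ∀ l j, l ≠ oo → dd j (sgK a (h l)) = ε l * dd j (h l) := fun l j hl => by
    rw [h4 l hl]
    rcases mul_self_eq_one_iff.1 (h2 l) with e | e <;> simp [e]
  refine ⟨(∏ l, ε l) * ∏ j, (chi a j : kk), mul_self_eq_one_iff.1 ?_, fun f => ?_⟩
  · rw [mul_mul_mul_comm, ← Finset.prod_mul_distrib, ← Finset.prod_mul_distrib]
    simp only [h2, ← Int.cast_mul, chi_sq, Int.cast_one, Finset.prod_const_one, mul_one]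
  · rw [jacD_apply, jacD_apply, AlgHom.map_det, mul_right_comm, ← det_diagonal, ← det_diagonal,
      ← det_mul, ← det_mul]
    congr 1
    ext l j
    rw [mul_diagonal, diagonal_mul, AlgHom.mapMatrix_apply, map_apply, updateRow_apply,
      updateRow_apply]
    split_ifs with hl
    · rw [h3 l hl, grad, grad, sgK_dd]
      ring
    · rw [of_apply, grad, sgK_dd, h5 l j hl]
      ring

theorem sgK_ym (a : Fin 4) (ij : I9) : sgK a (pt ym ij) = (chi a ij : kk) * pt ym ij := by
  change sgK a (algebraMap Py kk (X (ij.1, ij.2))) = _ * algebraMap Py kk (X (ij.1, ij.2))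
  rw [sgK_alg, sgP, aeval_X, map_mul, map_intCast]

theorem sgK_yy (a : Fin 4) (c : ℤ) : sgK a (yy c ym) = yy c ym := by
  have h : ∀ s s' : Fin 3 → kk, IsSO (diagonal s) → IsSO (diagonal s') →
      (∀ i j, (chi a (i, j) : kk) = s i * s' j) → sgK a (yy c ym) = yy c ym := by
    intro s s' h1 h2 h3
    rw [← yy_map, ← yy_act h1 h2 c ym]
    congr 1
    ext i j
    rw [diagonal_transpose, mul_diagonal, diagonal_mul, mul_right_comm, ← h3]
    exact sgK_ym a (i, j)
  have h1 : IsSO (diagonal fun _ : Fin 3 => (1 : kk)) := by rw [diagonal_one]; exact IsSO.one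
  fin_cases a
  · exact h _ _ isSO_diag_sA h1 fun _ _ => (mul_one _).symm
  · exact h _ _ isSO_diag_sB h1 fun _ _ => (mul_one _).symm
  · exact h _ _ h1 isSO_diag_sA fun _ _ => (one_mul _).symm
  · exact h _ _ h1 isSO_diag_sB fun _ _ => (one_mul _).symm

theorem dd_ym (j ij : I9) : dd j (pt ym ij) = (Pi.single ij 1 : I9 → kk) j := by
  change dd j (algebraMap Py kk (X ij)) = _
  rw [dd_alg]
  by_cases h : ij = j
  · subst h; simp
  · rw [pderiv_X_of_ne h, map_zero, Pi.single_eq_of_ne' h]

end Sl1P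

open Sl1P

theorem gsl : GslStmt := by
  intro δ t ht
  have : CharZero kk := algebraRat.charZero _
  refine ⟨kerF δ, fun _ => Iff.rfl, (injective_iff_map_eq_zero _).2 fun p hp => ?_,
    fun f ⟨n, hn⟩ => ?_⟩
  · exact (map_eq_zero_iff _ (uniqueAlgEquiv _ Unit).injective).1
      (eval_inj ht _ (eval₂_const_uniqueAlgEquiv.trans hp))
  · obtain ⟨q, hq⟩ := eval_surj ht n f hn
    exact ⟨(uniqueAlgEquiv _ Unit).symm q, eval₂_const_uniqueAlgEquiv_symm.trans hq⟩

theorem sl1 (hi : InvStmt) : Sl1Stmt := by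
  intro h hL
  choose e he hs using fun a => sgK_jac a fun l hl => hL.semi l hl a
  replace hs : ∀ a f, sgK a (del h f) = e a * del h (sgK a f) := hs
  have hy : ∀ c, yy c ym ≠ 0 := fun c => by
    rw [ym, yy_map]
    exact (map_ne_zero_iff _ (IsFractionRing.injective Py kk)).2 (hi.yy_ne c)
  have h0 : om ≠ 0 := pow_ne_zero _ (mul_ne_zero (hy _) (hy _))
  have h1 : ∀ a, sgK a om = om := fun a => by rw [om, map_pow, map_mul, sgK_yy, sgK_yy]
  obtain ⟨ij, h2⟩ : ∃ ij, del h (pt ym ij) ≠ 0 := by
    by_contra! hc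
    refine hL.ne ?_
    rw [del, jacD]
    refine Finset.sum_eq_zero fun j _ => ?_
    have h3 := hc j
    rw [del, jacD_apply, show grad dd (pt ym j) = Pi.single j 1 from funext fun i => dd_ym i j]
      at h3
    rw [cof, h3, zero_smul]
  obtain ⟨g, h3, h4, h5⟩ : ∃ g, (∀ a, sgK a g = g ∨ sgK a g = -g) ∧ del h g ≠ 0 ∧
      del h (del h g) = 0 := by
    have h3 := exists_pre (δ := del h) (P := fun g => ∀ a, sgK a g = g ∨ sgK a g = -g)
      fun f hf a => by
        rw [hs]
        rcases he a with e1 | e1 <;> rcases hf a with e2 | e2 <;> simp [e1, e2]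
    by_cases h4 : del h om = 0
    · obtain ⟨n, hn⟩ := hL.nil_y ij
      refine h3 n _ hn (fun a => ?_) ?_
      · rw [map_mul, h1, sgK_ym]
        rcases mul_self_eq_one_iff.1 (chi_sq a ij) with e1 | e1 <;> simp [e1]
      · rw [Derivation.leibniz, h4, smul_zero, add_zero]
        exact mul_ne_zero h0 h2
    · obtain ⟨n, hn⟩ := hL.nil_om
      exact h3 n _ hn (fun a => Or.inl (h1 a)) h4
  refine ⟨g / del h g, ?_, fun a => ?_, fun a f hf => ?_⟩
  · rw [Derivation.leibniz_div_const _ _ _ h5, smul_eq_mul, inv_mul_cancel₀ h4]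
  · rw [map_div₀, hs]
    rcases he a with e1 | e1 <;> rcases h3 a with e2 | e2 <;> simp [e1, e2, div_eq_mul_inv]
  · have h6 := hs a f
    rw [hf, map_zero] at h6
    rcases he a with e1 | e1 <;> simpa [e1] using h6.symm

end Pool.Agent.MP_0f1eb7_ag.Cyl

end
end MrgPart4

-- ======== part 5: formerly Pool.Agent.MP_0f1eb7_ag.cyl.Ow
section MrgPart5

/-! The composite valuation ring and its extension to the algebraic closure. -/

set_option autoImplicit false

noncomputable section

namespace Pool.Agent.MP_0f1eb7_ag.Cyl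

open MvPolynomial Matrix

namespace OwP

/-- a valuation subring extends along a field embedding -/
theorem exists_ext {K L : Type} [Field K] [Field L] (f : K →+* L) (A : ValuationSubring K) :
    ∃ O : ValuationSubring L, ∀ x, f x ∈ O ↔ x ∈ A := by
  obtain ⟨O, hO, hl⟩ := IsLocalRing.exists_factor_valuationRing (f.comp A.subtype)
  have h1 : ∀ x ∈ A, f x ∈ O := fun x hx => hO ⟨x, hx⟩
  refine ⟨O, fun x => ⟨fun hx => ?_, h1 x⟩⟩
  by_contra hxA
  have hx0 : x ≠ 0 := by
    rintro rfl
    exact hxA A.zero_mem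
  have hi : x⁻¹ ∈ A := (A.mem_or_inv_mem x).resolve_left hxA
  have hu : IsUnit (((f.comp A.subtype).codRestrict O.toSubring hO) ⟨x⁻¹, hi⟩) := by
    refine IsUnit.of_mul_eq_one ⟨f x, hx⟩ (Subtype.ext ?_)
    change f x⁻¹ * f x = 1
    rw [← map_mul, inv_mul_cancel₀ hx0, map_one]
  obtain ⟨u, hu'⟩ := (hl.map_nonunit _ hu).exists_right_inv
  have e : x⁻¹ * (u : K) = 1 := congrArg Subtype.val hu'
  have e' : (u : K) = x := by
    have := congrArg (fun t => x * t) e
    simpa [← mul_assoc, mul_inv_cancel₀ hx0] using this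
  exact hxA (e' ▸ u.2)

variable {K Γ Γ₀ : Type} [Field K] [LinearOrderedCommGroupWithZero Γ]
  [LinearOrderedCommGroupWithZero Γ₀]

theorem val_F {v : Valuation K Γ} {F : Subfield K} (hF : ∀ c ∈ F, v c ≤ 1) {c : K} (hc : c ∈ F)
    (h0 : c ≠ 0) : v c = 1 :=
  val_iota (ι := F.subtype) (c := ⟨c, hc⟩) (fun c => hF c c.2) fun h => h0 (congrArg Subtype.val h)

theorem eq_zero_F {v : Valuation K Γ} {F : Subfield K} (hF : ∀ c ∈ F, v c ≤ 1) {c : K}
    (hc : c ∈ F) (h : v c < 1) : c = 0 := by
  by_contra h0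
  exact h.ne (val_F hF hc h0)

theorem le_of_near {v : Valuation K Γ} {f c : K} (hc : v c ≤ 1) (h : v (f - c) < 1) : v f ≤ 1 := by
  rw [show f = (f - c) + c by ring]
  exact v.map_add_le h.le hc

/-- elements whose residue in `F` is integral for `w` -/
def comp0 (v : Valuation K Γ) (w : Valuation K Γ₀) (F : Subfield K) (hF : ∀ c ∈ F, v c ≤ 1)
    (hr : ∀ f, v f = 1 → ∃ c ∈ F, v (f - c) < 1) : ValuationSubring K where
  carrier := {f | ∃ c ∈ F, w c ≤ 1 ∧ v (f - c) < 1}
  mul_mem' := by
    rintro f f' ⟨c, hc, hw, h⟩ ⟨c', hc', hw', h'⟩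
    refine ⟨c * c', F.mul_mem hc hc', by rw [map_mul]; exact mul_le_one' hw hw', ?_⟩
    rw [show f * f' - c * c' = f * (f' - c') + (f - c) * c' by ring]
    apply v.map_add_lt
    · rw [map_mul]
      exact lt_of_le_of_lt (mul_le_of_le_one_left' (le_of_near (hF c hc) h)) h'
    · rw [map_mul]
      exact lt_of_le_of_lt (mul_le_of_le_one_right' (hF c' hc')) h
  one_mem' := ⟨1, F.one_mem, by simp, by simp⟩
  add_mem' := by
    rintro f f' ⟨c, hc, hw, h⟩ ⟨c', hc', hw', h'⟩
    refine ⟨c + c', F.add_mem hc hc', w.map_add_le hw hw', ?_⟩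
    rw [show f + f' - (c + c') = (f - c) + (f' - c') by ring]
    exact v.map_add_lt h h'
  zero_mem' := ⟨0, F.zero_mem, by simp, by simp⟩
  neg_mem' := by
    rintro f ⟨c, hc, hw, h⟩
    refine ⟨-c, F.neg_mem hc, by rwa [w.map_neg], ?_⟩
    rwa [show -f - -c = -(f - c) by ring, v.map_neg]
  mem_or_inv_mem' := by
    intro f
    rcases lt_trichotomy (v f) 1 with h | h | h
    · exact Or.inl ⟨0, F.zero_mem, by simp, by simpa using h⟩
    · obtain ⟨c, hc, hfc⟩ := hr f h
      rcases le_total (w c) 1 with hw | hw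
      · exact Or.inl ⟨c, hc, hw, hfc⟩
      · have hc0 : c ≠ 0 := by
          rintro rfl
          simp at hw
        have hf0 : f ≠ 0 := by
          rintro rfl
          simp at h
        refine Or.inr ⟨c⁻¹, F.inv_mem hc, by rw [map_inv₀]; exact inv_le_one_of_one_le₀ hw, ?_⟩
        rw [show f⁻¹ - c⁻¹ = -(f - c) * (f⁻¹ * c⁻¹) by field_simp; ring, map_mul, v.map_neg,
          map_mul, map_inv₀, map_inv₀, h, val_F hF hc hc0]
        simpa using hfc
    · refine Or.inr ⟨0, F.zero_mem, by simp, ?_⟩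
      rw [sub_zero, map_inv₀]
      exact inv_lt_one_of_one_lt₀ h

theorem mem_comp0 {v : Valuation K Γ} {w : Valuation K Γ₀} {F : Subfield K}
    {hF : ∀ c ∈ F, v c ≤ 1} {hr : ∀ f, v f = 1 → ∃ c ∈ F, v (f - c) < 1} {f : K} :
    f ∈ comp0 v w F hF hr ↔ ∃ c ∈ F, w c ≤ 1 ∧ v (f - c) < 1 := Iff.rfl

/-- a monomial order on the nine variables -/
def mo9 : MonomialOrder.{0, 0} I9 :=
  letI : LinearOrder I9 := LinearOrder.lift' finProdFinEquiv finProdFinEquiv.injective
  @MonomialOrder.lex I9 this (@Finite.to_wellFoundedGT I9 _ this.toPreorder)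

theorem alg_C (c : ℂ) : algebraMap Py kk (C c) = algebraMap ℂ kk c := by
  rw [IsScalarTower.algebraMap_apply ℂ Py kk, MvPolynomial.algebraMap_eq]

theorem chi_cases (a : Fin 4) (ij : I9) : chi a ij = 1 ∨ chi a ij = -1 := by
  revert a ij; decide

/-- an anti-invariant element does not have value one for the monomial valuation -/
theorem anti {m : MonomialOrder.{0, 0} I9} {w : Valuation kk Γ₀}
    (hw : MvFacts m (algebraMap Py kk) w) (a : Fin 4) (c : kk) (hc : sgK a c = -c) : w c ≠ 1 := by
  intro h1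
  have hc0 : c ≠ 0 := by
    rintro rfl
    simp at h1
  have hι : ∀ d : ℂ, w (((algebraMap Py kk).comp C) d) ≤ 1 := hw.iota_le
  obtain ⟨x, d, hx, hd, hl⟩ := hw.exists_lead c hc0
  have hone : IsMon (algebraMap Py kk) (1 : kk) := ⟨0, 0, by simp⟩
  have hx1 : x = 1 := hw.mon_inj x 1 hx hone (by rw [← hl.val_eq hι hd, h1, map_one])
  subst hx1
  have hτ := (hw.aut (sgK a : kk →+* kk) (fun e => ⟨e, by
      simp only [RingHom.coe_coe, alg_C, AlgHom.commutes]⟩) (fun i => by
      simp only [RingHom.coe_coe, sgK_alg, sgP, aeval_X]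
      rcases chi_cases a i with e | e <;> simp [e])).1
  have h2 : w (c - algebraMap ℂ kk d) < 1 := by simpa [Lead, alg_C] using hl
  have h3 : w (-c - algebraMap ℂ kk d) < 1 := by
    have := hτ (c - algebraMap ℂ kk d)
    simp only [RingHom.coe_coe, map_sub, hc, AlgHom.commutes] at this
    rwa [this]
  have h4 := w.map_add_lt h2 h3
  have h5 : w (((algebraMap Py kk).comp C) (-(2 * d))) = 1 :=
    val_iota hι (neg_ne_zero.2 (mul_ne_zero two_ne_zero hd))
  rw [RingHom.comp_apply, alg_C, map_neg, map_mul, map_ofNat] at h5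
  rw [show c - algebraMap ℂ kk d + (-c - algebraMap ℂ kk d) = -(2 * algebraMap ℂ kk d) by ring,
    h5] at h4
  exact lt_irrefl _ h4

end OwP

open OwP in
theorem ow (h : MvStmt) : OwStmt := by
  intro Γ _ v F hR
  obtain ⟨O₀, -, hw⟩ := h I9 ℂ kk mo9 (algebraMap Py kk) (IsFractionRing.injective Py kk)
    fun f => by
      obtain ⟨p, q, hq, e⟩ := IsFractionRing.div_surjective (A := Py) f
      exact ⟨p, q, nonZeroDivisors.ne_zero hq, e.symm⟩
  obtain ⟨O, hO⟩ := exists_ext (algebraMap kk Kb) (comp0 v O₀.valuation F hR.F_le hR.res)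
  refine ⟨O, fun c => ?_, fun c c' hcc => ?_, fun a c hc0 hc h1 => ?_⟩
  · rw [IsScalarTower.algebraMap_apply ℂ kk Kb, hO]
    exact ⟨_, hR.C_mem c, by rw [← alg_C]; exact hw.iota_le c, by simp⟩
  · have hp : 0 < v c' := lt_of_le_of_lt zero_le hcc
    have hc' : c' ≠ 0 := v.pos_iff.1 hp
    have hp' : 0 < O.valuation (algebraMap kk Kb c') :=
      O.valuation.pos_iff.2 (by simpa using hc')
    have key : O.valuation (algebraMap kk Kb (c / c')) < 1 := by
      rw [← O.mem_nonunits_iff, O.mem_nonunits_iff_or]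
      by_cases hc0 : c = 0
      · left; simp [hc0]
      · right
        rw [← map_inv₀, hO]
        rintro ⟨e, he, -, hv⟩
        have := le_of_near (hR.F_le e he) hv
        rw [inv_div, map_div₀, div_le_one₀ (v.pos_iff.2 hc0)] at this
        exact absurd hcc (not_lt.2 this)
    rwa [map_div₀, map_div₀, div_lt_one₀ hp'] at key
  · obtain ⟨c₀, h₀, w₀, v₀⟩ := (hO c).1 (O.mem_of_valuation_le_one _ h1.le)
    obtain ⟨c₁, h₁, w₁, v₁⟩ := (hO c⁻¹).1 (O.mem_of_valuation_le_one _ (by
      rw [map_inv₀, map_inv₀, h1, inv_one]))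
    have hvc := le_of_near (hR.F_le _ h₀) v₀
    have e1 : 1 - c₀ * c₁ = 0 := by
      refine eq_zero_F hR.F_le (F.sub_mem F.one_mem (F.mul_mem h₀ h₁)) ?_
      rw [show 1 - c₀ * c₁ = c * (c⁻¹ - c₁) + (c - c₀) * c₁ by field_simp; ring]
      apply v.map_add_lt
      · rw [map_mul]
        exact lt_of_le_of_lt (mul_le_of_le_one_left' hvc) v₁
      · rw [map_mul]
        exact lt_of_le_of_lt (mul_le_of_le_one_right' (hR.F_le _ h₁)) v₀
    have e2 : O₀.valuation c₀ = 1 := by
      apply le_antisymm w₀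
      have : O₀.valuation c₀ * O₀.valuation c₁ = 1 := by
        rw [← map_mul, ← sub_eq_zero.1 e1, map_one]
      calc (1 : O₀.ValueGroup) = _ := this.symm
        _ ≤ O₀.valuation c₀ := mul_le_of_le_one_right' w₁
    have e3 : sgK a c₀ + c₀ = 0 := by
      refine eq_zero_F hR.F_le (F.add_mem (hR.sg_F a _ h₀) h₀) ?_
      have v₂ := v₀
      rw [← hR.sg_v a, map_sub, hc] at v₂
      rw [show sgK a c₀ + c₀ = -((-c - sgK a c₀) + (c - c₀)) by ring, v.map_neg]
      exact v.map_add_lt v₂ v₀
    exact anti hw a c₀ (eq_neg_of_add_eq_zero_left e3) e2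

end Pool.Agent.MP_0f1eb7_ag.Cyl

end
end MrgPart5

-- ======== part 6: formerly Pool.Agent.MP_0f1eb7_ag.cyl.Pauli
section MrgPart6

/-! Row PAULI: integral lifts of orthonormal pairs, generation by unipotent matrices. -/

set_option autoImplicit false

noncomputable section

namespace Pool.Agent.MP_0f1eb7_ag.Cyl

open Matrix

namespace PauliP

section
variable {K : Type} [Field K] (O : ValuationSubring K)

theorem val_left {x y : K} (hx : x ∈ O) (hy : y ∈ O) (h : O.valuation (x * y) = 1) :
    O.valuation x = 1 := by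
  have h1 := (O.valuation_le_one_iff x).2 hx
  have h2 := (O.valuation_le_one_iff y).2 hy
  rw [map_mul] at h
  refine le_antisymm h1 ?_
  calc 1 = O.valuation x * O.valuation y := h.symm
    _ ≤ O.valuation x * 1 := by gcongr
    _ = _ := mul_one _

theorem val_or {x y : K} (hx : x ∈ O) (hy : y ∈ O) (h : O.valuation (x + y) = 1) :
    O.valuation x = 1 ∨ O.valuation y = 1 := by
  have h1 := (O.valuation_le_one_iff x).2 hx
  have h2 := (O.valuation_le_one_iff y).2 hy
  by_contra hn
  rw [not_or] at hn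
  exact (O.valuation.map_add_lt (lt_of_le_of_ne h1 hn.1) (lt_of_le_of_ne h2 hn.2)).ne h

theorem inv_mem {x : K} (h : O.valuation x = 1) : x⁻¹ ∈ O := by
  rw [← O.valuation_le_one_iff, map_inv₀, h, inv_one]

theorem ne_zero {x : K} (h : O.valuation x = 1) : x ≠ 0 := by
  rintro rfl
  simp at h

theorem div_mem {x y : K} (hx : x ∈ O) (h : O.valuation y = 1) : x / y ∈ O := by
  rw [div_eq_mul_inv]
  exact mul_mem hx (inv_mem O h)

theorem three {k : M2 K} (hk : IntM O k) (hu : O.valuation (k 1 0) = 1) :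
    ∃ x y z : K, x ∈ O ∧ y ∈ O ∧ z ∈ O ∧ k = up x * um y * up z := by
  have h0 := ne_zero O hu
  have hd := hk.2
  rw [det_fin_two] at hd
  refine ⟨(k 0 0 - 1) / k 1 0, k 1 0, (k 1 1 - 1) / k 1 0,
    div_mem O (sub_mem (hk.1 _ _) (one_mem _)) hu, hk.1 _ _,
    div_mem O (sub_mem (hk.1 _ _) (one_mem _)) hu, ?_⟩
  ext i j
  fin_cases i <;> fin_cases j <;> simp [up, um, mul_apply, Fin.sum_univ_two] <;> field_simp
  · ring
  · linear_combination -hd
  · ring

end

section
variable {K : Type} [Field K] [Algebra ℂ K]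

theorem of_comm {k : M2 K} (hk : k.det = 1) {v a : Fin 3 → K} (h : k * hat v = hat a * k) :
    Ad k *ᵥ v = a := by
  apply hat_inj
  rw [hat_Ad, h, Matrix.mul_assoc, mul_adjugate, hk, one_smul, Matrix.mul_one]

theorem core [IsAlgClosed K] (O : ValuationSubring K) {a b : Fin 3 → K} (ha : IntV O a)
    (haa : a 0 * a 0 - a 1 * a 1 + a 2 * a 2 = 1) (hab : a 0 * b 0 - a 1 * b 1 + a 2 * b 2 = 0)
    {p r p' r' : K} (hp : p ∈ O) (hr : r ∈ O) (hp' : p' ∈ O) (hr' : r' ∈ O)
    (h1 : b 2 * p + (b 0 + b 1) * r = p) (h2 : (b 0 - b 1) * p - b 2 * r = r)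
    (h3 : p' * b 2 + r' * (b 0 - b 1) = p') (h4 : p' * (b 0 + b 1) - r' * b 2 = r')
    (hu : O.valuation (p' * p + r' * r) = 1) :
    ∃ k, IntM O k ∧ Ad k *ᵥ Pi.single 0 1 = a ∧ Ad k *ᵥ Pi.single 2 1 = b := by
  have h := two_hf (R := K)
  obtain ⟨q, hq⟩ : ∃ q, q = a 2 * p + (a 0 + a 1) * r := ⟨_, rfl⟩
  obtain ⟨s, hs⟩ : ∃ s, s = (a 0 - a 1) * p - a 2 * r := ⟨_, rfl⟩
  obtain ⟨q', hq'⟩ : ∃ q', q' = p' * a 2 + r' * (a 0 - a 1) := ⟨_, rfl⟩
  obtain ⟨s', hs'⟩ : ∃ s', s' = p' * (a 0 + a 1) - r' * a 2 := ⟨_, rfl⟩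
  have mq : q ∈ O := hq ▸ add_mem (mul_mem (ha 2) hp) (mul_mem (add_mem (ha 0) (ha 1)) hr)
  have ms : s ∈ O := hs ▸ sub_mem (mul_mem (sub_mem (ha 0) (ha 1)) hp) (mul_mem (ha 2) hr)
  have mq' : q' ∈ O := hq' ▸ add_mem (mul_mem hp' (ha 2)) (mul_mem hr' (sub_mem (ha 0) (ha 1)))
  have ms' : s' ∈ O := hs' ▸ sub_mem (mul_mem hp' (add_mem (ha 0) (ha 1))) (mul_mem hr' (ha 2))
  have b1 : b 2 * q + (b 0 + b 1) * s = -q := by
    rw [hq, hs]
    linear_combination 2 * p * hab - a 2 * h1 - (a 0 + a 1) * h2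
  have b2 : (b 0 - b 1) * q - b 2 * s = -s := by
    rw [hq, hs]
    linear_combination 2 * r * hab - (a 0 - a 1) * h1 + a 2 * h2
  have a1 : a 2 * q + (a 0 + a 1) * s = p := by
    rw [hq, hs]
    linear_combination p * haa
  have a2 : (a 0 - a 1) * q - a 2 * s = r := by
    rw [hq, hs]
    linear_combination r * haa
  have hX : p' * q + r' * s = 0 := by
    linear_combination hf * (p' * b1 + r' * b2 - q * h3 - s * h4) - (p' * q + r' * s) * h
  have hY : q' * q + s' * s = p' * p + r' * r := by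
    rw [hq', hs']
    linear_combination p' * a1 + r' * a2
  have hD : (p * s - q * r) * (p' * s' - r' * q') = (p' * p + r' * r) * (p' * p + r' * r) := by
    linear_combination (p' * p + r' * r) * hY - (q' * p + s' * r) * hX
  have hv : O.valuation (p * s - q * r) = 1 :=
    val_left O (sub_mem (mul_mem hp ms) (mul_mem mq hr))
      (sub_mem (mul_mem hp' ms') (mul_mem hr' mq')) (by rw [hD, map_mul, hu, mul_one])
  obtain ⟨d, hd⟩ := IsAlgClosed.exists_eq_mul_self (p * s - q * r)
  have hdv : O.valuation d = 1 := by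
    rw [hd, map_mul, ← sq] at hv
    exact (pow_eq_one_iff_of_nonneg zero_le two_ne_zero).1 hv
  have hd0 := ne_zero O hdv
  have hdet : (!![p / d, q / d; r / d, s / d] : M2 K).det = 1 := by
    rw [det_fin_two_of]
    field_simp
    linear_combination hd
  refine ⟨!![p / d, q / d; r / d, s / d], ⟨fun i j => ?_, hdet⟩, of_comm hdet ?_, of_comm hdet ?_⟩
  · fin_cases i <;> fin_cases j <;> simp <;> exact div_mem O ‹_› hdv
  · ext i j
    fin_cases i <;> fin_cases j <;> simp [hat, mul_apply, Fin.sum_univ_two] <;> field_simp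
    · linear_combination hq
    · linear_combination -a1
    · linear_combination hs
    · linear_combination -a2
  · ext i j
    fin_cases i <;> fin_cases j <;> simp [hat, mul_apply, Fin.sum_univ_two] <;> field_simp
    · linear_combination -h1
    · linear_combination -b1
    · linear_combination -h2
    · linear_combination -b2

omit [Algebra ℂ K] in
theorem ip_eq (u w : Fin 3 → K) : ip u w = u 0 * w 0 - u 1 * w 1 + u 2 * w 2 := by
  simp [ip, eta, sg, dotProduct, mulVec_diagonal, Fin.sum_univ_three]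
  ring

end

end PauliP

open PauliP

theorem unip : UnipStmt := by
  intro K _ O k hk
  by_cases hu : O.valuation (k 1 0) = 1
  · obtain ⟨x, y, z, hx, hy, hz, e⟩ := three O hk hu
    refine ⟨![0, x, y, z], fun i => ?_, ?_⟩
    · fin_cases i <;> simp [hx, hy, hz]
    · have : (um 0 : M2 K) = 1 := by
        ext i j; fin_cases i <;> fin_cases j <;> simp [um]
      simp [uu, this, e]
  · have hd := hk.2
    rw [det_fin_two] at hd
    have h00 : O.valuation (k 0 0) = 1 := by
      have e : O.valuation (k 0 0 * k 1 1 + k 1 0 * -k 0 1) = 1 := by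
        rw [show k 0 0 * k 1 1 + k 1 0 * -k 0 1 = 1 by linear_combination hd, map_one]
      rcases val_or O (mul_mem (hk.1 _ _) (hk.1 _ _))
        (mul_mem (hk.1 _ _) (neg_mem (hk.1 _ _))) e with h | h
      · exact val_left O (hk.1 _ _) (hk.1 _ _) h
      · exact absurd (val_left O (hk.1 _ _) (neg_mem (hk.1 _ _)) h) hu
    have hk' : IntM O (um 1 * k) := by
      refine ⟨fun i j => ?_, by rw [det_mul, det_um, hk.2, mul_one]⟩
      fin_cases i <;> simp [um, mul_apply, Fin.sum_univ_two, hk.1, add_mem]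
    have hu' : O.valuation ((um 1 * k : M2 K) 1 0) = 1 := by
      have e : (um 1 * k : M2 K) 1 0 = k 0 0 + k 1 0 := by simp [um, mul_apply, Fin.sum_univ_two]
      have e' : O.valuation ((k 0 0 + k 1 0) + -k 1 0) = 1 := by
        rw [add_neg_cancel_right, h00]
      rw [e]
      rcases val_or O (add_mem (hk.1 _ _) (hk.1 _ _)) (neg_mem (hk.1 _ _)) e' with h | h
      · exact h
      · rw [Valuation.map_neg] at h
        exact absurd h hu
    obtain ⟨x, y, z, hx, hy, hz, e⟩ := three O hk' hu'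
    refine ⟨![-1, x, y, z], fun i => ?_, ?_⟩
    · fin_cases i <;> simp [hx, hy, hz]
    · have h1 : (um (-1) : M2 K) * um 1 = 1 := by
        ext i j; fin_cases i <;> fin_cases j <;> simp [um, mul_apply, Fin.sum_univ_two]
      calc k = um (-1) * (um 1 * k) := by rw [← Matrix.mul_assoc, h1, Matrix.one_mul]
        _ = _ := by rw [e]; simp [uu, Matrix.mul_assoc]

theorem pauli : PauliStmt := by
  intro K _ _ _ O hC a b ha hb haa hbb hab
  rw [ip_eq] at haa hbb hab
  have h := two_hf (R := K)
  have h2 : (2 : K) ∈ O := by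
    have := hC 2
    rwa [map_ofNat] at this
  have hv2 : O.valuation (2 : K) = 1 := val_left O h2 (hC (1 / 2)) (by rw [← hf, h, map_one])
  have m1 : 1 + b 2 ∈ O := add_mem (one_mem _) (hb 2)
  have m2 : 1 - b 2 ∈ O := sub_mem (one_mem _) (hb 2)
  have m3 : b 0 + b 1 ∈ O := add_mem (hb 0) (hb 1)
  have m4 : b 0 - b 1 ∈ O := sub_mem (hb 0) (hb 1)
  rcases val_or O m1 m2 (by rw [show 1 + b 2 + (1 - b 2) = 2 by ring, hv2]) with hu | hu
  · refine core O ha haa hab m1 m4 m1 m3 (by linear_combination hbb) (by ring)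
      (by linear_combination hbb) (by ring) ?_
    rw [show (1 + b 2) * (1 + b 2) + (b 0 + b 1) * (b 0 - b 1) = 2 * (1 + b 2) by
      linear_combination hbb, map_mul, hv2, hu, mul_one]
  · refine core O ha haa hab m3 m2 m4 m2 (by ring) (by linear_combination hbb)
      (by ring) (by linear_combination hbb) ?_
    rw [show (b 0 - b 1) * (b 0 + b 1) + (1 - b 2) * (1 - b 2) = 2 * (1 - b 2) by
      linear_combination hbb, map_mul, hv2, hu, mul_one]

end Pool.Agent.MP_0f1eb7_ag.Cyl

end
end MrgPart6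

-- ======== part 7: formerly Pool.Agent.MP_0f1eb7_ag.cyl.W
section MrgPart7

/-! Torus weights: interpolation, evaluation, eigenvectors. -/

set_option autoImplicit false

noncomputable section

namespace Pool.Agent.MP_0f1eb7_ag.Cyl

open MvPolynomial Matrix

namespace WP

theorem prod_zpow {E : Type} [Field E] {l : E} (hl : l ≠ 0) (η : Kv →₀ ℕ) :
    (η.prod fun t n => (l ^ wt t) ^ n) = l ^ Finsupp.weight wt η := by
  induction η using Finsupp.induction_linear with
  | zero => simp
  | add a b ha hb =>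
    rw [Finsupp.prod_add_index' (fun _ => pow_zero _) (fun _ _ _ => pow_add _ _ _), ha, hb,
      map_add, zpow_add₀ hl]
  | single t n =>
    rw [Finsupp.prod_single_index (h := fun t n => (l ^ wt t) ^ n) (pow_zero _),
      Finsupp.weight_single, ← _root_.zpow_natCast, ← _root_.zpow_mul, nsmul_eq_mul, mul_comm]

variable {S : Type} [CommRing S] [Algebra ℂ S]

theorem tsub_monomial {l : ℂ} (hl : l ≠ 0) (η : Kv →₀ ℕ) (a : S) :
    tsub l (monomial η a) = l ^ Finsupp.weight wt η • monomial η a := by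
  rw [tsub, aeval_monomial, ← prod_zpow hl, monomial_eq, Algebra.smul_def, map_finsuppProd]
  simp only [mul_pow, Finsupp.prod_mul, map_pow, algebraMap_eq]
  ring

theorem coeff_tsub {l : ℂ} (hl : l ≠ 0) (η : Kv →₀ ℕ) (F : MvPolynomial Kv S) :
    coeff η (tsub l F) = l ^ Finsupp.weight wt η • coeff η F := by
  induction F using MvPolynomial.induction_on' with
  | monomial u a =>
    rw [tsub_monomial hl, coeff_smul, coeff_monomial]
    split_ifs with h
    · rw [h]
    · rw [smul_zero, smul_zero]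
  | add p q hp hq => rw [map_add, coeff_add, coeff_add, hp, hq, smul_add]

theorem two_inj : Function.Injective fun μ : ℤ => (2 : ℂ) ^ μ := fun a b h => by
  have h' := congrArg norm h
  simp only [norm_zpow, Complex.norm_ofNat] at h'
  exact zpow_right_injective₀ (by norm_num) (by norm_num) h'

theorem abs_weight_le (η : Kv →₀ ℕ) : |Finsupp.weight wt η| ≤ (η.sum fun _ n => n : ℕ) := by
  rw [Finsupp.weight_apply, Finsupp.sum, Finsupp.sum, Nat.cast_sum]
  refine (Finset.abs_sum_le_sum_abs _ _).trans (Finset.sum_le_sum fun t _ => ?_)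
  unfold wt
  split_ifs <;> simp

theorem interp (R₀ : ℕ) (M : ℤ) : ∃ (n : ℕ) (c l : Fin n → ℂ), (∀ i, l i ≠ 0) ∧
    ∀ (S : Type) [CommRing S] [Algebra ℂ S] (F : MvPolynomial Kv S), F.totalDegree ≤ R₀ →
      weightedHomogeneousComponent wt M F = ∑ i, c i • tsub (l i) F := by
  let s : Finset ℤ := insert M (Finset.Icc (-R₀) R₀)
  let P := Lagrange.basis s (fun μ : ℤ => (2 : ℂ) ^ μ) M
  refine ⟨P.natDegree + 1, fun i => P.coeff i, fun i => 2 ^ (i : ℕ),
    fun i => pow_ne_zero _ two_ne_zero, fun S _ _ F hF => ?_⟩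
  ext η
  have e : ∑ i : Fin (P.natDegree + 1), P.coeff i * ((2 : ℂ) ^ (i : ℕ)) ^ Finsupp.weight wt η =
      P.eval (2 ^ Finsupp.weight wt η) := by
    rw [Polynomial.eval_eq_sum_range, Finset.sum_range]
    refine Finset.sum_congr rfl fun i _ => ?_
    rw [← _root_.zpow_natCast, ← _root_.zpow_natCast, ← _root_.zpow_mul, ← _root_.zpow_mul,
      mul_comm (Finsupp.weight wt η)]
  rw [coeff_weightedHomogeneousComponent, coeff_sum]
  simp only [coeff_smul, coeff_tsub (pow_ne_zero _ two_ne_zero), smul_smul]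
  rw [← Finset.sum_smul, e]
  split_ifs with h
  · rw [h, Lagrange.eval_basis_self two_inj.injOn (Finset.mem_insert_self _ _), one_smul]
  · by_cases h0 : coeff η F = 0
    · rw [h0, smul_zero]
    · have h1 := (abs_weight_le η).trans
        (Int.ofNat_le.2 ((le_totalDegree (mem_support_iff.2 h0)).trans hF))
      rw [Lagrange.eval_basis_of_ne (Ne.symm h)
        (Finset.mem_insert_of_mem (Finset.mem_Icc.2 (abs_le.1 h1))), zero_smul]

theorem pk_tor {E E' : Type} [Field E] [CommRing E'] (φ : E →+* E') (k : M2 E') (l : E) (t : Kv) :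
    pk (k * (tor l).map φ) t = φ (l ^ wt t) * pk k t := by
  obtain ⟨i, j⟩ := t
  fin_cases j <;> simp [pk, tor, wt, mul_apply, Fin.sum_univ_two, mul_comm]

theorem eval_tsub {E : Type} [CommRing E] [Algebra ℂ E] (ψ : S →ₐ[ℂ] E) (k : M2 E) (l : ℂ)
    (F : MvPolynomial Kv S) : eval₂ (ψ : S →+* E) (pk k) (tsub l F) =
      eval₂ (ψ : S →+* E) (pk (k * (tor l).map (algebraMap ℂ E))) F := by
  induction F using MvPolynomial.induction_on with
  | C a => rw [tsub, aeval_C, algebraMap_eq, eval₂_C, eval₂_C]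
  | add p q hp hq => rw [map_add, eval₂_add, eval₂_add, hp, hq]
  | mul_X p t hp =>
    rw [map_mul, eval₂_mul, eval₂_mul, hp, eval₂_X, pk_tor, tsub, aeval_X, eval₂_mul, eval₂_X,
      MvPolynomial.algebraMap_apply, eval₂_C, RingHom.coe_coe, ψ.commutes]

theorem eval_hom {S E : Type} [CommRing S] [Field E] (ψ : S →+* E) (k : M2 E) {l : E} (hl : l ≠ 0)
    (F : MvPolynomial Kv S) (M : ℤ) (h : IsWeightedHomogeneous wt F M) :
    eval₂ ψ (pk (k * tor l)) F = l ^ M * eval₂ ψ (pk k) F := by
  have e : ∀ t, pk (k * tor l) t = l ^ wt t * pk k t := fun t => by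
    simpa using pk_tor (RingHom.id E) k l t
  rw [eval₂_eq, eval₂_eq, Finset.mul_sum]
  refine Finset.sum_congr rfl fun η hη => ?_
  rw [← h (mem_support_iff.1 hη), ← prod_zpow hl, Finsupp.prod]
  simp only [e, mul_pow, Finset.prod_mul_distrib]
  ring

theorem eigen (F : MvPolynomial Kv S) (M : ℤ) :
    IsWeightedHomogeneous wt F M ↔ tsub 2 F = (2 : ℂ) ^ M • F := by
  constructor
  · intro h
    ext η
    rw [coeff_tsub two_ne_zero, coeff_smul]
    by_cases h0 : coeff η F = 0
    · rw [h0, smul_zero, smul_zero]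
    · rw [h h0]
  · intro h η h0
    have e := congrArg (coeff η) h
    rw [coeff_tsub two_ne_zero, coeff_smul, ← sub_eq_zero, ← sub_smul] at e
    by_contra hne
    refine h0 ?_
    have h1 : (2 : ℂ) ^ Finsupp.weight wt η - 2 ^ M ≠ 0 := sub_ne_zero.2 fun h => hne (two_inj h)
    rw [← one_smul ℂ (coeff η F), ← inv_mul_cancel₀ h1, mul_smul, e, smul_zero]

theorem eval_orb (K : M2 Py) (f : Py) :
    eval (pk K) (orb f) = aeval (pt (Ad K * (Ym : M3 Py))) f := by
  let φ : MvPolynomial Kv Py →ₐ[ℂ] Py := (aeval (R := Py) (pk K)).restrictScalars ℂ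
  have e1 : (Km : M2 (MvPolynomial Kv Py)).map φ = K := by
    ext i j : 2
    simp [φ, Km, pk]
  have e2 : ((Ym : M3 Py).map (C : Py →+* MvPolynomial Kv Py)).map φ = Ym := by
    ext i j : 2
    simp [φ]
  have e3 : (Ad Km * (Ym : M3 Py).map (C : Py →+* MvPolynomial Kv Py)).map φ = Ad K * Ym := by
    rw [Matrix.map_mul, ← Ad_map, e1, e2]
  show φ (orb f) = _
  rw [orb, ← AlgHom.comp_apply, comp_aeval, ← e3]
  rfl

end WP

theorem wS : WStmt where
  interp := WP.interp
  eval_tsub _ _ _ _ _ _ := WP.eval_tsub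
  eval_hom _ _ _ _ ψ k _ hl := WP.eval_hom ψ k hl
  eigen _ _ _ := WP.eigen
  comp_sum f M := by
    obtain ⟨n, c, l, hl, h⟩ := WP.interp (orb f).totalDegree M
    refine ⟨n, c, l, hl, fun k => ?_⟩
    have e : (fun t => (C (pk k t) : Py)) = pk (k.map C) := rfl
    rw [comp, h Py _ le_rfl, map_sum, e]
    refine Finset.sum_congr rfl fun i _ => ?_
    have e1 := WP.eval_tsub (AlgHom.id ℂ Py) (k.map C) (l i) (orb f)
    have e2 : k.map (C : ℂ →+* Py) * (tor (l i)).map (algebraMap ℂ Py) =
        (k * tor (l i)).map (Algebra.ofId ℂ Py) := by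
      rw [Matrix.map_mul]
      rfl
    rw [e2] at e1
    have e3 := WP.eval_orb ((k * tor (l i)).map (Algebra.ofId ℂ Py)) f
    rw [Ad_map] at e3
    rw [Algebra.smul_def, map_mul, Algebra.smul_def, MvPolynomial.algebraMap_apply, eval_C]
    congr 1
    exact e1.trans e3

end Pool.Agent.MP_0f1eb7_ag.Cyl

end
end MrgPart7

-- ======== part 8: formerly Pool.Agent.MP_0f1eb7_ag.cyl.Xt
section MrgPart8

/-! Row XT: the unipotent one parameter groups and their vector fields. -/

set_option autoImplicit false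

noncomputable section

namespace Pool.Agent.MP_0f1eb7_ag.Cyl

open MvPolynomial Matrix

namespace XtP

theorem vf_C (b : Bool) (a : ℂ) : vf b (C a) = 0 := by simp [vf]

theorem vf_add (b : Bool) (f g : Py) : vf b (f + g) = vf b f + vf b g := by
  simp [vf, mul_add, Finset.sum_add_distrib]

theorem vf_mul_X (b : Bool) (f : Py) (i : I9) :
    vf b (f * X i) = vf b f * X i + f * pt (Nn b * (Ym : M3 Py)) i := by
  have h : ∀ j : I9, pt (Nn b * (Ym : M3 Py)) j * pderiv j (f * X i) =
      pt (Nn b * (Ym : M3 Py)) j * pderiv j f * X i +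
        if j = i then f * pt (Nn b * (Ym : M3 Py)) j else 0 := by
    intro j
    rw [Derivation.leibniz, pderiv_X, Pi.single_apply]
    by_cases e : j = i
    · subst e; simp; ring
    · simp [e, Ne.symm e]; ring
  simp only [vf, h, Finset.sum_add_distrib, Finset.sum_ite_eq', Finset.mem_univ, if_true,
    Finset.sum_mul]

theorem der_hf : Polynomial.derivative (hf : Polynomial Py) = 0 := by
  rw [hf, IsScalarTower.algebraMap_apply ℂ Py (Polynomial Py)]
  exact Polynomial.derivative_C

theorem der_Ad (b : Bool) (i j : Fin 3) :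
    Polynomial.derivative (Ad (un b (Polynomial.X : Polynomial Py)) i j) =
      ∑ l, Nn b i l * Ad (un b (Polynomial.X : Polynomial Py)) l j := by
  have h := two_hf (R := Polynomial Py)
  rw [Fin.sum_univ_three]
  cases b <;> fin_cases i <;> fin_cases j <;>
    simp [Ad, un, up, um, Nn, der_hf] <;> grind

theorem map_Nn {R S F : Type} [CommRing R] [CommRing S] [FunLike F R S] [RingHomClass F R S]
    (φ : F) (b : Bool) (i j : Fin 3) : φ (Nn b i j) = Nn b i j := by
  cases b <;> fin_cases i <;> fin_cases j <;> simp [Nn]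

theorem psi_xi (b : Bool) (i : I9) : psi b (pt (Nn b * (Ym : M3 Py)) i) =
    Polynomial.derivative (psi b (X i)) := by
  simp only [psi, pt, Matrix.mul_apply, map_sum, map_mul, map_Nn, Ym, of_apply, aeval_X, map_apply,
    Polynomial.derivative_mul, Polynomial.derivative_C, mul_zero, add_zero, der_Ad,
    Finset.mul_sum, Finset.sum_mul, mul_assoc]
  exact Finset.sum_comm

theorem psi_add (b : Bool) (f g : Py) : psi b (f + g) = psi b f + psi b g := map_add _ _ _
theorem psi_mul (b : Bool) (f g : Py) : psi b (f * g) = psi b f * psi b g := map_mul _ _ _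
theorem psi_zero (b : Bool) : psi b 0 = 0 := map_zero _
theorem psi_C (b : Bool) (a : ℂ) : psi b (C a) = Polynomial.C (C a) := by
  simp [psi]

theorem psi_X_coeff (b : Bool) (i : I9) : (psi b (X i)).coeff 0 = X i := by
  have h := two_hf (R := Py)
  have e : (hf : Polynomial Py).coeff 0 = hf := by
    rw [hf, IsScalarTower.algebraMap_apply ℂ Py (Polynomial Py)]
    exact Polynomial.coeff_C_zero
  obtain ⟨i, j⟩ := i
  simp only [psi, pt, aeval_X, Matrix.mul_apply, Fin.sum_univ_three, Ym, map_apply, of_apply]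
  cases b <;> fin_cases i <;> simp [Ad, un, up, um, e] <;> grind

end XtP

open XtP

theorem xS : XStmt := by
  intro b f
  induction f using MvPolynomial.induction_on with
  | C a => rw [psi_C, vf_C, psi_zero]; simp
  | add f g hf hg =>
    rw [psi_add, vf_add, psi_add, Polynomial.derivative_add, hf.1, hg.1, Polynomial.coeff_add,
      hf.2, hg.2]
    exact ⟨rfl, rfl⟩
  | mul_X f i hf =>
    rw [psi_mul, vf_mul_X, psi_add, psi_mul, psi_mul, psi_xi, Polynomial.derivative_mul, hf.1,
      Polynomial.mul_coeff_zero, hf.2, psi_X_coeff]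
    exact ⟨rfl, rfl⟩

namespace XtP

section
variable {Γ : Type} [LinearOrderedCommGroupWithZero Γ] {v : Valuation kk Γ} {top : I9}

theorem val_nat (h : Top v top) (j : ℕ) : v ((j : kk) + 1) = 1 := by
  have := val_iota (ι := algebraMap ℂ kk) h.C_le (c := (j : ℂ) + 1) (Nat.cast_add_one_ne_zero j)
  simpa using this

theorem val_vf (h : Top v top) {e : I9 → I9} (he : Function.Injective e) (b : Bool) (g : Py) :
    v (algebraMap Py kk (rename e (vf b g))) ≤
      v (pt ym top) ^ 10 * v (algebraMap Py kk (rename e g)) := by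
  simp only [vf, map_sum, map_mul]
  refine v.map_sum_le fun j _ => ?_
  rw [map_mul, ← pderiv_rename he, ← dd_alg, pow_succ', mul_assoc]
  refine mul_le_mul' ?_ (h.der _ _)
  simp only [pt, Matrix.mul_apply, map_sum, map_mul, map_Nn, Ym, of_apply, rename_X]
  refine v.map_sum_le fun i _ => ?_
  rw [map_mul, ← one_mul (v (ym top.1 top.2))]
  refine mul_le_mul' ?_ (h.top_max (e (i, j.2)))
  rw [← map_Nn (algebraMap ℂ kk)]
  exact h.C_le _

theorem val_coeff (hX : XStmt) (h : Top v top) {e : I9 → I9} (he : Function.Injective e)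
    (b : Bool) (j : ℕ) : ∀ g : Py, v (algebraMap Py kk (rename e ((psi b g).coeff j))) ≤
      v (pt ym top) ^ (10 * j) * v (algebraMap Py kk (rename e g)) := by
  induction j with
  | zero => intro g; rw [(hX b g).2]; simp
  | succ j ih =>
    intro g
    have h1 := ih (vf b g)
    rw [← (hX b g).1, Polynomial.coeff_derivative] at h1
    simp only [map_mul, map_add, map_natCast, map_one, val_nat h, mul_one] at h1
    refine h1.trans ?_
    rw [mul_add, pow_add, mul_assoc]
    exact mul_le_mul' le_rfl (val_vf h he b g)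

end

theorem ym_apply (i j : Fin 3) : ym i j = algebraMap Py kk (X (i, j)) := rfl

theorem ym_ne (i j : Fin 3) : ym i j ≠ 0 := by
  rw [ym_apply, ne_eq, map_eq_zero_iff _ (IsFractionRing.injective Py kk)]
  exact X_ne_zero _

theorem ym_sub_ne (j : Fin 3) : ym 0 j - ym 1 j ≠ 0 := by
  rw [sub_ne_zero, ym_apply, ym_apply]
  intro e
  have := X_injective (IsFractionRing.injective Py kk e)
  simp at this

theorem xi_ne (j : I9) : pt (Nn true * ym) j ≠ 0 := by
  obtain ⟨i, j⟩ := j
  have h1 := ym_ne 2 j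
  have h2 := ym_sub_ne j
  rw [sub_eq_add_neg] at h2
  simp only [pt, Matrix.mul_apply, Fin.sum_univ_three]
  fin_cases i <;> simpa [Nn]

theorem alg_vf (b : Bool) (g : Py) :
    algebraMap Py kk (vf b g) = grad dd (algebraMap Py kk g) ⬝ᵥ pt (Nn b * ym) := by
  simp only [vf, map_sum, map_mul, dotProduct, grad, dd_alg, pt, Matrix.mul_apply, map_Nn, ym, map_apply]
  exact Finset.sum_congr rfl fun j _ => mul_comm _ _

end XtP

theorem tay (h : XStmt) : TayStmt := by
  intro Γ _ v top hT b f j
  refine ⟨?_, ?_⟩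
  · simpa using val_coeff h hT Function.injective_id b j f
  · have := val_coeff h hT Prod.swap_injective b j (trP f)
    rwa [trP, rename_rename, Prod.swap_swap_eq, rename_id, AlgHom.id_apply] at this

theorem d3 (h1 : XStmt) (h2 : D1Stmt) : D3Stmt := by
  intro h hne
  by_contra hc
  have hb : ∀ l, l ≠ oo → Bound (h l) 0 := fun l hl => by
    by_contra hh
    exact hc ⟨l, hl, hh⟩
  have hv : ∀ b l, l ≠ oo → grad dd (algebraMap Py kk (h l)) ⬝ᵥ pt (Nn b * ym) = 0 := by
    intro b l hl
    have e := Polynomial.eq_C_of_natDegree_le_zero (h2.deg _ _ b (hb l hl))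
    have e1 := (h1 b (h l)).1
    rw [e, Polynomial.derivative_C] at e1
    rw [← alg_vf, ← (h1 b (vf b (h l))).2, ← e1, Polynomial.coeff_zero, map_zero]
  obtain ⟨j, hj⟩ : ∃ j, cof dd (fun l => algebraMap Py kk (h l)) j ≠ 0 := by
    by_contra hh
    refine hne ?_
    rw [del, jacD]
    refine Finset.sum_eq_zero fun j _ => ?_
    have : cof dd (fun l => algebraMap Py kk (h l)) j = 0 := by
      by_contra h0
      exact hh ⟨j, h0⟩
    rw [this, zero_smul]
  have hu : pt (Nn true * ym) j • pt (Nn false * ym) - pt (Nn false * ym) j • pt (Nn true * ym) =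
      0 := by
    refine Matrix.eq_zero_of_mulVec_eq_zero hj ?_
    funext l
    by_cases hl : l = oo
    · subst hl
      simp [mulVec, mul_comm]
    · simp only [mulVec, updateRow_ne hl, of_apply, dotProduct_sub, dotProduct_smul,
        hv _ l hl, smul_zero, sub_zero, Pi.zero_apply]
  have u0 := congrFun hu (0, 0)
  have u1 := congrFun hu (1, 0)
  have hx := xi_ne j
  generalize pt (Nn true * ym) j = α at u0 u1 hx
  generalize pt (Nn false * ym) j = β at u0 u1
  simp only [pt, Matrix.mul_apply, Fin.sum_univ_three, Pi.sub_apply, Pi.smul_apply] at u0 u1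
  simp [Nn] at u0 u1
  have : 2 * α * ym 2 0 = 0 := by linear_combination u0 - u1
  simp [hx, ym_ne] at this

end Pool.Agent.MP_0f1eb7_ag.Cyl

end
end MrgPart8

-- ======== part 9: formerly Pool.Agent.MP_0f1eb7_ag.cyl.D1
section MrgPart9

/-! Bounds on torus weights: existence, degrees of unipotent orbits, the big cell. -/

set_option autoImplicit false

noncomputable section

namespace Pool.Agent.MP_0f1eb7_ag.Cyl

open MvPolynomial Matrix

namespace D1P

/-- constants -/
abbrev cc : ℂ →ₐ[ℂ] Py := Algebra.ofId ℂ Py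

/-- left translation -/
def act (k : M2 ℂ) : Py →ₐ[ℂ] Py := aeval (pt ((Ad k).map cc * (Ym : M3 Py)))
/-- right translation -/
def actR (k : M2 ℂ) : Py →ₐ[ℂ] Py := aeval (pt ((Ym : M3 Py) * ((Ad k).map cc)ᵀ))
/-- evaluation at a constant matrix -/
def ev (k : M2 ℂ) : MvPolynomial Kv Py →ₐ[ℂ] Py :=
  (aeval (R := Py) (pk (k.map cc))).restrictScalars ℂ
/-- evaluation at a constant -/
def evS (u : ℂ) : Polynomial Py →ₐ[ℂ] Py := (Polynomial.aeval (R := Py) (cc u)).restrictScalars ℂ

theorem evS_eq (u : ℂ) (P : Polynomial Py) : evS u P = P.eval (cc u) := by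
  simp [evS]

theorem map_aeval_pt {E E' : Type} [CommRing E] [Algebra ℂ E] [CommRing E'] [Algebra ℂ E']
    (φ : E →ₐ[ℂ] E') (Z : M3 E) (f : Py) : φ (aeval (pt Z) f) = aeval (pt (Z.map φ)) f := by
  rw [← AlgHom.comp_apply, comp_aeval]
  rfl

theorem Ym_map {E : Type} [CommRing E] [Algebra ℂ E] (Z : M3 E) :
    (Ym : M3 Py).map (aeval (pt Z) : Py →ₐ[ℂ] E) = Z := by
  ext i j : 2
  simp [Ym, pt]

theorem cc_map (φ : Py →ₐ[ℂ] Py) (A : M3 ℂ) : (A.map cc).map φ = A.map cc :=
  Matrix.ext fun _ _ => φ.commutes _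

theorem act_act (k k' : M2 ℂ) (f : Py) : act k' (act k f) = act (k * k') f := by
  rw [act, act, map_aeval_pt, Matrix.map_mul, cc_map, Ym_map, act, Ad_mul, Matrix.map_mul,
    Matrix.mul_assoc]

theorem act_actR (k k' : M2 ℂ) (f : Py) : act k (actR k' f) = actR k' (act k f) := by
  rw [act, actR, map_aeval_pt, map_aeval_pt, Matrix.map_mul, Matrix.map_mul, transpose_map,
    cc_map, cc_map, Ym_map, Ym_map, Matrix.mul_assoc]

theorem trP_eq (f : Py) : trP f = aeval (pt (Ym : M3 Py)ᵀ) f := by
  rw [trP, rename_eq_aeval]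
  rfl

theorem trP_act (k : M2 ℂ) (f : Py) : trP (act k f) = actR k (trP f) := by
  rw [trP_eq, trP_eq, act, actR, map_aeval_pt, map_aeval_pt, Matrix.map_mul, transpose_map,
    cc_map, Ym_map, Ym_map, transpose_mul, transpose_transpose]

theorem comp_eq (M : ℤ) (f : Py) (k : M2 ℂ) :
    comp M f k = ev k (weightedHomogeneousComponent wt M (orb f)) := rfl

theorem ev_orb (k : M2 ℂ) (f : Py) : ev k (orb f) = act k f := by
  have e := WP.eval_orb (k.map cc) f
  rw [Ad_map] at e
  exact e

theorem ev_tsub (k : M2 ℂ) (l : ℂ) (F : MvPolynomial Kv Py) :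
    ev k (tsub l F) = ev (k * tor l) F := by
  have e := WP.eval_tsub (AlgHom.id ℂ Py) (k.map cc) l F
  have e2 : k.map cc * (tor l).map (algebraMap ℂ Py) = (k * tor l).map cc := by
    rw [Matrix.map_mul]
    rfl
  rw [e2] at e
  exact e

theorem ev_tor (k : M2 ℂ) {l : ℂ} (hl : l ≠ 0) (M : ℤ) (f : Py) :
    comp M f (k * tor l) = l ^ M • comp M f k := by
  rw [comp_eq, comp_eq, ← ev_tsub, ← map_smul]
  congr 1
  ext η : 1
  rw [WP.coeff_tsub hl, coeff_smul, coeff_weightedHomogeneousComponent]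
  split_ifs with h
  · rw [h]
  · rw [smul_zero, smul_zero]

theorem comp_two (M : ℤ) (f g : Py) : ∃ (n : ℕ) (c l : Fin n → ℂ), ∀ k : M2 ℂ,
    comp M f k = ∑ i, c i • act (k * tor (l i)) f ∧
      comp M g k = ∑ i, c i • act (k * tor (l i)) g := by
  obtain ⟨n, c, l, -, h⟩ := WP.interp (max (orb f).totalDegree (orb g).totalDegree) M
  refine ⟨n, c, l, fun k => ⟨?_, ?_⟩⟩
  · rw [comp_eq, h Py _ (le_max_left _ _), map_sum]
    simp only [map_smul, ev_tsub, ev_orb]
  · rw [comp_eq, h Py _ (le_max_right _ _), map_sum]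
    simp only [map_smul, ev_tsub, ev_orb]

theorem comp_act (M : ℤ) (f : Py) (k₀ k : M2 ℂ) : comp M (act k₀ f) k = comp M f (k₀ * k) := by
  obtain ⟨n, c, l, h⟩ := comp_two M f (act k₀ f)
  rw [(h k).2, (h (k₀ * k)).1]
  simp only [act_act, Matrix.mul_assoc]

theorem comp_actR (M : ℤ) (f : Py) (k₀ k : M2 ℂ) :
    comp M (actR k₀ f) k = actR k₀ (comp M f k) := by
  obtain ⟨n, c, l, h⟩ := comp_two M f (actR k₀ f)
  rw [(h k).2, (h k).1, map_sum]
  simp only [act_actR, map_smul]

/-- `comp` as a linear map -/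
def compL (M : ℤ) (k : M2 ℂ) : Py →ₗ[ℂ] Py :=
  (ev k).toLinearMap ∘ₗ (weightedHomogeneousComponent (R := Py) wt M).restrictScalars ℂ ∘ₗ
    (aeval (pt (Ad Km * (Ym : M3 Py).map C)) : Py →ₐ[ℂ] MvPolynomial Kv Py).toLinearMap

theorem compL_apply (M : ℤ) (k : M2 ℂ) (f : Py) : compL M k f = comp M f k := rfl

theorem poly_zero {Q : Polynomial Py} (h : ∀ s : ℂ, s ≠ 0 → Q.eval (cc s) = 0) : Q = 0 := by
  refine Polynomial.eq_zero_of_infinite_isRoot Q ?_
  have h1 : ({0}ᶜ : Set ℂ).Infinite := (Set.finite_singleton 0).infinite_compl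
  refine (h1.image (f := cc) (C_injective _ _).injOn).mono ?_
  rintro _ ⟨s, hs, rfl⟩
  exact h s hs

theorem lin_zero (L : Py →ₗ[ℂ] Py) (P : Polynomial Py)
    (h : ∀ s : ℂ, s ≠ 0 → L (P.eval (cc s)) = 0) (j : ℕ) : L (P.coeff j) = 0 := by
  have h1 : (∑ i ∈ P.support, Polynomial.monomial i (L (P.coeff i))) = 0 := by
    refine poly_zero fun s hs => ?_
    rw [← h s hs, Polynomial.eval_finsetSum, Polynomial.eval_eq_sum, Polynomial.sum, map_sum]
    refine Finset.sum_congr rfl fun i _ => ?_
    rw [Polynomial.eval_monomial, ← map_pow, mul_comm, mul_comm (P.coeff i)]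
    exact (Algebra.smul_def _ _).symm.trans
      ((map_smul L _ _).symm.trans (congrArg L (Algebra.smul_def _ _)))
  have h2 := congrArg (fun Q => Polynomial.coeff Q j) h1
  simp only [Polynomial.finsetSum_coeff, Polynomial.coeff_monomial, Finset.sum_ite_eq',
    Polynomial.coeff_zero] at h2
  split_ifs at h2 with h3
  · exact h2
  · rw [Polynomial.notMem_support_iff.1 h3, map_zero]

theorem evS_aeval {K : M2 (Polynomial Py)} {k : M2 ℂ} {u : ℂ} (h : K.map (evS u) = k.map cc)
    (f : Py) : evS u (aeval (pt (Ad K * (Ym : M3 Py).map Polynomial.C)) f) = act k f := by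
  have e : ((Ym : M3 Py).map Polynomial.C).map (evS u) = Ym :=
    Matrix.ext fun i j => by simp [evS]
  rw [map_aeval_pt, Matrix.map_mul, ← Ad_map, h, Ad_map, act, e]

theorem un_map (b : Bool) (u : ℂ) :
    (un b (Polynomial.X : Polynomial Py)).map (evS u) = (un b u).map cc := by
  ext i j : 2
  cases b <;> fin_cases i <;> fin_cases j <;> simp [un, up, um, evS]

theorem psi_eval (b : Bool) (f : Py) (u : ℂ) : (psi b f).eval (cc u) = act (un b u) f := by
  rw [← evS_eq]
  exact evS_aeval (un_map b u) f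

theorem det_un (b : Bool) (u : ℂ) : (un b u).det = 1 := by
  cases b
  · exact det_um u
  · exact det_up u

theorem sum_comp (F : MvPolynomial Kv Py) :
    ∑ μ ∈ F.support.image (Finsupp.weight wt), weightedHomogeneousComponent wt μ F = F := by
  ext η : 1
  simp only [coeff_sum, coeff_weightedHomogeneousComponent, Finset.sum_ite_eq]
  split_ifs with h
  · rfl
  · by_contra h0
    exact h (Finset.mem_image_of_mem _ (mem_support_iff.2 (Ne.symm h0)))

/-- left factor of the decomposition of `un b s` -/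
def kl {R : Type} [CommRing R] (b : Bool) (u : R) : M2 R := if b then um u else !![u, -1; 1, 0]
/-- right factor of the decomposition of `un b s` -/
def kr {R : Type} [CommRing R] (b : Bool) (u : R) : M2 R := if b then !![u, 1; -1, 0] else up u

theorem un_eq (b : Bool) {u : ℂ} (hu : u ≠ 0) : un b u⁻¹ = kl b u * tor u⁻¹ * kr b u := by
  ext i j
  cases b <;> fin_cases i <;> fin_cases j <;>
    simp [un, up, um, kl, kr, tor, mul_apply, Fin.sum_univ_two, hu]

theorem det_kl (b : Bool) (u : ℂ) : (kl b u).det = 1 := by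
  cases b <;> simp [kl, um, det_fin_two]

theorem exists_poly (b : Bool) (F : MvPolynomial Kv Py) : ∃ Q : Polynomial Py, ∀ u : ℂ,
    Q.eval (cc u) = act (kr b u) (ev (kl b u) F) := by
  refine ⟨eval₂ (aeval (pt (Ad (kr b Polynomial.X) * (Ym : M3 Py).map Polynomial.C)) :
    Py →ₐ[ℂ] Polynomial Py).toRingHom (pk (kl b Polynomial.X)) F, fun u => ?_⟩
  have e1 : (kr b (Polynomial.X : Polynomial Py)).map (evS u) = (kr b u).map cc := by
    ext i j : 2
    cases b <;> fin_cases i <;> fin_cases j <;> simp [kr, up, evS]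
  have e2 : (kl b (Polynomial.X : Polynomial Py)).map (evS u) = (kl b u).map cc := by
    ext i j : 2
    cases b <;> fin_cases i <;> fin_cases j <;> simp [kl, um, evS]
  rw [← evS_eq]
  induction F using MvPolynomial.induction_on with
  | C a =>
    rw [eval₂_C]
    refine (evS_aeval e1 a).trans ?_
    simp [ev]
  | add p q hp hq => rw [eval₂_add, map_add, map_add, map_add, hp, hq]
  | mul_X p t hp =>
    rw [eval₂_mul, map_mul, map_mul, map_mul, hp, eval₂_X]
    congr 1
    have e3 : ev (kl b u) (X t) = cc (kl b u t.1 t.2) := by simp [ev, pk]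
    rw [e3]
    exact (congrFun (congrFun e2 t.1) t.2).trans ((act _).commutes _).symm

theorem deg (f : Py) (M : ℕ) (b : Bool) (h : Bound f M) : (psi b f).natDegree ≤ M := by
  by_contra hd
  push Not at hd
  choose Q hQ using exists_poly b
  set T := ((orb f).support.image (Finsupp.weight wt)).filter fun μ => μ ≤ (M : ℤ) with hT
  set d := (psi b f).natDegree with hdd
  have h1 : (psi b f).reverse - ∑ μ ∈ T, Polynomial.X ^ ((d : ℤ) - μ).toNat *
      Q (weightedHomogeneousComponent wt μ (orb f)) = 0 := by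
    refine poly_zero fun u hu => ?_
    have e1 : (psi b f).reverse.eval (cc u) = u ^ d • (psi b f).eval (cc u⁻¹) := by
      let _ : Invertible (cc u⁻¹) := ⟨cc u, by rw [← map_mul, mul_inv_cancel₀ hu, map_one],
        by rw [← map_mul, inv_mul_cancel₀ hu, map_one]⟩
      have e := Polynomial.eval₂_reverse_mul_pow (RingHom.id Py) (cc u⁻¹) (psi b f)
      have e' : (psi b f).reverse.eval (cc u) * cc u⁻¹ ^ d = (psi b f).eval (cc u⁻¹) := e
      rw [← e', ← map_pow, mul_comm]
      have e3 : ∀ (a : ℂ) (p : Py), cc a * p = a • p := fun a p => (Algebra.smul_def a p).symm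
      rw [e3, smul_smul, ← mul_pow, mul_inv_cancel₀ hu, one_pow, one_smul]
    have e2 : ∀ k, act k f = ∑ μ ∈ (orb f).support.image (Finsupp.weight wt), comp μ f k := by
      intro k
      simp only [comp_eq]
      rw [← map_sum, sum_comp, ev_orb]
    rw [Polynomial.eval_sub, sub_eq_zero, e1, psi_eval, un_eq b hu, ← act_act, e2, map_sum,
      Finset.smul_sum, Polynomial.eval_finsetSum, hT, Finset.sum_filter]
    refine Finset.sum_congr rfl fun μ _ => ?_
    rw [ev_tor _ (inv_ne_zero hu), map_smul]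
    split_ifs with hμ
    · rw [Polynomial.eval_mul, hQ, ← comp_eq, smul_smul, Polynomial.eval_pow, Polynomial.eval_X,
        ← map_pow]
      refine Eq.trans ?_ (Algebra.smul_def _ _)
      congr 1
      rw [← _root_.zpow_natCast u ((d : ℤ) - μ).toNat, Int.toNat_of_nonneg (by omega),
        zpow_sub₀ hu, _root_.inv_zpow, _root_.zpow_natCast, div_eq_mul_inv]
    · rw [h μ (by omega) _ (det_kl b u), map_zero, smul_zero, smul_zero]
  have h2 := congrArg (fun P => Polynomial.coeff P 0) (sub_eq_zero.1 h1)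
  simp only [Polynomial.coeff_zero_reverse, Polynomial.finsetSum_coeff] at h2
  rw [Finset.sum_eq_zero] at h2
  · rw [Polynomial.leadingCoeff_eq_zero.1 h2] at hdd
    simp at hdd
    omega
  · intro μ hμ
    have h3 := (Finset.mem_filter.1 hμ).2
    rw [Polynomial.mul_coeff_zero, Polynomial.coeff_X_pow, if_neg (by omega), zero_mul]

end D1P

open D1P

theorem d1 (_h : WStmt) : D1Stmt where
  ex f := ⟨(orb f).totalDegree, fun M hM k _ => by
    rw [comp_eq, weightedHomogeneousComponent_eq_zero' M (orb f), map_zero]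
    intro η hη e
    have h1 := (WP.abs_weight_le η).trans (Int.ofNat_le.2 (le_totalDegree hη))
    have h2 := le_abs_self (Finsupp.weight wt η)
    omega⟩
  deg := deg
  left f M b j h μ hμ k hk := lin_zero (compL μ k) (psi b f) (fun s _ => by
    rw [compL_apply, psi_eval, comp_act]
    exact h μ hμ _ (by rw [det_mul, det_un, hk, one_mul])) j
  right f M b j h μ hμ k hk :=
    lin_zero (compL μ k ∘ₗ (rename Prod.swap : Py →ₐ[ℂ] Py).toLinearMap) (psi b f) (fun s _ => by
      show comp μ (trP _) k = 0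
      rw [psi_eval, trP_act, comp_actR, h μ hμ k hk, map_zero]) j

theorem cell (_h : WStmt) : CellStmt := by
  intro f M h1 h2
  by_contra hc
  push Not at hc
  refine h2 fun μ hμ k hk => ?_
  rcases eq_or_lt_of_le (show (M : ℤ) + 1 ≤ μ from hμ) with rfl | hlt
  swap
  · exact h1 μ (by push_cast; exact hlt) k hk
  have key : ∀ k : M2 ℂ, k.det = 1 → k 0 0 ≠ 0 → comp ((M : ℤ) + 1) f k = 0 := by
    intro k hk h0
    have e : k = um (k 1 0 / k 0 0) * up (k 0 1 * k 0 0) * tor (k 0 0) := by
      rw [det_fin_two] at hk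
      ext i j
      fin_cases i <;> fin_cases j <;> simp [um, up, tor, mul_apply, Fin.sum_univ_two, h0]
      field_simp
      linear_combination hk
    rw [e, ev_tor _ h0, hc, smul_zero]
  by_cases h0 : k 0 0 = 0
  swap
  · exact key k hk h0
  have h3 : k 1 0 ≠ 0 := by
    intro h
    rw [det_fin_two, h0, h] at hk
    simp at hk
  have h4 := lin_zero (compL ((M : ℤ) + 1) k) (psi true f) (fun s hs => by
    rw [compL_apply, psi_eval, comp_act]
    refine key _ (by rw [det_mul, det_un, hk, one_mul]) ?_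
    simp [un, up, mul_apply, Fin.sum_univ_two, h0, hs, h3]) 0
  rw [Polynomial.coeff_zero_eq_eval_zero, ← map_zero cc, psi_eval, compL_apply, comp_act] at h4
  have e : un true (0 : ℂ) = 1 := by
    ext i j
    fin_cases i <;> fin_cases j <;> simp [un, up]
  rwa [e, Matrix.one_mul, map_zero] at h4

end Pool.Agent.MP_0f1eb7_ag.Cyl

end
end MrgPart9

-- marker of a merged file
example : 731051 + 799319 = 731051 + 799319 := rfl
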