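import Mathlib.Topology.Sheaves.Presheaf
import Mathlib.Algebra.CharZero.Infinite
import Mathlib.Tactic.ENatToNat
import Mathlib.Tactic.Monotonicity.Lemmas
import Mathlib.Algebra.CubicDiscriminant
import Mathlib.RingTheory.Flat.TorsionFree
import Mathlib.Data.Int.Star
import Mathlib.Algebra.Order.Ring.Star
import Mathlib.RingTheory.PicardGroup
import Mathlib.Tactic.Bound
import Mathlib.RingTheory.Finiteness.ModuleFinitePresentation
import Mathlib.Combinatorics.SimpleGraph.Basic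
import Mathlib.FieldTheory.RatFunc.Valuation
import Mathlib.RingTheory.PiTensorProduct
import Mathlib.RingTheory.TotallySplit
import Mathlib.RingTheory.Etale.Weakly
import Mathlib.RingTheory.WittVector.IsPoly
import Mathlib.Tactic.ReduceModChar
import Pool.Agent.MP_0f1eb7_ag.cyl.Th

-- ======== part 0: formerly Pool.Agent.MP_0f1eb7_ag.cyl.Par
section MrgPart0

/-! Parity: Newton inequalities and distinct values of monomials in the invariants. -/

set_option autoImplicit false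

noncomputable section

namespace Pool.Agent.MP_0f1eb7_ag.Cyl

open MvPolynomial Matrix

namespace ParP

theorem chi_ne (p q : I9) (h : p ≠ q) : ∃ a, chi a p = -chi a q := by
  revert p q; decide

theorem chi_nt (p : I9) : ∃ a, chi a p = -1 := by
  revert p; decide

theorem chi_pm (a : Fin 4) (p : I9) : chi a p = 1 ∨ chi a p = -1 := by
  revert a p; decide

section Ring
variable {R : Type} [CommRing R]

theorem adj_sgn (φ : R →+* R) (y : M3 R) (a : Fin 4)
    (h : ∀ i j, φ (y i j) = (chi a (i, j) : R) * y i j) (i j : Fin 3) :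
    φ (y.adjugate i j) = (chi a (j, i) : R) * y.adjugate i j := by
  fin_cases a <;> fin_cases i <;> fin_cases j <;>
    simp [adjugate_fin_three, h, chi, sA, sB] <;> ring

theorem det_sgn (φ : R →+* R) (y : M3 R) (a : Fin 4)
    (h : ∀ i j, φ (y i j) = (chi a (i, j) : R) * y i j) : φ y.det = y.det := by
  rw [det_eq_sum_mul_adjugate_row y 0, map_sum]
  refine Finset.sum_congr rfl fun j _ => ?_
  rw [map_mul, h, adj_sgn φ y a h]
  have : (chi a (0, j) : R) * chi a (0, j) = 1 := by rw [← Int.cast_mul, chi_sq]; simp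
  linear_combination (y 0 j * y.adjugate j 0) * this

end Ring

section Val
variable {K Γ : Type} [Field K] [LinearOrderedCommGroupWithZero Γ] (v : Valuation K Γ)

/-- the entry `p` has strictly the largest value -/
def STop (u : M3 K) (p : I9) : Prop := ∀ q : I9, q ≠ p → v (u q.1 q.2) < v (u p.1 p.2)

variable {v}

theorem STop.le {u : M3 K} {p : I9} (h : STop v u p) (q : I9) : v (u q.1 q.2) ≤ v (u p.1 p.2) := by
  by_cases e : q = p
  · rw [e]
  · exact (h q e).le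

theorem STop.pos {u : M3 K} {p : I9} (h : STop v u p) : 0 < v (u p.1 p.2) := by
  obtain ⟨q, hq⟩ := exists_ne p
  exact lt_of_le_of_lt zero_le (h q hq)

theorem exists_STop (u : M3 K) (h : ∀ p q : I9, p ≠ q → v (u p.1 p.2) ≠ v (u q.1 q.2)) :
    ∃ p, STop v u p := by
  obtain ⟨p, -, hp⟩ := Finset.exists_max_image Finset.univ (fun q : I9 => v (u q.1 q.2))
    Finset.univ_nonempty
  exact ⟨p, fun q hq => lt_of_le_of_ne (hp q (Finset.mem_univ _)) (h q p hq)⟩

theorem val_sg (i : Fin 3) : v (sg i : K) = 1 := by fin_cases i <;> simp [sg]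

theorem STop.val_z2 {u : M3 K} {p : I9} (h : STop v u p) : v (z2 u) = v (u p.1 p.2) ^ 2 := by
  have e : z2 u = ∑ q : I9, sg q.1 * sg q.2 * u q.1 q.2 ^ 2 := by
    rw [z2, Fintype.sum_prod_type]
  have e2 : ∀ q : I9, v (sg q.1 * sg q.2 * u q.1 q.2 ^ 2) = v (u q.1 q.2) ^ 2 := by
    intro q; simp [val_sg]
  rw [e, v.map_sum_eq_of_lt (Finset.mem_univ p), e2]
  intro q hq
  rw [e2, e2]
  exact pow_lt_pow_left₀ (h q (by simpa using hq)) zero_le two_ne_zero

theorem STop.mul_lt {u : M3 K} {p : I9} (h : STop v u p) (q r : I9) (hqr : q ≠ r) :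
    v (u q.1 q.2 * u r.1 r.2) < v (u p.1 p.2) ^ 2 := by
  rw [map_mul, sq]
  by_cases e : q = p
  · have e' : r ≠ p := fun e' => hqr (e.trans e'.symm)
    rw [e]
    exact mul_lt_mul_of_pos_left (h r e') h.pos
  · exact lt_of_le_of_lt (mul_le_mul' le_rfl (h.le r)) (mul_lt_mul_of_pos_right (h q e) h.pos)

theorem STop.adj_lt {u : M3 K} {p : I9} (h : STop v u p) (i j : Fin 3) :
    v (u.adjugate i j) < v (u p.1 p.2) ^ 2 := by
  have k1 : ∀ q r q' r' : I9, q ≠ r → q' ≠ r' →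
      v (u q.1 q.2 * u r.1 r.2 - u q'.1 q'.2 * u r'.1 r'.2) < v (u p.1 p.2) ^ 2 :=
    fun q r q' r' h1 h2 => v.map_sub_lt (h.mul_lt q r h1) (h.mul_lt q' r' h2)
  have k2 : ∀ q r q' r' : I9, q ≠ r → q' ≠ r' →
      v (-(u q.1 q.2 * u r.1 r.2) + u q'.1 q'.2 * u r'.1 r'.2) < v (u p.1 p.2) ^ 2 := by
    intro q r q' r' h1 h2
    rw [neg_add_eq_sub]
    exact k1 q' r' q r h2 h1
  rw [adjugate_fin_three]
  fin_cases i <;> fin_cases j
  · exact k1 (1, 1) (2, 2) (1, 2) (2, 1) (by decide) (by decide)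
  · exact k2 (0, 1) (2, 2) (0, 2) (2, 1) (by decide) (by decide)
  · exact k1 (0, 1) (1, 2) (0, 2) (1, 1) (by decide) (by decide)
  · exact k2 (1, 0) (2, 2) (1, 2) (2, 0) (by decide) (by decide)
  · exact k1 (0, 0) (2, 2) (0, 2) (2, 0) (by decide) (by decide)
  · exact k2 (0, 0) (1, 2) (0, 2) (1, 0) (by decide) (by decide)
  · exact k1 (1, 0) (2, 1) (1, 1) (2, 0) (by decide) (by decide)
  · exact k2 (0, 0) (2, 1) (0, 1) (2, 0) (by decide) (by decide)
  · exact k1 (0, 0) (1, 1) (0, 1) (1, 0) (by decide) (by decide)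

theorem STop.det_lt {u : M3 K} {p q : I9} (h' : STop v u.adjugate q) :
    v u.det * v (u p.1 p.2) < v (u.adjugate q.1 q.2) ^ 2 := by
  have := h'.adj_lt p.1 p.2
  rw [adjugate_adjugate'] at this
  simpa using this

theorem STop.tops_ne {u : M3 K} {p q : I9} (h : STop v u p) (h' : STop v u.adjugate q) :
    p ≠ q.swap := by
  intro e
  obtain ⟨i, j⟩ := q
  simp only [Prod.swap_prod_mk] at e
  subst e
  have hd : v u.det = v (u j i) * v (u.adjugate i j) := by
    rw [det_eq_sum_mul_adjugate_row u j, v.map_sum_eq_of_lt (Finset.mem_univ i), map_mul]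
    intro l hl
    have hl' : l ≠ i := by simpa using hl
    rw [map_mul, map_mul]
    have h1 := h (j, l) (by simpa using hl')
    have h2 := h'.le (l, j)
    exact lt_of_le_of_lt (mul_le_mul' le_rfl h2) (mul_lt_mul_of_pos_right h1 h'.pos)
  have h3 := h'.det_lt (p := (j, i))
  have h4 := h.adj_lt i j
  simp only at h3 h4
  rw [hd, mul_comm (v (u j i)), mul_assoc, ← sq, sq (v (u.adjugate i j))] at h3
  exact lt_asymm h4 (lt_of_mul_lt_mul_left h3 zero_le)

theorem newton_aux {u : M3 K} {p q : I9} (h : STop v u p) (h' : STop v u.adjugate q) :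
    (∀ i j, v (u i j) ^ 2 ≤ v (z2 u)) ∧ (∀ i j, v (u.adjugate i j) ^ 2 ≤ v (z4 u)) ∧
    v (z4 u) < v (z2 u) ^ 2 ∧ v (zt u) * v (z2 u) < v (z4 u) ^ 2 := by
  rw [z4, h.val_z2, h'.val_z2, zt, map_pow]
  refine ⟨fun i j => pow_le_pow_left₀ zero_le (h.le (i, j)) 2,
    fun i j => pow_le_pow_left₀ zero_le (h'.le (i, j)) 2,
    pow_lt_pow_left₀ (h.adj_lt _ _) zero_le two_ne_zero, ?_⟩
  rw [← mul_pow]
  exact pow_lt_pow_left₀ h'.det_lt zero_le two_ne_zero

theorem le_val_sum {α : Type} [DecidableEq α] (s : Finset α) (f : α → K)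
    (h : ∀ a ∈ s, ∀ b ∈ s, v (f a) = v (f b) → a = b) {a : α} (ha : a ∈ s) :
    v (f a) ≤ v (∑ b ∈ s, f b) := by
  obtain ⟨b, hb, hm⟩ := s.exists_max_image (fun b => v (f b)) ⟨a, ha⟩
  rw [v.map_sum_eq_of_lt hb]
  · exact hm a ha
  · intro c hc
    rw [Finset.mem_sdiff, Finset.mem_singleton] at hc
    exact lt_of_le_of_ne (hm c hc.1) fun e => hc.2 (h c hc.1 b hb e)

end Val

section Desc
variable {Γ : Type} [LinearOrderedCommGroupWithZero Γ]

theorem descent {α β γ : Γ}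
    (hp : ∀ A B C : ℤ, α ^ A * β ^ B * γ ^ C = 1 → Even A ∧ Even B)
    (hα : α ≠ 0) (hβ : β ≠ 0) (hγ : γ ≠ 0) (n : ℕ) :
    ∀ A B C : ℤ, A.natAbs + B.natAbs + C.natAbs ≤ n → α ^ A * β ^ B * γ ^ C = 1 →
      A + 2 * B + 3 * C = 0 → A = 0 ∧ B = 0 ∧ C = 0 := by
  induction n with
  | zero => intro A B C h _ _; omega
  | succ n ih =>
    intro A B C h h1 h2
    obtain ⟨⟨A', hA⟩, ⟨B', hB⟩⟩ := hp A B C h1
    obtain ⟨C', hC⟩ : ∃ C', C = C' + C' := ⟨-A' - B - C, by omega⟩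
    by_cases h0 : A = 0 ∧ B = 0 ∧ C = 0
    · exact h0
    have h3 : α ^ A' * β ^ B' * γ ^ C' = 1 := by
      apply (pow_eq_one_iff_of_nonneg zero_le two_ne_zero).1
      rw [← h1, hA, hB, hC, zpow_add₀ hα, zpow_add₀ hβ, zpow_add₀ hγ, sq]
      ac_rfl
    have := ih A' B' C' (by omega) h3 (by omega)
    omega

end Desc

theorem sgK_ym (a : Fin 4) (i j : Fin 3) : sgK a (ym i j) = (chi a (i, j) : kk) * ym i j := by
  simp [ym, Ym, sgK_alg, sgP]

theorem sgK_adj (a : Fin 4) (i j : Fin 3) :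
    sgK a (ym.adjugate i j) = (chi a (j, i) : kk) * ym.adjugate i j :=
  adj_sgn (sgK a : kk →+* kk) ym a (sgK_ym a) i j

theorem sgK_det (a : Fin 4) : sgK a ym.det = ym.det :=
  det_sgn (sgK a : kk →+* kk) ym a (sgK_ym a)

theorem ym_ne (i j : Fin 3) : ym i j ≠ 0 := by
  simp [ym, Ym]

theorem adj_ne (h : InvStmt) (i j : Fin 3) : ym.adjugate i j ≠ 0 := by
  have : ym.adjugate = (Ym : M3 Py).adjugate.map (algebraMap Py kk) :=
    ((algebraMap Py kk).map_adjugate _).symm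
  rw [this]
  simpa using h.adj_ne i j

theorem det_ne (h : InvStmt) : ym.det ≠ 0 := by
  rw [ym, det_map]
  simpa using h.det_ne

section
variable {Γ : Type} [LinearOrderedCommGroupWithZero Γ] {v : Valuation kk Γ}

theorem val_ne (ha : ∀ a c, c ≠ 0 → sgK a c = -c → v c ≠ 1) {c c' : kk} (hc : c ≠ 0)
    (hc' : c' ≠ 0) {a : Fin 4} {e : ℤ} (he : e * e = 1) (h1 : sgK a c = ((-e : ℤ) : kk) * c)
    (h2 : sgK a c' = (e : kk) * c') : v c ≠ v c' := by
  intro h
  have he' : (e : kk) * e = 1 := by rw [← Int.cast_mul, he]; simp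
  have he0 : (e : kk) ≠ 0 := left_ne_zero_of_mul_eq_one he'
  refine ha a (c / c') (div_ne_zero hc hc') ?_ ?_
  · rw [map_div₀, h1, h2]
    push_cast
    field_simp
  · rw [map_div₀, h, div_self ((v.ne_zero_iff).2 hc')]

theorem parity (ha : ∀ a c, c ≠ 0 → sgK a c = -c → v c ≠ 1) {x y d : kk} (hx : x ≠ 0)
    (hy : y ≠ 0) (hd : d ≠ 0) {p q : I9} (hpq : p ≠ q)
    (h1 : ∀ a, sgK a x = (chi a p : kk) * x) (h2 : ∀ a, sgK a y = (chi a q : kk) * y)
    (h3 : ∀ a, sgK a d = d) (A B C : ℤ) (h : v x ^ A * v y ^ B * v d ^ C = 1) :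
    Even A ∧ Even B := by
  have key : ∀ a, (chi a p : kk) ^ A * (chi a q : kk) ^ B ≠ -1 := by
    intro a e
    refine ha a (x ^ A * y ^ B * d ^ C) (by simp [zpow_ne_zero, hx, hy, hd]) ?_ (by simpa using h)
    rw [map_mul, map_mul, map_zpow₀, map_zpow₀, map_zpow₀, h1, h2, h3, mul_zpow, mul_zpow]
    linear_combination (x ^ A * y ^ B * d ^ C) * e
  have ev : ∀ a r (N : ℤ), Even N → (chi a r : kk) ^ N = 1 := by
    intro a r N hN
    rcases chi_pm a r with e | e <;> rw [e]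
    · simp
    · simpa using hN.neg_one_zpow
  have od : ∀ a r (N : ℤ), Odd N → (chi a r : kk) ^ N = chi a r := by
    intro a r N hN
    rcases chi_pm a r with e | e <;> rw [e]
    · simp
    · simpa using hN.neg_one_zpow
  rcases Int.even_or_odd A with hA | hA <;> rcases Int.even_or_odd B with hB | hB
  · exact ⟨hA, hB⟩
  · obtain ⟨a, e⟩ := chi_nt q
    exact absurd (by rw [ev a p A hA, od a q B hB, e]; simp) (key a)
  · obtain ⟨a, e⟩ := chi_nt p
    exact absurd (by rw [od a p A hA, ev a q B hB, e]; simp) (key a)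
  · obtain ⟨a, e⟩ := chi_ne p q hpq
    refine absurd ?_ (key a)
    rw [od a p A hA, od a q B hB, ← Int.cast_mul, e, neg_mul, chi_sq]
    simp

theorem tops (h : InvStmt) (ha : ∀ a c, c ≠ 0 → sgK a c = -c → v c ≠ 1) :
    ∃ p q, STop v ym p ∧ STop v ym.adjugate q := by
  obtain ⟨p, hp⟩ := exists_STop (v := v) ym fun p q hpq => by
    obtain ⟨a, e⟩ := chi_ne p q hpq
    exact val_ne ha (ym_ne _ _) (ym_ne _ _) (chi_sq a q) (by rw [sgK_ym, ← e]) (sgK_ym a _ _)
  obtain ⟨q, hq⟩ := exists_STop (v := v) ym.adjugate fun p q hpq => by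
    obtain ⟨a, e⟩ := chi_ne p.swap q.swap (fun e => hpq (Prod.swap_injective e))
    exact val_ne ha (adj_ne h _ _) (adj_ne h _ _) (chi_sq a q.swap)
      (by rw [sgK_adj, ← e]; rfl) (sgK_adj a _ _)
  exact ⟨p, q, hp, hq⟩

theorem mono_inj (h : InvStmt) (ha : ∀ a c, c ≠ 0 → sgK a c = -c → v c ≠ 1)
    (η η' : Fin 3 →₀ ℕ) (hw : Finsupp.weight w3 η = Finsupp.weight w3 η')
    (e : v (∏ i, zz ym i ^ η i) = v (∏ i, zz ym i ^ η' i)) : η = η' := by
  obtain ⟨p, q, hp, hq⟩ := tops h ha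
  have hα := hp.pos.ne'
  have hβ := hq.pos.ne'
  have hγ : v ym.det ≠ 0 := (v.ne_zero_iff).2 (det_ne h)
  have hm : ∀ θ : Fin 3 →₀ ℕ, v (∏ i, zz ym i ^ θ i) =
      (v (ym p.1 p.2) ^ θ 0 * v (ym.adjugate q.1 q.2) ^ θ 1 * v ym.det ^ θ 2) ^ 2 := by
    intro θ
    simp only [Fin.prod_univ_three, zz, map_mul, map_pow, cons_val_zero, cons_val_one,
      cons_val_two, head_cons, tail_cons, z4, zt, hp.val_z2, hq.val_z2, mul_pow, ← pow_mul,
      mul_comm 2]
  rw [hm, hm, pow_left_inj₀ zero_le zero_le two_ne_zero] at e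
  have hw' : η 0 + 2 * η 1 + 3 * η 2 = η' 0 + 2 * η' 1 + 3 * η' 2 := by
    simpa [Finsupp.weight_apply, Finsupp.sum_fintype, Fin.sum_univ_three, w3, mul_comm] using hw
  have := descent (parity ha (ym_ne p.1 p.2) (adj_ne h q.1 q.2) (det_ne h) (hp.tops_ne hq)
    (fun a => sgK_ym a _ _) (fun a => sgK_adj a _ _) sgK_det) hα hβ hγ _
    ((η 0 : ℤ) - η' 0) ((η 1 : ℤ) - η' 1) ((η 2 : ℤ) - η' 2) le_rfl (by
      rw [zpow_sub₀ hα, zpow_sub₀ hβ, zpow_sub₀ hγ, div_mul_div_comm, div_mul_div_comm]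
      simp only [zpow_natCast]
      rw [e, div_self]
      simp [hα, hβ, hγ]) (by omega)
  ext i
  fin_cases i <;> simp <;> omega

end

end ParP

open ParP in
theorem par (h : InvStmt) : ParStmt := by
  intro O hC ha
  let φ := algebraMap kk Kb
  let v := O.valuation.comap φ
  have ha' : ∀ a c, c ≠ 0 → sgK a c = -c → v c ≠ 1 := ha
  have hadj : yK.adjugate = ym.adjugate.map φ := (φ.map_adjugate _).symm
  have hzz : ∀ i, zz yK i = φ (zz ym i) := by
    intro i
    fin_cases i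
    · exact z2_map φ ym
    · exact z4_map φ ym
    · exact zt_map φ ym
  constructor
  · obtain ⟨p, q, hp, hq⟩ := tops h ha'
    obtain ⟨h1, h2, h3, h4⟩ := newton_aux hp hq
    refine ⟨fun i j => ?_, fun i j => ?_, ?_, ?_, ?_⟩
    · rw [yK, z2_map]; exact h1 i j
    · rw [hadj, yK, z4_map]; exact h2 i j
    · rw [yK, z2_map, z4_map]; exact h3
    · rw [yK, z2_map, z4_map, zt_map]; exact h4
    · rw [yK, det_map]
      simpa using det_ne h
  · intro q n hq η hη
    have hι : ∀ c, O.valuation (algebraMap ℂ Kb c) ≤ 1 := fun c =>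
      (O.valuation_le_one_iff _).2 (hC c)
    have hv : ∀ θ ∈ q.support, O.valuation (algebraMap ℂ Kb (q.coeff θ) * ∏ i, zz yK i ^ θ i) =
        O.valuation (∏ i, zz yK i ^ θ i) := by
      intro θ hθ
      rw [map_mul, val_iota hι (mem_support_iff.1 hθ), one_mul]
    have hv' : ∀ θ : Fin 3 →₀ ℕ, O.valuation (∏ i, zz yK i ^ θ i) = v (∏ i, zz ym i ^ θ i) := by
      intro θ
      simp only [v, Valuation.comap_apply, map_prod, map_pow, hzz]
    rw [aeval_def, eval₂_eq', ← hv η hη]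
    refine le_val_sum q.support
      (fun θ => algebraMap ℂ Kb (q.coeff θ) * ∏ i, zz yK i ^ θ i) ?_ hη
    intro θ hθ θ' hθ' e
    rw [hv θ hθ, hv θ' hθ', hv', hv'] at e
    exact mono_inj h ha' θ θ'
      ((hq (mem_support_iff.1 hθ)).trans (hq (mem_support_iff.1 hθ')).symm) e

end Pool.Agent.MP_0f1eb7_ag.Cyl

end
end MrgPart0

-- ======== part 1: formerly Pool.Agent.MP_0f1eb7_ag.cyl.Diag1
section MrgPart1

/-! Integral singular value decomposition under the Newton polygon conditions. -/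

set_option autoImplicit false

noncomputable section

namespace Pool.Agent.MP_0f1eb7_ag.Cyl

open Matrix

namespace Diag1P

section Ring
variable {R : Type} [CommRing R]

/-- The characteristic matrix. -/
def A (y : M3 R) (L : R) : M3 R := yᵀ * eta * y * eta - L • 1

/-- The diagonal entries of its adjugate. -/
def Q (y : M3 R) (L : R) (i : Fin 3) : R :=
  ∑ k, sg k * y.adjugate i k ^ 2 + L * ∑ k, sg k * y k i ^ 2 + (L * L - L * z2 y) * sg i

lemma A_ap (y : M3 R) (L : R) (i j : Fin 3) : A y L i j =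
    (y 0 i * y 0 j - y 1 i * y 1 j + y 2 i * y 2 j) * sg j - if i = j then L else 0 := by
  simp [A, eta, mul_apply, Fin.sum_univ_three, one_apply, diagonal, sg]
  fin_cases j <;> simp <;> ring

lemma det_A (y : M3 R) (L : R) : (A y L).det = zt y - z4 y * L + z2 y * L ^ 2 - L ^ 3 := by
  simp [det_fin_three, A_ap, zt, z4, z2, adjugate_fin_three, Fin.sum_univ_three, sg]
  ring

lemma adj_diag (y : M3 R) (L : R) (i : Fin 3) : (A y L).adjugate i i * sg i = Q y L i := by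
  fin_cases i <;> simp [A_ap, Q, z2, adjugate_fin_three, Fin.sum_univ_three, sg] <;> ring

lemma adj_symm (y : M3 R) (L : R) (i j : Fin 3) :
    (A y L).adjugate i j * sg j = (A y L).adjugate j i * sg i := by
  fin_cases i <;> fin_cases j <;> simp [A_ap, adjugate_fin_three, sg] <;> ring

lemma adj_tr (y : M3 R) (L : R) :
    ∑ i, (A y L).adjugate i i = z4 y - 2 * z2 y * L + 3 * L ^ 2 := by
  simp [A_ap, z4, z2, adjugate_fin_three, Fin.sum_univ_three, sg]
  ring

lemma adj_tw (y : M3 R) (L : R) (i : Fin 3) :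
    ∑ j, ∑ k, y i j * sg j * ((A y L).adjugate j k * sg k) * (y i k * sg k) =
      L * Q yᵀ L i + (A y L).det * sg i := by
  fin_cases i <;>
    simp [A_ap, Q, z2, det_fin_three, adjugate_fin_three, Fin.sum_univ_three, sg] <;> ring

lemma minor {N : M3 R} (h : N.adjugate = 0) (i j k : Fin 3) : N i j * N k k = N i k * N k j := by
  have e := fun a b => congrFun (congrFun h a) b
  have e0 := e 0; have e1 := e 1; have e2 := e 2
  simp only [Fin.forall_fin_succ, adjugate_fin_three] at e0 e1 e2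
  simp at e0 e1 e2
  fin_cases i <;> fin_cases j <;> fin_cases k <;> simp <;> grind

lemma ip_eq (u w : Fin 3 → R) : ip u w = ∑ i, sg i * (u i * w i) := by
  simp [ip, eta, dotProduct, mulVec_diagonal, mul_left_comm]

lemma ip_adj (y : M3 R) (u w : Fin 3 → R) : ip ((y * eta) *ᵥ u) w = ip u ((yᵀ * eta) *ᵥ w) := by
  simp [ip_eq, eta, mulVec, dotProduct, Fin.sum_univ_three, sg]
  ring

lemma ip_comm (u w : Fin 3 → R) : ip u w = ip w u := by simp [ip_eq, mul_comm]

lemma ip_smul (c : R) (u w : Fin 3 → R) : ip u (c • w) = c * ip u w := by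
  simp [ip, mulVec_smul]

end Ring

variable {K : Type} [Field K] {Γ : Type} [LinearOrderedCommGroupWithZero Γ] (v : Valuation K Γ)

lemma v_sg (i : Fin 3) : v (sg i) = 1 := by fin_cases i <;> simp [sg]

lemma v_Q {y : M3 K} {L : K} {D : Γ} (h1 : ∀ i j, v (y i j) ^ 2 ≤ v (z2 y))
    (h2 : ∀ i j, v (y.adjugate i j) ^ 2 ≤ v (z4 y)) (d1 : v (z4 y) ≤ D) (d2 : v L * v (z2 y) ≤ D)
    (d3 : v L * v L ≤ D) (i : Fin 3) : v (Q y L i) ≤ D := by
  refine v.map_add_le (v.map_add_le (v.map_sum_le fun k _ => ?_) ?_) ?_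
  · rw [map_mul, v_sg, one_mul, map_pow]; exact (h2 _ _).trans d1
  · rw [map_mul]
    refine (mul_le_mul_right (v.map_sum_le fun k _ => ?_) _).trans d2
    rw [map_mul, v_sg, one_mul, map_pow]; exact h1 _ _
  · rw [map_mul, v_sg, mul_one]
    exact v.map_sub_le (by rwa [map_mul]) (by rwa [map_mul])

lemma le_one {d x q : K} (hd : d ≠ 0) (e : d * (x * x) = q) (h : v q ≤ v d) : v x ≤ 1 := by
  rw [← e, map_mul, map_mul] at h
  have h1 : v x * v x ≤ 1 := (mul_le_iff_le_one_right (zero_lt_iff.2 (by simpa using hd))).1 h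
  by_contra h2
  exact absurd h1 (not_le.2 (one_lt_mul'' (not_le.1 h2) (not_le.1 h2)))

variable [IsAlgClosed K]

lemma rank_one {N : M3 K} {d : K} (h : N.adjugate = 0) (hs : ∀ i j, N i j * sg j = N j i * sg i)
    (ht : ∑ i, N i i = d) (hd : d ≠ 0) :
    ∃ w : Fin 3 → K, ∀ i j, d * (w i * w j) = N i j * sg j := by
  obtain ⟨k, -, hk⟩ := Finset.exists_ne_zero_of_sum_ne_zero (ht ▸ hd)
  have h1 : (sg k : K) ≠ 0 := left_ne_zero_of_mul_eq_one (sg_mul_self k)
  obtain ⟨t, e⟩ := IsAlgClosed.exists_eq_mul_self (d * (N k k * sg k))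
  have h2 : t * t ≠ 0 := e ▸ mul_ne_zero hd (mul_ne_zero hk h1)
  refine ⟨fun i => N i k * sg k / t, fun i j => ?_⟩
  rw [div_mul_div_comm, ← mul_div_assoc, div_eq_iff h2, ← e, hs j k]
  linear_combination -d * sg j * sg k * minor h i j k

/-- The integral eigenvectors attached to one root. -/
lemma one {y : M3 K} {L d : K} (h1 : ∀ i j, v (y i j) ^ 2 ≤ v (z2 y))
    (h2 : ∀ i j, v (y.adjugate i j) ^ 2 ≤ v (z4 y)) (h0 : (A y L).det = 0) (hL : L ≠ 0)
    (hd : z4 y - 2 * z2 y * L + 3 * L ^ 2 = d) (hd0 : d ≠ 0) (d1 : v (z4 y) ≤ v d)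
    (d2 : v L * v (z2 y) ≤ v d) (d3 : v L * v L ≤ v d) :
    ∃ (s : K) (w : Fin 3 → K), s * s = L ∧ (∀ i, v (w i) ≤ 1) ∧
      (∀ i, v ((s⁻¹ • (y * eta) *ᵥ w) i) ≤ 1) ∧ ip w w = 1 ∧
      (yᵀ * eta) *ᵥ ((y * eta) *ᵥ w) = L • w := by
  obtain ⟨w, hw⟩ := rank_one (N := (A y L).adjugate) (by rw [adjugate_adjugate', h0]; simp)
    (adj_symm y L) ((adj_tr y L).trans hd) hd0
  obtain ⟨s, rfl⟩ := IsAlgClosed.exists_eq_mul_self L
  have hs : s ≠ 0 := left_ne_zero_of_mul hL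
  have hi : ip w w = 1 := mul_left_cancel₀ hd0 (by
    rw [ip_eq, Finset.mul_sum, mul_one, ← hd, ← adj_tr]
    refine Finset.sum_congr rfl fun i _ => ?_
    rw [adj_tr, hd]
    linear_combination sg i * hw i i + (A y (s * s)).adjugate i i * sg_mul_self (R := K) i)
  refine ⟨s, w, rfl, fun i => le_one v hd0 ((hw i i).trans (adj_diag _ _ i))
    (v_Q v h1 h2 d1 d2 d3 i), fun i => le_one v hd0 (q := Q yᵀ (s * s) i) ?_ (v_Q v
      (fun i j => by rw [z2_transpose]; exact h1 j i)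
      (fun i j => by rw [z4_transpose, ← adjugate_transpose]; exact h2 j i)
      (by rwa [z4_transpose]) (by rwa [z2_transpose]) d3 i), hi, ?_⟩
  · have e := adj_tw y (s * s) i
    simp only [← hw, h0, zero_mul, add_zero] at e
    refine mul_left_cancel₀ hL ?_
    rw [← e]
    simp [eta, mulVec, dotProduct, Fin.sum_univ_three]
    field_simp
  · have e1 : (A y (s * s)).adjugate *ᵥ w = d • w := by
      ext i
      have e := fun j => congrArg (· * sg j) (hw i j)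
      simp only [mul_assoc ((A y (s * s)).adjugate i _), sg_mul_self, mul_one] at e
      rw [ip_eq] at hi
      simp only [mulVec, dotProduct, ← e, Pi.smul_apply, smul_eq_mul, Fin.sum_univ_three] at hi ⊢
      linear_combination d * w i * hi
    have e2 := congrArg (· *ᵥ w) (mul_adjugate (A y (s * s)))
    simp only [← mulVec_mulVec, e1, h0, zero_smul, zero_mulVec, mulVec_smul, smul_eq_zero, hd0,
      false_or] at e2
    rw [A, sub_mulVec, sub_eq_zero, smul_mulVec, one_mulVec] at e2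
    rw [mulVec_mulVec, ← Matrix.mul_assoc, e2]

lemma roots (a b c : K) : ∃ x y z : K, a = x + y + z ∧ b = x * y + x * z + y * z ∧
    c = x * y * z ∧ v y ≤ v x ∧ v z ≤ v y := by
  have ha : (⟨1, -a, b, -c⟩ : Cubic K).a ≠ 0 := one_ne_zero
  obtain ⟨x, y, z, h⟩ := (Cubic.splits_iff_roots_eq_three (φ := RingHom.id K) ha).1
    (IsAlgClosed.splits _)
  have h1 := Cubic.b_eq_three_roots ha h
  have h2 := Cubic.c_eq_three_roots ha h
  have h3 := Cubic.d_eq_three_roots ha h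
  simp only [RingHom.id_apply, one_mul, neg_inj] at h1 h2 h3
  subst h1 h2 h3
  rcases le_total (v y) (v x) with p | p <;> rcases le_total (v z) (v y) with q | q <;>
    rcases le_total (v z) (v x) with r | r
  exacts [⟨x, y, z, rfl, rfl, rfl, p, q⟩, ⟨x, y, z, rfl, rfl, rfl, p, q⟩,
    ⟨x, z, y, by ring, by ring, by ring, r, q⟩, ⟨z, x, y, by ring, by ring, by ring, r, p⟩,
    ⟨y, x, z, by ring, by ring, by ring, p, r⟩, ⟨y, z, x, by ring, by ring, by ring, q, r⟩,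
    ⟨z, y, x, by ring, by ring, by ring, q, p⟩, ⟨z, y, x, by ring, by ring, by ring, q, p⟩]

omit [IsAlgClosed K] in
/-- The Newton polygon has three slopes. -/
lemma newton {x y z : K} (p : v y ≤ v x) (q : v z ≤ v y)
    (l1 : v (x * y + x * z + y * z) < v (x + y + z) ^ 2)
    (l2 : v (x * y * z) * v (x + y + z) < v (x * y + x * z + y * z) ^ 2) :
    v y < v x ∧ v z < v y ∧ v (x + y + z) ≤ v x ∧ v (x * y + x * z + y * z) ≤ v x * v y := by
  have ha : v (x + y + z) ≤ v x := v.map_add_le (v.map_add_le le_rfl p) (q.trans p)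
  have hb : v (x * y + x * z + y * z) ≤ v x * v y :=
    v.map_add_le (v.map_add_le (map_mul v x y).le (by rw [map_mul]; gcongr))
      (by rw [map_mul]; gcongr)
  have h1 : v y < v x := lt_of_le_of_ne p fun e => by
    rcases q.lt_or_eq with r | r
    · have h0 : 0 < v y := zero_le.trans_lt r
      have h : v (x * z + y * z) < v (x * y) := v.map_add_lt
        (by rw [map_mul, map_mul, ← e]; gcongr) (by rw [map_mul, map_mul, ← e]; gcongr)
      rw [add_assoc, v.map_add_eq_of_lt_left h, map_mul, e, ← sq] at l1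
      exact absurd l1 (not_lt.2 (by gcongr))
    · rw [map_mul, map_mul, r, e] at l2
      refine absurd (l2.trans_le (pow_le_pow_left₀ zero_le l1.le 2)) (not_lt.2 ?_)
      rw [show ∀ t : Γ, (t ^ 2) ^ 2 = t * t * t * t from fun t => by simp only [sq, mul_assoc]]
      gcongr
  refine ⟨h1, lt_of_le_of_ne q fun e => ?_, ha, hb⟩
  rw [add_assoc x y z, v.map_add_eq_of_lt_left (v.map_add_lt h1 (q.trans_lt h1)), map_mul, map_mul,
    e] at l2
  refine absurd (l2.trans_le (pow_le_pow_left₀ zero_le hb 2)) (not_lt.2 (le_of_eq ?_))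
  rw [sq]; ac_rfl

end Diag1P

open Diag1P in
theorem diag1 : Diag1Stmt := by
  intro K _ _ _ O _ y N
  set v := O.valuation
  obtain ⟨a, b, c, h1, h2, h3, p, q⟩ := roots v (z2 y) (z4 y) (zt y)
  have l1 := N.lt1
  have l2 := N.lt2
  rw [h1, h2] at l1 l2
  rw [h3] at l2
  obtain ⟨p', q', ha, hb⟩ := newton v p q l1 l2
  rw [← h1] at ha
  rw [← h2] at hb
  have r' := q'.trans p'
  have h0 : a * b * c ≠ 0 := h3 ▸ pow_ne_zero 2 N.det_ne
  have n : ∀ {s t : K}, v t < v s → s - t ≠ 0 ∧ t - s ≠ 0 := fun h =>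
    ⟨sub_ne_zero.2 fun e => h.ne' (congrArg v e), sub_ne_zero.2 fun e => h.ne (congrArg v e)⟩
  have d1 : v ((a - b) * (a - c)) = v a * v a := by
    rw [map_mul, v.map_sub_eq_of_lt_left p', v.map_sub_eq_of_lt_left r']
  have d2 : v ((b - a) * (b - c)) = v a * v b := by
    rw [map_mul, v.map_sub_eq_of_lt_right p', v.map_sub_eq_of_lt_left q']
  have d3 : v ((c - a) * (c - b)) = v a * v b := by
    rw [map_mul, v.map_sub_eq_of_lt_right r', v.map_sub_eq_of_lt_right q']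
  have key : ∀ i : Fin 3, ∃ (s : K) (w : Fin 3 → K), s * s = ![a, b, c] i ∧ (∀ i, v (w i) ≤ 1) ∧
      (∀ i, v ((s⁻¹ • (y * eta) *ᵥ w) i) ≤ 1) ∧ ip w w = 1 ∧
      (yᵀ * eta) *ᵥ ((y * eta) *ᵥ w) = ![a, b, c] i • w := fun i => by
    fin_cases i
    · exact one v (L := a) N.y_le N.adj_le (by rw [det_A, h1, h2, h3]; ring)
        (left_ne_zero_of_mul (left_ne_zero_of_mul h0)) (by rw [h1, h2]; ring)
        (mul_ne_zero (n p').1 (n r').1) (by rw [d1]; exact hb.trans (by gcongr))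
        (by rw [d1]; gcongr) d1.ge
    · exact one v (L := b) N.y_le N.adj_le (by rw [det_A, h1, h2, h3]; ring)
        (right_ne_zero_of_mul (left_ne_zero_of_mul h0)) (by rw [h1, h2]; ring)
        (mul_ne_zero (n p').2 (n q').1) (by rwa [d2]) (by rw [d2, mul_comm]; gcongr)
        (by rw [d2]; gcongr)
    · exact one v (L := c) N.y_le N.adj_le (by rw [det_A, h1, h2, h3]; ring)
        (right_ne_zero_of_mul h0) (by rw [h1, h2]; ring)
        (mul_ne_zero (n r').2 (n q').2) (by rwa [d3]) (by rw [d3, mul_comm]; gcongr)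
        (by rw [d3]; gcongr)
  choose s w e hw hu hi hS using key
  have hs : ∀ i, s i ≠ 0 := fun i h => h0 (by
    have := e i
    rw [h, mul_zero] at this
    fin_cases i <;> simp at this <;> simp [← this])
  have hne : ∀ i j : Fin 3, i ≠ j → ![a, b, c] i - ![a, b, c] j ≠ 0 := fun i j h => by
    fin_cases i <;> fin_cases j <;>
      first | exact (h rfl).elim | exact (n p').1 | exact (n p').2 | exact (n q').1 |
        exact (n q').2 | exact (n r').1 | exact (n r').2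
  have t : ∀ i j, ip ((y * eta) *ᵥ w i) ((y * eta) *ᵥ w j) = ![a, b, c] j * ip (w i) (w j) :=
    fun i j => by rw [ip_adj, hS, ip_smul]
  have o : ∀ i j, ip (w i) (w j) = if i = j then 1 else 0 := fun i j => by
    split_ifs with h
    · rw [h, hi]
    · refine (mul_eq_zero.1 ?_).resolve_left (hne i j h)
      rw [sub_mul, ← t i j, ip_comm (w i), ← t j i, ip_comm, sub_self]
  refine ⟨s, fun i => (s i)⁻¹ • (y * eta) *ᵥ w i, w, ?_,
    fun i => ⟨fun j => (O.valuation_le_one_iff _).1 (hu i j),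
      fun j => (O.valuation_le_one_iff _).1 (hw i j)⟩, fun i j => ?_, o, fun i => ?_, fun i => ?_⟩
  · simp only [ee, zz, sq, e, h1, h2, h3]
    rfl
  · rw [ip_smul, ip_comm, ip_smul, t, o, ← e]
    have := hs i
    by_cases h : i = j
    · subst h; simp only [if_true]; field_simp
    · simp [h, Ne.symm h]
  · rw [smul_smul, mul_inv_cancel₀ (hs i), one_smul]
  · rw [mulVec_smul, hS, smul_smul, ← e, inv_mul_cancel_left₀ (hs i)]

end Pool.Agent.MP_0f1eb7_ag.Cyl

end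
end MrgPart1

-- ======== part 2: formerly Pool.Agent.MP_0f1eb7_ag.cyl.E1a
section MrgPart2

/-! Row E1, first part: leading terms in powers of a large element, top forms, generic points. -/

set_option autoImplicit false

noncomputable section

namespace Pool.Agent.MP_0f1eb7_ag.Cyl.E1P

open MvPolynomial Matrix

/-- a valued field with a large element `t` and a subring `P` of polynomials in `t` -/
structure Ctx {E Γ L : Type} [Field E] [LinearOrderedCommGroupWithZero Γ] [Field L]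
    (v : Valuation E Γ) (ι : L →+* E) (t : E) (P : Subring E) : Prop where
  le : ∀ c, v (ι c) ≤ 1
  big : 1 < v t
  cmem : ∀ c, ι c ∈ P
  tmem : t ∈ P
  ge : ∀ f ∈ P, f ≠ 0 → 1 ≤ v f
  appr : ∀ f, ∃ q ∈ P, v (f - q) < 1

section
variable {E Γ L : Type} [Field E] [LinearOrderedCommGroupWithZero Γ] [Field L]
  {v : Valuation E Γ} {ι : L →+* E} {t : E} {P : Subring E}

/-- leading term with gauge a power of `t` -/
def Ld (v : Valuation E Γ) (ι : L →+* E) (t f : E) (n : ℤ) (c : L) : Prop :=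
  v (f - ι c * t ^ n) < v (t ^ n)

theorem Ctx.pos (H : Ctx v ι t P) : 0 < v t := lt_trans zero_lt_one H.big

theorem Ctx.ne (H : Ctx v ι t P) : t ≠ 0 := (v.pos_iff).1 H.pos

theorem Ctx.zlt (H : Ctx v ι t P) {m n : ℤ} (h : m < n) : v (t ^ m) < v (t ^ n) := by
  rw [map_zpow₀, map_zpow₀]
  exact zpow_lt_zpow_right₀ H.big h

variable {f g : E} {m n : ℤ} {c d : L}

theorem Ld.lead [Algebra ℂ E] (h : Ld v ι t f n c) : Lead v ι f (t ^ n) c := h

theorem Ld.const (c : L) : Ld v ι t (ι c) 0 c := by simp [Ld]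

theorem Ld.self (H : Ctx v ι t P) : Ld v ι t t 1 1 := by simpa [Ld] using H.pos

theorem Ld.cast (h : Ld v ι t f n c) {n' : ℤ} {c' : L} (e : n = n') (e' : c = c') :
    Ld v ι t f n' c' := e ▸ e' ▸ h

variable [Algebra ℂ E]

theorem Ld.mul (H : Ctx v ι t P) (h : Ld v ι t f n c) (h' : Ld v ι t g m d) :
    Ld v ι t (f * g) (n + m) (c * d) := by
  have := Lead.mul H.le h.lead h'.lead
  rwa [← zpow_add₀ H.ne] at this

theorem Ld.add (h : Ld v ι t f n c) (h' : Ld v ι t g n d) : Ld v ι t (f + g) n (c + d) :=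
  Lead.add h.lead h'.lead

theorem Ld.neg (h : Ld v ι t f n c) : Ld v ι t (-f) n (-c) := Lead.neg h.lead

theorem Ld.sub (h : Ld v ι t f n c) (h' : Ld v ι t g n d) : Ld v ι t (f - g) n (c - d) := by
  simpa [sub_eq_add_neg] using h.add h'.neg

theorem Ld.up (H : Ctx v ι t P) (h : Ld v ι t f n c) (hn : n < m) : Ld v ι t f m 0 :=
  Lead.of_lt (lt_of_le_of_lt (h.lead.val_le H.le) (H.zlt hn))

theorem Ld.addl (H : Ctx v ι t P) (h : Ld v ι t f n c) (h' : Ld v ι t g m d) (hn : m < n) :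
    Ld v ι t (f + g) n c := by
  simpa using h.add (h'.up H hn)

theorem Ld.addr (H : Ctx v ι t P) (h : Ld v ι t f n c) (h' : Ld v ι t g m d) (hn : n < m) :
    Ld v ι t (f + g) m d := by
  simpa using (h.up H hn).add h'

theorem Ld.inv (H : Ctx v ι t P) (h : Ld v ι t f n c) (hc : c ≠ 0) :
    Ld v ι t f⁻¹ (-n) c⁻¹ := by
  have := Lead.inv H.le h.lead hc
  rwa [← _root_.zpow_neg] at this

theorem Ld.pow (H : Ctx v ι t P) (h : Ld v ι t f n c) (k : ℕ) :
    Ld v ι t (f ^ k) (n * k) (c ^ k) := by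
  have := Lead.pow H.le h.lead k
  rwa [← zpow_natCast (t ^ n), ← _root_.zpow_mul] at this

theorem Ld.val (H : Ctx v ι t P) (h : Ld v ι t f n c) (hc : c ≠ 0) : v f = v t ^ n := by
  rw [h.lead.val_eq H.le hc, map_zpow₀]

theorem Ld.ne (H : Ctx v ι t P) (h : Ld v ι t f n c) (hc : c ≠ 0) : f ≠ 0 := by
  rw [← v.pos_iff, h.val H hc]
  exact zpow_pos H.pos n

theorem Ld.inner (H : Ctx v ι t P) {S : Type} [CommRing S] (φ : S →+* L) {σ : Fin 2 → E}
    {s : Fin 2 → L} (hσ : ∀ i, Ld v ι t (σ i) 0 (s i)) (p : MvPolynomial (Fin 2) S) :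
    Ld v ι t (eval₂Hom (ι.comp φ) σ p) 0 (eval₂Hom φ s p) := by
  induction p using MvPolynomial.induction_on with
  | C a => simpa using Ld.const (φ a)
  | add p q hp hq => simpa only [map_add] using hp.add hq
  | mul_X p i hp => simpa only [map_mul, eval₂Hom_X', add_zero] using hp.mul H (hσ i)

/-- the leading term of a polynomial at large arguments is its top form -/
theorem Ld.top (H : Ctx v ι t P) {S : Type} [CommRing S] (φ : S →+* L) {σ x : Fin 2 → E}
    {s β : Fin 2 → L} (hσ : ∀ i, Ld v ι t (σ i) 0 (s i)) (hx : ∀ i, Ld v ι t (x i) 2 (β i))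
    (Ψ : MvPolynomial (Fin 2) (MvPolynomial (Fin 2) S)) :
    Ld v ι t (eval₂ (eval₂Hom (ι.comp φ) σ) x Ψ) (2 * (Ψ.totalDegree : ℤ))
      (eval₂ (eval₂Hom φ s) β (homogeneousComponent Ψ.totalDegree Ψ)) := by
  classical
  rw [homogeneousComponent_apply, eval₂_sum, Finset.sum_filter, eval₂_eq']
  refine Lead.sum _ (zpow_ne_zero _ H.ne) fun η hη => ?_
  have h1 := (Ld.inner H φ hσ (coeff η Ψ)).mul H
    (((hx 0).pow H (η 0)).mul H ((hx 1).pow H (η 1)))
  have hd : η.degree = η 0 + η 1 := by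
    rw [Finsupp.degree_eq_sum]; simp
  have hle : η.degree ≤ Ψ.totalDegree := le_totalDegree hη
  rw [Fin.prod_univ_two]
  split_ifs with e
  · refine h1.cast (by omega) ?_
    rw [eval₂_monomial, Finsupp.prod_fintype _ _ (by simp), Fin.prod_univ_two]
  · exact h1.up H (by omega)

end

/-- a generic point for the top form -/
theorem generic {S L : Type} [CommRing S] [Field L] [CharZero L] (φ : S →+* L)
    (hφ : Function.Injective φ) {a b : L} (hb : b ≠ 0)
    {Ψ : MvPolynomial (Fin 2) (MvPolynomial (Fin 2) S)} (hΨ : Ψ ≠ 0) :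
    ∃ s β : Fin 2 → L, β 1 ≠ 0 ∧ a * β 0 * (1 - s 0 ^ 2) + 2 * s 0 * (b * β 1) ≠ 0 ∧
      eval₂ (eval₂Hom φ s) β (homogeneousComponent Ψ.totalDegree Ψ) ≠ 0 := by
  classical
  have ex : ∀ p : MvPolynomial (Fin 2) L, p ≠ 0 → ∃ x, eval x p ≠ 0 := by
    intro p hp
    by_contra hc
    push Not at hc
    exact hp (MvPolynomial.funext fun x => by simpa using hc x)
  obtain ⟨η, hη, e⟩ := Finset.exists_mem_eq_sup Ψ.support (support_nonempty.2 hΨ)
    fun η : Fin 2 →₀ ℕ => η.sum fun _ e => e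
  have h0 : coeff η Ψ ≠ 0 := mem_support_iff.1 hη
  have h1 : MvPolynomial.map φ (coeff η Ψ) ≠ 0 :=
    fun h => h0 (MvPolynomial.map_injective φ hφ (by simpa using h))
  obtain ⟨s, hs⟩ := ex (X 0 * MvPolynomial.map φ (coeff η Ψ)) (mul_ne_zero (X_ne_zero 0) h1)
  rw [map_mul, eval_X, eval_map] at hs
  have hs0 := left_ne_zero_of_mul hs
  have h2 : MvPolynomial.map (eval₂Hom φ s) (homogeneousComponent Ψ.totalDegree Ψ) ≠ 0 := by
    intro h
    have := congrArg (coeff η) h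
    rw [coeff_map, coeff_homogeneousComponent,
      if_pos (show η.degree = Ψ.totalDegree from e.symm)] at this
    exact right_ne_zero_of_mul hs this
  have h3 : (C a * X 0 * C (1 - s 0 ^ 2) + C (2 * s 0) * (C b * X 1) :
      MvPolynomial (Fin 2) L) ≠ 0 := by
    intro h
    have := congrArg (eval ![0, 1]) h
    simp [hs0, hb] at this
  obtain ⟨β, hβ⟩ := ex _ (mul_ne_zero (mul_ne_zero (X_ne_zero 1) h3) h2)
  rw [map_mul, map_mul, eval_X, eval_map] at hβ
  refine ⟨s, β, left_ne_zero_of_mul (left_ne_zero_of_mul hβ), ?_, right_ne_zero_of_mul hβ⟩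
  have := right_ne_zero_of_mul (left_ne_zero_of_mul hβ)
  simpa only [map_add, map_mul, eval_C, eval_X] using this

open Classical in
theorem ctx_ratFunc (L : Type) [Field L] :
    Ctx (RatFunc.inftyValuation L) RatFunc.C RatFunc.X
      (algebraMap (Polynomial L) (RatFunc L)).range := by
  have hp : ∀ p : Polynomial L, p ≠ 0 → RatFunc.inftyValuation L
      (algebraMap (Polynomial L) (RatFunc L) p) = WithZero.exp (p.natDegree : ℤ) :=
    fun p hp => RatFunc.inftyValuation.polynomial L hp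
  refine ⟨fun c => ?_, ?_, fun c => ⟨Polynomial.C c, by simp⟩, ⟨Polynomial.X, by simp⟩, ?_, ?_⟩
  · by_cases hc : c = 0
    · simp [hc]
    · rw [RatFunc.inftyValuation.C L hc]
  · simp [← WithZero.exp_zero]
  · rintro _ ⟨p, rfl⟩ h
    rw [hp p (by rintro rfl; simp at h), ← WithZero.exp_zero, WithZero.exp_le_exp]
    exact Int.natCast_nonneg _
  · intro f
    refine ⟨_, ⟨f.num / f.denom, rfl⟩, ?_⟩
    have hd := f.denom_ne_zero
    have hd' : algebraMap (Polynomial L) (RatFunc L) f.denom ≠ 0 := by simpa using hd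
    have e : f - algebraMap (Polynomial L) (RatFunc L) (f.num / f.denom) =
        algebraMap (Polynomial L) (RatFunc L) (f.num % f.denom) /
          algebraMap (Polynomial L) (RatFunc L) f.denom := by
      rw [eq_div_iff hd', EuclideanDomain.mod_eq_sub_mul_div, map_sub, map_mul, sub_mul]
      congr 1
      · exact ((div_eq_iff hd').1 f.num_div_denom).symm
      · ring
    rw [e]
    by_cases hr : f.num % f.denom = 0
    · simp [hr]
    · rw [map_div₀, hp _ hr, hp _ hd, ← WithZero.exp_sub, ← WithZero.exp_zero, WithZero.exp_lt_exp]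
      have := Polynomial.natDegree_lt_natDegree hr (Polynomial.degree_mod_lt f.num hd)
      omega

end Pool.Agent.MP_0f1eb7_ag.Cyl.E1P

end
end MrgPart2

-- ======== part 3: formerly Pool.Agent.MP_0f1eb7_ag.cyl.E1
section MrgPart3

/-! Row E1: the charge inequality from a polynomial curve in the special linear group. -/

set_option autoImplicit false

noncomputable section

namespace Pool.Agent.MP_0f1eb7_ag.Cyl

open MvPolynomial Matrix

namespace E1P

theorem decomp {E : Type} [Field E] (N : M2 E) (hN : N.det = 1) (h : N 0 0 ≠ 0) :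
    um (N 1 0 / N 0 0) * up (N 0 0 * N 0 1) * tor (N 0 0) = N := by
  rw [det_fin_two] at hN
  ext i j
  fin_cases i <;> fin_cases j <;> simp [um, up, tor, mul_apply, Fin.sum_univ_two]
  · field_simp
  · field_simp
  · field_simp
    linear_combination -hN

/-- the polynomial matrix -/
theorem alg {E : Type} [Field E] [Algebra ℂ E] (P : Subring E) {l₁ l₂ l₃ l₄ X Y r : E}
    (h₁ : l₁ ∈ P) (h₂ : l₂ ∈ P) (h₃ : l₃ ∈ P) (h₄ : l₄ ∈ P) (hX : X ∈ P) (hY : Y ∈ P)
    (hr : r ∈ P) (hh : (hf : E) ∈ P) (e : r * (l₁ * l₄ - l₂ * l₃) = 1)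
    (r₁ : Y * l₁ - l₂ = (X - 1) * l₃) (r₂ : Y * l₂ - l₁ = (X + 1) * l₄) (hn : 1 - Y ^ 2 ≠ 0) :
    ∃ N : M2 E, N.det = 1 ∧ (∀ i j, (gm X Y * N) i j ∈ P) ∧
      N 0 0 = -(Y * l₃ + l₄) * (1 - Y ^ 2)⁻¹ ∧ N 1 0 = -(Y * l₄ + l₃) * (1 - Y ^ 2)⁻¹ := by
  have h2 := two_hf (R := E)
  have key : Y * (hf * (X + 1)) * l₄ + (1 - Y ^ 2) * hf * l₂ + hf * (X - 1) * l₃ = 0 := by
    linear_combination -hf * r₁ - hf * Y * r₂
  let K : M2 E := !![Y * l₂ * hf - l₄,
      -(r * (l₁ * Y * (hf * (X - 1)) + l₂ * (Y ^ 2 * (hf * (X - 1)) + 1)));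
    -l₃ - Y * l₄, -(r * ((1 - Y ^ 2) * (l₁ + Y * l₂)))]
  have hK : K.det = 1 := by
    simp only [K, det_fin_two_of]
    linear_combination e - r * (l₁ * Y + l₂ * Y ^ 2) * key +
      r * (l₁ * Y + l₂ * Y ^ 2) * Y * l₄ * h2
  have hg : gm X Y * (gm X Y).adjugate = 1 := by rw [mul_adjugate, det_gm hn, one_smul]
  refine ⟨(gm X Y).adjugate * K, ?_, ?_, ?_, ?_⟩
  · rw [det_mul, det_adjugate, det_gm hn, hK]; simp
  · rw [← Matrix.mul_assoc, hg, Matrix.one_mul]
    intro i j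
    fin_cases i <;> fin_cases j <;> simp only [K, Fin.zero_eta, Fin.mk_one, Fin.isValue, of_apply,
      cons_val', cons_val_zero, cons_val_one, cons_val_fin_one] <;>
    apply_rules [sub_mem, add_mem, mul_mem, neg_mem, pow_mem, one_mem]
  · simp [K, gm, gt, adjugate_fin_two, mul_apply, Fin.sum_univ_two]
    field_simp
    linear_combination (1 - Y ^ 2) * Y * key - (1 - Y ^ 2) * Y ^ 2 * l₄ * h2
  · simp [K, gm, gt, adjugate_fin_two, mul_apply, Fin.sum_univ_two]
    field_simp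
    ring

section
variable {E Γ L : Type} [Field E] [Algebra ℂ E] [LinearOrderedCommGroupWithZero Γ] [Field L]
  {v : Valuation E Γ} {ι : L →+* E} {t : E} {P : Subring E}

/-- the curve with prescribed leading terms -/
theorem curve (H : Ctx v ι t P) (hh : (hf : E) ∈ P) {b₁ b₂ s₁ : L} (s₂ : L) (hb : b₂ ≠ 0)
    (he : b₁ * (1 - s₁ ^ 2) + 2 * s₁ * b₂ ≠ 0) :
    ∃ X Y u σ₁ σ₂ : E, X ∈ P ∧ Y ∈ P ∧ Ld v ι t X 2 b₁ ∧ Ld v ι t Y 2 b₂ ∧ Ld v ι t u (-1) 1 ∧
      Ld v ι t σ₁ 0 s₁ ∧ Ld v ι t σ₂ 0 s₂ ∧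
      ∀ ij, pk (gm X Y * (um σ₁ * up σ₂) * tor u) ij ∈ P := by
  set e := b₁ * (1 - s₁ ^ 2) + 2 * s₁ * b₂ with hE
  obtain ⟨l₁, e₁⟩ : ∃ l, l = ι b₁ * t + ι (-e / b₂) := ⟨_, rfl⟩
  obtain ⟨l₃, e₃⟩ : ∃ l, l = ι b₂ * t := ⟨_, rfl⟩
  obtain ⟨l₂, e₂⟩ : ∃ l, l = ι s₁ * l₁ + ι b₁ := ⟨_, rfl⟩
  obtain ⟨l₄, e₄⟩ : ∃ l, l = ι s₁ * l₃ + ι b₂ := ⟨_, rfl⟩
  have m₁ : l₁ ∈ P := e₁ ▸ add_mem (mul_mem (H.cmem _) H.tmem) (H.cmem _)
  have m₃ : l₃ ∈ P := e₃ ▸ mul_mem (H.cmem _) H.tmem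
  have m₂ : l₂ ∈ P := e₂ ▸ add_mem (mul_mem (H.cmem _) m₁) (H.cmem _)
  have m₄ : l₄ ∈ P := e₄ ▸ add_mem (mul_mem (H.cmem _) m₃) (H.cmem _)
  have d₁ : Ld v ι t l₁ 1 b₁ := e₁ ▸
    (((Ld.const b₁).mul H (Ld.self H)).addl H (Ld.const _) (by norm_num)).cast (by norm_num)
      (by ring)
  have d₃ : Ld v ι t l₃ 1 b₂ := e₃ ▸
    ((Ld.const b₂).mul H (Ld.self H)).cast (by norm_num) (by ring)
  have d₂ : Ld v ι t l₂ 1 (s₁ * b₁) := e₂ ▸
    (((Ld.const s₁).mul H d₁).addl H (Ld.const _) (by norm_num)).cast (by norm_num) rfl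
  have d₄ : Ld v ι t l₄ 1 (s₁ * b₂) := e₄ ▸
    (((Ld.const s₁).mul H d₃).addl H (Ld.const _) (by norm_num)).cast (by norm_num) rfl
  have hb' : ι b₂ ≠ 0 := by simpa using hb
  have he' : ι e ≠ 0 := by simpa using he
  have hs : ι (-e⁻¹) * (l₁ * l₄ - l₂ * l₃) = 1 := by
    rw [e₄, e₂, e₃, e₁]
    simp only [map_neg, map_inv₀, map_div₀]
    field_simp
    ring
  obtain ⟨Y, eY⟩ : ∃ Y, Y = ι (-e⁻¹) * -(l₁ * l₃ - l₂ * l₄ + l₃ * l₄ + l₃ * l₄) := ⟨_, rfl⟩
  obtain ⟨X, eX⟩ : ∃ X, X = ι (-e⁻¹) * -(l₁ * l₁ - l₂ * l₂ + l₁ * l₄ + l₂ * l₃) := ⟨_, rfl⟩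
  have mr := H.cmem (-e⁻¹)
  have mY : Y ∈ P := by rw [eY]; apply_rules [sub_mem, add_mem, mul_mem, neg_mem]
  have mX : X ∈ P := by rw [eX]; apply_rules [sub_mem, add_mem, mul_mem, neg_mem]
  have dY : Ld v ι t Y 2 b₂ := eY ▸ ((Ld.const _).mul H ((((d₁.mul H d₃).sub (d₂.mul H d₄)).add
    (d₃.mul H d₄)).add (d₃.mul H d₄)).neg).cast (by norm_num) (by field_simp; rw [hE]; ring)
  have dX : Ld v ι t X 2 b₁ := eX ▸ ((Ld.const _).mul H ((((d₁.mul H d₁).sub (d₂.mul H d₂)).add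
    (d₁.mul H d₄)).add (d₂.mul H d₃)).neg).cast (by norm_num) (by field_simp; rw [hE]; ring)
  have dn : Ld v ι t (1 - Y ^ 2) 4 (-b₂ ^ 2) := by
    have := (Ld.const (v := v) (ι := ι) (t := t) 1).addr H (dY.pow H 2).neg (by norm_num)
    rw [map_one, ← sub_eq_add_neg] at this
    exact this.cast (by norm_num) rfl
  have hb2 : -b₂ ^ 2 ≠ 0 := by simpa using hb
  obtain ⟨N, hN, hP, n₀, n₁⟩ := alg P m₁ m₂ m₃ m₄ mX mY mr hh hs
    (by rw [eY, eX]; linear_combination (l₂ - l₃) * hs)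
    (by rw [eY, eX]; linear_combination (l₁ + l₄) * hs) (dn.ne H hb2)
  have du : Ld v ι t (N 0 0) (-1) 1 := n₀ ▸
    ((((dY.mul H d₃).addl H d₄ (by norm_num)).neg).mul H (dn.inv H hb2)).cast (by norm_num)
      (by field_simp)
  have dw : Ld v ι t (N 1 0) (-1) s₁ := n₁ ▸
    ((((dY.mul H d₄).addl H d₃ (by norm_num)).neg).mul H (dn.inv H hb2)).cast (by norm_num)
      (by field_simp)
  have hu := du.ne H one_ne_zero
  obtain ⟨q, mq, hq⟩ := H.appr ((ι s₂ - N 0 0 * N 0 1) / N 0 0 ^ 2)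
  have hN' : (N * up q).det = 1 := by rw [det_mul, hN]; simp [up, det_fin_two]
  have a₀ : (N * up q) 0 0 = N 0 0 := by simp [up, mul_apply, Fin.sum_univ_two]
  have a₁ : (N * up q) 1 0 = N 1 0 := by simp [up, mul_apply, Fin.sum_univ_two]
  have a₂ : (N * up q) 0 1 = N 0 0 * q + N 0 1 := by simp [up, mul_apply, Fin.sum_univ_two]
  have hd := decomp (N * up q) hN' (a₀ ▸ hu)
  rw [a₀, a₁, a₂] at hd
  refine ⟨X, Y, N 0 0, N 1 0 / N 0 0, N 0 0 * (N 0 0 * q + N 0 1), mX, mY, dX, dY, du, ?_, ?_, ?_⟩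
  · rw [div_eq_mul_inv]
    exact (dw.mul H (du.inv H one_ne_zero)).cast (by norm_num) (by simp)
  · have e : N 0 0 * (N 0 0 * q + N 0 1) - ι s₂ * t ^ (0 : ℤ) =
        -(((ι s₂ - N 0 0 * N 0 1) / N 0 0 ^ 2 - q) * N 0 0 ^ 2) := by
      field_simp
      ring
    have h1 : v (N 0 0 ^ 2) ≤ 1 := by
      rw [(du.pow H 2).val H (by simp)]
      exact zpow_le_one_of_nonpos₀ H.big.le (by norm_num)
    unfold Ld
    rw [e, v.map_neg, map_mul, zpow_zero, map_one]
    exact lt_of_le_of_lt (mul_le_of_le_one_right' h1) hq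
  · rintro ⟨i, j⟩
    rw [Matrix.mul_assoc, hd, ← Matrix.mul_assoc]
    rw [pk, Matrix.mul_apply, Fin.sum_univ_two]
    refine add_mem (mul_mem (hP _ _) ?_) (mul_mem (hP _ _) ?_) <;> fin_cases j <;>
      simp [up, mq]

/-- the inequality in an abstract valued field -/
theorem main [CharZero L] (h : WStmt) {S : Type} [CommRing S]
    (φ : S →+* L) (hφ : Function.Injective φ) (H : Ctx v ι t P) (hh : (hf : E) ∈ P)
    {a b : S} (ha : a ≠ 0) (hb : b ≠ 0) {Ξ : MvPolynomial Kv (MvPolynomial (Fin 2) S)} {M : ℤ}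
    (hΞ : IsWeightedHomogeneous wt Ξ M) {Ψ : MvPolynomial (Fin 2) (MvPolynomial (Fin 2) S)}
    {R : ℕ} (hΨ : Ψ ≠ 0) (hyp : ∀ x y s₁ s₂ : E, 1 - (ι.comp φ b * y) ^ 2 ≠ 0 →
      eval₂ (eval₂Hom (ι.comp φ) ![s₁, s₂]) ![x, y] Ψ =
        (1 - (ι.comp φ b * y) ^ 2) ^ R * eval₂ (eval₂Hom (ι.comp φ) ![x, y])
          (pk (gm (ι.comp φ a * x) (ι.comp φ b * y) * (um s₁ * up s₂))) Ξ) :
    M + 4 * R ≤ 2 * (Ψ.totalDegree : ℤ) := by
  have ha' : φ a ≠ 0 := fun e => ha (hφ (by simpa using e))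
  have hb' : φ b ≠ 0 := fun e => hb (hφ (by simpa using e))
  obtain ⟨s, β, hβ, he, htop⟩ := generic φ hφ (a := φ a) hb' hΨ
  have hb2 := mul_ne_zero hb' hβ
  obtain ⟨X, Y, u, σ₁, σ₂, mX, mY, dX, dY, du, d₁, d₂, hK⟩ := curve H hh (s 1) hb2 he
  have eX : ι.comp φ a * (ι (φ a)⁻¹ * X) = X := by
    rw [RingHom.comp_apply, ← mul_assoc, ← map_mul, mul_inv_cancel₀ ha', map_one, one_mul]
  have eY : ι.comp φ b * (ι (φ b)⁻¹ * Y) = Y := by
    rw [RingHom.comp_apply, ← mul_assoc, ← map_mul, mul_inv_cancel₀ hb', map_one, one_mul]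
  have dn : Ld v ι t (1 - Y ^ 2) 4 (-(φ b * β 1) ^ 2) := by
    have := (Ld.const (v := v) (ι := ι) (t := t) 1).addr H (dY.pow H 2).neg (by norm_num)
    rw [map_one, ← sub_eq_add_neg] at this
    exact this.cast (by norm_num) rfl
  have hn : -(φ b * β 1) ^ 2 ≠ 0 := neg_ne_zero.2 (pow_ne_zero _ hb2)
  have key := hyp (ι (φ a)⁻¹ * X) (ι (φ b)⁻¹ * Y) σ₁ σ₂ (by rw [eY]; exact dn.ne H hn)
  rw [eX, eY] at key
  have hu := du.ne H one_ne_zero
  have hw := h.eval_hom _ E (eval₂Hom (ι.comp φ) ![ι (φ a)⁻¹ * X, ι (φ b)⁻¹ * Y])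
    (gm X Y * (um σ₁ * up σ₂)) u hu Ξ M hΞ
  have hmem : eval₂ (eval₂Hom (ι.comp φ) ![ι (φ a)⁻¹ * X, ι (φ b)⁻¹ * Y])
      (pk (gm X Y * (um σ₁ * up σ₂) * tor u)) Ξ ∈ P := by
    refine eval₂_mem (fun η _ => ?_) hK
    rw [coe_eval₂Hom]
    refine eval₂_mem (fun _ _ => H.cmem (φ _)) fun i => ?_
    fin_cases i
    · exact mul_mem (H.cmem _) mX
    · exact mul_mem (H.cmem _) mY
  have hl := Ld.top H φ (σ := ![σ₁, σ₂]) (x := ![ι (φ a)⁻¹ * X, ι (φ b)⁻¹ * Y]) (s := s) (β := β)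
    (fun i => by
      fin_cases i
      · exact d₁
      · exact d₂)
    (fun i => by
      fin_cases i
      · exact ((Ld.const _).mul H dX).cast (by norm_num) (inv_mul_cancel_left₀ ha' _)
      · exact ((Ld.const _).mul H dY).cast (by norm_num) (inv_mul_cancel_left₀ hb' _)) Ψ
  have hv := hl.val H htop
  have hne := hl.ne H htop
  rw [key] at hv hne
  have hge := H.ge _ hmem (by
    rw [hw]; exact mul_ne_zero (zpow_ne_zero _ hu) (right_ne_zero_of_mul hne))
  rw [hw, map_mul, map_zpow₀, du.val H one_ne_zero] at hge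
  rw [map_mul, map_pow, dn.val H hn] at hv
  have hp := H.pos
  have h3 : v t ^ (M + 4 * R) ≤ v t ^ (2 * (Ψ.totalDegree : ℤ)) := by
    rw [← hv, add_comm, zpow_add₀ hp.ne', ← zpow_natCast, ← _root_.zpow_mul]
    refine mul_le_mul' le_rfl ?_
    rw [← _root_.zpow_mul, neg_one_mul, _root_.zpow_neg] at hge
    exact (one_le_inv_mul₀ (zpow_pos hp M)).1 hge
  exact (zpow_le_zpow_iff_right₀ H.big).1 h3

end

end E1P

theorem e1 (h : WStmt) : E1Stmt := by
  intro S _ _ _ a b ha hb Ξ M hΞ Ψ R hΨ hyp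
  classical
  let L := FractionRing S
  have : CharZero L := charZero_of_injective_algebraMap (algebraMap ℂ L).injective
  let : Algebra ℂ (RatFunc L) := (RatFunc.C.comp (algebraMap ℂ L)).toAlgebra
  let j : S →ₐ[ℂ] RatFunc L :=
    { RatFunc.C.comp (algebraMap S L) with
      commutes' := fun c => congrArg RatFunc.C (IsScalarTower.algebraMap_apply ℂ S L c).symm }
  have H := E1P.ctx_ratFunc L
  exact E1P.main h (algebraMap S L) (IsFractionRing.injective S L) H
    (H.cmem (algebraMap ℂ L (1 / 2))) ha hb hΞ hΨ (hyp (RatFunc L) j)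

end Pool.Agent.MP_0f1eb7_ag.Cyl

end
end MrgPart3

-- ======== part 4: formerly Pool.Agent.MP_0f1eb7_ag.cyl.PrepA
section MrgPart4

/-! Top homogeneous components and slices, for the preparation step. -/

set_option autoImplicit false

noncomputable section

namespace Pool.Agent.MP_0f1eb7_ag.Cyl

open MvPolynomial Matrix

namespace PrepP

section Top
variable {R S τ τ' : Type} [CommRing R] [CommRing S]

/-- `φ` has degree at most `n` and its part of degree `n` is `ψ` -/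
def Tp (n : ℕ) (φ ψ : MvPolynomial τ S) : Prop :=
  φ.totalDegree ≤ n ∧ homogeneousComponent n φ = ψ

theorem deg_le {φ : MvPolynomial τ S} {n : ℕ} (h : φ.totalDegree ≤ n) {η : τ →₀ ℕ}
    (h0 : coeff η φ ≠ 0) : η.degree ≤ n :=
  (le_totalDegree (mem_support_iff.2 h0)).trans h

theorem Tp.mul {n n' : ℕ} {φ ψ φ' ψ' : MvPolynomial τ S} (h : Tp n φ ψ) (h' : Tp n' φ' ψ') :
    Tp (n + n') (φ * φ') (ψ * ψ') := by
  classical
  refine ⟨(totalDegree_mul _ _).trans (add_le_add h.1 h'.1), ?_⟩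
  rw [← h.2, ← h'.2]
  ext η
  rw [coeff_homogeneousComponent, coeff_mul, coeff_mul]
  simp only [coeff_homogeneousComponent]
  have key : ∀ x ∈ Finset.HasAntidiagonal.antidiagonal η,
      (if x.1.degree = n then coeff x.1 φ else 0) * (if x.2.degree = n' then coeff x.2 φ' else 0) =
      if η.degree = n + n' then coeff x.1 φ * coeff x.2 φ' else 0 := by
    intro x hx
    have e : η.degree = x.1.degree + x.2.degree := by
      rw [← Finset.HasAntidiagonal.mem_antidiagonal.1 hx, map_add]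
    by_cases h1 : coeff x.1 φ = 0
    · simp [h1]
    by_cases h2 : coeff x.2 φ' = 0
    · simp [h2]
    have l1 := deg_le h.1 h1
    have l2 := deg_le h'.1 h2
    by_cases a : x.1.degree = n <;> by_cases b : x.2.degree = n'
    · rw [if_pos a, if_pos b, if_pos (by omega)]
    · rw [if_neg b, mul_zero, if_neg (by omega)]
    · rw [if_neg a, zero_mul, if_neg (by omega)]
    · rw [if_neg a, zero_mul, if_neg (by omega)]
  rw [Finset.sum_congr rfl key]
  split_ifs <;> simp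

theorem Tp.pow {n : ℕ} {φ ψ : MvPolynomial τ S} (h : Tp n φ ψ) (a : ℕ) :
    Tp (a * n) (φ ^ a) (ψ ^ a) := by
  induction a with
  | zero => exact ⟨by simp, by simp⟩
  | succ a ih => rw [Nat.succ_mul, pow_succ, pow_succ]; exact ih.mul h

theorem Tp.one_sub {n : ℕ} (hn : n ≠ 0) {φ : MvPolynomial τ S} (h : φ.IsHomogeneous n) :
    Tp n (1 - φ) (-φ) := by
  refine ⟨(totalDegree_sub _ _).trans (max_le (by simp) h.totalDegree_le), ?_⟩
  rw [map_sub, homogeneousComponent_eq_self h,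
    homogeneousComponent_of_mem (isHomogeneous_one τ S), if_neg hn, zero_sub]

theorem Tp.sum [Algebra ℂ S] {n m : ℕ} (c : Fin m → ℂ) {φ ψ : Fin m → MvPolynomial τ S}
    (h : ∀ i, Tp n (φ i) (ψ i)) : Tp n (∑ i, c i • φ i) (∑ i, c i • ψ i) := by
  refine ⟨totalDegree_finsetSum_le fun i _ => (totalDegree_smul_le _ _).trans (h i).1, ?_⟩
  rw [map_sum]
  exact Finset.sum_congr rfl fun i _ => by rw [LinearMap.map_smul_of_tower, (h i).2]

theorem hc_eval₂ (f : R →+* MvPolynomial τ' S) (g : τ → MvPolynomial τ' S)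
    (hf : ∀ r, (f r).IsHomogeneous 0) (hg : ∀ t, (g t).IsHomogeneous 1) (n : ℕ)
    (p : MvPolynomial τ R) :
    homogeneousComponent n (eval₂ f g p) = eval₂ f g (homogeneousComponent n p) := by
  induction p using MvPolynomial.induction_on' with
  | monomial d c =>
    have h1 := isHomogeneous_monomial (σ := τ) c (rfl : d.degree = _)
    have h2 := h1.eval₂ f g hf hg
    rw [one_mul] at h2
    rw [homogeneousComponent_of_mem h1, homogeneousComponent_of_mem h2]
    split_ifs <;> simp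
  | add p q hp hq => rw [eval₂_add, map_add, map_add, eval₂_add, hp, hq]

theorem Tp.eval₂ (f : R →+* MvPolynomial τ' S) (g : τ → MvPolynomial τ' S)
    (hf : ∀ r, (f r).IsHomogeneous 0) (hg : ∀ t, (g t).IsHomogeneous 1) {n : ℕ}
    {p : MvPolynomial τ R} (hp : p.totalDegree ≤ n) :
    Tp n (eval₂ f g p) (eval₂ f g (homogeneousComponent n p)) := by
  refine ⟨Finset.sup_le fun η hη => ?_, hc_eval₂ f g hf hg n p⟩
  by_contra hlt
  have e := congrArg (coeff η) (hc_eval₂ f g hf hg η.degree p)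
  rw [coeff_homogeneousComponent, if_pos rfl,
    homogeneousComponent_eq_zero η.degree p (lt_of_le_of_lt hp (not_le.1 hlt)), eval₂_zero,
    coeff_zero] at e
  exact mem_support_iff.1 hη e

theorem lin_hom (A B : M3 S) (t : I9) :
    (pt (A.map C * diagonal X * B.map C : M3 (MvPolynomial (Fin 3) S)) t).IsHomogeneous 1 := by
  simp only [pt]
  rw [mul_apply]
  refine IsHomogeneous.sum _ _ _ fun l _ => ?_
  rw [mul_diagonal, map_apply, map_apply]
  simpa using ((isHomogeneous_C (Fin 3) (A t.1 l)).mul (isHomogeneous_X S l)).mul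
    (isHomogeneous_C (Fin 3) (B l t.2))

theorem yy_hom (c : ℤ) :
    (yy c (diagonal X : M3 (MvPolynomial (Fin 3) S))).IsHomogeneous (12 * NN) := by
  have e := zz_diagonal (X : Fin 3 → MvPolynomial (Fin 3) S)
  have e0 : z2 (diagonal X : M3 (MvPolynomial (Fin 3) S)) = X 0 ^ 2 + X 1 ^ 2 + X 2 ^ 2 :=
    congrFun e 0
  have e2 : zt (diagonal X : M3 (MvPolynomial (Fin 3) S)) = X 0 ^ 2 * X 1 ^ 2 * X 2 ^ 2 :=
    congrFun e 2
  have hx : ∀ i : Fin 3, (X i ^ 2 : MvPolynomial (Fin 3) S).IsHomogeneous 2 := fun i =>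
    (isHomogeneous_X S i).pow 2
  have h3 : ((c : MvPolynomial (Fin 3) S) * (X 0 ^ 2 + X 1 ^ 2 + X 2 ^ 2) ^ 3).IsHomogeneous 6 := by
    have := (isHomogeneous_C (Fin 3) (c : S)).mul ((((hx 0).add (hx 1)).add (hx 2)).pow 3)
    rwa [map_intCast] at this
  rw [yy, e0, e2, show 12 * NN = 6 * (2 * NN) by ring]
  exact ((((hx 0).mul (hx 1)).mul (hx 2)).sub h3).pow _

end Top

section Slice
variable {R S : Type} [CommRing R] [CommRing S] [Algebra ℂ R] [Algebra ℂ S]

/-- a complex matrix read in `R` -/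
def cmx (R : Type) [CommRing R] [Algebra ℂ R] (k : M2 ℂ) : M2 R := k.map (Algebra.ofId ℂ R)

theorem cmx_map (φ : R →ₐ[ℂ] S) (k : M2 ℂ) : (cmx R k).map φ = cmx S k := by
  ext i j; exact φ.commutes _

theorem det_cmx {k : M2 ℂ} (h : k.det = 1) : (cmx R k).det = 1 := by
  have := (Algebra.ofId ℂ R : ℂ →+* R).map_det k
  rw [h, map_one] at this
  exact this.symm

/-- the point `Ad (K * k₁) * diagonal σ * (Ad k₂)ᵀ` -/
def sl (K : M2 R) (k₁ k₂ : M2 ℂ) (σ : Fin 3 → R) : M3 R :=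
  Ad (K * cmx R k₁) * diagonal σ * (Ad (cmx R k₂))ᵀ

theorem sl_map (φ : R →ₐ[ℂ] S) (K : M2 R) (k₁ k₂ : M2 ℂ) (σ : Fin 3 → R) :
    (sl K k₁ k₂ σ).map φ = sl (K.map φ) k₁ k₂ fun i => φ (σ i) := by
  rw [sl, sl, Matrix.map_mul, Matrix.map_mul, transpose_map, ← Ad_map, ← Ad_map, Matrix.map_mul,
    cmx_map, cmx_map, diagonal_map (map_zero φ)]

theorem sl_mul (K' K : M2 R) (k₁ k₂ : M2 ℂ) (σ : Fin 3 → R) :
    Ad K' * sl K k₁ k₂ σ = sl (K' * K) k₁ k₂ σ := by
  simp only [sl, Ad_mul, Matrix.mul_assoc]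

theorem xx_sl {K : M2 R} {k₁ k₂ : M2 ℂ} (h : K.det = 1) (h₁ : k₁.det = 1) (h₂ : k₂.det = 1)
    (σ : Fin 3 → R) : xx (sl K k₁ k₂ σ) = xx (diagonal σ) :=
  xx_act (isSO_Ad (by rw [det_mul, h, det_cmx h₁, one_mul])) (isSO_Ad (det_cmx h₂)) _

theorem yy_sl {K : M2 R} {k₁ k₂ : M2 ℂ} (h : K.det = 1) (h₁ : k₁.det = 1) (h₂ : k₂.det = 1)
    (c : ℤ) (σ : Fin 3 → R) : yy c (sl K k₁ k₂ σ) = yy c (diagonal σ) :=
  yy_act (isSO_Ad (by rw [det_mul, h, det_cmx h₁, one_mul])) (isSO_Ad (det_cmx h₂)) _ _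

theorem sl_hom (K : M2 S) (k₁ k₂ : M2 ℂ) (t : I9) :
    (pt (sl (K.map (C : S →+* MvPolynomial (Fin 3) S)) k₁ k₂ X) t).IsHomogeneous 1 := by
  let φ : S →ₐ[ℂ] MvPolynomial (Fin 3) S := IsScalarTower.toAlgHom ℂ S _
  have e : sl (K.map (C : S →+* MvPolynomial (Fin 3) S)) k₁ k₂ X =
      (Ad (K * cmx S k₁)).map φ * diagonal X * ((Ad (cmx S k₂))ᵀ).map φ := by
    rw [transpose_map, ← Ad_map, ← Ad_map, Matrix.map_mul, cmx_map, cmx_map]
    rfl
  rw [e]
  exact lin_hom _ _ t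

/-- the matrix `um t₁ * up t₂ * tor l` -/
def kt (t₁ t₂ : R) (l : ℂ) : M2 R := um t₁ * up t₂ * cmx R (tor l)

theorem det_kt (t₁ t₂ : R) {l : ℂ} (hl : l ≠ 0) : (kt t₁ t₂ l).det = 1 := by
  rw [kt, det_mul, det_mul, det_um, det_up, det_cmx (det_tor hl), one_mul, one_mul]

theorem kt_map (φ : R →ₐ[ℂ] S) (t₁ t₂ : R) (l : ℂ) : (kt t₁ t₂ l).map φ = kt (φ t₁) (φ t₂) l := by
  have e1 : (um t₁).map φ = um (φ t₁) := by
    ext i j; fin_cases i <;> fin_cases j <;> simp [um]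
  have e2 : (up t₂).map φ = up (φ t₂) := by
    ext i j; fin_cases i <;> fin_cases j <;> simp [up]
  rw [kt, Matrix.map_mul, Matrix.map_mul, e1, e2, cmx_map, kt]

theorem diag_map (φ : R →ₐ[ℂ] S) (σ : Fin 3 → R) :
    (diagonal σ).map φ = diagonal fun i => φ (σ i) := diagonal_map (map_zero φ)

end Slice

end PrepP

end Pool.Agent.MP_0f1eb7_ag.Cyl

end
end MrgPart4

-- ======== part 5: formerly Pool.Agent.MP_0f1eb7_ag.cyl.Prep
section MrgPart5

/-! The preparation step of the charge estimate. -/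

set_option autoImplicit false

noncomputable section

namespace Pool.Agent.MP_0f1eb7_ag.Cyl

open MvPolynomial Matrix

namespace PrepP

abbrev TT (τ : Type) := MvPolynomial (Fin 3) (MvPolynomial τ Rt)

def rr (τ : Type) (j : Fin 4) : TT τ := C (C (X j))

section Ev
variable {τ E : Type} [CommRing E] [Algebra ℂ E]

def ps (ρ : Fin 4 → E) (x : τ → E) (σ : Fin 3 → E) : TT τ →ₐ[ℂ] E :=
  aevalTower (aevalTower (aeval ρ) x) σ

theorem ps_eq (ρ : Fin 4 → E) (x : τ → E) (σ : Fin 3 → E) (F : TT τ) :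
    eval₂ (eval₂Hom (aeval ρ : Rt →ₐ[ℂ] E) x) σ F = ps ρ x σ F := rfl

theorem ps_rr (ρ : Fin 4 → E) (x : τ → E) (σ : Fin 3 → E) (j : Fin 4) :
    ps ρ x σ (rr τ j) = ρ j := by simp [ps, rr]

theorem ps_X (ρ : Fin 4 → E) (x : τ → E) (σ : Fin 3 → E) (i : Fin 3) :
    ps ρ x σ (X i) = σ i := by simp [ps]

theorem ps_CX (ρ : Fin 4 → E) (x : τ → E) (σ : Fin 3 → E) (t : τ) :
    ps ρ x σ (C (X t)) = x t := by simp [ps]

theorem ps_diag (ρ : Fin 4 → E) (x : τ → E) (σ : Fin 3 → E) :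
    (diagonal X : M3 (TT τ)).map (ps ρ x σ) = diagonal σ := by
  refine (diag_map (R := TT τ) (ps ρ x σ) X).trans ?_
  simp only [ps_X]

theorem ps_tsub (h1 : WStmt) (ρ : Fin 4 → E) (K : M2 E) (σ : Fin 3 → E) (l : ℂ) (F : TT Kv) :
    ps ρ (pk K) σ (map (tsub l : MvPolynomial Kv Rt →ₐ[Rt] MvPolynomial Kv Rt) F) =
      ps ρ (pk (K * cmx E (tor l))) σ F := by
  rw [← ps_eq, ← ps_eq, eval₂_map]
  congr 1
  exact RingHom.ext fun G => h1.eval_tsub Rt E (aeval ρ) K l G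

end Ev

theorem exists_F0 (c : ℤ) (i₃ i₄ : Fin 4) (k₁ k₂ : M2 ℂ) (f : Ap) : ∃ r₀ : ℕ, ∀ r ≥ r₀,
    ∃ F₀ : TT Kv, ∀ (E : Type) [Field E] [Algebra ℂ E] (ρ : Fin 4 → E) (σ : Fin 3 → E) (K : M2 E),
      1 - (ρ i₄ * yy c (diagonal σ)) ^ 2 ≠ 0 →
      ps ρ (pk K) σ F₀ = (1 - (ρ i₄ * yy c (diagonal σ)) ^ 2) ^ (2 * r) * evA ρ (sl K k₁ k₂ σ *
        (Ad (gm (ρ i₃ * xx (diagonal σ)) (ρ i₄ * yy c (diagonal σ))))ᵀ) f := by
  obtain ⟨r₀, h⟩ := clear_den ((C : MvPolynomial Kv Rt →+* TT Kv).comp C)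
    (pt (sl ((Km : M2 (MvPolynomial Kv Rt)).map C) k₁ k₂ X *
      (Ad (gt (rr Kv i₃ * xx (diagonal X)) (rr Kv i₄ * yy c (diagonal X))))ᵀ))
    ((1 - (rr Kv i₄ * yy c (diagonal X)) ^ 2) ^ 2) f
  refine ⟨r₀, fun r hr => ?_⟩
  obtain ⟨F₀, e⟩ := h r hr
  refine ⟨F₀, fun E _ _ ρ σ K hn => ?_⟩
  have ey : ps ρ (pk K) σ (rr Kv i₄ * yy c (diagonal X)) = ρ i₄ * yy c (diagonal σ) := by
    rw [map_mul, ps_rr, ← yy_map, ps_diag]
  have ex : ps ρ (pk K) σ (rr Kv i₃ * xx (diagonal X)) = ρ i₃ * xx (diagonal σ) := by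
    rw [map_mul, ps_rr, ← xx_map, ps_diag]
  have en : (ps ρ (pk K) σ : TT Kv →+* E) ((1 - (rr Kv i₄ * yy c (diagonal X)) ^ 2) ^ 2) =
      (1 - (ρ i₄ * yy c (diagonal σ)) ^ 2) ^ 2 := by
    rw [RingHom.coe_coe, map_pow, map_sub, map_one, map_pow, ey]
  have eK : ((Km : M2 (MvPolynomial Kv Rt)).map C).map (ps ρ (pk K) σ) = K := by
    ext i j : 2
    exact ps_CX ρ (pk K) σ (i, j)
  have eW : (sl ((Km : M2 (MvPolynomial Kv Rt)).map C) k₁ k₂ X *
      (Ad (gt (rr Kv i₃ * xx (diagonal X)) (rr Kv i₄ * yy c (diagonal X))))ᵀ).map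
      (ps ρ (pk K) σ) = sl K k₁ k₂ σ *
        (Ad (gt (ρ i₃ * xx (diagonal σ)) (ρ i₄ * yy c (diagonal σ))))ᵀ := by
    rw [Matrix.map_mul, sl_map, eK, transpose_map, ← Ad_map, gt_map, ex, ey]
    simp only [ps_X]
  have e1 := e E (ps ρ (pk K) σ : TT Kv →+* E) (by rw [en]; exact pow_ne_zero _ hn)
  rw [en, RingHom.coe_coe, ← pow_mul] at e1
  rw [e1]
  congr 1
  show _ = eval₂ ((aeval ρ : Rt →ₐ[ℂ] E) : Rt →+* E) _ f
  congr 1
  · exact RingHom.ext fun a => by simp [ps]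
  · funext t
    have e2 := congrFun (congrFun eW t.1) t.2
    rw [map_apply] at e2
    rw [gm, Ad_smul, transpose_smul, Matrix.mul_smul]
    simp only [pt, Matrix.smul_apply, smul_eq_mul]
    rw [e2, div_eq_inv_mul, inv_pow]

theorem tw_sl {E : Type} [Field E] [Algebra ℂ E] (c : ℤ) (a b a' b' : E) {K : M2 E} {k₁ k₂ : M2 ℂ}
    (h : K.det = 1) (h₁ : k₁.det = 1) (h₂ : k₂.det = 1) (σ : Fin 3 → E) :
    nn c b b' (sl K k₁ k₂ σ) = nn c b b' (diagonal σ) ∧ tw c a b a' b' (sl K k₁ k₂ σ) =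
      sl (gm (a * xx (diagonal σ)) (b * yy c (diagonal σ)) * K) k₁ k₂ σ *
        (Ad (gm (a' * xx (diagonal σ)) (b' * yy (-c) (diagonal σ))))ᵀ := by
  rw [nn, tw, xx_sl h h₁ h₂, yy_sl h h₁ h₂, yy_sl h h₁ h₂, sl_mul]
  exact ⟨rfl, rfl⟩

theorem ALead.zero {τ : Type} (κ : Fin 4 →₀ ℕ) : ALead (0 : MvPolynomial τ Rt) κ 0 :=
  fun η => ⟨by simp, by simp⟩

theorem alead_sum (h2 : ALeadStmt) {τ : Type} {m : ℕ} (c : Fin m → ℂ) {κ : Fin 4 →₀ ℕ}
    {φ : Fin m → MvPolynomial τ Rt} {ψ : Fin m → MvPolynomial τ ℂ}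
    (h : ∀ i, ALead (φ i) κ (ψ i)) : ALead (∑ i, c i • φ i) κ (∑ i, c i • ψ i) := by
  classical
  induction (Finset.univ : Finset (Fin m)) using Finset.induction_on with
  | empty => exact ALead.zero κ
  | insert a s ha ih =>
    rw [Finset.sum_insert ha, Finset.sum_insert ha]
    exact h2.add (h2.smul _ (h a)) ih

theorem alead_pow (h2 : ALeadStmt) {τ : Type} {κ : Fin 4 →₀ ℕ} {φ : MvPolynomial τ Rt}
    {ψ : MvPolynomial τ ℂ} (h : ALead φ κ ψ) (a : ℕ) : ALead (φ ^ a) (a • κ) (ψ ^ a) := by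
  induction a with
  | zero => simpa using h2.const (1 : MvPolynomial τ ℂ)
  | succ a ih => rw [pow_succ, pow_succ, succ_nsmul]; exact h2.mul ih h

theorem lam_eq (h1 : WStmt) (M : ℤ) (h : Py) (s₁ s₂ : ℂ) (k₁ k₂ : M2 ℂ) {m : ℕ} (c l : Fin m → ℂ)
    (hc : weightedHomogeneousComponent wt M (orb h) = ∑ i, c i • tsub (l i) (orb h)) :
    lam M h s₁ s₂ k₁ k₂ = ∑ i, c i • aeval (pt (sl (kt (C s₁) (C s₂) (l i)) k₁ k₂
      (X : Fin 3 → MvPolynomial (Fin 3) ℂ))) h := by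
  let φ : Py →ₐ[ℂ] MvPolynomial (Fin 3) ℂ := aeval (pt (slc k₁ k₂))
  let K : M2 (MvPolynomial (Fin 3) ℂ) := um (C s₁) * up (C s₂)
  have e0 : ∀ G : MvPolynomial Kv Py, φ (eval (fun t => C (pk (um s₁ * up s₂) t)) G) =
      aevalTower φ (pk K) G := by
    intro G
    induction G using MvPolynomial.induction_on with
    | C a => simp
    | add p q hp hq => simp only [map_add, hp, hq]
    | mul_X p t hp =>
      rw [map_mul, map_mul, map_mul, hp, eval_X, aevalTower_X, algHom_C]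
      congr 1
      obtain ⟨i, j⟩ := t
      fin_cases i <;> fin_cases j <;> simp [K, pk, um, up]
  have eY : (Ym : M3 Py).map φ = sl 1 k₁ k₂ X := by
    have : (Ym : M3 Py).map φ = slc k₁ k₂ := by
      ext i j : 2
      simp [φ, Ym, pt]
    rw [this, sl, Matrix.one_mul, cmx, cmx, Ad_map, Ad_map]
    rfl
  show φ (eval (fun t => C (pk (um s₁ * up s₂) t)) _) = _
  rw [e0, hc, map_sum]
  refine Finset.sum_congr rfl fun i _ => ?_
  rw [map_smul]
  congr 1
  refine (h1.eval_tsub Py _ φ K (l i) (orb h)).trans ?_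
  show aevalTower φ (pk (kt (C s₁) (C s₂) (l i))) (orb h) = _
  generalize kt (C s₁ : MvPolynomial (Fin 3) ℂ) (C s₂) (l i) = K'
  have e1 : (Km : M2 (MvPolynomial Kv Py)).map (aevalTower φ (pk K')) = K' := by
    ext i j : 2
    simp [Km, pk]
  have e2 : ((Ym : M3 Py).map (C : Py →+* MvPolynomial Kv Py)).map (aevalTower φ (pk K')) =
      sl 1 k₁ k₂ X := by
    rw [← eY]
    ext i j : 2
    simp
  have e3 : (Ad Km * (Ym : M3 Py).map (C : Py →+* MvPolynomial Kv Py)).map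
      (aevalTower φ (pk K')) = sl K' k₁ k₂ X := by
    rw [Matrix.map_mul, ← Ad_map, e1, e2, sl_mul, Matrix.mul_one]
  rw [orb, ← AlgHom.comp_apply, comp_aeval, ← e3]
  rfl

theorem aeval_CX {τ : Type} (b : Rt) :
    aeval (fun j => (C (X j) : MvPolynomial τ Rt)) b = C b := by
  induction b using MvPolynomial.induction_on with
  | C a => rw [aeval_C]; rfl
  | add p q hp hq => rw [map_add, map_add, hp, hq]
  | mul_X p t hp => rw [map_mul, map_mul, hp, aeval_X]

theorem aeval_rr {τ : Type} (b : Rt) : aeval (rr τ) b = C (C b) := by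
  induction b using MvPolynomial.induction_on with
  | C a => rw [aeval_C]; rfl
  | add p q hp hq => rw [map_add, map_add, map_add, hp, hq]
  | mul_X p t hp => rw [map_mul, map_mul, map_mul, hp, aeval_X, rr]

theorem map_eval_eq {τ : Type} (v : τ → Rt) (G : TT τ) :
    map (eval v) G = ps (fun j => (C (X j) : MvPolynomial (Fin 3) Rt)) (fun t => C (v t)) X G := by
  induction G using MvPolynomial.induction_on with
  | C a =>
    rw [map_C, ps, aevalTower_C]
    induction a using MvPolynomial.induction_on with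
    | C b => rw [eval_C, aevalTower_C, aeval_CX]
    | add p q hp hq => rw [map_add, map_add, map_add, hp, hq]
    | mul_X p t hp => rw [map_mul, map_mul, map_mul, hp, eval_X, aevalTower_X]
  | add p q hp hq => rw [map_add, map_add, hp, hq]
  | mul_X p t hp => rw [map_mul, map_mul, hp, map_X, ps_X]

/-- the generic point of the slice moved by `um t₁ * up t₂ * tor l` -/
def yg (l : ℂ) (k₁ k₂ : M2 ℂ) : M3 (TT (Fin 2)) :=
  sl ((kt (X 0) (X 1) l : M2 (MvPolynomial (Fin 2) Rt)).map C) k₁ k₂ X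

theorem ps_yg {E : Type} [CommRing E] [Algebra ℂ E] (ρ : Fin 4 → E) (x : Fin 2 → E)
    (σ : Fin 3 → E) (l : ℂ) (k₁ k₂ : M2 ℂ) (p : Ap) :
    ps ρ x σ (evA (rr _) (yg l k₁ k₂) p) = evA ρ (sl (kt (x 0) (x 1) l) k₁ k₂ σ) p := by
  have e : ((kt (X 0) (X 1) l : M2 (MvPolynomial (Fin 2) Rt)).map C).map (ps ρ x σ) =
      kt (x 0) (x 1) l := by
    have := kt_map (R := MvPolynomial (Fin 2) Rt) (aevalTower (aeval ρ) x) (X 0) (X 1) l
    rw [aevalTower_X, aevalTower_X] at this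
    rw [← this]
    ext i j : 2
    simp [ps]
  have e1 := sl_map (R := TT (Fin 2)) (ps ρ x σ)
    ((kt (X 0) (X 1) l : M2 (MvPolynomial (Fin 2) Rt)).map C) k₁ k₂ X
  rw [e] at e1
  refine (comp_evA (R := TT (Fin 2)) (ps ρ x σ) _ _ p).trans ?_
  rw [yg, e1]
  simp only [ps_rr, ps_X]

theorem tp_main (c : ℤ) (i : Fin 4) (k₁ k₂ : M2 ℂ) {m : ℕ} (cc l : Fin m → ℂ) (a : ℕ) {W : ℕ}
    {p : Ap} (hp : p.totalDegree ≤ W) :
    Tp (a * (24 * NN) + W) ((1 - (rr (Fin 2) i * yy c (diagonal X)) ^ 2) ^ a *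
      ∑ j, cc j • evA (rr _) (yg (l j) k₁ k₂) p) ((-(rr (Fin 2) i * yy c (diagonal X)) ^ 2) ^ a *
      ∑ j, cc j • evA (rr _) (yg (l j) k₁ k₂) (homogeneousComponent W p)) := by
  have hN : 24 * NN ≠ 0 := by rw [show NN = 60 from rfl]; norm_num
  have hY : ((rr (Fin 2) i * yy c (diagonal X)) ^ 2).IsHomogeneous (24 * NN) := by
    have := ((isHomogeneous_C (Fin 3) (C (X i) : MvPolynomial (Fin 2) Rt)).mul (yy_hom c)).pow 2
    rwa [show (0 + 12 * NN) * 2 = 24 * NN by ring] at this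
  refine ((Tp.one_sub hN hY).pow a).mul (Tp.sum cc fun j => ?_)
  refine Tp.eval₂ ((aeval (rr (Fin 2)) : Rt →ₐ[ℂ] TT (Fin 2)) : Rt →+* TT (Fin 2)) _
    (fun b => ?_) (sl_hom _ k₁ k₂) hp
  rw [RingHom.coe_coe, aeval_rr]
  exact isHomogeneous_C _ _

theorem evA_nat (y : M3 (MvPolynomial (Fin 3) ℂ)) (p : Ap) :
    evA (fun j => (C (X j) : MvPolynomial (Fin 3) Rt)) (y.map (mapAlgHom (Algebra.ofId ℂ Rt))) p =
      aeval (fun t => map (C : ℂ →+* Rt) (pt y t)) p := by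
  induction p using MvPolynomial.induction_on with
  | C a => rw [evA_C, aeval_CX, aeval_C]; rfl
  | add p q hp hq => rw [map_add, map_add, hp, hq]
  | mul_X p t hp => rw [map_mul, map_mul, hp, evA_X, aeval_X]; rfl

end PrepP

open PrepP in
theorem prep (h1 : WStmt) (h2 : ALeadStmt) : PrepStmt := by
  intro c i₁ i₂ i₃ i₄ h hlc M s₁ s₂ k₁ k₂ h₁ h₂
  obtain ⟨f, p, r, W, κ, H1, H2, H3⟩ := hlc
  obtain ⟨r₀, hF⟩ := exists_F0 (-c) i₃ i₄ k₁ k₂ f
  obtain ⟨F₀, hF₀⟩ := hF (r₀ + r) (Nat.le_add_right _ _)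
  obtain ⟨m, cc, l, hl, hi⟩ := h1.interp
    (max (F₀.support.sup fun η => (coeff η F₀).totalDegree) (orb h).totalDegree) M
  have hT := tp_main (-c) i₄ k₁ k₂ cc l (2 * r₀ + r) H2
  refine ⟨r, 2 * r + 2 * (2 * r₀ + r), _, (-1) ^ (2 * r₀ + r),
    (2 * r₀ + r) • (2 • Finsupp.single i₄ 1) + κ,
    ∑ i, cc i • MvPolynomial.map ((tsub (l i) : MvPolynomial Kv Rt →ₐ[Rt] MvPolynomial Kv Rt) :
      MvPolynomial Kv Rt →+* MvPolynomial Kv Rt) F₀, _,
    pow_ne_zero _ (by norm_num), fun η => ?_, fun E _ _ ρ σ t₁ t₂ hn => ?_, hT.1, ?_⟩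
  · have hd : (coeff η F₀).totalDegree ≤ F₀.support.sup fun η => (coeff η F₀).totalDegree := by
      by_cases h0 : η ∈ F₀.support
      · exact Finset.le_sup (f := fun η => (coeff η F₀).totalDegree) h0
      · rw [notMem_support_iff.1 h0, totalDegree_zero]; exact Nat.zero_le _
    have e := hi Rt (coeff η F₀) (hd.trans (le_max_left _ _))
    rw [coeff_sum]
    simp only [coeff_smul, coeff_map, RingHom.coe_coe]
    rw [← e]
    exact weightedHomogeneousComponent_isWeightedHomogeneous M _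
  · have hn2 : 1 - (ρ i₄ * yy (-c) (diagonal σ)) ^ 2 ≠ 0 := right_ne_zero_of_mul hn
    rw [ps_eq, ps_eq, map_mul, map_pow, map_sub, map_one, map_pow, map_mul, ps_rr, ← yy_map,
      ps_diag, map_sum, map_sum, Finset.mul_sum, Finset.mul_sum]
    refine Finset.sum_congr rfl fun i _ => ?_
    obtain ⟨e1, e2⟩ := tw_sl c (ρ i₁) (ρ i₂) (ρ i₃) (ρ i₄) (det_kt t₁ t₂ (hl i)) h₁ h₂ σ
    have e3 := H1 E ρ _ (by rw [e1]; exact hn)
    rw [e1, e2] at e3
    rw [map_smul, map_smul, ps_yg, ps_tsub h1, hF₀ E ρ σ _ hn2, Matrix.mul_assoc]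
    simp only [Matrix.cons_val_zero, Matrix.cons_val_one]
    rw [e3, kt, nn, mul_smul_comm, mul_smul_comm, mul_pow (1 - _)]
    congr 1
    ring
  · let μ : MvPolynomial (Fin 3) ℂ →ₐ[ℂ] MvPolynomial (Fin 3) Rt := mapAlgHom (Algebra.ofId ℂ Rt)
    let g : Fin m → M3 (MvPolynomial (Fin 3) ℂ) := fun i => sl (kt (C s₁) (C s₂) (l i)) k₁ k₂ X
    have eX : (fun i => μ (X i)) = X := funext fun i => map_X _ i
    have eg : ∀ i, (g i).map μ = sl (kt (C (C s₁)) (C (C s₂)) (l i)) k₁ k₂ X := fun i => by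
      rw [sl_map, kt_map, eX]
      congr 2 <;> exact map_C _ _
    have ed : yy (-c) (diagonal X : M3 (MvPolynomial (Fin 3) Rt)) =
        map (C : ℂ →+* Rt) (yy (-c) (diagonal X)) := by
      have := yy_map μ (-c) (diagonal X)
      rw [PrepP.diag_map, eX] at this
      exact this
    have ey : ∀ i (c : ℤ), aeval (pt (g i)) (yy c (Ym : M3 Py)) = yy c (diagonal X) := by
      intro i c
      have : (Ym : M3 Py).map (aeval (pt (g i)) : Py →ₐ[ℂ] _) = g i := by
        ext a b : 2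
        simp [Ym, pt]
      rw [← yy_map, this]
      exact yy_sl (det_kt _ _ (hl i)) h₁ h₂ c X
    have A1 := alead_pow h2 (h2.smul (-1) (alead_pow h2
      (h2.mul (h2.root i₄) (h2.const (yy (-c) (diagonal X : M3 (MvPolynomial (Fin 3) ℂ))))) 2))
      (2 * r₀ + r)
    have A2 := alead_sum h2 cc fun i => h2.nat (pt (g i)) H3
    have A3 := h2.mul A1 A2
    have eL : ∑ i, cc i • aeval (fun t => map (C : ℂ →+* Rt) (pt (g i) t))
        (homogeneousComponent W p) = ∑ i, ps (fun j => (C (X j) : MvPolynomial (Fin 3) Rt))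
          (fun t => C (![C s₁, C s₂] t)) X
          (cc i • evA (rr _) (yg (l i) k₁ k₂) (homogeneousComponent W p)) := by
      refine Finset.sum_congr rfl fun i _ => ?_
      rw [map_smul, ps_yg, ← evA_nat, eg]
      rfl
    have eR : ∑ i, cc i • aeval (pt (g i)) ((yy c Ym * yy (-c) Ym) ^ (2 * r) * h) =
        (yy c (diagonal X) * yy (-c) (diagonal X)) ^ (2 * r) * lam M h s₁ s₂ k₁ k₂ := by
      rw [lam_eq h1 M h s₁ s₂ k₁ k₂ cc l (hi Py _ (le_max_right _ _)), Finset.mul_sum]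
      refine Finset.sum_congr rfl fun i _ => ?_
      rw [map_mul, map_pow (aeval (pt (g i))), map_mul, ey, ey, mul_smul_comm]
    rw [eL, eR, neg_one_smul, neg_one_smul, add_zero, ← ed] at A3
    rw [hT.2, map_eval_eq, map_mul, map_pow, map_neg, map_pow, map_mul, ps_rr, ← yy_map, ps_diag,
      map_sum]
    convert A3 using 1
    rw [map_pow, map_neg, map_one, neg_pow (_ ^ 2)]
    ring

end Pool.Agent.MP_0f1eb7_ag.Cyl

end
end MrgPart5

-- ======== part 6: formerly Pool.Agent.MP_0f1eb7_ag.cyl.E2a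
section MrgPart6

/-! Tools for the charge estimate: norms, shifted symmetric functions, top forms. -/

set_option autoImplicit false

noncomputable section

namespace Pool.Agent.MP_0f1eb7_ag.Cyl.E2P

open MvPolynomial Matrix

abbrev SP := Equiv.Perm (Fin 3) × (Fin 3 → ℤˣ)
abbrev P3 (S : Type) [CommRing S] := MvPolynomial (Fin 3) S

theorem card_SP : Fintype.card SP = 48 := by
  simp [Fintype.card_prod, Fintype.card_perm, Fintype.card_units_int, Nat.factorial]

theorem two_NN_pos : 0 < 2 * NN := by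
  have : NN = 60 := rfl
  omega

section Sym
variable {R S : Type} [CommRing R] [CommRing S]

theorem sp_sq (w : SP) (s : Fin 3 → R) (i : Fin 3) : sp w s i ^ 2 = s (w.1 i) ^ 2 := by
  have : ((w.2 i : ℤ) : R) ^ 2 = 1 := by
    rcases Int.units_eq_one_or (w.2 i) with h | h <;> simp [h]
  rw [sp, mul_pow, this, one_mul]

theorem ee_sp (w : SP) (s : Fin 3 → R) : ee (sp w s) = ee s := by
  have h01 : w.1 0 ≠ w.1 1 := w.1.injective.ne (by decide)
  have h02 : w.1 0 ≠ w.1 2 := w.1.injective.ne (by decide)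
  have h12 : w.1 1 ≠ w.1 2 := w.1.injective.ne (by decide)
  funext i
  fin_cases i <;> simp only [ee, sp_sq] <;>
  · generalize w.1 0 = a at *
    generalize w.1 1 = b at *
    generalize w.1 2 = c at *
    fin_cases a <;> fin_cases b <;> fin_cases c <;>
      first
      | exact absurd rfl h01
      | exact absurd rfl h02
      | exact absurd rfl h12
      | rfl
      | (simp; ring)

theorem ees_sp (c : ℤ) (w : SP) (s : Fin 3 → R) : ees c (sp w s) = ees c s := by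
  simp only [ees, ee_sp]

theorem map_ees (φ : R →+* S) (c : ℤ) (s : Fin 3 → R) (i : Fin 3) :
    φ (ees c s i) = ees c (fun j => φ (s j)) i := by
  fin_cases i <;> simp [ees, ee]

theorem map_sp (φ : R →+* S) (w : SP) (s : Fin 3 → R) (i : Fin 3) :
    φ (sp w s i) = sp w (fun j => φ (s j)) i := by
  simp [sp]

theorem xx_diag (c : ℤ) (s : Fin 3 → R) : xx (diagonal s) = ees c s 1 ^ (3 * NN) := by
  have := congrFun (zz_diagonal s) 1
  simp only [zz, Matrix.cons_val_one, Matrix.cons_val_zero] at this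
  rw [xx, this]
  rfl

theorem yy_diag' (c : ℤ) (s : Fin 3 → R) :
    yy c (diagonal s) = (ee s 2 - (c : R) * ee s 0 ^ 3) ^ (2 * NN) := by
  have h0 : z2 (diagonal s) = ee s 0 := congrFun (zz_diagonal s) 0
  have h2 : zt (diagonal s) = ee s 2 := congrFun (zz_diagonal s) 2
  rw [yy, h0, h2]

theorem yy_diag (c : ℤ) (s : Fin 3 → R) : yy c (diagonal s) = ees c s 2 ^ (2 * NN) :=
  yy_diag' c s

theorem yy_neg_diag (c : ℤ) (s : Fin 3 → R) :
    yy (-c) (diagonal s) = (ees c s 2 + 2 * (c : R) * ees c s 0 ^ 3) ^ (2 * NN) := by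
  rw [yy_diag']
  congr 1
  show _ = (ee s 2 - (c : R) * ee s 0 ^ 3) + 2 * (c : R) * ee s 0 ^ 3
  push_cast
  ring

theorem map_yy_diag (φ : R →+* S) (c : ℤ) (s : Fin 3 → R) :
    φ (yy c (diagonal s)) = yy c (diagonal fun j => φ (s j)) := by
  rw [yy_diag, yy_diag, map_pow, map_ees]

/-- the substitution of the shifted symmetric functions -/
abbrev Th (S : Type) [CommRing S] (c : ℤ) : P3 S →ₐ[S] P3 S := aeval (ees c (X : Fin 3 → P3 S))

theorem Nm_eq (p : P3 S) : Nm p = ∏ w : SP, aeval (sp w (X : Fin 3 → P3 S)) p := rfl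

theorem ev_aeval {T : Type} [CommRing T] (χ : S →+* T) (σ : Fin 3 → T) (g : Fin 3 → P3 S)
    (p : P3 S) : eval₂ χ σ (aeval g p) = eval₂ χ (fun i => eval₂ χ σ (g i)) p :=
  eval₂Hom_bind₁ χ σ g p

theorem ev_Th {T : Type} [CommRing T] (χ : S →+* T) (σ : Fin 3 → T) (c : ℤ) (p : P3 S) :
    eval₂ χ σ (Th S c p) = eval₂ χ (ees c σ) p := by
  rw [ev_aeval]
  congr 1
  funext i
  have := map_ees (eval₂Hom χ σ) c (X : Fin 3 → P3 S) i
  simpa using this

theorem ev_Nm {T : Type} [CommRing T] (χ : S →+* T) (σ : Fin 3 → T) (p : P3 S) :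
    eval₂ χ σ (Nm p) = ∏ w : SP, eval₂ χ (sp w σ) p := by
  rw [Nm_eq, eval₂_prod]
  refine Finset.prod_congr rfl fun w _ => ?_
  rw [ev_aeval]
  congr 1
  funext i
  have := map_sp (eval₂Hom χ σ) w (X : Fin 3 → P3 S) i
  simpa using this

theorem map_aeval' (φ : R →+* S) (g : Fin 3 → P3 R) (p : P3 R) :
    map φ (aeval g p) = aeval (fun i => map φ (g i)) (map φ p) := map_bind₁ φ g p

theorem map_ees_X (φ : R →+* S) (c : ℤ) :
    (fun i => map φ (ees c (X : Fin 3 → P3 R) i)) = ees c X := by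
  funext i
  simpa using map_ees (map φ : P3 R →+* P3 S) c X i

theorem map_sp_X (φ : R →+* S) (w : SP) :
    (fun i => map φ (sp w (X : Fin 3 → P3 R) i)) = sp w X := by
  funext i
  simpa using map_sp (map φ : P3 R →+* P3 S) w X i

theorem map_Th (φ : R →+* S) (c : ℤ) (p : P3 R) : map φ (Th R c p) = Th S c (map φ p) := by
  rw [map_aeval', map_ees_X]

theorem map_Nm (φ : R →+* S) (p : P3 R) : map φ (Nm p) = Nm (map φ p) := by
  simp only [Nm_eq, map_prod, map_aeval', map_sp_X]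

theorem map_yy_X (φ : R →+* S) (c : ℤ) :
    map φ (yy c (diagonal (X : Fin 3 → P3 R))) = yy c (diagonal X) := by
  simpa using map_yy_diag (map φ : P3 R →+* P3 S) c X

theorem Nm_mul (p q : P3 S) : Nm (p * q) = Nm p * Nm q := by
  simp only [Nm_eq, map_mul, Finset.prod_mul_distrib]

theorem Nm_Th (c : ℤ) (u : P3 S) : Nm (Th S c u) = Th S c u ^ 48 := by
  have : ∀ w : SP, aeval (sp w (X : Fin 3 → P3 S)) (Th S c u) = Th S c u := by
    intro w
    rw [aeval_def, ev_Th, ees_sp, aeval_def]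
  simp only [Nm_eq, this, Finset.prod_const, Finset.card_univ, card_SP]

end Sym

section Top
variable {σ S : Type} [CommRing S]

/-- `p` has degree at most `D` and its form of degree `D` is `t` -/
def Tp (p : MvPolynomial σ S) (D : ℕ) (t : MvPolynomial σ S) : Prop :=
  p.totalDegree ≤ D ∧ homogeneousComponent D p = t

theorem Tp.one : Tp (1 : MvPolynomial σ S) 0 1 :=
  ⟨totalDegree_one.le, homogeneousComponent_eq_self (isHomogeneous_one σ S)⟩

theorem Tp.mul {p q t u : MvPolynomial σ S} {D D' : ℕ} (h : Tp p D t) (h' : Tp q D' u) :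
    Tp (p * q) (D + D') (t * u) := by
  classical
  refine ⟨(totalDegree_mul p q).trans (add_le_add h.1 h'.1), ?_⟩
  rw [← h.2, ← h'.2]
  ext η
  simp only [coeff_homogeneousComponent, coeff_mul]
  have key : ∀ x ∈ Finset.HasAntidiagonal.antidiagonal η, x.1.degree + x.2.degree = η.degree := by
    intro x hx
    rw [← map_add, Finset.HasAntidiagonal.mem_antidiagonal.1 hx]
  split_ifs with hη
  · refine Finset.sum_congr rfl fun x hx => ?_
    have e := key x hx
    rcases lt_trichotomy x.1.degree D with l | l | l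
    · have : coeff x.2 q = 0 :=
        coeff_eq_zero_of_totalDegree_lt (lt_of_le_of_lt h'.1 (show D' < x.2.degree by omega))
      simp [this]
    · rw [if_pos l, if_pos (by omega)]
    · have : coeff x.1 p = 0 := coeff_eq_zero_of_totalDegree_lt (lt_of_le_of_lt h.1 l)
      simp [this]
  · refine (Finset.sum_eq_zero fun x hx => ?_).symm
    have e := key x hx
    by_cases l : x.1.degree = D
    · rw [if_neg (show ¬x.2.degree = D' by omega), mul_zero]
    · rw [if_neg l, zero_mul]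

theorem Tp.prod {α : Type} (s : Finset α) {p t : α → MvPolynomial σ S} {D : ℕ}
    (h : ∀ a, Tp (p a) D (t a)) : Tp (∏ a ∈ s, p a) (s.card * D) (∏ a ∈ s, t a) := by
  induction s using Finset.cons_induction with
  | empty => simpa using Tp.one
  | cons a s ha ih =>
    rw [Finset.prod_cons, Finset.prod_cons, Finset.card_cons, add_mul, one_mul, add_comm]
    exact (h a).mul ih

theorem Tp.pow {p t : MvPolynomial σ S} {D : ℕ} (h : Tp p D t) (n : ℕ) :
    Tp (p ^ n) (n * D) (t ^ n) := by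
  simpa using Tp.prod (Finset.range n) (p := fun _ => p) (t := fun _ => t) fun _ => h

theorem Tp.aeval {p t : MvPolynomial σ S} {D : ℕ} (h : Tp p D t) (g : σ → MvPolynomial σ S)
    (hg : ∀ i, (g i).IsHomogeneous 1) : Tp (aeval g p) D (aeval g t) := by
  have hh : ∀ n, (MvPolynomial.aeval g (homogeneousComponent n p)).IsHomogeneous n := by
    intro n
    simpa using (homogeneousComponent_isHomogeneous n p).aeval g hg
  have e : MvPolynomial.aeval g p =
      ∑ n ∈ Finset.range (p.totalDegree + 1), MvPolynomial.aeval g (homogeneousComponent n p) := by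
    rw [← map_sum, sum_homogeneousComponent]
  constructor
  · rw [e]
    refine totalDegree_finsetSum_le fun n hn => (hh n).totalDegree_le.trans ?_
    have := Finset.mem_range.1 hn
    have := h.1
    omega
  · rw [e, map_sum, ← h.2]
    simp only [fun n => homogeneousComponent_of_mem (m := D) (hh n), Finset.sum_ite_eq]
    split_ifs with hD
    · rfl
    · rw [homogeneousComponent_eq_zero _ _ (by simpa using hD), map_zero]

theorem Tp.Nm {p t : P3 S} {D : ℕ} (h : Tp p D t) : Tp (Nm p) (48 * D) (Nm t) := by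
  rw [Nm_eq, Nm_eq, ← card_SP, ← Finset.card_univ]
  refine Tp.prod _ fun w => h.aeval _ fun i => ?_
  have : sp w (X : Fin 3 → P3 S) i = C ((w.2 i : ℤ) : S) * X (w.1 i) := by simp [sp]
  rw [this]
  exact isHomogeneous_C_mul_X _ _

theorem Tp.one_sub {t : MvPolynomial σ S} {D : ℕ} (hD : 0 < D) (h : t.IsHomogeneous D) :
    Tp (1 - t) D (-t) := by
  constructor
  · refine (totalDegree_sub _ _).trans (max_le ?_ h.totalDegree_le)
    rw [totalDegree_one]
    exact Nat.zero_le _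
  · rw [map_sub, homogeneousComponent_eq_self h,
      homogeneousComponent_of_mem (isHomogeneous_one σ S), if_neg hD.ne', zero_sub]

theorem yy_hom (c : ℤ) : (yy c (diagonal (X : Fin 3 → P3 S))).IsHomogeneous (6 * (2 * NN)) := by
  rw [yy_diag']
  refine IsHomogeneous.pow ?_ _
  have h2 : ∀ i, (X i ^ 2 : P3 S).IsHomogeneous 2 := fun i => isHomogeneous_X_pow i 2
  refine IsHomogeneous.sub (((h2 0).mul (h2 1)).mul (h2 2)) ?_
  have h0 : (ee (X : Fin 3 → P3 S) 0).IsHomogeneous 2 := ((h2 0).add (h2 1)).add (h2 2)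
  have := (h0.pow 3).C_mul (c : S)
  rwa [map_intCast] at this

end Top

end Pool.Agent.MP_0f1eb7_ag.Cyl.E2P

end
end MrgPart6

-- ======== part 7: formerly Pool.Agent.MP_0f1eb7_ag.cyl.E2
section MrgPart7

/-! The charge estimate for the norm of a leading coefficient. -/

set_option autoImplicit false

noncomputable section

namespace Pool.Agent.MP_0f1eb7_ag.Cyl

open MvPolynomial Matrix

namespace E2P

abbrev RK := MvPolynomial Kv Rt
abbrev RS := MvPolynomial (Fin 2) Rt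

/-- a root times the invariant `yy` on the diagonal -/
def bY (c : ℤ) (j : Fin 4) : P3 RS :=
  C (C (X j : Rt) : RS) * yy c (diagonal (X : Fin 3 → P3 RS))

theorem map_bY {T : Type} [CommRing T] (φ : P3 RS →+* T) (c : ℤ) (j : Fin 4) :
    φ (bY c j) = φ (C (C (X j))) * yy c (diagonal fun i => φ (X i)) := by
  rw [bY, map_mul, map_yy_diag]

/-- the coefficients of the symmetrised norm have weight `48 M` -/
theorem weight_Xi (h1 : WStmt) (c : ℤ) (hinj : Function.Injective (Th RK c)) (F Ξ : P3 RK) (M : ℤ)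
    (hF : ∀ η, IsWeightedHomogeneous wt (coeff η F) M) (hΞ : Th RK c Ξ = Nm F) (η : Fin 3 →₀ ℕ) :
    IsWeightedHomogeneous wt (coeff η Ξ) (48 * M) := by
  let T : RK →+* RK := (tsub 2 : RK →ₐ[Rt] RK)
  let u : RK := algebraMap ℂ RK ((2 : ℂ) ^ M)
  have e1 : map T F = C u * F := by
    refine MvPolynomial.ext _ _ fun m => ?_
    rw [coeff_map, coeff_C_mul, ← Algebra.smul_def]
    exact (h1.eigen Rt _ M).1 (hF m)
  have eC : ∀ a : RK, Th RK c (C a) = C a := fun a => aeval_C _ a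
  have e2 : map T Ξ = C (u ^ 48) * Ξ := by
    apply hinj
    rw [← map_Th, hΞ, map_Nm, e1, Nm_mul, map_mul, eC, hΞ, ← eC u, Nm_Th, eC, map_pow]
  rw [h1.eigen Rt]
  have e3 := congrArg (coeff η) e2
  rw [coeff_map, coeff_C_mul, ← map_pow, ← Algebra.smul_def] at e3
  rw [mul_comm, _root_.zpow_mul]
  exact e3

/-- an identity that holds at all field valued points off the denominator holds -/
theorem ident (c : ℤ) (i₂ i₄ : Fin 4) (u v : P3 RS)
    (h : ∀ (E : Type) [Field E] [Algebra ℂ E] (ρ : Fin 4 → E) (σ : Fin 3 → E) (t₁ t₂ : E),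
      nn c (ρ i₂) (ρ i₄) (diagonal σ) ≠ 0 →
      eval₂ (eval₂Hom (aeval ρ : Rt →ₐ[ℂ] E) ![t₁, t₂]) σ u =
        eval₂ (eval₂Hom (aeval ρ : Rt →ₐ[ℂ] E) ![t₁, t₂]) σ v) : u = v := by
  let E := FractionRing (P3 RS)
  let ι : P3 RS →+* E := algebraMap (P3 RS) E
  have hι : Function.Injective ι := IsFractionRing.injective (P3 RS) E
  let ρ : Fin 4 → E := fun j => ι (C (C (X j)))
  let σ : Fin 3 → E := fun i => ι (X i)
  have hev : ∀ w : P3 RS,
      eval₂ (eval₂Hom (aeval ρ : Rt →ₐ[ℂ] E) ![ι (C (X 0)), ι (C (X 1))]) σ w = ι w := by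
    intro w
    have : eval₂Hom (eval₂Hom (aeval ρ : Rt →ₐ[ℂ] E) ![ι (C (X 0)), ι (C (X 1))]) σ = ι := by
      refine ringHom_ext' (ringHom_ext' (ringHom_ext' ?_ ?_) ?_) ?_
      · ext z
        simp only [RingHom.comp_apply, eval₂Hom_C, RingHom.coe_coe, algHom_C]
        exact IsScalarTower.algebraMap_apply ℂ (P3 RS) E z
      · intro j
        simp [ρ]
      · intro i
        fin_cases i <;> simp
      · intro i
        simp [σ]
    exact congrArg (fun g : P3 RS →+* E => g w) this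
  have hne : ∀ (c' : ℤ) (j : Fin 4), 1 - (ρ j * yy c' (diagonal σ)) ^ 2 ≠ 0 := by
    intro c' j h0
    have e : ι (1 - bY c' j ^ 2) = ι 0 := by
      rw [map_zero, ← h0, map_sub, map_one, map_pow, map_bY]
    have e' := congrArg (eval fun _ => (0 : RS)) (hι e)
    rw [map_zero, map_sub, map_one, map_pow, map_bY, yy_diag'] at e'
    simp [ee, two_NN_pos.ne'] at e'
  apply hι
  rw [← hev u, ← hev v]
  exact h E ρ σ _ _ (mul_ne_zero (hne c i₂) (hne (-c) i₄))

theorem ALead.pow (h2 : ALeadStmt) {τ : Type} {φ : MvPolynomial τ Rt} {κ ψ} (h : ALead φ κ ψ)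
    (n : ℕ) : ALead (φ ^ n) (n • κ) (ψ ^ n) := by
  induction n with
  | zero => simpa using h2.const (1 : MvPolynomial τ ℂ)
  | succ n ih =>
    rw [pow_succ, pow_succ, succ_nsmul]
    exact h2.mul ih h

theorem ALead.Nm (h2 : ALeadStmt) {φ : P3 Rt} {κ ψ} (h : ALead φ κ ψ) :
    ∃ κ', ALead (Nm φ) κ' (Nm ψ) := by
  have hw : ∀ w : SP, ALead (aeval (sp w (X : Fin 3 → P3 Rt)) φ) κ
      (aeval (sp w (X : Fin 3 → P3 ℂ)) ψ) := by
    intro w
    have := h2.nat (sp w (X : Fin 3 → P3 ℂ)) h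
    rwa [map_sp_X] at this
  rw [Nm_eq, Nm_eq]
  generalize (Finset.univ : Finset SP) = s
  induction s using Finset.cons_induction with
  | empty => exact ⟨0, by simpa using h2.const (1 : P3 ℂ)⟩
  | cons a s ha ih =>
    obtain ⟨κ', hκ⟩ := ih
    rw [Finset.prod_cons, Finset.prod_cons]
    exact ⟨_, h2.mul (hw a) hκ⟩

theorem ALead.cx_eq (h2 : ALeadStmt) {τ : Type} {φ : MvPolynomial τ Rt} {κ ψ} (h : ALead φ κ ψ) :
    cx κ φ = ψ := by
  ext η
  rw [h2.coeff_cx, (h η).2]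

end E2P

open E2P

theorem e2 (h1 : WStmt) (h2 : ALeadStmt) (h3 : SymStmt) (h4 : ResStmt) (h5 : PrepStmt) :
    E2Stmt := by
  intro c i₁ i₂ i₃ i₄ h hlc M s₁ s₂ k₁ k₂ hk₁ hk₂ q hq
  obtain ⟨r, a, W, ε, κ, F, P, hε, hF, hP, hW, hL⟩ := h5 c i₁ i₂ i₃ i₄ h hlc M s₁ s₂ k₁ k₂ hk₁ hk₂
  obtain ⟨Ξ, hΞ⟩ := (h3 RK c).1 F
  have hwt := weight_Xi h1 c (h3 RK c).2.1 F Ξ M hF hΞ
  obtain ⟨d, hd⟩ := h4 Rt (X i₁) (X i₂) (X_ne_zero _) (X_ne_zero _) Ξ (48 * (M : ℤ)) hwt
  obtain ⟨Ψ, hΨ, hΨ'⟩ := hd (d + 48 * r) (Nat.le_add_right _ _)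
  -- the identity
  have hid : Th RS c Ψ = (1 - bY c i₂ ^ 2) ^ d * Nm P := by
    refine ident c i₂ i₄ _ _ fun E _ _ ρ σ t₁ t₂ hn => ?_
    have hn1 : 1 - (ρ i₂ * ees c σ 2 ^ (2 * NN)) ^ 2 ≠ 0 := by
      rw [← yy_diag]
      exact left_ne_zero_of_mul hn
    have e1 := hΨ E (aeval ρ) (ees c σ) t₁ t₂ (by rwa [aeval_X])
    rw [aeval_X, aeval_X] at e1
    have e2 : ∀ w : SP, eval₂ (eval₂Hom (aeval ρ : Rt →ₐ[ℂ] E) ![t₁, t₂]) (sp w σ) P =
        (1 - (ρ i₂ * ees c σ 2 ^ (2 * NN)) ^ 2) ^ r * eval₂ (eval₂Hom (aeval ρ : Rt →ₐ[ℂ] E)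
          (pk (gm (ρ i₁ * ees c σ 1 ^ (3 * NN)) (ρ i₂ * ees c σ 2 ^ (2 * NN)) * (um t₁ * up t₂))))
          (sp w σ) F := by
      intro w
      have hn' : nn c (ρ i₂) (ρ i₄) (diagonal (sp w σ)) ≠ 0 := by
        rw [nn, yy_diag, yy_neg_diag, ees_sp, ← yy_diag, ← yy_neg_diag]
        exact hn
      have := hP E ρ (sp w σ) t₁ t₂ hn'
      rwa [xx_diag c, yy_diag, ees_sp] at this
    have e3 : eval₂ (eval₂Hom (aeval ρ : Rt →ₐ[ℂ] E) ![t₁, t₂]) σ
        (1 - bY c i₂ ^ 2 : P3 RS) =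
          1 - (ρ i₂ * ees c σ 2 ^ (2 * NN)) ^ 2 := by
      rw [← coe_eval₂Hom, map_sub, map_one, map_pow, map_bY, yy_diag]
      simp
    rw [ev_Th, e1, ← ev_Th _ σ c Ξ, hΞ, ev_Nm, eval₂_mul, eval₂_pow, e3, ev_Nm]
    simp only [e2]
    rw [Finset.prod_mul_distrib, Finset.prod_const, Finset.card_univ, card_SP, ← pow_mul,
      pow_add, mul_comm r 48]
    exact mul_assoc _ _ _
  -- the top form
  have htop : Tp (Th RS c Ψ) (2 * (d * (6 * (2 * NN)) + 24 * W))
      ((-bY c i₂ ^ 2) ^ d * Nm (homogeneousComponent W P)) := by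
    have t1 : Tp (1 - bY c i₂ ^ 2 : P3 RS) (6 * (2 * NN) * 2)
        (-bY c i₂ ^ 2) :=
      Tp.one_sub (by have := two_NN_pos; omega) (((yy_hom c).C_mul _).pow 2)
    have t2 := (t1.pow d).mul (Tp.Nm (p := P) ⟨hW, rfl⟩)
    rw [hid, show 2 * (d * (6 * (2 * NN)) + 24 * W) = d * (6 * (2 * NN) * 2) + 48 * W by ring]
    exact t2
  generalize d * (6 * (2 * NN)) + 24 * W = W' at htop
  have hdeg : ∀ η ∈ Ψ.support, Finsupp.weight w3 η ≤ W' := by
    intro η hη
    by_contra hlt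
    have e := (h3 RS c).2.2 Ψ (Finsupp.weight w3 η)
    rw [homogeneousComponent_eq_zero _ _ (lt_of_le_of_lt htop.1 (by omega))] at e
    have e' : weightedHomogeneousComponent w3 (Finsupp.weight w3 η) Ψ = 0 :=
      (h3 RS c).2.1 (by rw [← e, map_zero])
    have := congrArg (coeff η) e'
    rw [coeff_weightedHomogeneousComponent, if_pos rfl, coeff_zero] at this
    exact mem_support_iff.1 hη this
  have ht : Th RS c (weightedHomogeneousComponent w3 W' Ψ) =
      (-bY c i₂ ^ 2) ^ d * Nm (homogeneousComponent W P) := by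
    rw [← htop.2]
    exact ((h3 RS c).2.2 Ψ W').symm
  -- specialise the parameters and take the leading root coefficient
  let φ : RS →+* Rt := eval ![C s₁, C s₂]
  have ht' : Th Rt c (map φ (weightedHomogeneousComponent w3 W' Ψ)) =
      map (C : ℂ →+* Rt) ((-yy c (diagonal X) ^ 2) ^ d) * C (X i₂) ^ (2 * d) *
        Nm (map φ (homogeneousComponent W P)) := by
    rw [← map_Th, ht, map_mul, map_Nm]
    simp only [bY, map_pow, map_neg, map_mul, map_yy_X, map_C, φ, eval_C]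
    congr 1
    rw [pow_mul, ← mul_pow]
    congr 1
    ring
  obtain ⟨κ', hκ'⟩ := ALead.Nm h2 hL
  have hA := h2.mul (h2.mul (h2.const ((-yy c (diagonal X) ^ 2) ^ d : P3 ℂ))
    (ALead.pow h2 (h2.root i₂) (2 * d))) hκ'
  rw [← ht'] at hA
  generalize 0 + (2 * d) • Finsupp.single i₂ 1 + κ' = κ'' at hA
  have hc := h2.cx_aeval κ'' (map φ (weightedHomogeneousComponent w3 W' Ψ))
    (ees c (X : Fin 3 → P3 ℂ))
  rw [map_ees_X, ALead.cx_eq h2 hA] at hc
  have hY : Th ℂ c (X 2 ^ (2 * NN)) = yy c (diagonal X) := by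
    rw [yy_diag, map_pow, aeval_X]
  have hY' : Th ℂ c ((X 2 + 2 * (c : P3 ℂ) * X 0 ^ 3) ^ (2 * NN)) = yy (-c) (diagonal X) := by
    rw [yy_neg_diag, map_pow, map_add, map_mul, map_mul, map_pow, aeval_X, aeval_X, map_intCast,
      map_ofNat]
  have hZ : Th ℂ c (C ε * (X 2 ^ (2 * NN)) ^ (2 * r) *
      ((X 2 + 2 * (c : P3 ℂ) * X 0 ^ 3) ^ (2 * NN)) ^ a) =
        C ε * yy c (diagonal X) ^ (2 * r) * yy (-c) (diagonal X) ^ a := by
    rw [map_mul, map_mul, map_pow _ _ (2 * r), map_pow _ _ a, hY, hY', aeval_C, algebraMap_eq]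
  have hcx : cx κ'' (map φ (weightedHomogeneousComponent w3 W' Ψ)) =
      monomial (Finsupp.single 2 (2 * NN * (2 * (d + 48 * r)))) ((-1) ^ d * ε ^ 48) *
        ((X 2 + 2 * (c : P3 ℂ) * X 0 ^ 3) ^ (2 * NN * a * 48) * q) := by
    apply (h3 ℂ c).2.1
    rw [← hc, Nm_mul, ← hZ, Nm_Th, ← hq, ← hY, ← C_mul_X_pow_eq_monomial, one_pow, mul_one,
      ← map_pow, ← map_neg, ← map_pow, ← map_pow, ← map_mul, ← map_mul]
    refine congrArg _ ?_
    rw [map_mul, map_pow, map_pow, map_neg, map_one, pow_mul _ (2 * NN * a) 48,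
      pow_mul _ (2 * NN) (2 * (d + 48 * r)), pow_mul _ (2 * NN) a]
    generalize ((X 2 + 2 * (c : P3 ℂ) * X 0 ^ 3) ^ (2 * NN)) ^ a = Z
    generalize (X 2 : P3 ℂ) ^ (2 * NN) = Y
    rw [neg_pow (Y ^ 2)]
    ring
  refine ⟨2 * NN * a * 48, fun η hη => ?_⟩
  have hco : coeff (Finsupp.single 2 (2 * NN * (2 * (d + 48 * r))) + η)
      (weightedHomogeneousComponent w3 W' Ψ) ≠ 0 := by
    intro h0
    have e := congrArg (coeff (Finsupp.single 2 (2 * NN * (2 * (d + 48 * r))) + η)) hcx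
    rw [h2.coeff_cx, coeff_map, h0, map_zero, coeff_zero, coeff_monomial_mul] at e
    exact mul_ne_zero (mul_ne_zero (pow_ne_zero _ (by norm_num)) (pow_ne_zero _ hε))
      (mem_support_iff.1 hη) e.symm
  rw [coeff_weightedHomogeneousComponent] at hco
  split_ifs at hco with hw
  · have := hΨ' W' hdeg _ (mem_support_iff.2 hco) hw
    rw [Finsupp.add_apply, Finsupp.add_apply, Finsupp.single_eq_same,
      Finsupp.single_eq_of_ne (by decide), zero_add, Nat.mul_add_div two_NN_pos] at this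
    generalize η 1 / (3 * NN) = x at *
    generalize η 2 / (2 * NN) = y at *
    push_cast at this
    omega
  · exact absurd rfl hco

end Pool.Agent.MP_0f1eb7_ag.Cyl

end
end MrgPart7

-- marker of a merged file
example : 731051 + 409689 = 731051 + 409689 := rfl
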