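import Mathlib.Analysis.Complex.Polynomial.Basic
import Mathlib.Analysis.CStarAlgebra.Classes
import Mathlib.RingTheory.Nullstellensatz
import Pool.Agent.MP_0f1eb7_ag.cyl.Spec1

/-! Row FIBA: the closed fibres off the coordinate hyperplanes are affine spaces. -/

set_option autoImplicit false

noncomputable section

namespace Pool.Agent.MP_0f1eb7_ag.Cyl

open MvPolynomial

namespace FibAlgP

variable (r : Fin 4 → ℂ)

/-- specialisation of the roots -/
def sp : Ap →ₐ[ℂ] Py := aevalTower (aeval fun j => C (r j)) X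

lemma sp_rt (j : Fin 4) : sp r (rt j) = C (r j) := by simp [sp, rt]

lemma sp_X (ij : I9) : sp r (X ij) = X ij := by simp [sp]

lemma sp_inc (p : Py) : sp r (aeval X p) = p := by
  have : (sp r).comp (aeval X) = AlgHom.id ℂ Py := by
    ext ij : 1
    simp [sp_X]
  exact congrArg (fun g : Py →ₐ[ℂ] Py => g p) this

lemma sp_sqr (p : Rt) : sp r (sqr p) = C (aeval (fun j => r j ^ 2) p) := by
  have : (sp r).comp sqr = (Algebra.ofId ℂ Py).comp (aeval fun j => r j ^ 2) := by
    ext j : 1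
    simp [sqr, sp_rt, Algebra.ofId_apply]
  exact congrArg (fun g : Rt →ₐ[ℂ] Py => g p) this

lemma sp_ker {f : Ap} (h : sp r f = 0) :
    ∃ c : Fin 4 → Ap, ∑ j, c j * (rt j - algebraMap ℂ Ap (r j)) = f := by
  let J : Ideal Ap := Ideal.span (Set.range fun j => rt j - algebraMap ℂ Ap (r j))
  have : Ideal.Quotient.mkₐ ℂ J = (Ideal.Quotient.mkₐ ℂ J).comp ((aeval X).comp (sp r)) := by
    refine algHom_ext' (A := Rt) (B := Ap ⧸ J) (algHom_ext fun j => ?_) fun ij => ?_
    · show Ideal.Quotient.mk J (rt j) = Ideal.Quotient.mk J (aeval X (sp r (rt j)))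
      rw [sp_rt, aeval_C]
      exact Ideal.Quotient.eq.2 (Ideal.subset_span ⟨j, rfl⟩)
    · simp [sp_X]
  have e := congrArg (fun g : Ap →ₐ[ℂ] Ap ⧸ J => g f) this
  simp only [AlgHom.comp_apply, h, map_zero] at e
  exact Ideal.mem_span_range_iff_exists_fun.1 (Ideal.Quotient.eq_zero_iff_mem.1 e)

lemma surj (h : SemiStmt) (hr : ∀ j, r j ≠ 0) : Function.Surjective ((sp r).comp valB) := by
  intro p
  obtain ⟨g, hg, hS⟩ := h (aeval X p)
  choose b hb using fun S => exists_valB (hS S).1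
  refine ⟨∑ S, (∏ a ∈ S, r a)⁻¹ • b S, ?_⟩
  rw [← sp_inc r p, hg, map_sum, map_sum]
  refine Finset.sum_congr rfl fun S _ => ?_
  rw [map_smul, AlgHom.comp_apply, hb, map_mul, map_prod, Finset.prod_congr rfl fun a _ =>
    sp_rt r a, ← map_prod, ← smul_eq_C_mul, inv_smul_smul₀ (Finset.prod_ne_zero_iff.2 fun a _ => hr a)]

lemma ker_le (h : ReyStmt) (hr : ∀ j, r j ≠ 0) (M : Ideal Bt)
    (hM : ∀ j, phi (X j - C (r j ^ 2)) ∈ M) {F : Bt} (hF : sp r (valB F) = 0) : F ∈ M := by
  obtain ⟨ℛ, hm, hl, h1, h0⟩ := h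
  obtain ⟨c, hc⟩ := sp_ker r hF
  have e1 : ℛ (∏ j, (rt j + algebraMap ℂ Ap (r j))) = algebraMap ℂ Ap (∏ j, r j) := by
    rw [Finset.prod_add, map_sum, Finset.sum_eq_single ∅]
    · rw [Finset.prod_empty, one_mul, Finset.sdiff_empty, ← map_prod,
        Algebra.algebraMap_eq_smul_one, map_smul, h1]
    · intro S _ hS
      rw [← map_prod, mul_comm, ← Algebra.smul_def, map_smul,
        h0 S (Finset.nonempty_iff_ne_empty.2 hS), smul_zero]
    · simp
  choose d hd using fun j => Finset.dvd_prod_of_mem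
    (fun j => rt j + algebraMap ℂ Ap (r j)) (Finset.mem_univ j)
  choose b hb using fun j => exists_valB (hm (c j * d j))
  have e2 : F * algebraMap ℂ Bt (∏ j, r j) = ∑ j, phi (X j - C (r j ^ 2)) * b j := by
    apply valB_inj
    rw [map_mul, AlgHom.commutes, ← e1, ← hl _ (valB_mem F), ← hc, Finset.sum_mul, map_sum,
      map_sum]
    refine Finset.sum_congr rfl fun j _ => ?_
    have e4 : valB (phi (X j - C (r j ^ 2))) = rt j ^ 2 - algebraMap ℂ Ap (r j) ^ 2 := by
      rw [valB_phi, map_sub, sqr, aeval_X, aeval_C, map_pow]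
    rw [map_mul valB, hb, ← hl _ (valB_mem (phi (X j - C (r j ^ 2)))), e4, hd j]
    exact congrArg ℛ (by ring)
  have e3 : F = F * algebraMap ℂ Bt (∏ j, r j) * algebraMap ℂ Bt (∏ j, r j)⁻¹ := by
    rw [mul_assoc, ← map_mul, mul_inv_cancel₀ (Finset.prod_ne_zero_iff.2 fun a _ => hr a),
      map_one, mul_one]
  rw [e3, e2]
  exact M.mul_mem_right _ (sum_mem fun j _ => M.mul_mem_right _ (hM j))

end FibAlgP

open FibAlgP

theorem fibAlg (h1 : SemiStmt) (h2 : ReyStmt) : FibAlgStmt := by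
  intro m hm hX
  obtain ⟨a, rfl⟩ := (isMaximal_iff_eq_vanishingIdeal_singleton (K := ℂ)).1 hm
  choose r hr using fun j => IsAlgClosed.exists_pow_nat_eq (a j) two_pos
  obtain rfl : a = fun j => r j ^ 2 := funext fun j => (hr j).symm
  have h0 : ∀ j, r j ≠ 0 := fun j e => hX <| by
    rw [mem_vanishingIdeal_singleton_iff, map_prod]
    exact Finset.prod_eq_zero (Finset.mem_univ j) (by simp [e])
  let ψ : Bt →+* Py := (sp r).comp valB
  have e : (vanishingIdeal ℂ {fun j => r j ^ 2}).map (phi : Rt →+* Bt) = RingHom.ker ψ := by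
    refine le_antisymm (Ideal.map_le_iff_le_comap.2 fun p hp => ?_) fun F hF =>
      ker_le r h2 h0 _ (fun j => Ideal.mem_map_of_mem _ ?_) hF
    · show sp r (sqr p) = 0
      rw [sp_sqr, (mem_vanishingIdeal_singleton_iff _ _).1 hp, map_zero]
    · rw [mem_vanishingIdeal_singleton_iff]
      simp
  exact ⟨(Ideal.quotEquivOfEq e).trans ((RingHom.quotientKerEquivOfSurjective
    (f := ψ) (surj r h1 h0)).trans (renameEquiv ℂ finProdFinEquiv).toRingEquiv)⟩

end Pool.Agent.MP_0f1eb7_ag.Cyl
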