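import Mathlib.Topology.Sheaves.Presheaf
import Mathlib.Data.Int.Star
import Mathlib.Algebra.Order.Ring.Star
import Mathlib.Algebra.MvPolynomial.Monad
import Mathlib.Tactic.Bound
import Mathlib.RingTheory.LocalProperties.Reduced
import Mathlib.Data.Finsupp.Pointwise
import Mathlib.RingTheory.PiTensorProduct
import Mathlib.Order.CompletePartialOrder
import Pool.Agent.MP_0f1eb7_ag.cyl.Spec1
import Pool.Agent.MP_0f1eb7_ag.cyl.Th

-- ======== part 0: formerly Pool.Agent.MP_0f1eb7_ag.cyl.Mv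
section MrgPart0

/-! Monomial valuations on a field of fractions of a polynomial ring. -/

set_option autoImplicit false

noncomputable section

namespace Pool.Agent.MP_0f1eb7_ag.Cyl

open MvPolynomial Matrix

namespace MvP

variable {σ k Ω : Type} [Field k] [Field Ω] (m : MonomialOrder.{0, 0} σ)
  (φ : MvPolynomial σ k →+* Ω)

theorem deg_mul {p q : MvPolynomial σ k} (hp : p ≠ 0) (hq : q ≠ 0) :
    m.toSyn (m.degree (p * q)) = m.toSyn (m.degree p) + m.toSyn (m.degree q) := by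
  rw [m.degree_mul hp hq, map_add]

/-- the valuation ring of the monomial order -/
def ring (hφ : Function.Injective φ) (hs : ∀ f, ∃ p q, q ≠ 0 ∧ f = φ p / φ q) :
    ValuationSubring Ω where
  carrier := {f | ∃ p q, q ≠ 0 ∧ f = φ p / φ q ∧ m.toSyn (m.degree p) ≤ m.toSyn (m.degree q)}
  mul_mem' := by
    rintro _ _ ⟨p, q, hq, rfl, h⟩ ⟨p', q', hq', rfl, h'⟩
    refine ⟨p * p', q * q', mul_ne_zero hq hq', by rw [map_mul, map_mul, div_mul_div_comm], ?_⟩
    rw [deg_mul m hq hq']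
    exact m.toSyn_degree_mul_le.trans (add_le_add h h')
  one_mem' := ⟨1, 1, one_ne_zero, by simp, le_rfl⟩
  add_mem' := by
    rintro _ _ ⟨p, q, hq, rfl, h⟩ ⟨p', q', hq', rfl, h'⟩
    have e1 : φ q ≠ 0 := (map_ne_zero_iff φ hφ).2 hq
    have e2 : φ q' ≠ 0 := (map_ne_zero_iff φ hφ).2 hq'
    refine ⟨p * q' + q * p', q * q', mul_ne_zero hq hq', ?_, ?_⟩
    · rw [map_add, map_mul, map_mul, map_mul, div_add_div _ _ e1 e2]
    · rw [deg_mul m hq hq']
      refine m.degree_add_le.trans (sup_le ?_ ?_)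
      · exact m.toSyn_degree_mul_le.trans (add_le_add h le_rfl)
      · exact m.toSyn_degree_mul_le.trans (add_le_add le_rfl h')
  zero_mem' := ⟨0, 1, one_ne_zero, by simp, by simp⟩
  neg_mem' := by
    rintro _ ⟨p, q, hq, rfl, h⟩
    exact ⟨-p, q, hq, by rw [map_neg, neg_div], by rwa [m.degree_neg]⟩
  mem_or_inv_mem' := by
    intro f
    obtain ⟨p, q, hq, rfl⟩ := hs f
    by_cases hp : p = 0
    · exact Or.inl ⟨0, 1, one_ne_zero, by simp [hp], by simp⟩
    rcases le_total (m.toSyn (m.degree p)) (m.toSyn (m.degree q)) with h | h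
    · exact Or.inl ⟨p, q, hq, rfl, h⟩
    · exact Or.inr ⟨q, p, hp, by rw [inv_div], h⟩

theorem isMV_ring (hφ : Function.Injective φ) (hs : ∀ f, ∃ p q, q ≠ 0 ∧ f = φ p / φ q) :
    IsMV m φ (ring m φ hφ hs).valuation := by
  refine ⟨hφ, hs, fun p q hq => ?_⟩
  have e1 : φ q ≠ 0 := (map_ne_zero_iff φ hφ).2 hq
  have hv : (ring m φ hφ hs).valuation (φ q) ≠ 0 := (Valuation.ne_zero_iff _).2 e1
  rw [← div_le_one₀ (zero_lt_iff.2 hv), ← map_div₀, ValuationSubring.valuation_le_one_iff]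
  constructor
  · rintro ⟨p', q', hq', e, h⟩
    by_cases hp : p = 0
    · exact Or.inl hp
    right
    have e2 : φ q' ≠ 0 := (map_ne_zero_iff φ hφ).2 hq'
    rw [div_eq_div_iff e1 e2, ← map_mul, ← map_mul] at e
    have e3 := hφ e
    have hp' : p' ≠ 0 := by
      rintro rfl
      exact mul_ne_zero hp hq' (by rw [e3, zero_mul])
    have e4 := deg_mul m hp hq'
    rw [e3, deg_mul m hp' hq] at e4
    have : m.toSyn (m.degree p) + m.toSyn (m.degree q') ≤
        m.toSyn (m.degree q) + m.toSyn (m.degree q') := by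
      rw [← e4, add_comm]
      exact add_le_add le_rfl h
    exact le_of_add_le_add_right this
  · rintro (rfl | h)
    · simp
    · exact ⟨p, q, hq, rfl, h⟩

variable {Γ : Type} [LinearOrderedCommGroupWithZero Γ] {m φ} {v : Valuation Ω Γ}

theorem ne0 (h : IsMV m φ v) {q : MvPolynomial σ k} (hq : q ≠ 0) : φ q ≠ 0 :=
  (map_ne_zero_iff φ h.1).2 hq

theorem pos (h : IsMV m φ v) {q : MvPolynomial σ k} (hq : q ≠ 0) : 0 < v (φ q) :=
  v.pos_iff.2 (ne0 h hq)

theorem mon_ne (a : σ →₀ ℕ) : (monomial a 1 : MvPolynomial σ k) ≠ 0 := by simp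

theorem deg_mon (a : σ →₀ ℕ) {c : k} (hc : c ≠ 0) : m.degree (monomial a c) = a := by
  classical
  rw [m.degree_monomial, if_neg hc]

theorem iota_le (h : IsMV m φ v) (c : k) : v (φ (C c)) ≤ 1 := by
  have := (h.2.2 (C c) 1 one_ne_zero).2 (Or.inr (by simp))
  simpa using this

theorem one_le (h : IsMV m φ v) {q : MvPolynomial σ k} (hq : q ≠ 0) : 1 ≤ v (φ q) := by
  have := (h.2.2 1 q hq).2 (Or.inr (by simp))
  simpa using this

theorem val_eq (h : IsMV m φ v) {p q : MvPolynomial σ k} (hp : p ≠ 0) (hq : q ≠ 0)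
    (e : m.degree p = m.degree q) : v (φ p) = v (φ q) :=
  le_antisymm ((h.2.2 p q hq).2 (Or.inr (by rw [e]))) ((h.2.2 q p hp).2 (Or.inr (by rw [e])))

theorem tail_lt (h : IsMV m φ v) {p q : MvPolynomial σ k} (hq : q ≠ 0)
    (e : m.degree q = m.degree p) : v (φ (p - m.leadingTerm p)) < v (φ q) := by
  by_cases hr : p - m.leadingTerm p = 0
  · rw [hr, map_zero, map_zero]
    exact pos h hq
  rw [← not_le, h.2.2 _ _ hr, e]
  rintro (h1 | h1)
  · exact hq h1
  · exact not_le.2 (m.degree_sub_leadingTerm_lt_degree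
      (m.degree_ne_zero_of_sub_leadingTerm_ne_zero hr)) h1

theorem lead_poly (h : IsMV m φ v) (p : MvPolynomial σ k) :
    Lead v (φ.comp C) (φ p) (φ (monomial (m.degree p) 1)) (m.leadingCoeff p) := by
  unfold Lead
  rw [RingHom.comp_apply, ← map_mul, ← map_sub, m.C_mul_leadingCoeff_monomial_degree]
  exact tail_lt h (mon_ne _) (deg_mon _ one_ne_zero)

theorem mon_inj (h : IsMV m φ v) (x x' : Ω) (hx : IsMon φ x) (hx' : IsMon φ x')
    (e : v x = v x') : x = x' := by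
  obtain ⟨a, b, rfl⟩ := hx
  obtain ⟨a', b', rfl⟩ := hx'
  rw [map_div₀, map_div₀, div_eq_div_iff (pos h (mon_ne b)).ne' (pos h (mon_ne b')).ne',
    ← map_mul, ← map_mul, ← map_mul, ← map_mul, monomial_mul, monomial_mul, one_mul] at e
  have e1 := (h.2.2 _ _ (mon_ne (a' + b))).1 e.le
  have e2 := (h.2.2 _ _ (mon_ne (a + b'))).1 e.ge
  rw [deg_mon _ one_ne_zero, deg_mon _ one_ne_zero] at e1 e2
  have e3 : a + b' = a' + b := m.toSyn.injective
    (le_antisymm (e1.resolve_left (mon_ne _)) (e2.resolve_left (mon_ne _)))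
  rw [div_eq_div_iff (ne0 h (mon_ne b)) (ne0 h (mon_ne b')), ← map_mul, ← map_mul,
    monomial_mul, monomial_mul, e3]

theorem exists_lead (h : IsMV m φ v) (f : Ω) (hf : f ≠ 0) :
    ∃ x c, IsMon φ x ∧ c ≠ 0 ∧ Lead v (φ.comp C) f x c := by
  obtain ⟨p, q, hq, rfl⟩ := h.2.1 f
  have hp : p ≠ 0 := by
    rintro rfl
    simp at hf
  have hι : ∀ c, v ((φ.comp C) c) ≤ 1 := iota_le h
  have h1 := m.leadingCoeff_ne_zero_iff.2 hp
  have h2 := m.leadingCoeff_ne_zero_iff.2 hq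
  refine ⟨_, _, ⟨m.degree p, m.degree q, div_eq_mul_inv _ _ |>.symm⟩,
    mul_ne_zero h1 (inv_ne_zero h2), ?_⟩
  rw [div_eq_mul_inv]
  exact (lead_poly h p).mul hι ((lead_poly h q).inv hι h2)

/-- an additive map that does not raise the values of monomials does not raise the values
of polynomials -/
theorem add_le (h : IsMV m φ v) (L : Ω →+ Ω)
    (hL : ∀ a c, v (L (φ (monomial a c))) ≤ v (φ (monomial a c))) (p : MvPolynomial σ k) :
    v (L (φ p)) ≤ v (φ p) := by
  by_cases hp : p = 0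
  · simp [hp]
  conv_lhs => rw [p.as_sum, map_sum, map_sum]
  refine v.map_sum_le fun a ha => (hL _ _).trans ?_
  refine (h.2.2 _ _ hp).2 (Or.inr ?_)
  rw [deg_mon _ (mem_support_iff.1 ha)]
  exact m.le_degree ha

theorem mon_ind {P : MvPolynomial σ k → Prop} (hC : ∀ c, P (C c))
    (hX : ∀ p i, P p → P (p * X i)) (a : σ →₀ ℕ) (c : k) : P (monomial a c) :=
  MvPolynomial.induction_on_monomial hC hX a c

theorem der [Algebra ℂ Ω] (h : IsMV m φ v) (D : Derivation ℂ Ω Ω)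
    (hC : ∀ c, ∃ c', D (φ (C c)) = φ (C c')) (hX : ∀ i, ∃ c', D (φ (X i)) = φ (C c')) (f : Ω) :
    v (D f) ≤ v f := by
  have hmul : ∀ a b : Ω, v (D a) ≤ v a → v (D b) ≤ v b → v (D (a * b)) ≤ v (a * b) := by
    intro a b ha hb
    rw [Derivation.leibniz, smul_eq_mul, smul_eq_mul]
    refine v.map_add_le ?_ ?_
    · rw [map_mul, map_mul]
      exact mul_le_mul' le_rfl hb
    · rw [map_mul, map_mul, mul_comm]
      exact mul_le_mul' ha le_rfl
  have hinv : ∀ a : Ω, v (D a) ≤ v a → v (D a⁻¹) ≤ v a⁻¹ := by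
    intro a ha
    by_cases h0 : a = 0
    · simp [h0]
    rw [Derivation.leibniz_inv, smul_eq_mul, map_mul, v.map_neg, map_pow]
    calc v a⁻¹ ^ 2 * v (D a) ≤ v a⁻¹ ^ 2 * v a := mul_le_mul' le_rfl ha
      _ = v a⁻¹ := by
        rw [← map_pow, ← map_mul]
        congr 1
        field_simp
  have hpoly : ∀ p, v (D (φ p)) ≤ v (φ p) := by
    refine add_le h (D : Ω →ₗ[ℂ] Ω).toAddMonoidHom ?_
    refine mon_ind (P := fun p => v (D (φ p)) ≤ v (φ p)) (fun c => ?_) (fun p i hp => ?_)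
    · by_cases hc : c = 0
      · simp [hc]
      obtain ⟨c', e⟩ := hC c
      rw [e]
      exact (iota_le h c').trans (one_le h (by simpa using hc))
    · rw [map_mul]
      refine hmul _ _ hp ?_
      obtain ⟨c', e⟩ := hX i
      rw [e]
      exact (iota_le h c').trans (one_le h (X_ne_zero i))
  obtain ⟨p, q, -, rfl⟩ := h.2.1 f
  rw [div_eq_mul_inv]
  exact hmul _ _ (hpoly p) (hinv _ (hpoly q))

theorem aut (h : IsMV m φ v) (τ : Ω →+* Ω) (hC : ∀ c, ∃ c', τ (φ (C c)) = φ (C c'))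
    (hX : ∀ i, τ (φ (X i)) = φ (X i) ∨ τ (φ (X i)) = -φ (X i)) :
    (∀ f, v (τ f) = v f) ∧ ∀ x, IsMon φ x → τ x = x ∨ τ x = -x := by
  have hι : ∀ c, v ((φ.comp C) c) ≤ 1 := iota_le h
  have hmon : ∀ a c, v (τ (φ (monomial a c))) = v (φ (monomial a c)) := by
    refine mon_ind (P := fun p => v (τ (φ p)) = v (φ p)) (fun c => ?_) (fun p i hp => ?_)
    · by_cases hc : c = 0
      · simp [hc]
      obtain ⟨c', e⟩ := hC c
      have hc' : c' ≠ 0 := by
        rintro rfl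
        rw [C_0, map_zero, map_eq_zero] at e
        exact ne0 h (by simpa using hc) e
      rw [e]
      exact (val_iota hι hc').trans (val_iota hι hc).symm
    · simp only [map_mul, hp]
      rcases hX i with e | e <;> simp [e]
  have hle := add_le h τ.toAddMonoidHom fun a c => (hmon a c).le
  have hpoly : ∀ p, v (τ (φ p)) = v (φ p) := by
    intro p
    by_cases hp : p = 0
    · simp [hp]
    have hl : m.leadingTerm p ≠ 0 := fun e => hp ((m.leadingTerm_eq_zero_iff p).1 e)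
    have e1 : v (τ (φ (m.leadingTerm p))) = v (φ (m.leadingTerm p)) := hmon _ _
    have e2 : v (τ (φ (p - m.leadingTerm p))) < v (τ (φ (m.leadingTerm p))) := by
      rw [e1]
      exact lt_of_le_of_lt (hle _) (tail_lt h hl (m.degree_leadingTerm p))
    have e3 : τ (φ p) = τ (φ (p - m.leadingTerm p)) + τ (φ (m.leadingTerm p)) := by
      rw [← map_add, ← map_add, sub_add_cancel]
    rw [e3, v.map_add_eq_of_lt_right e2, e1]
    exact val_eq h hl hp (m.degree_leadingTerm p)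
  have hsg : ∀ a, τ (φ (monomial a 1)) = φ (monomial a 1) ∨
      τ (φ (monomial a 1)) = -φ (monomial a 1) := by
    intro a
    have := mon_ind (P := fun p => ∀ s : MvPolynomial σ k, True →
      (∀ c : k, p ≠ 0 → m.leadingCoeff p = 1 → (τ (φ p) = φ p ∨ τ (φ p) = -φ p)))
      (fun c _ _ _ _ hc => by
        rw [m.leadingCoeff_C] at hc
        subst hc
        left; simp)
      (fun p i hp s _ c h0 h1 => by
        have hp0 : p ≠ 0 := left_ne_zero_of_mul h0
        rw [m.leadingCoeff_mul_of_isRegular_right (by rw [m.leadingCoeff_X]; exact isRegular_one),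
          m.leadingCoeff_X, mul_one] at h1
        rcases hp s trivial c hp0 h1 with e | e <;> rcases hX i with e' | e' <;>
          simp [e, e']) a 1
    exact this 0 trivial 0 (mon_ne a) (m.leadingCoeff_monomial 1)
  refine ⟨fun f => ?_, ?_⟩
  · obtain ⟨p, q, -, rfl⟩ := h.2.1 f
    simp only [map_div₀, hpoly]
  · rintro _ ⟨a, b, rfl⟩
    rw [map_div₀]
    rcases hsg a with e | e <;> rcases hsg b with e' | e' <;> simp [e, e', neg_div, div_neg]

theorem facts [Algebra ℂ Ω] (h : IsMV m φ v) : MvFacts m φ v where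
  iota_le := iota_le h
  lead_poly p _ := lead_poly h p
  mon_inj := mon_inj h
  exists_lead := exists_lead h
  der := der h
  aut := aut h

end MvP

theorem mv : MvStmt := fun _ _ _ _ _ _ m φ hφ hs =>
  ⟨MvP.ring m φ hφ hs, MvP.isMV_ring m φ hφ hs, MvP.facts (MvP.isMV_ring m φ hφ hs)⟩

end Pool.Agent.MP_0f1eb7_ag.Cyl

end
end MrgPart0

-- ======== part 1: formerly Pool.Agent.MP_0f1eb7_ag.cyl.B1
section MrgPart1

/-! Row B1: a second frame shows that leading coefficients have only `xx` in the denominator. -/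

set_option autoImplicit false

noncomputable section

namespace Pool.Agent.MP_0f1eb7_ag.Cyl

open MvPolynomial Matrix

namespace B1P

/-- `(X^2 - 1) • g'` -/
def gp {R : Type} [CommRing R] [Algebra ℂ R] (X Y : R) : M2 R :=
  !![(X - 1) ^ 2, Y * (X - 1) * (X ^ 2 - 1) * hf;
    Y * (X - 1) ^ 2 - Y * (X ^ 2 - 1), (X + 1) ^ 2 - Y ^ 2 * (X ^ 2 - 1)]

theorem gp_map {R S : Type} [CommRing R] [CommRing S] [Algebra ℂ R] [Algebra ℂ S]
    (φ : R →ₐ[ℂ] S) (X Y : R) : (gp X Y).map φ = gp (φ X) (φ Y) := by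
  ext i j; fin_cases i <;> fin_cases j <;> simp [gp, map_hf]

section Field
variable {E : Type} [Field E] [Algebra ℂ E]

def eps (X Y : E) : M2 E :=
  !![1 + 2 / ((1 - Y ^ 2) * (X - 1)), -(2 * Y / ((1 - Y ^ 2) * (X - 1)));
    2 * Y / ((1 - Y ^ 2) * (X + 1)), 1 - 2 / ((1 - Y ^ 2) * (X + 1))]

theorem two_ne : (2 : E) ≠ 0 := by
  intro h
  have := two_hf (R := E)
  rw [h, zero_mul] at this
  exact zero_ne_one this

theorem gm_eq {X Y : E} (h1 : X - 1 ≠ 0) (h2 : X + 1 ≠ 0) (h3 : 1 - Y ^ 2 ≠ 0) :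
    gm X Y = (X ^ 2 - 1)⁻¹ • (gp X Y * eps X Y) := by
  have h4 := two_ne (E := E)
  have h5 : X ^ 2 - 1 = (X - 1) * (X + 1) := by ring
  rw [gm, gt, gp, eps, mul_fin_two, h5, hf_field]
  ext i j
  fin_cases i <;> fin_cases j <;>
    simp only [Matrix.smul_apply, smul_eq_mul, Fin.zero_eta, Fin.mk_one, Fin.isValue, of_apply,
      cons_val', cons_val_zero, cons_val_one, cons_val_fin_one] <;> field_simp <;> ring

omit [Algebra ℂ E] in
theorem det_eps {X Y : E} (h1 : X - 1 ≠ 0) (h2 : X + 1 ≠ 0) (h3 : 1 - Y ^ 2 ≠ 0) :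
    (eps X Y).det = 1 := by
  simp [eps, det_fin_two]; field_simp; ring

end Field

section Val
variable {E Γ : Type} [Field E] [LinearOrderedCommGroupWithZero Γ]

/-- both of degree at most `n`, the difference of degree at most `n - 1` -/
def Cl (v : Valuation E Γ) (t : Γ) (n : ℕ) (a b : E) : Prop :=
  v a ≤ t ^ n ∧ v b ≤ t ^ n ∧ v (a - b) * t ≤ t ^ n

variable {v : Valuation E Γ} {t : Γ} {n n' : ℕ} {a b a' b' : E}

theorem Cl.refl (h : v a ≤ t ^ n) : Cl v t n a a := ⟨h, h, by simp⟩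

theorem add_le {x y : E} {s : Γ} (h : v x * t ≤ s) (h' : v y * t ≤ s) : v (x + y) * t ≤ s := by
  rcases le_total (v x) (v y) with e | e
  · exact le_trans (mul_le_mul' (v.map_add_le e le_rfl) le_rfl) h'
  · exact le_trans (mul_le_mul' (v.map_add_le le_rfl e) le_rfl) h

theorem Cl.add (h : Cl v t n a b) (h' : Cl v t n a' b') : Cl v t n (a + a') (b + b') := by
  refine ⟨v.map_add_le h.1 h'.1, v.map_add_le h.2.1 h'.2.1, ?_⟩
  rw [show a + a' - (b + b') = (a - b) + (a' - b') by ring]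
  exact add_le h.2.2 h'.2.2

theorem Cl.mul (h : Cl v t n a b) (h' : Cl v t n' a' b') :
    Cl v t (n + n') (a * a') (b * b') := by
  refine ⟨?_, ?_, ?_⟩
  · rw [map_mul, pow_add]; exact mul_le_mul' h.1 h'.1
  · rw [map_mul, pow_add]; exact mul_le_mul' h.2.1 h'.2.1
  · rw [show a * a' - b * b' = a * (a' - b') + (a - b) * b' by ring, pow_add]
    apply add_le
    · rw [map_mul, mul_assoc]; exact mul_le_mul' h.1 h'.2.2
    · rw [map_mul, mul_right_comm]; exact mul_le_mul' h.2.2 h'.2.1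

theorem Cl.sum {α : Type} (s : Finset α) {f g : α → E} (h : ∀ i ∈ s, Cl v t n (f i) (g i)) :
    Cl v t n (∑ i ∈ s, f i) (∑ i ∈ s, g i) := by
  classical
  induction s using Finset.induction_on with
  | empty => simpa using Cl.refl (by simp)
  | insert x s hx ih =>
    rw [Finset.sum_insert hx, Finset.sum_insert hx]
    exact (h x (by simp)).add (ih fun y hy => h y (by simp [hy]))

theorem Cl.one : Cl v t 0 1 1 := Cl.refl (by simp)

theorem Cl.pow (h : Cl v t 1 a b) (k : ℕ) : Cl v t k (a ^ k) (b ^ k) := by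
  induction k with
  | zero => simpa using Cl.one
  | succ k ih => simpa [pow_succ] using ih.mul h

theorem Cl.prod {α : Type} (s : Finset α) {f g : α → E} {d : α → ℕ}
    (h : ∀ i ∈ s, Cl v t (d i) (f i) (g i)) :
    Cl v t (∑ i ∈ s, d i) (∏ i ∈ s, f i) (∏ i ∈ s, g i) := by
  classical
  induction s using Finset.induction_on with
  | empty => simpa using Cl.one
  | insert x s hx ih =>
    rw [Finset.sum_insert hx, Finset.prod_insert hx, Finset.prod_insert hx]
    exact (h x (by simp)).mul (ih fun y hy => h y (by simp [hy]))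

theorem Cl.of_small (ht : 1 ≤ t) (hb : v b ≤ 1) (h : v (a - b) * t ≤ 1) : Cl v t 0 a b := by
  refine ⟨?_, by simpa using hb, by simpa using h⟩
  rw [show a = (a - b) + b by ring, pow_zero]
  exact v.map_add_le (le_trans (le_mul_of_one_le_right' ht) h) hb

variable [Algebra ℂ E]

theorem Cl.aeval {σ : Type} (hc : ∀ c : ℂ, v (algebraMap ℂ E c) ≤ 1) {x y : σ → E}
    (h : ∀ i, Cl v t 0 (x i) (y i)) (q : MvPolynomial σ ℂ) :
    Cl v t 0 (MvPolynomial.aeval x q) (MvPolynomial.aeval y q) := by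
  induction q using MvPolynomial.induction_on with
  | C c => simpa using Cl.refl (by simpa using hc c)
  | add p q hp hq => simpa using hp.add hq
  | mul_X p i hp => simpa using hp.mul (h i)

theorem Ad_eq (k : M2 E) (i j : Fin 3) :
    Ad k i j = MvPolynomial.aeval (pk k) (Ad (Km : M2 (MvPolynomial Kv ℂ)) i j) := by
  have h : (Km : M2 (MvPolynomial Kv ℂ)).map (MvPolynomial.aeval (pk k)) = k := by
    ext a b; simp [Km, pk]
  conv_lhs => rw [← h, Ad_map]
  rfl

theorem Cl.Ad (hc : ∀ c : ℂ, v (algebraMap ℂ E c) ≤ 1) {k : M2 E}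
    (h : ∀ i j, Cl v t 0 (k i j) ((1 : M2 E) i j)) (i j : Fin 3) :
    Cl v t 0 (Ad k i j) ((1 : M3 E) i j) := by
  rw [← Ad_one, Ad_eq, Ad_eq]
  exact Cl.aeval hc (fun ij : Kv => h ij.1 ij.2) _

theorem Cl.act (hc : ∀ c : ℂ, v (algebraMap ℂ E c) ≤ 1) {k k' : M2 E} {y : M3 E}
    (h : ∀ i j, Cl v t 0 (k i j) ((1 : M2 E) i j))
    (h' : ∀ i j, Cl v t 0 (k' i j) ((1 : M2 E) i j)) (hy : ∀ i j, v (y i j) ≤ t) (i j : Fin 3) :
    Cl v t 1 ((Cyl.Ad k * y * (Cyl.Ad k')ᵀ) i j) (y i j) := by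
  have e : y = 1 * y * (1 : M3 E)ᵀ := by simp
  conv_rhs => rw [e]
  simp only [mul_apply, transpose_apply]
  refine Cl.sum _ fun l _ => ?_
  have h1 : Cl v t 1 (∑ a, Cyl.Ad k i a * y a l) (∑ a, (1 : M3 E) i a * y a l) :=
    Cl.sum _ fun a _ => (Cl.Ad hc h i a).mul (Cl.refl (n := 1) (by simpa using hy a l))
  exact h1.mul (Cl.Ad hc h' j l)

theorem evA_close (ht : 1 ≤ t) {r : Fin 4 → E} (hr : ∀ ρ : Rt, v (MvPolynomial.aeval r ρ) < t)
    {y y' : M3 E} (h : ∀ i j, Cl v t 1 (y i j) (y' i j)) (p : Ap) :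
    v (evA r y p - evA r y' p) < t ^ p.totalDegree := by
  have ht0 : 0 < t := lt_of_lt_of_le zero_lt_one ht
  have e : ∀ z : M3 E, evA r z p = ∑ η ∈ p.support,
      MvPolynomial.aeval r (coeff η p) * ∏ i ∈ η.support, pt z i ^ η i := fun z =>
    eval₂_eq _ _ _
  rw [e, e, ← Finset.sum_sub_distrib]
  refine v.map_sum_lt (pow_pos ht0 _).ne' fun η hη => ?_
  have h1 := (Cl.prod (v := v) (t := t) η.support (f := fun i => pt y i ^ η i)
    (g := fun i => pt y' i ^ η i) fun i _ => (h i.1 i.2).pow (η i)).2.2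
  have h2 : t ^ (∑ i ∈ η.support, η i) ≤ t ^ p.totalDegree :=
    pow_le_pow_right₀ ht (le_totalDegree hη)
  rw [← mul_sub, map_mul]
  rcases (zero_le (a := v (∏ i ∈ η.support, pt y i ^ η i - ∏ i ∈ η.support, pt y' i ^ η i))).eq_or_lt
    with h3 | h3
  · rw [← h3, mul_zero]; exact pow_pos ht0 _
  · rw [mul_comm]
    exact lt_of_lt_of_le (mul_lt_mul_of_pos_left (hr _) h3) (h1.trans h2)

omit [Algebra ℂ E] in
theorem val_sub_one {x : E} (h : 1 < v x) : v (x - 1) = v x :=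
  v.map_sub_eq_of_lt_left (by simpa using h)

omit [Algebra ℂ E] in
theorem val_add_one {x : E} (h : 1 < v x) : v (x + 1) = v x :=
  v.map_add_eq_of_lt_left (by simpa using h)

omit [Algebra ℂ E] in
theorem val_n {x : E} (h : 1 < v x) : v (1 - x ^ 2) = v x ^ 2 := by
  rw [v.map_sub_swap, val_sub_one (by rw [map_pow]; exact one_lt_pow₀ h two_ne_zero), map_pow]

omit [Algebra ℂ E] in
theorem ne_of_val {x : E} {s : Γ} (h : v x = s) (hs : 1 < s) : x ≠ 0 := by
  rintro rfl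
  rw [map_zero] at h
  exact absurd (h ▸ hs) (by simp)

theorem eps_close (hc : ∀ c : ℂ, v (algebraMap ℂ E c) ≤ 1) (ht : 1 < t) {X Y : E} (hX : t ≤ v X)
    (hY : 1 < v Y) (i j : Fin 2) : Cl v t 0 (eps X Y i j) ((1 : M2 E) i j) := by
  have hX1 : 1 < v X := lt_of_lt_of_le ht hX
  have h2 : v (2 : E) ≤ 1 := by simpa only [map_ofNat] using hc 2
  have key : ∀ u w : E, v u ≤ v Y → v w = v X → v (2 * u / ((1 - Y ^ 2) * w)) * t ≤ 1 := by
    intro u w hu hw
    have hp : 0 < v Y ^ 2 * v X := mul_pos (pow_pos (lt_trans zero_lt_one hY) _)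
      (lt_trans zero_lt_one hX1)
    rw [map_div₀, map_mul, map_mul, val_n hY, hw, div_mul_eq_mul_div, div_le_one₀ hp]
    refine mul_le_mul' ?_ hX
    calc v 2 * v u ≤ 1 * v Y := mul_le_mul' h2 hu
      _ ≤ v Y * v Y := mul_le_mul' hY.le le_rfl
      _ = _ := (sq _).symm
  have a1 := key 1 _ (by simpa using hY.le) (val_sub_one hX1)
  have a2 := key Y _ le_rfl (val_sub_one hX1)
  have a3 := key Y _ le_rfl (val_add_one hX1)
  have a4 := key 1 _ (by simpa using hY.le) (val_add_one hX1)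
  rw [mul_one] at a1 a4
  fin_cases i <;> fin_cases j <;> refine Cl.of_small ht.le (by simp) ?_
  · simpa only [eps, Fin.zero_eta, of_apply, cons_val', cons_val_zero, cons_val_fin_one,
      one_apply_eq, add_sub_cancel_left] using a1
  · have : (eps X Y 0 1 - (1 : M2 E) 0 1) = -(2 * Y / ((1 - Y ^ 2) * (X - 1))) := by simp [eps]
    change v (eps X Y 0 1 - (1 : M2 E) 0 1) * t ≤ 1
    rw [this, v.map_neg]; exact a2
  · have : (eps X Y 1 0 - (1 : M2 E) 1 0) = 2 * Y / ((1 - Y ^ 2) * (X + 1)) := by simp [eps]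
    change v (eps X Y 1 0 - (1 : M2 E) 1 0) * t ≤ 1
    rw [this]; exact a3
  · have : (eps X Y 1 1 - (1 : M2 E) 1 1) = -(2 / ((1 - Y ^ 2) * (X + 1))) := by simp [eps]
    change v (eps X Y 1 1 - (1 : M2 E) 1 1) * t ≤ 1
    rw [this, v.map_neg]; exact a4

end Val

/-- numerator of the twisted point in the second frame -/
def Wp : M3 Ap := Ad (gp (rt 0 * xx Ym) (rt 1 * yy 1 Ym)) * Ym *
  (Ad (gp (rt 2 * xx Ym) (rt 3 * yy (-1) Ym)))ᵀ
/-- denominator of the twisted point in the second frame -/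
def nu : Ap := ((rt 0 * xx Ym) ^ 2 - 1) ^ 2 * ((rt 2 * xx Ym) ^ 2 - 1) ^ 2

section Frame
variable {E : Type} [Field E] [Algebra ℂ E]

theorem evA_xx (r : Fin 4 → E) (y : M3 E) : evA r y (xx Ym) = xx y := by
  rw [← xx_map, evA_Ym]

theorem evA_yy (r : Fin 4 → E) (y : M3 E) (c : ℤ) : evA r y (yy c Ym) = yy c y := by
  rw [← yy_map, evA_Ym]

theorem evA_nu (r : Fin 4 → E) (y : M3 E) :
    evA r y nu = ((r 0 * xx y) ^ 2 - 1) ^ 2 * ((r 2 * xx y) ^ 2 - 1) ^ 2 := by
  simp only [nu, map_mul, map_pow, map_sub, map_one, evA_rt, evA_xx]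

theorem evA_Wp (r : Fin 4 → E) (y : M3 E) : Wp.map (evA r y) =
    Ad (gp (r 0 * xx y) (r 1 * yy 1 y)) * y * (Ad (gp (r 2 * xx y) (r 3 * yy (-1) y)))ᵀ := by
  rw [Wp, Matrix.map_mul, Matrix.map_mul, transpose_map, ← Ad_map, ← Ad_map, gp_map, gp_map, evA_Ym]
  simp only [map_mul, evA_rt, evA_xx, evA_yy]

/-- the point in the second frame -/
def ys (r : Fin 4 → E) (y : M3 E) : M3 E :=
  Ad (eps (r 0 * xx y) (r 1 * yy 1 y)) * y * (Ad (eps (r 2 * xx y) (r 3 * yy (-1) y)))ᵀ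

theorem frame (f : Ap) : ∃ (k : ℕ) (p : Ap), ∀ (r : Fin 4 → E) (y : M3 E),
    r 0 * xx y - 1 ≠ 0 → r 0 * xx y + 1 ≠ 0 → 1 - (r 1 * yy 1 y) ^ 2 ≠ 0 →
    r 2 * xx y - 1 ≠ 0 → r 2 * xx y + 1 ≠ 0 → 1 - (r 3 * yy (-1) y) ^ 2 ≠ 0 →
    evA r (ys r y) p = (((r 0 * xx y) ^ 2 - 1) ^ 2 * ((r 2 * xx y) ^ 2 - 1) ^ 2) ^ k *
      evA r (twr r y) f := by
  obtain ⟨k, hk⟩ := clear_den (C : Rt →+* Ap) (pt Wp) nu f
  obtain ⟨p, hp⟩ := hk k le_rfl
  refine ⟨k, p, fun r y a1 a2 a3 b1 b2 b3 => ?_⟩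
  have s1 := isSO_Ad (det_eps a1 a2 a3)
  have s2 := isSO_Ad (det_eps b1 b2 b3)
  have hx : xx (ys r y) = xx y := xx_act s1 s2 y
  have hy : ∀ c, yy c (ys r y) = yy c y := fun c => yy_act s1 s2 c y
  have hn : evA r (ys r y) nu = ((r 0 * xx y) ^ 2 - 1) ^ 2 * ((r 2 * xx y) ^ 2 - 1) ^ 2 := by
    rw [evA_nu, hx]
  have c1 : (r 0 * xx y) ^ 2 - 1 ≠ 0 := by
    rw [show (r 0 * xx y) ^ 2 - 1 = (r 0 * xx y - 1) * (r 0 * xx y + 1) by ring]
    exact mul_ne_zero a1 a2
  have c2 : (r 2 * xx y) ^ 2 - 1 ≠ 0 := by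
    rw [show (r 2 * xx y) ^ 2 - 1 = (r 2 * xx y - 1) * (r 2 * xx y + 1) by ring]
    exact mul_ne_zero b1 b2
  have hn0 : evA r (ys r y) nu ≠ 0 := by
    rw [hn]; exact mul_ne_zero (pow_ne_zero _ c1) (pow_ne_zero _ c2)
  have ht : twr r y = (evA r (ys r y) nu)⁻¹ • Wp.map (evA r (ys r y)) := by
    rw [evA_Wp, hx, hy, hy, hn, twr, tw, gm_eq a1 a2 a3, gm_eq b1 b2 b3, Ad_smul, Ad_smul, Ad_mul,
      Ad_mul, transpose_smul, transpose_mul, ys, mul_inv, ← inv_pow, ← inv_pow]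
    simp only [Matrix.smul_mul, Matrix.mul_smul, smul_smul, Matrix.mul_assoc]
    rw [mul_comm]
  have h1 := hp E (evA r (ys r y) : Ap →+* E) hn0
  have h2 : (evA r (ys r y) : Ap →+* E).comp C = (aeval r : Rt →ₐ[ℂ] E) :=
    RingHom.ext fun ρ => evA_C r _ ρ
  have h3 : (fun t => (evA r (ys r y) : Ap →+* E) (pt Wp t) / (evA r (ys r y) : Ap →+* E) nu) =
      pt (twr r y) := by
    funext t
    rw [ht, div_eq_inv_mul]
    rfl
  rw [h2, h3] at h1
  rw [← hn]
  exact h1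

end Frame

end B1P

open B1P in
theorem b1 (h0 : InvStmt) (_h : NnStmt) : B1Stmt := by
  intro Ω Γ _ _ _ G f m hm c hc hL
  have hι := G.iota_le
  have ht : 1 < G.v G.T := by simpa using G.r_lt_T 1
  have hT0 : G.T ≠ 0 := G.mon_ne _ G.T_mem
  have hC : ∀ z : ℂ, G.v (algebraMap ℂ Ω z) ≤ 1 := fun z => by
    rw [← G.ι.commutes]; exact hι _
  have hinj := IsFractionRing.injective Py kk
  have hxx : xx ym ≠ 0 := by
    rw [ym, xx_map]; exact (map_ne_zero_iff _ hinj).2 h0.xx_ne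
  have hyy : ∀ e, yy e ym ≠ 0 := fun e => by
    rw [ym, yy_map]; exact (map_ne_zero_iff _ hinj).2 (h0.yy_ne e)
  have hN : 12 * NN ≠ 0 := by
    have : NN = 60 := rfl
    omega
  have hpow : G.v G.T ≤ G.v (G.T ^ (12 * NN)) := by
    rw [map_pow]; exact le_self_pow₀ ht.le hN
  generalize hU : G.T ^ (12 * NN) = U at hpow
  have hUm : U ∈ G.Mon := hU ▸ pow_mem G.T_mem _
  have ex : xx G.y0 = U * G.ι (xx ym) := by rw [Deg.y0, xx_smul, xx_map, hU]
  have ey : ∀ e, yy e G.y0 = U * G.ι (yy e ym) := fun e => by rw [Deg.y0, yy_smul, yy_map, hU]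
  have hg : ∀ i, G.v G.T ≤ G.v (G.r i * U) := fun i => by
    rw [map_mul]; exact hpow.trans (le_mul_of_one_le_left' (G.one_le_r i))
  have hb : ∀ i (z : kk), z ≠ 0 → G.v G.T ≤ G.v (G.r i * (U * G.ι z)) := fun i z hz => by
    have : G.v (G.ι z) = 1 := val_iota hι hz
    rw [← mul_assoc, map_mul, this, mul_one]; exact hg i
  have hX : ∀ i, G.v G.T ≤ G.v (G.r i * xx G.y0) := fun i => ex ▸ hb i _ hxx
  have hY : ∀ i e, 1 < G.v (G.r i * yy e G.y0) := fun i e => ey e ▸ ht.trans_le (hb i _ (hyy e))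
  have n1 : ∀ i, G.r i * xx G.y0 - 1 ≠ 0 := fun i =>
    ne_of_val (val_sub_one (ht.trans_le (hX i))) (ht.trans_le (hX i))
  have n2 : ∀ i, G.r i * xx G.y0 + 1 ≠ 0 := fun i =>
    ne_of_val (val_add_one (ht.trans_le (hX i))) (ht.trans_le (hX i))
  have n3 : ∀ i e, 1 - (G.r i * yy e G.y0) ^ 2 ≠ 0 := fun i e =>
    ne_of_val (val_n (hY i e)) (one_lt_pow₀ (hY i e) two_ne_zero)
  obtain ⟨k, p, hp⟩ := frame (E := Ω) f
  have h1 := hp G.r G.y0 (n1 0) (n2 0) (n3 1 1) (n1 2) (n2 2) (n3 3 (-1))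
  have hrm : ∀ i, G.r i * U ∈ G.Mon := fun i => mul_mem (G.r_mem i) hUm
  have l1 : ∀ i, G.Ld ((G.r i * xx G.y0) ^ 2 - 1) ((G.r i * U) ^ 2) (xx ym ^ 2) := fun i => by
    have a : G.Ld (G.r i * xx G.y0) (G.r i * U) (xx ym) := by
      rw [ex, show G.r i * (U * G.ι (xx ym)) = G.ι (xx ym) * (G.r i * U) by ring]
      exact Lead.refl (G.mon_ne _ (hrm i)) _
    rw [sub_eq_add_neg]
    refine (Lead.pow hι a 2).add_small ?_
    rw [G.v.map_neg, map_one, map_pow]
    exact one_lt_pow₀ (ht.trans_le (hg i)) two_ne_zero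
  have l2 := Lead.mul hι (Lead.pow hι (Lead.mul hι (Lead.pow hι (l1 0) 2) (Lead.pow hι (l1 2) 2)) k) hL
  have e2 : ((xx ym ^ 2) ^ 2 * (xx ym ^ 2) ^ 2) ^ k * c = xx ym ^ (8 * k) * c := by ring
  rw [e2, Deg.ev, ← h1] at l2
  have hc' : xx ym ^ (8 * k) * c ≠ 0 := mul_ne_zero (pow_ne_zero _ hxx) hc
  have hp0 : p ≠ 0 := by
    rintro rfl
    rw [map_zero] at l2
    exact hc' (l2.eq_zero hι)
  obtain ⟨κ, ψ, hψ, -, l3⟩ := G.link p hp0
  have hy0 : ∀ i j, G.v (G.y0 i j) ≤ G.v G.T := fun i j => by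
    have : G.y0 i j = G.T * G.ι (ym i j) := rfl
    rw [this, map_mul]
    exact mul_le_of_le_one_right' (hι _)
  have hcl : ∀ i j, Cl G.v (G.v G.T) 1 (ys G.r G.y0 i j) (G.y0 i j) :=
    Cl.act hC (eps_close hC ht (hX 0) (hY 1 1)) (eps_close hC ht (hX 2) (hY 3 (-1))) hy0
  have hs := evA_close ht.le G.r_lt_T hcl p
  have hle : G.v G.T ^ p.totalDegree ≤ G.v (G.T ^ p.totalDegree * ∏ i, G.r i ^ κ i) := by
    rw [map_mul, map_pow, map_prod]
    exact le_mul_of_one_le_right' (Finset.one_le_prod' fun i _ => by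
      rw [map_pow]; exact one_le_pow₀ (G.one_le_r i))
  have l4 := l3.add_small (hs.trans_le hle)
  have e4 : evA G.r (G.T • ym.map G.ι) p + (evA G.r (ys G.r G.y0) p - evA G.r G.y0 p) =
      evA G.r (ys G.r G.y0) p := add_sub_cancel _ _
  rw [e4] at l4
  have hψ' : algebraMap Py kk ψ ≠ 0 := (map_ne_zero_iff _ hinj).2 hψ
  have em := G.mon_inj _ (mul_mem (pow_mem G.T_mem _) (prod_mem fun i _ => pow_mem (G.r_mem i) _))
    _ (mul_mem (pow_mem (mul_mem (pow_mem (pow_mem (hrm 0) 2) 2) (pow_mem (pow_mem (hrm 2) 2) 2)) k)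
      hm) ((l4.val_eq hι hψ').symm.trans (l2.val_eq hι hc'))
  rw [em] at l4
  exact ⟨8 * k, ψ, l4.unique hι l2⟩

end Pool.Agent.MP_0f1eb7_ag.Cyl

end
end MrgPart1

-- ======== part 2: formerly Pool.Agent.MP_0f1eb7_ag.cyl.Sl2
section MrgPart2

/-! Row SL2: the valuation at infinity of the slice. -/

set_option autoImplicit false

noncomputable section

namespace Pool.Agent.MP_0f1eb7_ag.Cyl

open MvPolynomial Matrix

namespace Sl2P

theorem mem_of (L : Subfield kk) (hC : ∀ c : ℂ, algebraMap ℂ kk c ∈ L)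
    (hy : ∀ ij, pt ym ij ∈ L) (f : kk) : f ∈ L := by
  have k : ∀ p : Py, algebraMap Py kk p ∈ L := by
    intro p
    induction p using MvPolynomial.induction_on with
    | C c => exact hC c
    | add p q hp hq => rw [map_add]; exact L.add_mem hp hq
    | mul_X p i hp => rw [map_mul]; exact L.mul_mem hp (hy i)
  obtain ⟨a, b, -, rfl⟩ := IsFractionRing.div_surjective (A := Py) f
  exact L.div_mem (k a) (k b)

theorem alg_ne {p : Py} (hp : p ≠ 0) : algebraMap Py kk p ≠ 0 :=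
  (map_ne_zero_iff _ (IsFractionRing.injective Py kk)).2 hp

theorem om_ne (h5 : InvStmt) : om ≠ 0 := by
  have k : ∀ c : ℤ, yy c ym ≠ 0 := fun c => by
    rw [ym, yy_map]
    exact alg_ne (h5.yy_ne c)
  exact pow_ne_zero _ (mul_ne_zero (k _) (k _))

theorem mem_of_om (h5 : InvStmt) (L : Subfield kk) (hC : ∀ c : ℂ, algebraMap ℂ kk c ∈ L)
    (ho : om ∈ L) (hy : ∀ ij, om * pt ym ij ∈ L) (f : kk) : f ∈ L := by
  refine mem_of L hC (fun ij => ?_) f
  have := L.div_mem (hy ij) ho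
  rwa [mul_div_cancel_left₀ _ (om_ne h5)] at this

theorem val_le {Γ : Type} [LinearOrderedCommGroupWithZero Γ] (v : Valuation kk Γ)
    (hC : ∀ c : ℂ, v (algebraMap ℂ kk c) ≤ 1) (hy : ∀ ij, v (pt ym ij) ≤ 1) (p : Py) :
    v (algebraMap Py kk p) ≤ 1 := by
  induction p using MvPolynomial.induction_on with
  | C c => exact hC c
  | add p q hp hq => rw [map_add]; exact v.map_add_le hp hq
  | mul_X p i hp => rw [map_mul, map_mul]; exact mul_le_one' hp (hy i)

theorem del_self (h : I9 → Py) (l : I9) (hl : l ≠ oo) : del h (algebraMap Py kk (h l)) = 0 := by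
  rw [del, jacD_apply]
  refine det_zero_of_row_eq hl ?_
  rw [updateRow_ne hl, updateRow_self]
  rfl

end Sl2P

open Sl2P in
theorem slcS (h1 : MvStmt) (h2 : GslStmt) (h3 : Sl1Stmt) (h4 : CStmt) (h5 : InvStmt) :
    SlcStmt := by
  intro h hL
  obtain ⟨t, ht, hsg, hker⟩ := h3 h hL
  obtain ⟨F, hF, inj, hnil⟩ := h2 (del h) t ht
  set φ : MvPolynomial Unit F →+* kk := eval₂Hom F.subtype fun _ : Unit => t with hφ
  have φC : ∀ c : F, φ (C c) = c := fun c => by simp [hφ]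
  have φX : ∀ i, φ (X i) = t := fun i => by simp [hφ]
  have CF : ∀ c : ℂ, algebraMap ℂ kk c ∈ F := fun c => (hF _).2 ((del h).map_algebraMap c)
  have frac : ∀ f, ∃ p q, q ≠ 0 ∧ f = φ p / φ q := by
    intro f
    have r : ∀ p, φ p ∈ Subfield.closure (Set.range φ) := fun p =>
      Subfield.subset_closure ⟨p, rfl⟩
    have r' : ∀ g, Nil (del h) g → g ∈ Subfield.closure (Set.range φ) := fun g hg => by
      obtain ⟨p, rfl⟩ := hnil g hg
      exact r p
    have := mem_of_om h5 (Subfield.closure (Set.range φ))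
      (fun c => by simpa only [φC] using r (C ⟨_, CF c⟩)) (r' _ hL.nil_om)
      (fun ij => r' _ (hL.nil_y ij)) f
    rw [Subfield.mem_closure_iff, ← RingHom.coe_range, Subring.closure_eq] at this
    obtain ⟨_, ⟨p, rfl⟩, _, ⟨q, rfl⟩, rfl⟩ := this
    by_cases hq : q = 0
    · exact ⟨0, 1, one_ne_zero, by simp [hq]⟩
    · exact ⟨p, q, hq, rfl⟩
  obtain ⟨O, ⟨-, -, mv⟩, fa⟩ := h1 Unit F kk MonomialOrder.lex φ inj frac
  have Fle : ∀ c ∈ F, O.valuation c ≤ 1 := fun c hc => by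
    simpa only [φC] using fa.iota_le ⟨c, hc⟩
  have back : ∀ g, Nil (del h) g → O.valuation g ≤ 1 → g ∈ F := by
    intro g hg hv
    obtain ⟨p, rfl⟩ := hnil g hg
    rcases (mv p 1 one_ne_zero).1 (by simpa using hv) with e | e
    · rw [e, map_zero]; exact F.zero_mem
    · rw [MonomialOrder.degree_one, map_zero] at e
      have e0 : (MonomialOrder.lex : MonomialOrder Unit).degree p = 0 :=
        (MonomialOrder.toSyn_eq_zero_iff _ _).1
          (le_antisymm e (MonomialOrder.zero_le _ _))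
      rw [MonomialOrder.eq_C_of_degree_eq_zero e0, φC]
      exact Subtype.property _
  obtain ⟨top, htop⟩ := Finite.exists_max fun ij => O.valuation (pt ym ij)
  have one_lt : 1 < O.valuation (pt ym top) := by
    by_contra hc
    have hy : ∀ ij, O.valuation (pt ym ij) ≤ 1 := fun ij => (htop ij).trans (not_lt.1 hc)
    have ho : O.valuation om ≤ 1 := by
      have := val_le O.valuation (fun c => Fle _ (CF c)) hy ((yy 1 Ym * yy (-1) Ym) ^ 4)
      rwa [map_pow, map_mul, ← yy_map, ← yy_map] at this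
    have := (hF t).1 (mem_of_om h5 F CF (back _ hL.nil_om ho) (fun ij => back _ (hL.nil_y ij)
      (by rw [map_mul]; exact mul_le_one' ho (hy ij))) t)
    rw [ht] at this
    exact one_ne_zero this
  refine ⟨O.ValueGroup, inferInstance, O.valuation, F, top, ⟨Fle, CF, ?_, ?_, ?_⟩,
    ⟨fun c => Fle _ (CF c), htop, one_lt, ?_, ?_⟩,
    fun l hl => Fle _ ((hF _).2 (del_self h l hl))⟩
  · intro f hf
    obtain ⟨x, c, hx, hc, hl⟩ := fa.exists_lead f (by rintro rfl; simp at hf)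
    have e := hl.val_eq fa.iota_le hc
    have x1 : x = 1 := fa.mon_inj x 1 hx ⟨0, 0, by simp⟩ (by rw [← e, hf, map_one])
    refine ⟨c, c.2, ?_⟩
    simpa [Lead, x1, φC] using hl
  · exact fun a c hc => (hF _).2 (hker a c ((hF c).1 hc))
  · intro a
    refine (fa.aut (sgK a : kk →+* kk) (fun c => ⟨⟨sgK a c, (hF _).2 (hker a c ((hF c).1 c.2))⟩, ?_⟩)
      fun i => ?_).1
    · rw [φC, φC]; rfl
    · rw [φX]; exact hsg a
  · obtain ⟨p, hp⟩ := hnil _ hL.nil_det
    have p0 : p ≠ 0 := by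
      rintro rfl
      rw [map_zero, ym, det_map] at hp
      exact alg_ne h5.det_ne hp.symm
    have := (mv 1 p p0).2 (Or.inr (by
      rw [MonomialOrder.degree_one, map_zero]; exact MonomialOrder.zero_le _ _))
    rwa [map_one, map_one, hp] at this
  · refine h4 _ O.valuation _ t _ ht (fun D d1 d2 => fa.der D (fun c => ?_) fun i => ?_) htop
      one_lt.le
    · exact ⟨⟨D c, (hF _).2 (d1 c ((hF c).1 c.2))⟩, by rw [φC, φC]⟩
    · exact ⟨⟨D t, (hF _).2 d2⟩, by rw [φX, φC]⟩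

end Pool.Agent.MP_0f1eb7_ag.Cyl

end
end MrgPart2

-- ======== part 3: formerly Pool.Agent.MP_0f1eb7_ag.cyl.D2
section MrgPart3

/-! Row D2: integral translates of a bounded polynomial are small. -/

set_option autoImplicit false

noncomputable section

namespace Pool.Agent.MP_0f1eb7_ag.Cyl

open MvPolynomial Matrix

namespace D2P

theorem trP_trP (f : Py) : trP (trP f) = f := by
  rw [trP, trP, rename_rename, Prod.swap_swap_eq, rename_id_apply]

theorem aeval_trP {E : Type} [CommRing E] [Algebra ℂ E] (Y : M3 E) (f : Py) :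
    aeval (pt Y) (trP f) = aeval (pt Yᵀ) f := by
  rw [trP, aeval_rename]
  rfl

theorem un_map {R S : Type} [CommRing R] [CommRing S] [Algebra ℂ R] [Algebra ℂ S]
    (φ : R →ₐ[ℂ] S) (b : Bool) (s : R) : (un b s).map φ = un b (φ s) := by
  ext i j
  cases b <;> fin_cases i <;> fin_cases j <;> simp [un, up, um]

/-- Taylor expansion along a unipotent one parameter group -/
theorem expand {E : Type} [CommRing E] [Algebra ℂ E] (b : Bool) (s : E) (Y : M3 E) (f : Py) :
    aeval (pt (Ad (un b s) * Y)) f = ∑ j ∈ Finset.range ((psi b f).natDegree + 1),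
      aeval (pt Y) ((psi b f).coeff j) * s ^ j := by
  let φ : Polynomial Py →ₐ[ℂ] E := Polynomial.aevalTower (aeval (pt Y)) s
  have h1 : φ (psi b f) = aeval (pt (Ad (un b s) * Y)) f := by
    have h2 : (Ad (un b Polynomial.X) * (Ym : M3 Py).map Polynomial.C).map φ =
        Ad (un b s) * Y := by
      have h3 : ((Ym : M3 Py).map Polynomial.C).map φ = Y := by
        ext i j
        simp [φ, Ym, pt]
      have h4 : (Ad (un b Polynomial.X) * (Ym : M3 Py).map Polynomial.C).map φ =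
          (Ad (un b Polynomial.X)).map φ * ((Ym : M3 Py).map Polynomial.C).map φ :=
        Matrix.map_mul (f := (φ : Polynomial Py →+* E))
      rw [h4, h3, ← Ad_map, un_map]
      simp [φ]
    rw [psi, ← h2, ← AlgHom.comp_apply, comp_aeval]
    rfl
  rw [← h1]
  conv_lhs => rw [(psi b f).as_sum_range_C_mul_X_pow]
  simp [φ]

section
variable {Γ : Type} [LinearOrderedCommGroupWithZero Γ] (v : Valuation kk Γ) (top : I9)
  (O : ValuationSubring Kb) (M : ℕ)

/-- the bound at the point `Y` after `n` steps -/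
def Sm (Y : M3 Kb) (n : ℕ) : Prop := ∀ (f : Py) (E : ℕ), Bound f M → Bound (trP f) M →
  v (algebraMap Py kk f) ≤ v (pt ym top) ^ E →
  O.valuation (aeval (pt Y) f) < O.valuation (pt yK top) ^ (E + 10 * M * n + 1)

variable {v top O M}

theorem aeval_yK (f : Py) : aeval (pt yK) f = algebraMap kk Kb (algebraMap Py kk f) := by
  have : (aeval (pt yK) : Py →ₐ[ℂ] Kb) =
      (IsScalarTower.toAlgHom ℂ kk Kb).comp (IsScalarTower.toAlgHom ℂ Py kk) := by
    ext ij : 1
    simp [pt, yK, ym, Ym]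
  rw [this]
  rfl

theorem base (hT : Top v top) (hO : Ow v O) : Sm v top O M yK 0 := by
  intro f E _ _ h
  have h1 : v (algebraMap Py kk f) < v (pt ym top ^ (E + 1)) := by
    rw [map_pow]
    exact h.trans_lt (pow_lt_pow_right₀ hT.one_lt (Nat.lt_succ_self E))
  have h2 := hO.refine _ _ h1
  rw [map_pow, map_pow] at h2
  rw [aeval_yK, mul_zero, add_zero]
  exact h2

theorem sum_lt (hT : Top v top) (hO : Ow v O) {Y : M3 Kb} {n : ℕ} (h : Sm v top O M Y n)
    {s : Kb} (hs : s ∈ O) {f : Py} {E d : ℕ} (hd : d ≤ M) (g : ℕ → Py)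
    (h1 : ∀ j, Bound (g j) M) (h2 : ∀ j, Bound (trP (g j)) M)
    (h3 : ∀ j, v (algebraMap Py kk (g j)) ≤ v (pt ym top) ^ (10 * j) * v (algebraMap Py kk f))
    (hf : v (algebraMap Py kk f) ≤ v (pt ym top) ^ E) :
    O.valuation (∑ j ∈ Finset.range (d + 1), aeval (pt Y) (g j) * s ^ j) <
      O.valuation (pt yK top) ^ (E + 10 * M * (n + 1) + 1) := by
  have hβ : O.valuation (pt yK top) ≠ 0 := by
    have := hO.refine 1 (pt ym top) (by rw [map_one]; exact hT.one_lt)
    exact (zero_le.trans_lt this).ne'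
  refine O.valuation.map_sum_lt (pow_ne_zero _ hβ) fun j hj => ?_
  have hj' : j ≤ M := by
    have := Finset.mem_range.1 hj
    omega
  have h4 : v (algebraMap Py kk (g j)) ≤ v (pt ym top) ^ (E + 10 * M) := by
    refine (h3 j).trans ?_
    rw [add_comm, pow_add]
    exact mul_le_mul' (pow_le_pow_right₀ hT.one_lt.le (by omega)) hf
  have h5 := h (g j) _ (h1 j) (h2 j) h4
  rw [show E + 10 * M * (n + 1) + 1 = E + 10 * M + 10 * M * n + 1 by ring, map_mul, map_pow]
  exact (mul_le_of_le_one_right' (pow_le_one' ((O.valuation_le_one_iff s).2 hs) j)).trans_lt h5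

theorem left (h1 : D1Stmt) (h2 : TayStmt) (hT : Top v top) (hO : Ow v O) {Y : M3 Kb} {n : ℕ}
    (b : Bool) {s : Kb} (hs : s ∈ O) (h : Sm v top O M Y n) :
    Sm v top O M (Ad (un b s) * Y) (n + 1) := by
  intro f E a a' hf
  rw [expand]
  exact sum_lt hT hO h hs (h1.deg f M b a) _ (fun j => h1.left f M b j a)
    (fun j => h1.right f M b j a') (fun j => (h2 Γ v top hT b f j).1) hf

theorem right (h1 : D1Stmt) (h2 : TayStmt) (hT : Top v top) (hO : Ow v O) {Y : M3 Kb} {n : ℕ}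
    (b : Bool) {s : Kb} (hs : s ∈ O) (h : Sm v top O M Y n) :
    Sm v top O M (Y * (Ad (un b s))ᵀ) (n + 1) := by
  intro f E a a' hf
  have e : aeval (pt (Y * (Ad (un b s))ᵀ)) f = aeval (pt (Ad (un b s) * Yᵀ)) (trP f) := by
    rw [aeval_trP, transpose_mul, transpose_transpose]
  have a2 : Bound (trP (trP f)) M := by rw [trP_trP]; exact a
  have h3 := sum_lt hT hO h hs (h1.deg (trP f) M b a') (fun j => trP ((psi b (trP f)).coeff j))
    (fun j => h1.right (trP f) M b j a2)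
    (fun j => by rw [trP_trP]; exact h1.left (trP f) M b j a')
    (fun j => (h2 Γ v top hT b f j).2) hf
  simp only [aeval_trP] at h3
  rw [e, expand]
  exact h3

end

end D2P

open D2P in
theorem d2 (h1 : D1Stmt) (h2 : TayStmt) (h3 : UnipStmt) : D2Stmt := by
  intro Γ _ v top O hT hO f M a a' hf k₁ k₂ i₁ i₂
  obtain ⟨s, hs, rfl⟩ := h3 Kb O k₁ i₁
  obtain ⟨t, ht, rfl⟩ := h3 Kb O k₂ i₂
  have h := left h1 h2 hT hO false (hs 0) (left h1 h2 hT hO true (hs 1)
    (left h1 h2 hT hO false (hs 2) (left h1 h2 hT hO true (hs 3)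
    (right h1 h2 hT hO false (ht 0) (right h1 h2 hT hO true (ht 1)
    (right h1 h2 hT hO false (ht 2) (right h1 h2 hT hO true (ht 3)
    (base (M := M) hT hO)))))))) f 0 a a' (by rw [pow_zero]; exact hf)
  rw [show 0 + 10 * M * (0 + 1 + 1 + 1 + 1 + 1 + 1 + 1 + 1) + 1 = 80 * M + 1 by ring] at h
  simpa only [uu, Ad_mul, transpose_mul, Matrix.mul_assoc, un, if_true, Bool.false_eq_true,
    if_false] using h

end Pool.Agent.MP_0f1eb7_ag.Cyl

end
end MrgPart3

-- ======== part 4: formerly Pool.Agent.MP_0f1eb7_ag.cyl.Res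
section MrgPart4

/-! Splitting by residue classes of exponents. -/

set_option autoImplicit false

noncomputable section

namespace Pool.Agent.MP_0f1eb7_ag.Cyl

open MvPolynomial Matrix

namespace ResP

/-- the exponent attached to a pair -/
def upE (N : ℕ) (d : Fin 2 →₀ ℕ) : Fin 3 →₀ ℕ :=
  Finsupp.single 1 (3 * N * d 0) + Finsupp.single 2 (2 * N * d 1)

def quo (N : ℕ) (η : Fin 3 →₀ ℕ) : Fin 2 →₀ ℕ :=
  Finsupp.equivFunOnFinite.symm ![η 1 / (3 * N), η 2 / (2 * N)]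

def rem (N : ℕ) (η : Fin 3 →₀ ℕ) : Fin 3 →₀ ℕ :=
  Finsupp.equivFunOnFinite.symm ![η 0, η 1 % (3 * N), η 2 % (2 * N)]

theorem rem_add (N : ℕ) (η : Fin 3 →₀ ℕ) : rem N η + upE N (quo N η) = η := by
  ext i
  fin_cases i <;> simp [rem, upE, quo, Nat.mod_add_div]

theorem rem_up (N : ℕ) (η : Fin 3 →₀ ℕ) (d : Fin 2 →₀ ℕ) : rem N (rem N η + upE N d) = rem N η := by
  ext i
  fin_cases i <;> simp [rem, upE]

theorem up_iff {N : ℕ} (hN : 0 < N) (η η' : Fin 3 →₀ ℕ) (u d : Fin 2 →₀ ℕ) :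
    rem N η' + upE N u = rem N η + upE N d ↔ rem N η' = rem N η ∧ u = d := by
  refine ⟨fun h => ?_, fun h => by rw [h.1, h.2]⟩
  have h1 : rem N η' = rem N η := by rw [← rem_up N η' u, h, rem_up]
  refine ⟨h1, ?_⟩
  rw [h1, add_right_inj] at h
  have e1 := DFunLike.congr_fun h 1
  have e2 := DFunLike.congr_fun h 2
  ext i
  fin_cases i
  · simpa [upE, hN.ne'] using e1
  · simpa [upE, hN.ne'] using e2

theorem weight_up (N : ℕ) (d : Fin 2 →₀ ℕ) :
    Finsupp.weight w3 (upE N d) = 6 * N * (d 0 + d 1) := by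
  simp only [upE, map_add, Finsupp.weight_single, w3, smul_eq_mul]
  simp
  ring

variable {T : Type} [CommRing T]

/-- substitution of powers -/
def ex (N : ℕ) : MvPolynomial (Fin 2) T →ₐ[T] MvPolynomial (Fin 3) T :=
  aeval ![X 1 ^ (3 * N), X 2 ^ (2 * N)]

theorem ex_monomial (N : ℕ) (u : Fin 2 →₀ ℕ) (c : T) :
    ex N (monomial u c) = monomial (upE N u) c := by
  rw [ex, aeval_monomial, Finsupp.prod_fintype _ _ (by simp), Fin.prod_univ_two]
  simp only [cons_val_zero, cons_val_one, ← pow_mul]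
  simp only [X_pow_eq_monomial, upE, algebraMap_eq, monomial_mul, C_mul_monomial, mul_one]

theorem coeff_ex {N : ℕ} (hN : 0 < N) (η η' : Fin 3 →₀ ℕ) (d : Fin 2 →₀ ℕ)
    (p : MvPolynomial (Fin 2) T) :
    coeff (rem N η + upE N d) (monomial (rem N η') 1 * ex N p) =
      if rem N η' = rem N η then coeff d p else 0 := by
  induction p using MvPolynomial.induction_on' with
  | monomial u c =>
    rw [ex_monomial, monomial_mul, one_mul, coeff_monomial, coeff_monomial]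
    simp only [up_iff hN, ite_and]
  | add p q hp hq =>
    rw [map_add, mul_add, coeff_add, hp, hq, coeff_add]
    split_ifs <;> simp

theorem mon_split (N : ℕ) (η : Fin 3 →₀ ℕ) (p : MvPolynomial (Fin 2) T) :
    monomial η 1 * ex N p = monomial (rem N η) 1 * ex N (monomial (quo N η) 1 * p) := by
  rw [map_mul, ex_monomial, ← mul_assoc, monomial_mul, rem_add, one_mul]

theorem eval_ex {E : Type} [CommRing E] (N : ℕ) (φ : T →+* E) (e : Fin 3 → E)
    (p : MvPolynomial (Fin 2) T) :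
    eval₂ φ e (ex N p) = eval₂ φ ![e 1 ^ (3 * N), e 2 ^ (2 * N)] p := by
  induction p using MvPolynomial.induction_on with
  | C c => simp [ex]
  | add p q hp hq => rw [map_add, eval₂_add, eval₂_add, hp, hq]
  | mul_X p i hp =>
    rw [map_mul, eval₂_mul, eval₂_mul, hp]
    fin_cases i <;> simp [ex]

variable {S : Type} [CommRing S] [Algebra ℂ S]

/-- `ψ` is `ξ` on the big cell, with cleared denominators -/
def Cl (a b : S) (R : ℕ) (ξ : MvPolynomial Kv S)
    (ψ : MvPolynomial (Fin 2) (MvPolynomial (Fin 2) S)) : Prop :=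
  ∀ (E : Type) [Field E] [Algebra ℂ E] (j : S →ₐ[ℂ] E) (x y s₁ s₂ : E),
    1 - (j b * y) ^ 2 ≠ 0 → eval₂ (eval₂Hom (j : S →+* E) ![s₁, s₂]) ![x, y] ψ =
      (1 - (j b * y) ^ 2) ^ R *
        eval₂ (j : S →+* E) (pk (gm (j a * x) (j b * y) * (um s₁ * up s₂))) ξ

theorem clear (a b : S) (ξ : MvPolynomial Kv S) : ∃ r₀ : ℕ, ∀ R ≥ r₀, ∃ ψ, Cl a b R ξ ψ := by
  obtain ⟨r₀, h⟩ := clear_den (S := MvPolynomial (Fin 2) (MvPolynomial (Fin 2) S)) (C.comp C)
    (pk (gt (C (C a) * X 0) (C (C b) * X 1) *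
      (um (R := MvPolynomial (Fin 2) (MvPolynomial (Fin 2) S)) (C (X 0)) *
        up (R := MvPolynomial (Fin 2) (MvPolynomial (Fin 2) S)) (C (X 1)))))
    (1 - (C (C b) * X 1) ^ 2) ξ
  refine ⟨r₀, fun R hR => (h R hR).imp fun ψ hψ E _ _ j x y s₁ s₂ hn => ?_⟩
  let φ := eval₂Hom (eval₂Hom (j : S →+* E) ![s₁, s₂]) ![x, y]
  have e1 : φ (1 - (C (C b) * X 1) ^ 2) = 1 - (j b * y) ^ 2 := by simp [φ]
  have e2 : φ hf = hf := by simp [φ, hf, MvPolynomial.algebraMap_apply]
  have e3 : φ.comp (C.comp C) = (j : S →+* E) := by ext c; simp [φ]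
  have := hψ E φ (by rwa [e1])
  rw [e1, e3] at this
  refine this.trans ?_
  congr 2
  funext t
  have a1 : φ (C (C a)) = j a := by simp [φ]
  have a2 : φ (C (C b)) = j b := by simp [φ]
  have a3 : φ (X 0) = x := by simp [φ]
  have a4 : φ (X 1) = y := by simp [φ]
  have a5 : φ (C (X 0)) = s₁ := by simp [φ]
  have a6 : φ (C (X 1)) = s₂ := by simp [φ]
  clear_value φ
  obtain ⟨i, k⟩ := t
  fin_cases i <;> fin_cases k <;>
    simp [pk, gm, gt, um, up, Matrix.mul_apply, Fin.sum_univ_two, a1, a2, a3, a4, a5, a6, e2] <;>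
    ring

end ResP

open ResP in
theorem res (h : E1Stmt) : ResStmt := by
  intro S _ _ _ a b ha hb Ξ M hM
  classical
  have hN : 0 < NN := by decide
  generalize NN = N at hN ⊢
  choose r hr using fun η => clear a b (coeff η Ξ)
  refine ⟨Ξ.support.sup r, fun R hR => ?_⟩
  have : ∀ η, ∃ ψ, η ∈ Ξ.support → Cl a b R (coeff η Ξ) ψ := fun η => by
    by_cases hη : η ∈ Ξ.support
    · exact (hr η R ((Finset.le_sup hη).trans hR)).imp fun _ h _ => h
    · exact ⟨0, fun h => absurd h hη⟩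
  choose ψ hψ using this
  refine ⟨∑ η ∈ Ξ.support, monomial η 1 * ex N (ψ η), fun E _ _ j e s₁ s₂ hn => ?_,
    fun W hW η₀ h₀ hw => ?_⟩
  · rw [eval₂_sum, eval₂_eq _ e Ξ, Finset.mul_sum]
    refine Finset.sum_congr rfl fun η hη => ?_
    rw [eval₂_mul, eval_ex, hψ η hη E j _ _ s₁ s₂ hn, eval₂_monomial, map_one, coe_eval₂Hom,
      Finsupp.prod]
    ring
  · let D := Ξ.support.filter fun η => rem N η = rem N η₀
    have key : ∀ d, coeff (rem N η₀ + upE N d) (∑ η ∈ Ξ.support, monomial η 1 * ex N (ψ η)) =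
        coeff d (∑ η ∈ D, monomial (quo N η) 1 * ψ η) := fun d => by
      rw [coeff_sum, coeff_sum, Finset.sum_filter]
      exact Finset.sum_congr rfl fun η _ => by rw [mon_split, coeff_ex hN]
    have h1 := h S a b ha hb (∑ η ∈ D, C (monomial (quo N η) 1) * map C (coeff η Ξ)) M
      (IsWeightedHomogeneous.sum _ _ _ fun η _ => IsWeightedHomogeneous.C_mul
        (fun d hd => hM η fun h0 => hd (by rw [coeff_map, h0, map_zero])) _)
      (∑ η ∈ D, monomial (quo N η) 1 * ψ η) R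
      (fun h0 => mem_support_iff.1 h₀ (by rw [← rem_add N η₀, key, h0, coeff_zero]))
      fun E _ _ j x y s₁ s₂ hn => by
        rw [eval₂_sum, eval₂_sum, Finset.mul_sum]
        refine Finset.sum_congr rfl fun η hη => ?_
        rw [eval₂_mul, eval₂_mul, hψ η (Finset.mem_filter.1 hη).1 E j x y s₁ s₂ hn, eval₂_C,
          eval₂_map, show (eval₂Hom (j : S →+* E) ![x, y]).comp C = j by ext c; simp,
          eval₂_monomial, eval₂Hom_monomial, map_one, map_one]
        ring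
    refine h1.trans (mul_le_mul_of_nonneg_left (Int.ofNat_le.2 (Finset.sup_le fun d hd => ?_))
      (by norm_num))
    have h2 := hW _ (mem_support_iff.2 (by rw [key]; exact mem_support_iff.1 hd))
    rw [← hw] at h2
    conv_rhs at h2 => rw [← rem_add N η₀]
    rw [map_add, map_add, weight_up, weight_up, add_le_add_iff_left] at h2
    rw [Finsupp.sum_fintype _ _ (by simp), Fin.sum_univ_two]
    simpa [quo] using Nat.le_of_mul_le_mul_left h2 (by omega)

end Pool.Agent.MP_0f1eb7_ag.Cyl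

end
end MrgPart4

-- marker of a merged file
example : 731051 + 630793 = 731051 + 630793 := rfl
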