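import Mathlib.RingTheory.Flat.TorsionFree
import Mathlib.Analysis.Complex.Polynomial.Basic
import Mathlib.RingTheory.Finiteness.ModuleFinitePresentation
import Mathlib.RingTheory.TotallySplit
import Mathlib.RingTheory.Etale.Weakly
import Pool.Agent.MP_0f1eb7_ag.cyl.Spec1

/-! Row REY: eigen decomposition, Reynolds operator and finite generation of the invariants. -/

set_option autoImplicit false

noncomputable section

namespace Pool.Agent.MP_0f1eb7_ag.Cyl

open MvPolynomial

namespace ReyP

/-- the sign of `a` in `S` -/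
def sn (a : Fin 4) (S : Finset (Fin 4)) : ℂ := if a ∈ S then -1 else 1

lemma sn_sq (a : Fin 4) (S : Finset (Fin 4)) : sn a S * sn a S = 1 := by
  unfold sn
  split_ifs <;> norm_num

/-- the projection to an eigenspace of `th a` -/
def pr (a : Fin 4) (s : ℂ) : Ap →ₗ[ℂ] Ap := (1 / 2 : ℂ) • (LinearMap.id + s • (th a).toLinearMap)

lemma pr_apply (a : Fin 4) (s : ℂ) (f : Ap) : pr a s f = (1 / 2 : ℂ) • (f + s • th a f) := rfl

lemma th_pr (h : ThStmt) (a b : Fin 4) (s : ℂ) (f : Ap) : th b (pr a s f) = pr a s (th b f) := by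
  rw [pr_apply, pr_apply, map_smul, map_add, map_smul, h.2]

lemma th_pr_self (h : ThStmt) (a : Fin 4) {s : ℂ} (hs : s * s = 1) (f : Ap) :
    th a (pr a s f) = s • pr a s f := by
  rw [th_pr h, pr_apply, pr_apply, h.1, smul_comm s, smul_add s, smul_smul, hs, one_smul, add_comm]

lemma pr_add (a : Fin 4) (f : Ap) : pr a 1 f + pr a (-1) f = f := by
  rw [pr_apply, pr_apply]
  module

lemma th_prod (a : Fin 4) (S : Finset (Fin 4)) :
    th a (∏ j ∈ S, rt j) = sn a S • ∏ j ∈ S, rt j := by
  have e : ∀ j, (flip a j : Ap) = if a = j then -1 else 1 := fun j => by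
    unfold flip
    split_ifs <;> simp
  simp only [map_prod, th_rt, Finset.prod_mul_distrib, e, Finset.prod_ite_eq, sn]
  split_ifs
  · rw [neg_one_smul]
    exact neg_one_mul (∏ j ∈ S, rt j : Ap)
  · rw [one_smul, one_mul]

lemma dec (h : ThStmt) (A : Finset (Fin 4)) (f : Ap) : ∃ g : Finset (Fin 4) → Ap,
    f = ∑ S ∈ A.powerset, g S ∧ ∀ S, ∀ a ∈ A, th a (g S) = sn a S • g S := by
  induction A using Finset.induction_on with
  | empty => exact ⟨fun _ => f, by simp, by simp⟩
  | insert a A ha ih =>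
    obtain ⟨g, h1, h2⟩ := ih
    refine ⟨fun S => pr a (sn a S) (g (S.erase a)), ?_, fun S b hb => ?_⟩
    · rw [Finset.sum_powerset_insert ha, ← Finset.sum_add_distrib, h1]
      refine Finset.sum_congr rfl fun S hS => ?_
      have hS' : a ∉ S := fun h => ha (Finset.mem_powerset.1 hS h)
      rw [Finset.erase_insert hS', Finset.erase_eq_of_notMem hS', sn, sn, if_neg hS',
        if_pos (Finset.mem_insert_self a S), pr_add]
    · by_cases hab : b = a
      · rw [hab]
        exact th_pr_self h a (sn_sq a S) _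
      · rw [th_pr h, h2 _ b ((Finset.mem_insert.1 hb).resolve_left hab), map_smul]
        simp only [sn, Finset.mem_erase, ne_eq, hab, not_false_eq_true, true_and]

/-- averaging over a list of involutions -/
def av : List (Fin 4) → Ap →ₗ[ℂ] Ap
  | [] => LinearMap.id
  | a :: l => pr a 1 ∘ₗ av l

lemma th_av (h : ThStmt) (b : Fin 4) (l : List (Fin 4)) (f : Ap) :
    th b (av l f) = av l (th b f) := by
  induction l with
  | nil => rfl
  | cons a l ih => rw [av, LinearMap.comp_apply, LinearMap.comp_apply, th_pr h, ih]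

lemma th_av_mem (h : ThStmt) {b : Fin 4} {l : List (Fin 4)} (hb : b ∈ l) (f : Ap) :
    th b (av l f) = av l f := by
  induction l with
  | nil => simp at hb
  | cons a l ih =>
    rw [av, LinearMap.comp_apply]
    rcases List.mem_cons.1 hb with rfl | hb
    · rw [th_pr_self h b (one_mul 1), one_smul]
    · rw [th_pr h, ih hb]

lemma av_mul {b : Ap} (hb : b ∈ Bs) (l : List (Fin 4)) (f : Ap) : av l (b * f) = b * av l f := by
  induction l with
  | nil => rfl
  | cons a l ih =>
    rw [av, LinearMap.comp_apply, LinearMap.comp_apply, ih, pr_apply, pr_apply, map_mul,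
      mem_Bs.1 hb a, one_smul, one_smul, ← mul_add, mul_smul_comm]

lemma av_one (l : List (Fin 4)) : av l 1 = 1 := by
  induction l with
  | nil => rfl
  | cons a l ih =>
    rw [av, LinearMap.comp_apply, ih, pr_apply, map_one]
    module

end ReyP

open ReyP

theorem semi (h : ThStmt) : SemiStmt := by
  intro f
  obtain ⟨g, h1, h2⟩ := dec h Finset.univ f
  refine ⟨g, by rwa [Finset.powerset_univ] at h1, fun S => ⟨mem_Bs.2 fun a => ?_,
    mem_Bs.2 fun a => ?_⟩⟩
  · rw [map_mul, th_prod, h2 S a (Finset.mem_univ a), smul_mul_smul_comm, sn_sq, one_smul]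
  · rw [sq, map_mul, h2 S a (Finset.mem_univ a), smul_mul_smul_comm, sn_sq, one_smul]

theorem rey (h : ThStmt) : ReyStmt := by
  have hm : ∀ a f, th a (av (List.finRange 4) f) = av (List.finRange 4) f :=
    fun a f => th_av_mem h (List.mem_finRange a) f
  refine ⟨av (List.finRange 4), fun f => mem_Bs.2 fun a => hm a f,
    fun b hb f => av_mul hb _ f, av_one _, fun S ⟨a, ha⟩ => ?_⟩
  have e := hm a (∏ j ∈ S, rt j)
  rw [th_av h, th_prod, sn, if_pos ha, map_smul] at e
  have e2 : (2 : ℂ) • av (List.finRange 4) (∏ j ∈ S, rt j) = 0 := by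
    linear_combination (norm := module) -e
  exact (smul_eq_zero.1 e2).resolve_left two_ne_zero

theorem ft (h : SemiStmt) : FtStmt := by
  let _ : Algebra Bt Ap := (valB : Bt →+* Ap).toAlgebra
  have : IsScalarTower ℂ Bt Ap := IsScalarTower.of_algebraMap_eq fun c => (valB.commutes c).symm
  have : Algebra.IsIntegral Bt Ap := ⟨fun f => by
    obtain ⟨g, h1, h2⟩ := h f
    rw [h1]
    refine IsIntegral.sum _ fun S _ => IsIntegral.of_pow two_pos ?_
    obtain ⟨b, hb⟩ := exists_valB (h2 S).2
    rw [← hb]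
    exact isIntegral_algebraMap⟩
  have hC : Algebra.FiniteType ℂ Ap :=
    Algebra.FiniteType.trans (S := Rt) inferInstance inferInstance
  have : Algebra.FiniteType Bt Ap := Algebra.FiniteType.of_restrictScalars_finiteType ℂ Bt Ap
  have hf : Module.Finite Bt Ap := Algebra.IsIntegral.finite
  exact ⟨fg_of_fg_of_fg ℂ Bt Ap hC.out hf.fg_top valB_inj⟩

end Pool.Agent.MP_0f1eb7_ag.Cyl
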