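import Pool.Agent.MP_0f1eb7_ag.cyl.Glue
import Pool.Agent.MP_0f1eb7_ag.cyl.Th
import Pool.Agent.MP_0f1eb7_ag.cyl.Rey
import Pool.Agent.MP_0f1eb7_ag.cyl.E3
import Pool.Agent.MP_0f1eb7_ag.cyl.FibAlg
import Pool.Agent.MP_0f1eb7_ag.cyl.Res
import Pool.Agent.MP_0f1eb7_ag.cyl.D1
import Pool.Agent.MP_0f1eb7_ag.cyl.E2

/-! Assembly of all steps. -/

set_option autoImplicit false

namespace Pool.Agent.MP_0f1eb7_ag.Cyl

theorem all_flat : FlatStmt := flat (rey thS)
theorem all_ft : FtStmt := ft (semi thS)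
theorem all_fib : FibAlgStmt := fibAlg (semi thS) (rey thS)
theorem all_red : RedStmt := red (semi thS)

theorem all_lnd : LndStmt :=
  lnd (omS mv) (a1a (nnS inv) gen) a1b (a2 (jac (nnS inv))) tr (semiLC (nnS inv) eqv)
    (bS inv (nnS inv) (b1 inv (nnS inv))) (nnS inv) gen

theorem all_charge : ChargeStmt :=
  charge wS sym (e2 wS aLead sym (res (e1 wS)) (prep wS aLead)) e3

theorem all_fin : FinStmt :=
  fin (slcS mv gsl (sl1 inv) cS inv) (ow mv) (par inv) (diag diag1 pauli) (d1 wS)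
    (d2 (d1 wS) (tay xS) unip) (d3 xS (d1 wS))
    (core wS (par inv) (cell wS) (dens unip) all_charge) trLc

theorem all_mat : MatStmt := mat all_lnd all_fin

end Pool.Agent.MP_0f1eb7_ag.Cyl
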