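import Mathlib.CategoryTheory.Limits.Shapes.Countable
import Mathlib.AlgebraicGeometry.Morphisms.Immersion
import Mathlib.AlgebraicGeometry.Fiber
import Mathlib.AlgebraicGeometry.Morphisms.Flat
import Mathlib.Analysis.Complex.Polynomial.Basic
import Mathlib.RingTheory.Finiteness.ModuleFinitePresentation
import Mathlib.AlgebraicGeometry.ProjectiveSpectrum.Basic
import Mathlib.Combinatorics.Quiver.ReflQuiver
import Mathlib.RingTheory.TotallySplit
import Pool.Agent.MP_0f1eb7_ag.cyl.Th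

-- ======== part 0: formerly Pool.Agent.MP_0f1eb7_ag.cyl.Core
section MrgPart0

/-! The final contradiction for one leading coefficient. -/

set_option autoImplicit false

noncomputable section

namespace Pool.Agent.MP_0f1eb7_ag.Cyl

open MvPolynomial Matrix

namespace CoreP

theorem aeval_aeval {τ R S : Type} [CommRing R] [CommRing S] [Algebra ℂ R] [Algebra ℂ S]
    (φ : R →ₐ[ℂ] S) (g : τ → R) (f : MvPolynomial τ ℂ) :
    φ (aeval g f) = aeval (fun t => φ (g t)) f := by
  rw [← AlgHom.comp_apply, comp_aeval]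

theorem aeval_pt {R S : Type} [CommRing R] [CommRing S] [Algebra ℂ R] [Algebra ℂ S]
    (φ : R →ₐ[ℂ] S) (y : M3 R) (f : Py) : φ (aeval (pt y) f) = aeval (pt (y.map φ)) f :=
  aeval_aeval φ _ f

theorem intM_map (O : ValuationSubring Kb) (hC : ∀ c : ℂ, algebraMap ℂ Kb c ∈ O) {k : M2 ℂ}
    (hk : k.det = 1) : IntM O (k.map (algebraMap ℂ Kb)) := by
  refine ⟨fun i j => hC _, ?_⟩
  have := (algebraMap ℂ Kb).map_det k
  rw [hk, map_one] at this
  exact this.symm

theorem Ad_alg {S : Type} [CommRing S] [Algebra ℂ S] (k : M2 ℂ) :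
    (Ad k).map (algebraMap ℂ S) = Ad (k.map (algebraMap ℂ S)) :=
  (Ad_map (Algebra.ofId ℂ S) k).symm

theorem slc_map (k₁ k₂ : M2 ℂ) (s : Fin 3 → Kb) :
    (slc k₁ k₂).map (aeval s : MvPolynomial (Fin 3) ℂ →ₐ[ℂ] Kb) =
      Ad (k₁.map (algebraMap ℂ Kb)) * diagonal s * (Ad (k₂.map (algebraMap ℂ Kb)))ᵀ := by
  rw [← Ad_alg, ← Ad_alg]
  ext i j
  simp [slc, mul_apply, Fin.sum_univ_three, diagonal]

theorem act_eval {S : Type} [CommRing S] [Algebra ℂ S] (f : Py) (k : M2 ℂ) (Y : M3 S) :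
    aeval (pt Y) (aeval (pt ((Ad k).map C * (Ym : M3 Py))) f) =
      aeval (pt (Ad (k.map (algebraMap ℂ S)) * Y)) f := by
  rw [aeval_pt, Matrix.map_mul, ← Ad_alg]
  have e1 : ((Ad k).map C : M3 Py).map (aeval (pt Y) : Py →ₐ[ℂ] S) =
      (Ad k).map (algebraMap ℂ S) := by ext i j; simp
  have e2 : (Ym : M3 Py).map (aeval (pt Y) : Py →ₐ[ℂ] S) = Y := by ext i j; simp [Ym, pt]
  rw [e1, e2]

theorem lam_eval (f : Py) (k k₁ k₂ : M2 ℂ) (s : Fin 3 → Kb) :
    aeval s (aeval (pt (slc k₁ k₂)) (aeval (pt ((Ad k).map C * (Ym : M3 Py))) f)) =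
      aeval (pt (Ad ((k * k₁).map (algebraMap ℂ Kb)) * diagonal s *
        (Ad (k₂.map (algebraMap ℂ Kb)))ᵀ)) f := by
  rw [aeval_pt, slc_map, act_eval, Matrix.map_mul, Ad_mul]
  simp only [Matrix.mul_assoc]

theorem Nm_eval (p : MvPolynomial (Fin 3) ℂ) (s : Fin 3 → Kb) :
    aeval s (Nm p) = ∏ w : Equiv.Perm (Fin 3) × (Fin 3 → ℤˣ), aeval (sp w s) p := by
  rw [Nm, map_prod]
  refine Finset.prod_congr rfl fun w _ => ?_
  rw [aeval_aeval]
  congr 2
  funext i
  simp [sp]

theorem ee_map {R S : Type} [CommRing R] [CommRing S] [Algebra ℂ R] [Algebra ℂ S]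
    (φ : R →ₐ[ℂ] S) (s : Fin 3 → R) (i : Fin 3) : φ (ee s i) = ee (fun j => φ (s j)) i := by
  fin_cases i <;> simp [ee]

theorem zz_yK (i : Fin 3) : zz yK i = algebraMap kk Kb (zz ym i) := by
  fin_cases i
  · exact z2_map (algebraMap kk Kb) ym
  · exact z4_map (algebraMap kk Kb) ym
  · exact zt_map (algebraMap kk Kb) ym

theorem prod_lt {Γ α : Type} [LinearOrderedCommGroupWithZero Γ] [Fintype α] [Nonempty α]
    (a : α → Γ) (b : Γ) (h : ∀ w, a w < b) : ∏ w, a w < b ^ Fintype.card α := by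
  obtain ⟨w₀, -, hw⟩ := Finset.exists_max_image Finset.univ a Finset.univ_nonempty
  calc ∏ w, a w ≤ a w₀ ^ Fintype.card α := by
        rw [← Finset.card_univ, ← Finset.prod_const]
        exact Finset.prod_le_prod' hw
    _ < b ^ Fintype.card α := pow_lt_pow_left₀ (h w₀) zero_le Fintype.card_ne_zero

end CoreP

open CoreP

theorem core (hW : WStmt) (hP : ParStmt) (hCell : CellStmt) (hD : DensStmt) (hCh : ChargeStmt) :
    CoreStmt := by
  intro Γ _ v top O hT hO s hs c hc i₁ i₂ i₃ i₄ f e hL hf M hB hnB hTB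
  obtain ⟨s₁, s₂, hne⟩ := hCell f M hB hnB
  obtain ⟨k₁, k₂, d₁, d₂, hlam⟩ := hD O s hs _ hne
  have hcast : ((M + 1 : ℕ) : ℤ) = (M : ℤ) + 1 := by push_cast; rfl
  have hlam' : lam ((M + 1 : ℕ) : ℤ) f s₁ s₂ k₁ k₂ ≠ 0 := by rw [hcast]; exact hlam
  obtain ⟨q, n, hq, hqn, η, hη, hge⟩ := hCh c hc i₁ i₂ i₃ i₄ f e hL hf (M + 1) s₁ s₂ k₁ k₂ d₁ d₂ hlam'
  obtain ⟨hN, hmax⟩ := hP O hO.C_mem hO.aniso
  set G := O.valuation (pt yK top) with hG
  have back : ∀ a b : kk, O.valuation (algebraMap kk Kb a) ≤ O.valuation (algebraMap kk Kb b) →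
      v a ≤ v b := fun a b h => not_lt.1 fun h' => absurd (hO.refine _ _ h') (not_lt.2 h)
  have hGpos : 0 < G := by
    have := hO.refine 1 (pt ym top) (by simpa using hT.one_lt)
    exact lt_of_le_of_lt zero_le this
  -- upper bound
  have up1 : ∀ w, O.valuation (aeval (sp w s) (lam ((M + 1 : ℕ) : ℤ) f s₁ s₂ k₁ k₂)) <
      G ^ (80 * (M + 1) + 1) := by
    intro w
    obtain ⟨m, cc, l, hl, hsum⟩ := hW.comp_sum f ((M + 1 : ℕ) : ℤ)
    rw [lam, hsum, map_sum, map_sum]
    refine O.valuation.map_sum_lt (pow_pos hGpos _).ne' fun i _ => ?_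
    rw [map_smul, map_smul, lam_eval, Algebra.smul_def, map_mul]
    refine lt_of_le_of_lt (mul_le_of_le_one_left' ((O.valuation_le_one_iff _).2 (hO.C_mem _))) ?_
    refine hTB w _ _ (intM_map O hO.C_mem ?_) (intM_map O hO.C_mem d₂)
    simp [det_um, det_up, det_tor (hl i), d₁]
  have up2 : O.valuation (aeval (zz yK) q) < G ^ ((80 * (M + 1) + 1) * 48) := by
    have e1 : aeval (zz yK) q = aeval s (aeval (ee (X : Fin 3 → MvPolynomial (Fin 3) ℂ)) q) := by
      rw [aeval_aeval, ← hs.1]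
      congr 2
      funext i
      rw [ee_map]; simp
    rw [e1, hq, Nm_eval, map_prod, pow_mul]
    have := prod_lt _ _ up1
    have hc48 : Fintype.card (Equiv.Perm (Fin 3) × (Fin 3 → ℤˣ)) = 48 := by
      simp [Fintype.card_perm, Nat.factorial]
    rwa [hc48] at this
  -- lower bound
  set B := v (pt ym top) with hB'
  have b0 : B ^ 2 ≤ v (zz ym 0) := by
    rw [hB', ← map_pow]
    apply back
    rw [map_pow, map_pow, ← zz_yK]
    exact hN.y_le top.1 top.2
  have b2 : 1 ≤ v (zz ym 2) := by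
    show 1 ≤ v (ym.det ^ 2)
    rw [map_pow]
    exact one_le_pow₀ hT.det_ge
  have b1 : B ≤ v (zz ym 1) := by
    have h1 : v (zz ym 2 * zz ym 0) ≤ v (zz ym 1 ^ 2) := by
      apply back
      rw [map_mul, map_pow, map_mul, map_pow, ← zz_yK, ← zz_yK, ← zz_yK]
      exact hN.lt2.le
    rw [map_mul, map_pow] at h1
    have h2 : B ^ 2 ≤ v (zz ym 1) ^ 2 :=
      le_trans (by simpa using mul_le_mul' b2 b0) h1
    exact (pow_le_pow_iff_left₀ zero_le zero_le two_ne_zero).1 h2
  have low : B ^ (2 * η 0 + η 1) ≤ v (∏ i, zz ym i ^ η i) := by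
    rw [Fin.prod_univ_three, map_mul, map_mul, map_pow, map_pow, map_pow, pow_add, pow_mul]
    calc (B ^ 2) ^ η 0 * B ^ η 1 = (B ^ 2) ^ η 0 * B ^ η 1 * 1 := (mul_one _).symm
      _ ≤ _ := mul_le_mul' (mul_le_mul' (pow_le_pow_left' b0 _) (pow_le_pow_left' b1 _))
        (one_le_pow₀ b2)
  have hNN : NN = 60 := rfl
  have lt1 : v (pt ym top ^ ((80 * (M + 1) + 1) * 48)) < v (∏ i, zz ym i ^ η i) := by
    rw [map_pow]
    refine lt_of_lt_of_le (pow_lt_pow_right₀ hT.one_lt ?_) low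
    rw [hNN] at hge
    omega
  have lt2 := hO.refine _ _ lt1
  have e2 : algebraMap kk Kb (∏ i, zz ym i ^ η i) = ∏ i, zz yK i ^ η i := by
    simp [zz_yK]
  rw [e2, map_pow, map_pow] at lt2
  exact absurd (lt_trans (lt_of_lt_of_le lt2 (hmax q n hqn η hη)) up2) (lt_irrefl _)

end Pool.Agent.MP_0f1eb7_ag.Cyl

end
end MrgPart0

-- ======== part 1: formerly Pool.Agent.MP_0f1eb7_ag.cyl.Fin
section MrgPart1

/-! No locally nilpotent Jacobian derivation with charged kernel. -/

set_option autoImplicit false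

noncomputable section

namespace Pool.Agent.MP_0f1eb7_ag.Cyl

open MvPolynomial Matrix

namespace FinP

theorem bound_mono {f : Py} {M M' : ℕ} (h : Bound f M) (hM : M ≤ M') : Bound f M' :=
  fun N hN => h N (lt_of_le_of_lt (by exact_mod_cast hM) hN)

theorem trP_trP (f : Py) : trP (trP f) = f := by
  simp [trP, rename_rename]

theorem aeval_trP {S : Type} [CommRing S] [Algebra ℂ S] (Y : M3 S) (f : Py) :
    aeval (pt Y) (trP f) = aeval (pt Yᵀ) f := by
  rw [trP, aeval_rename]; rfl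

theorem aeval_neg {S : Type} [CommRing S] [Algebra ℂ S] (Y : M3 S) {f : Py} {e : ℕ}
    (hf : f.IsHomogeneous e) : aeval (pt (-Y)) f = (-1) ^ e * aeval (pt Y) f := by
  rw [aeval_def, aeval_def, eval₂_eq', eval₂_eq', Finset.mul_sum]
  refine Finset.sum_congr rfl fun η hη => ?_
  have hd : ∑ i, η i = e := by
    have := hf (mem_support_iff.1 hη)
    rw [← this, Finsupp.weight_apply, Finsupp.sum_fintype _ _ (by simp)]
    simp
  have : ∀ i, pt (-Y) i ^ η i = (-1) ^ η i * pt Y i ^ η i := fun i => by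
    rw [← mul_pow]; simp [pt]
  simp only [this, Finset.prod_mul_distrib, Finset.prod_pow_eq_pow_sum, hd]
  ring

theorem intM_mul {O : ValuationSubring Kb} {k k' : M2 Kb} (h : IntM O k) (h' : IntM O k') :
    IntM O (k * k') := by
  refine ⟨fun i j => ?_, by rw [det_mul, h.2, h'.2, one_mul]⟩
  rw [mul_apply, Fin.sum_univ_two]
  exact O.add_mem _ _ (O.mul_mem _ _ (h.1 _ _) (h'.1 _ _)) (O.mul_mem _ _ (h.1 _ _) (h'.1 _ _))

theorem tb_trP {O : ValuationSubring Kb} {top : I9} {s : Fin 3 → Kb} {f : Py} {M : ℕ}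
    (h : TB O top s f M) : TB O top s (trP f) M := by
  intro w k₁ k₂ h₁ h₂
  rw [aeval_trP, transpose_mul, transpose_mul, transpose_transpose, diagonal_transpose,
    ← Matrix.mul_assoc]
  exact h w k₂ k₁ h₂ h₁

end FinP

open FinP

theorem fin (hS : SlcStmt) (hOw : OwStmt) (hP : ParStmt) (hDg : DiagStmt) (h1 : D1Stmt)
    (h2 : D2Stmt) (h3 : D3Stmt) (hC : CoreStmt) (hT : TrLcStmt) : FinStmt := by
  classical
  intro h hL
  obtain ⟨Γ, _, v, F, top, hR, hTop, hle⟩ := hS h hL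
  obtain ⟨O, hO⟩ := hOw Γ v F hR
  obtain ⟨s, hs⟩ := hDg Kb O hO.C_mem yK (hP O hO.C_mem hO.aniso).1
  obtain ⟨l, hl, hnb⟩ := h3 h hL.ne
  obtain ⟨e, he⟩ := hL.hom l hl
  set f := h l with hf
  have hex : ∃ M, Bound f M ∧ Bound (trP f) M := by
    obtain ⟨M₁, b₁⟩ := h1.ex f
    obtain ⟨M₂, b₂⟩ := h1.ex (trP f)
    exact ⟨max M₁ M₂, bound_mono b₁ (le_max_left _ _), bound_mono b₂ (le_max_right _ _)⟩
  have hspec := Nat.find_spec hex
  obtain ⟨M, hM⟩ : ∃ M, Nat.find hex = M + 1 := by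
    apply Nat.exists_eq_succ_of_ne_zero
    intro h0
    rw [h0] at hspec
    exact hnb hspec.1
  have hmin := Nat.find_min hex (m := M) (by omega)
  rw [hM] at hspec
  have hTB : TB O top s f (M + 1) := by
    intro w k₁ k₂ i₁ i₂
    obtain ⟨a, b, ia, ib, hab⟩ := hs.2 w
    have key := h2 Γ v top O hTop hO f (M + 1) hspec.1 hspec.2 (hle l hl) _ _ (intM_mul i₁ ia)
      (intM_mul i₂ ib)
    have e1 : Ad (k₁ * a) * yK * (Ad (k₂ * b))ᵀ = Ad k₁ * (Ad a * yK * (Ad b)ᵀ) * (Ad k₂)ᵀ := by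
      rw [Ad_mul, Ad_mul, transpose_mul]; simp only [Matrix.mul_assoc]
    rw [e1] at key
    rcases hab with hab | hab
    · rwa [hab] at key
    · rw [hab, Matrix.mul_neg, Matrix.neg_mul, aeval_neg _ he, map_mul, map_pow] at key
      simpa using key
  by_cases hb : Bound f M
  · have hb' : ¬Bound (trP f) M := fun h' => hmin ⟨hb, h'⟩
    exact hC Γ v top O hTop hO s hs (-1) (Or.inr rfl) 2 3 0 1 (trP f) e (hT _ (hL.lc l hl))
      he.rename_isHomogeneous M hspec.2 hb' (tb_trP hTB)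
  · exact hC Γ v top O hTop hO s hs 1 (Or.inl rfl) 0 1 2 3 f e (hL.lc l hl) he M hspec.1 hb hTB

theorem mat (h1 : LndStmt) (h2 : FinStmt) : MatStmt := fun x hx => by
  obtain ⟨h, hh⟩ := h1 x hx
  exact h2 h hh

end Pool.Agent.MP_0f1eb7_ag.Cyl

end
end MrgPart1

-- ======== part 2: formerly Pool.Agent.MP_0f1eb7_ag.cyl.Plumb
section MrgPart2

/-! Scheme plumbing for forms of affine space: an affine flat family with affine spaces as closed
fibres whose generic fibre has no coordinates refutes the cylinder statement. -/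

set_option autoImplicit false
open AlgebraicGeometry CategoryTheory CategoryTheory.Limits

namespace Pool.Agent.CYL

attribute [local instance] MvPolynomial.gradedAlgebra

/-- An affine scheme of finite type over `ℂ` is quasi-projective. -/
theorem quasiProj (B : Type) [CommRing B] [Algebra ℂ B] [h : Algebra.FiniteType ℂ B] :
    ∃ (S : Type) (_ : CommRing S) (_ : Algebra ℂ S) (𝒜 : ℕ → Submodule ℂ S)
          (_ : GradedAlgebra 𝒜),
        Algebra.FiniteType ℂ S ∧
        (∀ b ∈ 𝒜 0, ∃ c : ℂ, algebraMap ℂ S c = b) ∧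
        ∃ i : Spec (CommRingCat.of B) ⟶ Proj 𝒜, IsImmersion i := by
  obtain ⟨m, π, hπ⟩ := Algebra.FiniteType.iff_quotient_mvPolynomial''.mp h
  let S := MvPolynomial (Option (Fin m)) ℂ
  let 𝒜 : ℕ → Submodule ℂ S := MvPolynomial.homogeneousSubmodule (Option (Fin m)) ℂ
  have hX : ∀ i, (MvPolynomial.X i : S) ∈ 𝒜 1 := fun i => MvPolynomial.isHomogeneous_X ℂ i
  let ψ : S →ₐ[ℂ] B := MvPolynomial.aeval (fun o => Option.elim o 1 (fun i => π (MvPolynomial.X i)))
  have hψ0 : ψ (MvPolynomial.X none) = 1 := MvPolynomial.aeval_X _ _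
  have hψ1 : ∀ i, ψ (MvPolynomial.X (some i)) = π (MvPolynomial.X i) :=
    fun i => MvPolynomial.aeval_X _ _
  have hψC : ∀ c, ψ (MvPolynomial.C c) = algebraMap ℂ B c := fun c => MvPolynomial.aeval_C _ _
  have hu : IsUnit (ψ.toRingHom (MvPolynomial.X none)) := by simp [hψ0]
  let χ : HomogeneousLocalization.Away 𝒜 (MvPolynomial.X none : S) →+* B :=
    (Localization.awayLift ψ.toRingHom _ hu).comp
      (algebraMap _ (Localization.Away (MvPolynomial.X none : S)))
  have hχ : ∀ (n : ℕ) (x : S) (hx : x ∈ 𝒜 (n • 1)),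
      χ (HomogeneousLocalization.Away.mk 𝒜 (hX none) n x hx) = ψ x := by
    intro n x hx
    have h1 : ψ.toRingHom (MvPolynomial.X none) * 1 = 1 := by simp [hψ0]
    have := Localization.awayLift_mk ψ.toRingHom (MvPolynomial.X none) x 1 h1 n
    simpa [χ] using this
  have hsurj : Function.Surjective χ := by
    intro b
    obtain ⟨p, rfl⟩ := hπ b
    change π p ∈ χ.range
    induction p using MvPolynomial.induction_on with
    | C c =>
      refine ⟨HomogeneousLocalization.Away.mk 𝒜 (hX none) 0 (MvPolynomial.C c)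
        (MvPolynomial.isHomogeneous_C _ c), ?_⟩
      rw [hχ, hψC]; simp
    | add p q hp hq => rw [map_add]; exact add_mem hp hq
    | mul_X p i hp =>
      rw [map_mul]
      refine mul_mem hp ⟨HomogeneousLocalization.Away.mk 𝒜 (hX none) 1 (MvPolynomial.X (some i))
        (hX _), ?_⟩
      rw [hχ, hψ1]
  refine ⟨S, inferInstance, inferInstance, 𝒜, inferInstance, inferInstance, ?_, ?_⟩
  · intro b hb
    have hb' : b.IsHomogeneous 0 := hb
    rw [← MvPolynomial.totalDegree_zero_iff_isHomogeneous,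
      MvPolynomial.totalDegree_eq_zero_iff_eq_C] at hb'
    exact ⟨_, hb'.symm⟩
  · have : IsClosedImmersion (Spec.map (CommRingCat.ofHom χ)) :=
      IsClosedImmersion.spec_of_surjective _ hsurj
    exact ⟨Spec.map (CommRingCat.ofHom χ) ≫ Proj.awayι 𝒜 _ (hX none) one_pos, inferInstance⟩

/-- The fibre over a closed point. -/
theorem fibre_iso (A B R : Type) [CommRing A] [CommRing B] [CommRing R] [Algebra A B]
    (s : PrimeSpectrum A) (hs : s.asIdeal.IsMaximal)
    (e : (B ⧸ s.asIdeal.map (algebraMap A B)) ≃+* R) :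
    Nonempty (pullback (Spec.map (CommRingCat.ofHom (algebraMap A B)))
      ((Spec (CommRingCat.of A)).fromSpecResidueField s) ≅ Spec (CommRingCat.of R)) := by
  let e1 : (A ⧸ s.asIdeal) ≃ₐ[A] s.asIdeal.ResidueField :=
    AlgEquiv.ofBijective (IsScalarTower.toAlgHom A _ _)
      s.asIdeal.bijective_algebraMap_quotient_residueField
  let e2 : s.asIdeal.Fiber B ≃+* R :=
    ((Algebra.TensorProduct.congr e1.symm (AlgEquiv.refl : B ≃ₐ[A] B)).toRingEquiv.trans
      (Algebra.TensorProduct.quotIdealMapEquivQuotTensor B s.asIdeal).symm.toRingEquiv).trans e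
  exact ⟨(Arrow.leftFunc.mapIso (Spec.fiberToSpecResidueFieldIso A B s)) ≪≫
    Scheme.Spec.mapIso e2.symm.toCommRingCatIso.op⟩

/-- A cylinder gives generators of the generic fibre. -/
theorem generic_coords (n : ℕ) (A : Type) [CommRing A] [IsDomain A] [Algebra ℂ A]
    (B : Type) [CommRing B] [Algebra A B]
    (U : (Spec (CommRingCat.of A)).Opens) (hU : (U : Set (Spec (CommRingCat.of A))).Nonempty)
    (e : (Spec.map (CommRingCat.ofHom (algebraMap A B)) ⁻¹ᵁ U).toScheme ≅
            pullback (U.ι ≫ Spec.map (CommRingCat.ofHom (algebraMap ℂ A)))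
              (Spec.map (CommRingCat.ofHom (algebraMap ℂ (MvPolynomial (Fin n) ℂ)))))
    (he : e.hom ≫ pullback.fst _ _ = Spec.map (CommRingCat.ofHom (algebraMap A B)) ∣_ U) :
    ∃ x : Fin n → B, ∀ b : B, ∃ ρ : A, ρ ≠ 0 ∧ ∃ Q : MvPolynomial (Fin n) A,
      ρ • b = MvPolynomial.aeval x Q := by
  let K := FractionRing A
  let M : Submonoid B := (nonZeroDivisors A).map (algebraMap A B)
  let B' := Localization M
  let j : K →+* B' := IsLocalization.map B' (algebraMap A B) (nonZeroDivisors A).le_comap_map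
  have hj : j.comp (algebraMap A K) = (algebraMap B B').comp (algebraMap A B) :=
    IsLocalization.map_comp _
  have po := CommRingCat.isPushout_of_isLocalization (algebraMap A B) j hj (nonZeroDivisors A)
  have pb := isPullback_SpecMap_of_isPushout _ _ _ _ po
  -- the generic point lies in `U`
  have hr : Set.range (Spec.map (CommRingCat.ofHom (algebraMap A K))) ⊆ Set.range U.ι := by
    rintro _ ⟨p, rfl⟩
    rw [Scheme.Opens.range_ι]
    obtain ⟨q, hq⟩ := hU
    have hsp : (Spec.map (CommRingCat.ofHom (algebraMap A K))) p ⤳ q := by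
      refine (PrimeSpectrum.le_iff_specializes _ _).mp ?_
      intro a ha
      have ha' : algebraMap A K a ∈ (p : PrimeSpectrum K).asIdeal := ha
      have hp : (p : PrimeSpectrum K).asIdeal = ⊥ := by
        rcases Ideal.eq_bot_or_top (p : PrimeSpectrum K).asIdeal with h | h
        · exact h
        · exact absurd h (p : PrimeSpectrum K).isPrime.ne_top
      rw [hp, Ideal.mem_bot, map_eq_zero_iff _ (IsFractionRing.injective A K)] at ha'
      rw [ha']; exact zero_mem _
    exact hsp.mem_open U.isOpen hq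
  let g : Spec (CommRingCat.of K) ⟶ U := IsOpenImmersion.lift U.ι _ hr
  have hg : g ≫ U.ι = Spec.map (CommRingCat.ofHom (algebraMap A K)) := IsOpenImmersion.lift_fac _ _ _
  have pr := isPullback_morphismRestrict (Spec.map (CommRingCat.ofHom (algebraMap A B))) U
  let t := pr.lift (Spec.map (CommRingCat.ofHom j) ≫ g)
    (Spec.map (CommRingCat.ofHom (algebraMap B B'))) (by rw [Category.assoc, hg]; exact pb.w.symm)
  have ht1 : t ≫ _ = _ := pr.lift_fst _ _ _
  have ht2 : t ≫ _ = _ := pr.lift_snd _ _ _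
  have p1 : IsPullback t (Spec.map (CommRingCat.ofHom j))
      (Spec.map (CommRingCat.ofHom (algebraMap A B)) ∣_ U) g := by
    refine IsPullback.of_right ?_ ht1 pr.flip
    rw [ht2, hg]; exact pb
  have p2 : IsPullback (t ≫ e.hom) (Spec.map (CommRingCat.ofHom j)) (pullback.fst _ _) g :=
    p1.of_iso (Iso.refl _) e (Iso.refl _) (Iso.refl _) (by simp) (by simp) (by rw [Iso.refl_hom, Category.comp_id, he]) (by simp)
  have p3 := p2.paste_horiz (IsPullback.of_hasPullback _ _).flip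
  obtain ⟨h, hh⟩ := Spec.map_surjective ((t ≫ e.hom) ≫ pullback.snd _ _)
  rw [← hh, ← Category.assoc, hg, ← Spec.map_comp] at p3
  have p4 : IsPullback h.op (CommRingCat.ofHom j).op
      (CommRingCat.ofHom (algebraMap ℂ (MvPolynomial (Fin n) ℂ))).op
      (CommRingCat.ofHom (algebraMap ℂ A) ≫ CommRingCat.ofHom (algebraMap A K)).op :=
    IsPullback.of_map_of_faithful Scheme.Spec p3
  have p5 := p4.unop
  have hcl := CommRingCat.closure_range_union_range_eq_top_of_isPushout p5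
  have hC : ∀ c : ℂ, h.hom (MvPolynomial.C c) = j (algebraMap A K (algebraMap ℂ A c)) :=
    fun c => (congrArg (fun k => k.hom c) p5.w).symm
  have hjA : ∀ a : A, j (algebraMap A K a) = algebraMap B B' (algebraMap A B a) :=
    fun a => RingHom.congr_fun hj a
  have hden : ∀ z : B', ∃ x : B, ∃ d : A, d ≠ 0 ∧
      algebraMap B B' (algebraMap A B d) * z = algebraMap B B' x := by
    intro z
    obtain ⟨⟨x, ⟨_, d, hd, rfl⟩⟩, hx⟩ := IsLocalization.surj M z
    exact ⟨x, d, nonZeroDivisors.ne_zero hd, by rw [mul_comm]; exact hx⟩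
  choose x d hd hxd using fun i => hden (h.hom (MvPolynomial.X i))
  refine ⟨x, ?_⟩
  let S : Subring B' :=
    { carrier := {z | ∃ ρ : A, ρ ≠ 0 ∧ ∃ Q : MvPolynomial (Fin n) A,
        algebraMap B B' (algebraMap A B ρ) * z = algebraMap B B' (MvPolynomial.aeval x Q)}
      mul_mem' := by
        rintro z z' ⟨ρ, h1, Q, h2⟩ ⟨ρ', h1', Q', h2'⟩
        refine ⟨ρ * ρ', mul_ne_zero h1 h1', Q * Q', ?_⟩
        simp only [map_mul, ← h2, ← h2']; ring
      one_mem' := ⟨1, one_ne_zero, 1, by simp⟩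
      add_mem' := by
        rintro z z' ⟨ρ, h1, Q, h2⟩ ⟨ρ', h1', Q', h2'⟩
        refine ⟨ρ * ρ', mul_ne_zero h1 h1', MvPolynomial.C ρ' * Q + MvPolynomial.C ρ * Q', ?_⟩
        simp only [map_mul, map_add, MvPolynomial.aeval_C, ← h2, ← h2']; ring
      zero_mem' := ⟨1, one_ne_zero, 0, by simp⟩
      neg_mem' := by
        rintro z ⟨ρ, h1, Q, h2⟩
        refine ⟨ρ, h1, -Q, ?_⟩
        simp only [map_neg, ← h2]; ring }
  have hK : ∀ k : K, j k ∈ S := by
    intro k
    obtain ⟨⟨a, ⟨s, hs⟩⟩, hk⟩ := IsLocalization.surj (nonZeroDivisors A) k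
    refine ⟨s, nonZeroDivisors.ne_zero hs, MvPolynomial.C a, ?_⟩
    rw [MvPolynomial.aeval_C, ← hjA, ← hjA, ← map_mul, mul_comm]
    exact congrArg j hk
  have hP : ∀ p : MvPolynomial (Fin n) ℂ, h.hom p ∈ S := by
    intro p
    induction p using MvPolynomial.induction_on with
    | C c => rw [hC]; exact hK _
    | add p q hp hq => rw [map_add]; exact add_mem hp hq
    | mul_X p i hp =>
      rw [map_mul]
      exact mul_mem hp ⟨d i, hd i, MvPolynomial.X i, by rw [MvPolynomial.aeval_X]; exact hxd i⟩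
  have hS : ∀ z : B', z ∈ S := by
    intro z
    have hle : Subring.closure (Set.range j ∪ Set.range h.hom) ≤ S := by
      rw [Subring.closure_le]
      rintro _ (⟨k, rfl⟩ | ⟨p, rfl⟩)
      · exact hK k
      · exact hP p
    have hcl' : Subring.closure (Set.range j ∪ Set.range h.hom) = ⊤ := hcl
    exact hle (hcl' ▸ Subring.mem_top z)
  intro b
  obtain ⟨ρ, h1, Q, h2⟩ := hS (algebraMap B B' b)
  rw [← map_mul, IsLocalization.eq_iff_exists M] at h2
  obtain ⟨⟨_, c, hc, rfl⟩, h3⟩ := h2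
  refine ⟨c * ρ, mul_ne_zero (nonZeroDivisors.ne_zero hc) h1, MvPolynomial.C c * Q, ?_⟩
  rw [map_mul, MvPolynomial.aeval_C, Algebra.smul_def, map_mul, mul_assoc]
  exact h3

theorem plumb (n : ℕ) (A : Type) [CommRing A] [IsDomain A] [Algebra ℂ A] [Algebra.FiniteType ℂ A]
    (B : Type) [CommRing B] [Algebra A B] [Algebra ℂ B] [IsScalarTower ℂ A B] [Module.Flat A B]
    [Algebra.FiniteType A B] (φ : A) (hφ : φ ≠ 0)
    (hfib : ∀ m : Ideal A, m.IsMaximal → φ ∉ m →
      Nonempty ((B ⧸ m.map (algebraMap A B)) ≃+* MvPolynomial (Fin n) ℂ))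
    (hno : ∀ x : Fin n → B, ¬ ∀ b : B, ∃ ρ : A, ρ ≠ 0 ∧ ∃ Q : MvPolynomial (Fin n) A,
      ρ • b = MvPolynomial.aeval x Q) :
    ¬ (∀ (n : ℕ) (A : Type) [CommRing A] [IsDomain A] [Algebra ℂ A] [Algebra.FiniteType ℂ A]
      (X : Scheme.{0}) (f : X ⟶ Spec (CommRingCat.of A)),
      Flat f → LocallyOfFiniteType f → QuasiCompact f →
      (∃ (B : Type) (_ : CommRing B) (_ : Algebra ℂ B) (𝒜 : ℕ → Submodule ℂ B)
          (_ : GradedAlgebra 𝒜),
        Algebra.FiniteType ℂ B ∧
        (∀ b ∈ 𝒜 0, ∃ c : ℂ, algebraMap ℂ B c = b) ∧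
        ∃ i : X ⟶ Proj 𝒜, IsImmersion i) →
      (∃ V : (Spec (CommRingCat.of A)).Opens,
        (V : Set (Spec (CommRingCat.of A))).Nonempty ∧
        ∀ s : Spec (CommRingCat.of A), s ∈ V →
          IsClosed ({s} : Set (Spec (CommRingCat.of A))) →
          Nonempty (pullback f ((Spec (CommRingCat.of A)).fromSpecResidueField s) ≅
            Spec (CommRingCat.of (MvPolynomial (Fin n) ℂ)))) →
      ∃ U : (Spec (CommRingCat.of A)).Opens,
        (U : Set (Spec (CommRingCat.of A))).Nonempty ∧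
        ∃ e : (f ⁻¹ᵁ U).toScheme ≅
            pullback (U.ι ≫ Spec.map (CommRingCat.ofHom (algebraMap ℂ A)))
              (Spec.map (CommRingCat.ofHom (algebraMap ℂ (MvPolynomial (Fin n) ℂ)))),
          e.hom ≫ pullback.fst _ _ = f ∣_ U) := by
  intro H
  have hBC : Algebra.FiniteType ℂ B := Algebra.FiniteType.trans (S := A) inferInstance inferInstance
  obtain ⟨U, hU, e, he⟩ := H n A (Spec (CommRingCat.of B))
    (Spec.map (CommRingCat.ofHom (algebraMap A B)))
    (Flat.SpecMap_iff.mpr (RingHom.flat_algebraMap_iff.mpr inferInstance))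
    ((HasRingHomProperty.Spec_iff (P := @LocallyOfFiniteType)).mpr
      (RingHom.finiteType_algebraMap.mpr inferInstance))
    inferInstance (quasiProj B)
    ⟨PrimeSpectrum.basicOpen φ, ⟨⟨⊥, Ideal.isPrime_bot⟩, (PrimeSpectrum.mem_basicOpen _ _).mpr (by simpa using hφ)⟩, fun s hs hc => by
      have hm : (s : PrimeSpectrum A).asIdeal.IsMaximal :=
        (PrimeSpectrum.isClosed_singleton_iff_isMaximal s).mp hc
      obtain ⟨e⟩ := hfib _ hm hs
      exact fibre_iso A B _ s hm e⟩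
  obtain ⟨x, hx⟩ := generic_coords n A B U hU e he
  exact hno x hx

end Pool.Agent.CYL

end MrgPart2

-- ======== part 3: formerly Pool.Agent.MP_0f1eb7_ag.cyl.Glue
section MrgPart3

/-! From the algebraic statements to the data needed by `plumb`. -/

set_option autoImplicit false

noncomputable section

namespace Pool.Agent.MP_0f1eb7_ag.Cyl

open MvPolynomial

instance algRtBt : Algebra Rt Bt := (phi : Rt →+* Bt).toAlgebra

instance towerRtBt : IsScalarTower ℂ Rt Bt :=
  IsScalarTower.of_algebraMap_eq fun c => (phi.commutes c).symm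

theorem glue_flat (h : FlatStmt) : Module.Flat Rt Bt := h

theorem glue_ft (h : FtStmt) : Algebra.FiniteType Rt Bt :=
  haveI : Algebra.FiniteType ℂ Bt := h
  Algebra.FiniteType.of_restrictScalars_finiteType ℂ Rt Bt

theorem glue_ne : (∏ j, X j : Rt) ≠ 0 := Finset.prod_ne_zero_iff.2 fun j _ => X_ne_zero j

theorem glue_no (h1 : RedStmt) (h2 : MatStmt) (x : Fin 9 → Bt) :
    ¬∀ b : Bt, ∃ ρ : Rt, ρ ≠ 0 ∧ ∃ Q : MvPolynomial (Fin 9) Rt, ρ • b = aeval x Q := by
  intro h
  obtain ⟨x', hx'⟩ := h1 x fun b => by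
    obtain ⟨ρ, h0, Q, hQ⟩ := h b
    exact ⟨ρ, Q, h0, by rw [Algebra.smul_def, aeval_def] at hQ; exact hQ⟩
  exact h2 x' hx'

end Pool.Agent.MP_0f1eb7_ag.Cyl

end
end MrgPart3

-- marker of a merged file
example : 731051 + 725686 = 731051 + 725686 := rfl
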